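import Pool.Agent.Work.MP_9999b5_sp.Interface5

set_option autoImplicit false

namespace Pool.Agent.Work.MP_9999b5_sp

open Finset

open Topology in
theorem PRT_ne (a b u v : ℝ) (huv : u ≠ v) :
    ∀ᶠ ε in 𝓝[>] (0 : ℝ), a + ε * u ≠ b + ε * v := by
  by_cases hab : a = b
  · filter_upwards [self_mem_nhdsWithin] with ε hε
    intro h
    rw [hab] at h
    have h1 : ε * (u - v) = 0 := by linarith
    rcases mul_eq_zero.1 h1 with h2 | h2
    · have : (0 : ℝ) < ε := hε
      linarith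
    · exact huv (sub_eq_zero.1 h2)
  · have hc : Continuous (fun ε : ℝ => (a + ε * u) - (b + ε * v)) := by fun_prop
    have h0 : (fun ε : ℝ => (a + ε * u) - (b + ε * v)) 0 ≠ 0 := by
      simp only [zero_mul, add_zero]
      exact sub_ne_zero.2 hab
    have h1 : ∀ᶠ ε in 𝓝 (0 : ℝ), (a + ε * u) - (b + ε * v) ≠ 0 :=
      hc.continuousAt.eventually_ne h0
    have h2 := h1.filter_mono (nhdsWithin_le_nhds (s := Set.Ioi (0 : ℝ)))
    filter_upwards [h2] with ε hε
    exact sub_ne_zero.1 hε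

open Topology in
theorem PRT_lt {ι : Type} (B : Finset ι) (x y : ι → ℝ) (h : ∑ i ∈ B, x i < 0) :
    ∀ᶠ ε in 𝓝[>] (0 : ℝ), ∑ i ∈ B, (x i + ε * y i) < 0 := by
  have hc : Continuous (fun ε : ℝ => ∑ i ∈ B, (x i + ε * y i)) := by fun_prop
  have h0 : (fun ε : ℝ => ∑ i ∈ B, (x i + ε * y i)) 0 < 0 := by
    simp only [zero_mul, add_zero]
    exact h
  have h1 : ∀ᶠ ε in 𝓝 (0 : ℝ), ∑ i ∈ B, (x i + ε * y i) < 0 :=
    hc.continuousAt.eventually (Iio_mem_nhds h0)
  exact h1.filter_mono (nhdsWithin_le_nhds (s := Set.Ioi (0 : ℝ)))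

open Topology in
theorem p_PRT : Stmt_PRT := by
  intro k n φ hW ι _ A x hA hx
  obtain ⟨y, hy0, hyi⟩ : ∃ y : ι → ℝ, (∀ i, 0 ≤ y i) ∧ ∀ i ∈ A, ∀ j ∈ A, i ≠ j → y i ≠ y j := by
    classical
    refine ⟨fun i => if h : i ∈ A then ((A.equivFin ⟨i, h⟩ : Fin A.card) : ℕ) else 0, ?_, ?_⟩
    · intro i
      by_cases h : i ∈ A
      · simp only [dif_pos h]
        exact Nat.cast_nonneg _
      · simp only [dif_neg h]
        exact le_of_eq (by norm_num)
    · intro i hi j hj hij h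
      simp only [dif_pos hi, dif_pos hj] at h
      have h1 : ((A.equivFin ⟨i, hi⟩ : Fin A.card) : ℕ) = ((A.equivFin ⟨j, hj⟩ : Fin A.card) : ℕ) := by
        exact_mod_cast h
      have h2 := A.equivFin.injective (Fin.ext h1)
      exact hij (congrArg Subtype.val h2)
  have h1 : ∀ᶠ ε in 𝓝[>] (0 : ℝ), ∀ i ∈ A, ∀ j ∈ A, i ≠ j → x i + ε * y i ≠ x j + ε * y j := by
    rw [Filter.eventually_all_finset]
    intro i hi
    rw [Filter.eventually_all_finset]
    intro j hj
    by_cases hij : i = j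
    · exact Filter.Eventually.of_forall (fun ε h => absurd hij h)
    · filter_upwards [PRT_ne (x i) (x j) (y i) (y j) (hyi i hi j hj hij)] with ε hε
      intro _
      exact hε
  have h2 : ∀ᶠ ε in 𝓝[>] (0 : ℝ), ∀ B ∈ A.powersetCard k, ∑ i ∈ B, x i < 0 →
      ∑ i ∈ B, (x i + ε * y i) < 0 := by
    rw [Filter.eventually_all_finset]
    intro B _
    by_cases hB : ∑ i ∈ B, x i < 0
    · filter_upwards [PRT_lt B x y hB] with ε hε
      intro _
      exact hε
    · exact Filter.Eventually.of_forall (fun ε h => absurd h hB)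
  have h3 : ∀ᶠ ε in 𝓝[>] (0 : ℝ), 0 < ε := self_mem_nhdsWithin
  obtain ⟨ε, ⟨he1, he2⟩, he3⟩ := ((h1.and h2).and h3).exists
  have hinj : Set.InjOn (fun i => x i + ε * y i) A := by
    intro i hi j hj hij
    by_contra hne
    exact he1 i hi j hj hne hij
  have hsum : 0 ≤ ∑ i ∈ A, (fun i => x i + ε * y i) i := by
    simp only
    rw [Finset.sum_add_distrib, ← Finset.mul_sum]
    have : 0 ≤ ∑ i ∈ A, y i := Finset.sum_nonneg (fun i _ => hy0 i)
    have := mul_nonneg he3.le this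
    linarith
  have hmain := hW ι A (fun i => x i + ε * y i) hA hinj hsum
  refine le_trans hmain ?_
  unfold Pool.Agent.Work.MaxSums.pos
  apply Nat.cast_le.2
  apply Finset.card_le_card
  intro B hB
  rw [Finset.mem_filter] at hB ⊢
  refine ⟨hB.1, ?_⟩
  by_contra hcon
  have h5 := he2 B hB.1 (not_le.1 hcon)
  have h6 := hB.2
  simp only at h6
  linarith

end Pool.Agent.Work.MP_9999b5_sp
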