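import Pool.Agent.Work.MP_9999b5_sp.Interface5

/-!
SHF (MP_9999b5_co): shift of one element.
-/

set_option autoImplicit false

namespace Pool.Agent.Work.MP_9999b5_sp

open Finset

theorem SHF_count {ι : Type} (A : Finset ι) (F : Finset (Finset ι))
    (R : ι → Finset ι → Prop) [∀ i K, Decidable (R i K)] (m : ℕ)
    (h : ∀ K ∈ F, (A.filter (fun z => R z K)).card = m) :
    ∑ z ∈ A, (F.filter (fun K => R z K)).card = m * F.card := by
  have h1 : ∑ z ∈ A, (F.filter (fun K => R z K)).card =
      ∑ z ∈ A, ∑ K ∈ F, if R z K then 1 else 0 := by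
    apply Finset.sum_congr rfl
    intro z _
    rw [Finset.card_filter]
  have h2 : ∀ K ∈ F, ∑ z ∈ A, (if R z K then 1 else 0) = m := by
    intro K hK
    rw [← Finset.card_filter]
    exact h K hK
  rw [h1, Finset.sum_comm, Finset.sum_congr rfl h2, Finset.sum_const, smul_eq_mul, mul_comm]

/-- a small number -/
theorem SHF_small {α : Type} (S : Finset α) (f : α → ℝ) (u : ℝ) (k : ℕ) :
    ∃ η : ℝ, 0 < η ∧ ∀ K ∈ S, f K ≤ u + k * η → f K ≤ u := by
  classical
  rcases (S.filter (fun K => u < f K)).eq_empty_or_nonempty with h | h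
  · refine ⟨1, one_pos, fun K hK _ => ?_⟩
    by_contra hc
    rw [not_le] at hc
    have : K ∈ S.filter (fun K => u < f K) := Finset.mem_filter.2 ⟨hK, hc⟩
    rw [h] at this
    exact absurd this (Finset.notMem_empty _)
  · obtain ⟨K0, hK0, hmin⟩ := Finset.exists_min_image _ f h
    have h0 := (Finset.mem_filter.1 hK0).2
    have hk : (0 : ℝ) < (k : ℝ) + 1 := by positivity
    refine ⟨(f K0 - u) / (k + 1), div_pos (by linarith) hk, fun K hK hle => ?_⟩
    by_contra hc
    rw [not_le] at hc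
    have h1 := hmin K (Finset.mem_filter.2 ⟨hK, hc⟩)
    have h2 : (k : ℝ) * ((f K0 - u) / (k + 1)) < f K0 - u := by
      rw [← mul_div_assoc, div_lt_iff₀ hk]
      nlinarith
    linarith

theorem p_SHF : Stmt_SHF := by
  intro k T φ hT hWP ι _ A x hA hsum
  set u := ∑ i ∈ A, x i with hu
  obtain ⟨η, hη, hsm⟩ := SHF_small (A.powersetCard T) (fun K => ∑ i ∈ K, x i) u k
  set F1 := (A.powersetCard T).filter (fun K => ∑ i ∈ K, x i < 0) with hF1
  set F2 := (A.powersetCard T).filter (fun K => ∑ i ∈ K, x i ≤ u) with hF2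
  have key : ∀ z ∈ A, φ * ((k + T).choose T : ℝ) ≤
      (((F1.filter (fun K => z ∉ K)).card + (F2.filter (fun K => z ∈ K)).card : ℕ) : ℝ) := by
    intro z hz
    have hyK : ∀ K : Finset ι, ∑ i ∈ K, (-x i - η + (if i = z then u + (k + T) * η else 0)) =
        -(∑ i ∈ K, x i) - K.card * η + (if z ∈ K then u + (k + T) * η else 0) := by
      intro K
      rw [Finset.sum_add_distrib, Finset.sum_sub_distrib, Finset.sum_neg_distrib,
        Finset.sum_const, nsmul_eq_mul, Finset.sum_ite_eq']
    have h1 := hWP ι A (fun i => -x i - η + (if i = z then u + (k + T) * η else 0)) hA (by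
      rw [hyK A, if_pos hz, hA, ← hu]
      push_cast
      linarith)
    refine h1.trans ?_
    apply Nat.cast_le.2
    refine (Finset.card_le_card ?_).trans (Finset.card_union_le _ _)
    intro K hK
    obtain ⟨hK1, hK2⟩ := Finset.mem_filter.1 hK
    obtain ⟨-, hK3⟩ := Finset.mem_powersetCard.1 hK1
    rw [hyK K, hK3] at hK2
    have hT1 : (1 : ℝ) ≤ (T : ℝ) := by exact_mod_cast hT
    rw [Finset.mem_union]
    by_cases hzK : z ∈ K
    · right
      rw [if_pos hzK] at hK2
      have h2 : ∑ i ∈ K, x i ≤ u := by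
        apply hsm K hK1
        nlinarith
      exact Finset.mem_filter.2 ⟨Finset.mem_filter.2 ⟨hK1, h2⟩, hzK⟩
    · left
      rw [if_neg hzK] at hK2
      have h2 : ∑ i ∈ K, x i < 0 := by nlinarith
      exact Finset.mem_filter.2 ⟨Finset.mem_filter.2 ⟨hK1, h2⟩, hzK⟩
  have hs := Finset.sum_le_sum key
  rw [Finset.sum_const, nsmul_eq_mul, hA, ← Nat.cast_sum, Finset.sum_add_distrib] at hs
  have c1 : ∑ z ∈ A, (F1.filter (fun K => z ∉ K)).card = k * F1.card := by
    apply SHF_count A F1 (fun z K => z ∉ K) k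
    intro K hK
    obtain ⟨hK1, hK2⟩ := Finset.mem_powersetCard.1 (Finset.mem_filter.1 hK).1
    have : A.filter (fun z => z ∉ K) = A \ K := by
      ext i
      rw [Finset.mem_filter, Finset.mem_sdiff]
    rw [this, Finset.card_sdiff_of_subset hK1, hA, hK2]
    omega
  have c2 : ∑ z ∈ A, (F2.filter (fun K => z ∈ K)).card = T * F2.card := by
    apply SHF_count A F2 (fun z K => z ∈ K) T
    intro K hK
    obtain ⟨hK1, hK2⟩ := Finset.mem_powersetCard.1 (Finset.mem_filter.1 hK).1
    have : A.filter (fun z => z ∈ K) = K := by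
      ext i
      rw [Finset.mem_filter]
      exact ⟨fun h => h.2, fun h => ⟨hK1 h, h⟩⟩
    rw [this, hK2]
  rw [c1, c2] at hs
  push_cast at hs
  linarith

end Pool.Agent.Work.MP_9999b5_sp
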