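import Pool.Agent.Work.MP_9999b5_sp.Interface5

/-!
ZE2 (MP_9999b5_co): the pairs with a first set of sum zero are few.
-/

set_option autoImplicit false

namespace Pool.Agent.Work.MP_9999b5_sp

open Finset

theorem ZE2_cnt {ι : Type} [DecidableEq ι] (C : Finset ι) (k T : ℕ) (hC : C.card = 2 * k + T)
    (Q : Finset ι → Prop) [DecidablePred Q] :
    ((MP_9999b5_mr.prs C k).filter (fun p => Q p.1)).card =
      ((C.powersetCard k).filter Q).card * (k + T).choose k := by
  unfold MP_9999b5_mr.prs
  rw [filter_filter, card_filter, sum_product, card_filter, sum_mul]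
  apply sum_congr rfl
  intro B hB
  obtain ⟨hB1, hB2⟩ := mem_powersetCard.1 hB
  by_cases hQ : Q B
  · rw [if_pos hQ, one_mul]
    have h1 : ∀ B' ∈ C.powersetCard k, (if Disjoint B B' ∧ Q B then 1 else 0) =
        if Disjoint B B' then 1 else 0 := by
      intro B' _
      by_cases hd : Disjoint B B'
      · rw [if_pos ⟨hd, hQ⟩, if_pos hd]
      · rw [if_neg (fun h => hd h.1), if_neg hd]
    rw [sum_congr rfl h1, ← card_filter]
    have h2 : (C.powersetCard k).filter (fun B' => Disjoint B B') = (C \ B).powersetCard k := by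
      ext B'
      rw [mem_filter, mem_powersetCard, mem_powersetCard, subset_sdiff, disjoint_comm]
      tauto
    rw [h2, card_powersetCard, card_sdiff_of_subset hB1, hC, hB2]
    congr 1
    omega
  · rw [if_neg hQ, zero_mul]
    apply sum_eq_zero
    intro B' _
    rw [if_neg (fun h => hQ h.2)]

theorem ZE2_inj {ι : Type} [DecidableEq ι] (C : Finset ι) (x : ι → ℝ) (k : ℕ)
    (hx : Set.InjOn x C) :
    k * ((C.powersetCard k).filter (fun B => ∑ i ∈ B, x i = 0)).card ≤
      C.card.choose (k - 1) := by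
  have h1 : (((C.powersetCard k).filter (fun B => ∑ i ∈ B, x i = 0)).sigma
      (fun B => B)).card = k * ((C.powersetCard k).filter (fun B => ∑ i ∈ B, x i = 0)).card := by
    rw [card_sigma, mul_comm, ← smul_eq_mul, ← sum_const]
    apply sum_congr rfl
    intro B hB
    exact (mem_powersetCard.1 (mem_filter.1 hB).1).2
  rw [← h1, ← card_powersetCard]
  refine card_le_card_of_injOn (fun p => p.1.erase p.2) ?_ ?_
  · rintro ⟨B, i⟩ hp
    obtain ⟨h2, h3⟩ := mem_sigma.1 (mem_coe.1 hp)
    obtain ⟨h4, -⟩ := mem_filter.1 h2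
    obtain ⟨h5, h6⟩ := mem_powersetCard.1 h4
    apply mem_coe.2
    apply mem_powersetCard.2
    refine ⟨(erase_subset _ _).trans h5, ?_⟩
    change (B.erase i).card = k - 1
    rw [card_erase_of_mem h3, h6]
  · rintro ⟨B, i⟩ hp ⟨B', i'⟩ hp' h
    obtain ⟨h2, h3⟩ := mem_sigma.1 (mem_coe.1 hp)
    obtain ⟨h4, h5⟩ := mem_filter.1 h2
    obtain ⟨h2', h3'⟩ := mem_sigma.1 (mem_coe.1 hp')
    obtain ⟨h4', h5'⟩ := mem_filter.1 h2'
    have hs := (mem_powersetCard.1 h4).1
    have hs' := (mem_powersetCard.1 h4').1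
    change B.erase i = B'.erase i' at h
    have e1 : ∑ j ∈ B.erase i, x j + x i = 0 := by
      rw [sum_erase_add B x h3]
      exact h5
    have e2 : ∑ j ∈ B'.erase i', x j + x i' = 0 := by
      rw [sum_erase_add B' x h3']
      exact h5'
    rw [h] at e1
    have e3 : x i = x i' := by linarith
    have e4 : i = i' := hx (hs h3) (hs' h3') e3
    subst e4
    have e5 : B = B' := by
      have a1 : insert i (B.erase i) = B := insert_erase h3
      have a2 : insert i (B'.erase i) = B' := insert_erase h3'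
      rw [← a1, ← a2, h]
    subst e5
    rfl

theorem p_ZE2 : Stmt_ZE2 := by
  intro k T hk ι _ C x hC hx
  have h1 : MP_9999b5_mr.bad C x k ≤ bn C x k +
      ((MP_9999b5_mr.prs C k).filter (fun p => ∑ i ∈ p.1, x i = 0)).card := by
    unfold MP_9999b5_mr.bad bn
    rw [← card_union_add_card_inter]
    refine le_trans (card_le_card ?_) (Nat.le_add_right _ _)
    intro p hp
    rw [mem_filter] at hp
    rw [mem_union, mem_filter, mem_filter]
    rcases lt_or_eq_of_le hp.2.1 with h | h
    · exact Or.inl ⟨hp.1, h, hp.2.2⟩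
    · exact Or.inr ⟨hp.1, h⟩
  rw [ZE2_cnt C k T hC (fun B => ∑ i ∈ B, x i = 0)] at h1
  have h2 : (MP_9999b5_mr.prs C k).card = C.card.choose k * (k + T).choose k := by
    have h := ZE2_cnt C k T hC (fun _ => True)
    rw [filter_true_of_mem (fun _ _ => trivial), filter_true_of_mem (fun _ _ => trivial),
      card_powersetCard] at h
    exact h
  have h3 := ZE2_inj C x k hx
  obtain ⟨z, hz⟩ : ∃ z, z = ((C.powersetCard k).filter (fun B => ∑ i ∈ B, x i = 0)).card :=
    ⟨_, rfl⟩
  rw [← hz] at h1 h3
  have h4 : (k + T + 1) * C.card.choose (k - 1) = k * C.card.choose k := by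
    obtain ⟨j, hj⟩ : ∃ j, k = j + 1 := ⟨k - 1, by omega⟩
    have h := Nat.choose_succ_right_eq C.card j
    have e1 : C.card - j = k + T + 1 := by omega
    rw [e1, ← hj] at h
    have e2 : k - 1 = j := by omega
    rw [e2]
    rw [mul_comm (k + T + 1), ← h, mul_comm]
  have h5 : (k + T + 1) * z ≤ C.card.choose k := by
    apply Nat.le_of_mul_le_mul_left _ (show 0 < k by omega)
    calc k * ((k + T + 1) * z) = (k + T + 1) * (k * z) := by ring
      _ ≤ (k + T + 1) * C.card.choose (k - 1) := Nat.mul_le_mul_left _ h3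
      _ = k * C.card.choose k := h4
  rw [h2]
  calc (k + T + 1) * MP_9999b5_mr.bad C x k
      ≤ (k + T + 1) * (bn C x k + z * (k + T).choose k) := Nat.mul_le_mul_left _ h1
    _ = (k + T + 1) * bn C x k + ((k + T + 1) * z) * (k + T).choose k := by ring
    _ ≤ (k + T + 1) * bn C x k + C.card.choose k * (k + T).choose k :=
        Nat.add_le_add_left (Nat.mul_le_mul_right _ h5) _

end Pool.Agent.Work.MP_9999b5_sp
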