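import Pool.Agent.Work.MP_9999b5_sp.Interface

/-!
Block ADJ.
-/

set_option autoImplicit false

namespace Pool.Agent.Work.MP_9999b5_sp

open Finset

/-- the down-sum is adjoint to the up-sum -/
theorem p_ADJ : Stmt_ADJ := by
  intro ι _ C a g f
  have h1 : ∀ A ∈ C.powersetCard a,
      (∑ B ∈ (C.powersetCard (a + 1)).filter (fun B => A ⊆ B), g B) * f A =
        ∑ B ∈ (C.powersetCard (a + 1)).filter (fun B => A ⊆ B), g B * f A := by
    intro A _
    rw [sum_mul]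
  rw [sum_congr rfl h1]
  simp only [mul_sum]
  refine sum_comm' ?_
  intro A B
  simp only [mem_filter, mem_powersetCard]
  constructor
  · rintro ⟨⟨_, hA⟩, ⟨hB, hBc⟩, hAB⟩
    exact ⟨⟨hAB, hA⟩, hB, hBc⟩
  · rintro ⟨⟨hAB, hA⟩, hB, hBc⟩
    exact ⟨⟨hAB.trans hB, hA⟩, ⟨hB, hBc⟩, hAB⟩

end Pool.Agent.Work.MP_9999b5_sp
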