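import Pool.Agent.Work.MP_9999b5_sp.Interface

set_option autoImplicit false

namespace Pool.Agent.Work.MP_9999b5_sp

open Finset

theorem ALP_sum {ι : Type} [DecidableEq ι] (U B : Finset ι) (x : ι → ℝ) (hB : B ⊆ U) :
    ∑ i ∈ U \ B, x i + ∑ i ∈ B, x i = ∑ i ∈ U, x i := sum_sdiff hB

theorem ALP_card {ι : Type} [DecidableEq ι] (U : Finset ι) (x : ι → ℝ) (k : ℕ)
    (hU : U.card = 2 * k) :
    ((U.powersetCard k).filter (fun B => 0 < ∑ i ∈ U \ B, x i)).card = MaxSums.pos x U k := by
  unfold MaxSums.pos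
  refine card_nbij' (fun B => U \ B) (fun B => U \ B) ?_ ?_ ?_ ?_
  · intro B hB
    simp only [coe_filter, mem_powersetCard, Set.mem_ofPred_eq] at hB ⊢
    refine ⟨⟨sdiff_subset, ?_⟩, hB.2⟩
    rw [card_sdiff_of_subset hB.1.1, hU, hB.1.2]
    omega
  · intro B hB
    simp only [coe_filter, mem_powersetCard, Set.mem_ofPred_eq] at hB ⊢
    refine ⟨⟨sdiff_subset, ?_⟩, ?_⟩
    · rw [card_sdiff_of_subset hB.1.1, hU, hB.1.2]
      omega
    · rw [Finset.sdiff_sdiff_eq_self hB.1.1]
      exact hB.2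
  · intro B hB
    simp only [coe_filter, mem_powersetCard, Set.mem_ofPred_eq] at hB
    exact Finset.sdiff_sdiff_eq_self hB.1.1
  · intro B hB
    simp only [coe_filter, mem_powersetCard, Set.mem_ofPred_eq] at hB
    exact Finset.sdiff_sdiff_eq_self hB.1.1

theorem p_ALP : Stmt_ALP := by
  intro ι _ U x k hU
  constructor
  · intro hx
    have h1 : MP_9999b5_mr.al x k U = ((U.powersetCard k).filter (fun B =>
        ¬ (0 < ∑ i ∈ B, x i ∨ 0 < ∑ i ∈ U \ B, x i))).card := by
      unfold MP_9999b5_mr.al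
      congr 1
      apply filter_congr
      intro B _
      rw [not_or, not_lt, not_lt]
    have h2 : ((U.powersetCard k).filter (fun B =>
        (0 < ∑ i ∈ B, x i ∨ 0 < ∑ i ∈ U \ B, x i))).card = 2 * MaxSums.pos x U k := by
      rw [filter_or, card_union_of_disjoint, ALP_card U x k hU]
      · unfold MaxSums.pos
        ring
      · rw [disjoint_filter]
        intro B hB h3 h4
        have h5 := ALP_sum U B x (mem_powersetCard.1 hB).1
        linarith
    have h3 := card_filter_add_card_filter_not (s := U.powersetCard k) (fun B =>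
        (0 < ∑ i ∈ B, x i ∨ 0 < ∑ i ∈ U \ B, x i))
    rw [card_powersetCard, hU] at h3
    rw [h1, ← h2, ← h3]
    ring
  · intro hx
    unfold MP_9999b5_mr.al
    rw [card_eq_zero, filter_eq_empty_iff]
    rintro B hB ⟨h1, h2⟩
    have h5 := ALP_sum U B x (mem_powersetCard.1 hB).1
    linarith

end Pool.Agent.Work.MP_9999b5_sp
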