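import Pool.Agent.Work.MP_9999b5_sp.Interface2

/-!
MP_9999b5_co, block BSC: the real inequality of the two-group Bessel argument.
-/

set_option autoImplicit false

namespace Pool.Agent.Work.MP_9999b5_sp

open Finset

theorem BSC_key {t w q r : ℝ} (ht : 0 ≤ t) (hq : 0 ≤ q) (hqw : q ≤ w)
    (hw : w < 1) (hr : 0 ≤ r)
    (h : (1 + t) * (q * (1 - w) + w * r) ^ 2 ≤ t * (w * (1 - w) * (1 - (q - r) ^ 2))) :
    (1 + t) * q ^ 2 ≤ w * (t + q ^ 2) := by
  have hw0 : 0 ≤ w := le_trans hq hqw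
  have h1 : 0 < 1 - w := by linarith
  have h2 : (1 + t) * ((1 - w) * q ^ 2 + w * r ^ 2) ≤ w * (1 - w) * (t + (q - r) ^ 2) := by
    nlinarith [h]
  have h3 : w * (1 - w) * (t + (q - r) ^ 2) - (1 + t) * (w * r ^ 2) ≤
      w * (1 - w) * (t + q ^ 2) := by
    have e : w * (1 - w) * (t + q ^ 2) -
        (w * (1 - w) * (t + (q - r) ^ 2) - (1 + t) * (w * r ^ 2)) =
        w * (w * r ^ 2 + t * r ^ 2 + 2 * ((1 - w) * (q * r))) := by ring
    have e2 : 0 ≤ w * (w * r ^ 2 + t * r ^ 2 + 2 * ((1 - w) * (q * r))) := by positivity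
    linarith
  have h4 : (1 - w) * ((1 + t) * q ^ 2) ≤ (1 - w) * (w * (t + q ^ 2)) := by nlinarith [h2, h3]
  exact le_of_mul_le_mul_left h4 h1

theorem p_BSC : Stmt_BSC := by
  intro t w q r ht ht1 hq hqw hw hr hrw h2q h
  by_contra hc
  rw [not_le] at hc
  rcases le_or_gt q t with hqt | hqt
  · have h1 : 0 ≤ (1 - t) * (t - q) := mul_nonneg (by linarith) (by linarith)
    nlinarith [mul_le_mul_of_nonneg_left hqw (by linarith : (0 : ℝ) ≤ 1 + t)]
  · rcases eq_or_lt_of_le hw with hw1 | hw1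
    · rw [hw1] at hc
      nlinarith
    · have h1 := BSC_key ht hq hqw hw1 hr h
      have hpos : 0 < t + q ^ 2 := by
        have : 0 < q := lt_of_le_of_lt ht hqt
        positivity
      have h3 : (1 + t) * ((1 + t) * q ^ 2) ≤ (1 + t) * (w * (t + q ^ 2)) :=
        mul_le_mul_of_nonneg_left h1 (by linarith)
      have h4 : (1 + t) * w * (t + q ^ 2) < (2 * q - t * (1 - t)) * (t + q ^ 2) :=
        mul_lt_mul_of_pos_right hc hpos
      have h5 : 0 ≤ (q - t) ^ 2 * (1 - t - 2 * q) :=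
        mul_nonneg (sq_nonneg _) (by linarith)
      nlinarith [h3, h4, h5]

end Pool.Agent.Work.MP_9999b5_sp
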