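import Pool.Agent.Work.MP_9999b5_sp.Interface

/-!
Block COV (helper88): the covariance of a family of `2k`-sets and a family of `k`-sets.
-/

set_option autoImplicit false

namespace Pool.Agent.Work.MP_9999b5_sp

open Finset

theorem COV_ind {α : Type} [DecidableEq α] (L F : Finset α) (hF : F ⊆ L) (v : α → ℝ) :
    ∑ x ∈ L, (if x ∈ F then (1 : ℝ) else 0) * v x = ∑ x ∈ F, v x := by
  simp only [ite_mul, one_mul, zero_mul]
  rw [sum_ite_mem, inter_eq_right.2 hF]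

theorem COV_var {α : Type} [DecidableEq α] (L F : Finset α) (φ : ℝ) (hF : F ⊆ L)
    (h : (F.card : ℝ) = φ * L.card) :
    ∑ x ∈ L, ((if x ∈ F then (1 : ℝ) else 0) - φ) = 0 ∧
      ∑ x ∈ L, ((if x ∈ F then (1 : ℝ) else 0) - φ) ^ 2 = L.card * (φ * (1 - φ)) := by
  have h1 := COV_ind L F hF (fun _ => 1)
  simp only [mul_one, sum_const, nsmul_eq_mul] at h1
  constructor
  · rw [sum_sub_distrib, h1, sum_const, nsmul_eq_mul, h]
    ring
  · have h2 : ∀ x ∈ L, ((if x ∈ F then (1 : ℝ) else 0) - φ) ^ 2 =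
        (1 - 2 * φ) * (if x ∈ F then (1 : ℝ) else 0) + φ ^ 2 := by
      intro x _
      split_ifs <;> ring
    rw [sum_congr rfl h2, sum_add_distrib, ← mul_sum, h1, sum_const, nsmul_eq_mul, h]
    ring

theorem COV_frac {α : Type} (L F : Finset α) (hF : F ⊆ L) (hL : 0 < L.card) :
    ∃ φ : ℝ, 0 ≤ φ ∧ φ ≤ 1 ∧ (F.card : ℝ) = φ * L.card := by
  have h1 : (0 : ℝ) < L.card := by exact_mod_cast hL
  refine ⟨F.card / L.card, by positivity, ?_, ?_⟩
  · rw [div_le_one h1]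
    exact_mod_cast card_le_card hF
  · field_simp

/-- the binomial coefficients -/
theorem COV_bin (k T : ℕ) (hk : 1 ≤ k) :
    2 * (2 * k - 1).choose (k - 1) = (2 * k).choose k ∧
    (k + T) * ((2 * k + T - k - 1).choose (2 * k - k) * (2 * k + T).choose k) =
      T * ((2 * k + T).choose (2 * k) * (2 * k).choose k) := by
  obtain ⟨j, rfl⟩ : ∃ j, k = j + 1 := ⟨k - 1, by omega⟩
  constructor
  · have e1 : 2 * (j + 1) - 1 = 2 * j + 1 := by omega
    have e2 : 2 * (j + 1) = 2 * j + 1 + 1 := by ring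
    have e3 : j + 1 - 1 = j := rfl
    rw [e1, e2, e3, Nat.choose_succ_succ (2 * j + 1) j]
    have h1 : (2 * j + 1).choose (j + 1) = (2 * j + 1).choose j := by
      rw [← Nat.choose_symm_half j]
    rw [h1]
    ring
  · have e1 : 2 * (j + 1) + T - (j + 1) - 1 = j + T := by omega
    have e2 : 2 * (j + 1) - (j + 1) = j + 1 := by omega
    rw [e1, e2]
    have h1 : (j + 1 + T) * (j + T).choose (j + 1) = T * (j + 1 + T).choose (j + 1) := by
      rcases Nat.eq_zero_or_pos T with hT | hT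
      · subst hT
        rw [Nat.choose_eq_zero_of_lt (by omega)]
        ring
      · obtain ⟨s, rfl⟩ : ∃ s, T = s + 1 := ⟨T - 1, by omega⟩
        have h2 := Nat.choose_mul_succ_eq (j + (s + 1)) (j + 1)
        have e3 : j + 1 + (s + 1) = j + (s + 1) + 1 := by ring
        have e4 : j + (s + 1) + 1 - (j + 1) = s + 1 := by omega
        rw [e4] at h2
        rw [e3]
        linarith
    have h3 : (2 * (j + 1) + T).choose (2 * (j + 1)) * (2 * (j + 1)).choose (j + 1) =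
        (2 * (j + 1) + T).choose (j + 1) * (j + 1 + T).choose (j + 1) := by
      have h4 := Nat.choose_mul (n := 2 * (j + 1) + T) (k := 2 * (j + 1)) (s := j + 1)
        (by omega)
      rw [h4]
      congr 2 <;> omega
    rw [h3]
    calc (j + 1 + T) * ((j + T).choose (j + 1) * (2 * (j + 1) + T).choose (j + 1)) =
        ((j + 1 + T) * (j + T).choose (j + 1)) * (2 * (j + 1) + T).choose (j + 1) := by ring
      _ = T * (j + 1 + T).choose (j + 1) * (2 * (j + 1) + T).choose (j + 1) := by rw [h1]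
      _ = _ := by ring

theorem p_COV (hSUB : Stmt_SUB) (hTEL : Stmt_TEL) : Stmt_COV := by
  intro ι _ C k T H P hk hC hH hP
  have hc1 : (C.powersetCard k).card = (2 * k + T).choose k := by rw [card_powersetCard, hC]
  have hc2 : (C.powersetCard (2 * k)).card = (2 * k + T).choose (2 * k) := by
    rw [card_powersetCard, hC]
  have hN1 : 0 < (2 * k + T).choose k := Nat.choose_pos (by omega)
  have hN2 : 0 < (2 * k + T).choose (2 * k) := Nat.choose_pos (by omega)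
  have hX : 0 < (2 * k).choose k := Nat.choose_pos (by omega)
  obtain ⟨p, hp0, hp1, hp⟩ := COV_frac _ P hP (by rw [hc1]; exact hN1)
  obtain ⟨q, hq0, hq1, hq⟩ := COV_frac _ H hH (by rw [hc2]; exact hN2)
  obtain ⟨hg0, hg2⟩ := COV_var _ P p hP hp
  obtain ⟨-, hh2⟩ := COV_var _ H q hH hq
  rw [hc1] at hp hg2
  rw [hc2] at hq hh2
  obtain ⟨hb1, hb2⟩ := COV_bin k T hk
  obtain ⟨g, hg⟩ : ∃ g : Finset ι → ℝ, g = fun B => (if B ∈ P then (1 : ℝ) else 0) - p :=
    ⟨_, rfl⟩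
  have hg0' : ∑ B ∈ C.powersetCard k, g B = 0 := by rw [hg]; exact hg0
  have hg2' : ∑ B ∈ C.powersetCard k, g B ^ 2 =
      ((2 * k + T).choose k : ℝ) * (p * (1 - p)) := by rw [hg]; exact hg2
  obtain ⟨V, hV⟩ : ∃ V : Finset ι → ℝ, V = fun W => ∑ B ∈ W.powersetCard k, g B := ⟨_, rfl⟩
  have hV0 : ∑ W ∈ C.powersetCard (2 * k), V W = 0 := by
    rw [hV, hSUB ι C k (2 * k) g (by omega), hg0', mul_zero]
  have hV2 : ∑ W ∈ C.powersetCard (2 * k), V W ^ 2 ≤
      ((2 * k - 1).choose (k - 1) : ℝ) * ((2 * k + T - k - 1).choose (2 * k - k) : ℝ) *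
        (((2 * k + T).choose k : ℝ) * (p * (1 - p))) := by
    have h1 := hTEL ι C k (2 * k) g hk (by omega) (by omega) hg0'
    rw [hg2', hC] at h1
    rw [hV]
    exact h1
  have hVW : ∀ W ∈ C.powersetCard (2 * k), V W =
      ((P.filter (fun B => B ⊆ W)).card : ℝ) - p * ((2 * k).choose k : ℝ) := by
    intro W hW
    have hWc : W.card = 2 * k := (mem_powersetCard.1 hW).2
    have h1 : (W.powersetCard k) ∩ P = P.filter (fun B => B ⊆ W) := by
      ext B
      simp only [mem_inter, mem_powersetCard, mem_filter]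
      constructor
      · rintro ⟨⟨h1, -⟩, h2⟩
        exact ⟨h2, h1⟩
      · rintro ⟨h1, h2⟩
        exact ⟨⟨h2, (mem_powersetCard.1 (hP h1)).2⟩, h1⟩
    rw [hV, hg]
    simp only
    rw [sum_sub_distrib, sum_ite_mem, h1, sum_const, sum_const, card_powersetCard, hWc,
      nsmul_eq_mul, nsmul_eq_mul, mul_one]
    ring
  obtain ⟨S, hS⟩ : ∃ S : ℝ, S = ∑ W ∈ H, ((P.filter (fun B => B ⊆ W)).card : ℝ) := ⟨_, rfl⟩
  obtain ⟨R, hR⟩ : ∃ R : ℝ, R = ∑ W ∈ H, V W := ⟨_, rfl⟩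
  have hRS : R = S - q * p * (((2 * k).choose k : ℝ) * ((2 * k + T).choose (2 * k) : ℝ)) := by
    rw [hR, hS, sum_congr rfl (fun W hW => hVW W (hH hW)), sum_sub_distrib, sum_const,
      nsmul_eq_mul, hq]
    ring
  have hRV : R = ∑ W ∈ C.powersetCard (2 * k), ((if W ∈ H then (1 : ℝ) else 0) - q) * V W := by
    simp only [sub_mul]
    rw [sum_sub_distrib, COV_ind _ H hH V, ← mul_sum, hV0, mul_zero, sub_zero, hR]
  have hR2 : R ^ 2 ≤ (((2 * k + T).choose (2 * k) : ℝ) * (q * (1 - q))) *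
      (((2 * k - 1).choose (k - 1) : ℝ) * ((2 * k + T - k - 1).choose (2 * k - k) : ℝ) *
        (((2 * k + T).choose k : ℝ) * (p * (1 - p)))) := by
    have h1 := sum_mul_sq_le_sq_mul_sq (C.powersetCard (2 * k))
      (fun W => (if W ∈ H then (1 : ℝ) else 0) - q) V
    rw [← hRV, hh2] at h1
    refine h1.trans (mul_le_mul_of_nonneg_left hV2 ?_)
    have : 0 ≤ 1 - q := by linarith
    positivity
  -- the numbers
  obtain ⟨N1, eN1⟩ : ∃ N1 : ℝ, N1 = ((2 * k + T).choose k : ℝ) := ⟨_, rfl⟩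
  obtain ⟨N2, eN2⟩ : ∃ N2 : ℝ, N2 = ((2 * k + T).choose (2 * k) : ℝ) := ⟨_, rfl⟩
  obtain ⟨X, eX⟩ : ∃ X : ℝ, X = ((2 * k).choose k : ℝ) := ⟨_, rfl⟩
  obtain ⟨Y, eY⟩ : ∃ Y : ℝ, Y = ((2 * k - 1).choose (k - 1) : ℝ) := ⟨_, rfl⟩
  obtain ⟨Z, eZ⟩ : ∃ Z : ℝ, Z = ((2 * k + T - k - 1).choose (2 * k - k) : ℝ) := ⟨_, rfl⟩
  have hb1' : 2 * Y = X := by rw [eY, eX]; exact_mod_cast hb1
  have hb2' : ((k : ℝ) + T) * (Z * N1) = T * (N2 * X) := by
    rw [eZ, eN1, eN2, eX]
    exact_mod_cast hb2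
  have hN2' : 0 < N2 := by rw [eN2]; exact_mod_cast hN2
  have hX' : 0 < X := by rw [eX]; exact_mod_cast hX
  rw [← eN1, ← eN2, ← eY, ← eZ] at hR2
  rw [← eX, ← eN2] at hRS
  rw [← eN1] at hp
  rw [← eN2] at hq
  rw [← eN1, ← eN2, ← eX, ← hS]
  refine ⟨p, q, R / (X * N2), hp0, hp1, hq0, hq1, hp, hq, ?_, ?_⟩
  · rw [hRS]
    field_simp
    ring
  · have h1 : 2 * ((k : ℝ) + T) * R ^ 2 ≤ T * (q * (1 - q) * (p * (1 - p))) * (X * N2) ^ 2 := by
      calc 2 * ((k : ℝ) + T) * R ^ 2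
          ≤ 2 * ((k : ℝ) + T) * ((N2 * (q * (1 - q))) * (Y * Z * (N1 * (p * (1 - p))))) :=
            mul_le_mul_of_nonneg_left hR2 (by positivity)
        _ = (2 * Y) * (((k : ℝ) + T) * (Z * N1)) * (N2 * (q * (1 - q) * (p * (1 - p)))) := by
            ring
        _ = T * (q * (1 - q) * (p * (1 - p))) * (X * N2) ^ 2 := by
            rw [hb1', hb2']
            ring
    rw [div_pow, ← mul_div_assoc, div_le_iff₀ (by positivity)]
    exact h1

end Pool.Agent.Work.MP_9999b5_sp
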