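import Pool.Agent.Work.MP_9999b5_sp.Interface3

set_option autoImplicit false

namespace Pool.Agent.Work.MP_9999b5_sp

open Finset

theorem p_DEC : Stmt_DG1 → Stmt_DEC := by
  intro hDG ι _ C k f hk hkm hf
  have hδ : (0 : ℝ) < ((C.card - 2).choose (k - 1) : ℝ) := by
    exact_mod_cast Nat.choose_pos (by omega)
  have hsum : ∑ i ∈ C, (∑ B ∈ (C.powersetCard k).filter (fun B => i ∈ B), f B) /
      ((C.card - 2).choose (k - 1) : ℝ) = 0 := by
    rw [← Finset.sum_div]
    have h1 : ∑ i ∈ C, ∑ B ∈ (C.powersetCard k).filter (fun B => i ∈ B), f B =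
        ∑ B ∈ C.powersetCard k, ∑ i ∈ B, f B := by
      apply Finset.sum_comm'
      intro i B
      simp only [mem_filter, mem_powersetCard]
      constructor
      · rintro ⟨hi, ⟨hB, hc⟩, hiB⟩; exact ⟨hiB, hB, hc⟩
      · rintro ⟨hiB, hB, hc⟩; exact ⟨hB hiB, ⟨hB, hc⟩, hiB⟩
    have h2 : ∑ B ∈ C.powersetCard k, ∑ i ∈ B, f B = (k : ℝ) * ∑ B ∈ C.powersetCard k, f B := by
      rw [Finset.mul_sum]
      apply Finset.sum_congr rfl
      intro B hB
      rw [Finset.sum_const, (mem_powersetCard.1 hB).2, nsmul_eq_mul]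
    rw [h1, h2, hf, mul_zero, zero_div]
  refine ⟨fun i => (∑ B ∈ (C.powersetCard k).filter (fun B => i ∈ B), f B) /
      ((C.card - 2).choose (k - 1) : ℝ), hsum, ?_⟩
  intro i hi
  rw [Finset.sum_sub_distrib, hDG ι C k _ hk hkm hsum i hi, mul_div_cancel₀ _ hδ.ne', sub_self]

end Pool.Agent.Work.MP_9999b5_sp
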