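import Pool.Agent.Work.MP_9999b5_sp.Interface3

/-!
MP_9999b5_co, block DG1 of `Interface3.lean` (helper31): degrees of the linear function on level `b`.
-/

set_option autoImplicit false

namespace Pool.Agent.Work.MP_9999b5_sp

open Finset

theorem p_DG1 : Stmt_LSM → Stmt_DG1 := by
  intro hL ι _ C b γ hb hbm hsum i hi
  have h1 := hL ι C b γ hb
  have h2 := hL ι (C.erase i) b γ hb
  rw [hsum, mul_zero] at h1
  have hs := Finset.sum_filter_add_sum_filter_not (C.powersetCard b) (fun W => i ∈ W)
    (fun W => ∑ j ∈ W, γ j)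
  have hf : (C.powersetCard b).filter (fun W => ¬ i ∈ W) = (C.erase i).powersetCard b := by
    ext W
    simp only [Finset.mem_filter, Finset.mem_powersetCard]
    constructor
    · rintro ⟨⟨hW, hc⟩, hn⟩
      exact ⟨fun x hx => Finset.mem_erase.2 ⟨fun h => hn (h ▸ hx), hW hx⟩, hc⟩
    · rintro ⟨hW, hc⟩
      exact ⟨⟨fun x hx => Finset.mem_of_mem_erase (hW hx), hc⟩,
        fun h => (Finset.mem_erase.1 (hW h)).1 rfl⟩
  have he : ∑ j ∈ C.erase i, γ j = - γ i := by
    have := Finset.add_sum_erase C γ hi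
    linarith
  rw [he, Finset.card_erase_of_mem hi] at h2
  rw [hf, h2, h1] at hs
  have hc2 : C.card - 1 - 1 = C.card - 2 := by omega
  rw [hc2] at hs
  linarith

end Pool.Agent.Work.MP_9999b5_sp
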