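import Pool.Agent.Work.MP_9999b5_sp.Interface

/-!
Block DIV: covariance of two disjoint random sets (helper58).
-/

namespace Pool.Agent.Work.MP_9999b5_sp

open Finset

lemma DIV_comm {ι : Type} [DecidableEq ι] (C : Finset ι) (a b : ℕ) (g : Finset ι → ℝ) :
    ∑ A ∈ C.powersetCard a, ∑ B ∈ (C \ A).powersetCard b, g B =
      ((C.card - b).choose a : ℝ) * ∑ B ∈ C.powersetCard b, g B := by
  rw [Finset.sum_comm' (t' := C.powersetCard b) (s' := fun B => (C \ B).powersetCard a)]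
  · rw [mul_sum]
    apply sum_congr rfl
    intro B hB
    rw [mem_powersetCard] at hB
    rw [sum_const, card_powersetCard, card_sdiff_of_subset hB.1, hB.2, nsmul_eq_mul]
  · intro A B
    simp only [mem_powersetCard, subset_sdiff]
    constructor
    · rintro ⟨⟨h1, h2⟩, ⟨h3, h4⟩, h5⟩
      exact ⟨⟨⟨h1, h4.symm⟩, h2⟩, h3, h5⟩
    · rintro ⟨⟨⟨h1, h4⟩, h2⟩, h3, h5⟩
      exact ⟨⟨h1, h2⟩, ⟨h3, h4.symm⟩, h5⟩

lemma DIV_sum {ι : Type} [DecidableEq ι] (C : Finset ι) (a : ℕ) (f : Finset ι → ℝ)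
    (h : (C.card.choose a : ℝ) ≠ 0) :
    ∑ A ∈ C.powersetCard a, f A = (C.card.choose a : ℝ) * mean C a f := by
  unfold mean
  field_simp

lemma DIV_var {ι : Type} [DecidableEq ι] (C : Finset ι) (a : ℕ) (f : Finset ι → ℝ)
    (h : (C.card.choose a : ℝ) ≠ 0) :
    ∑ A ∈ C.powersetCard a, (f A - mean C a f) ^ 2 =
      (C.card.choose a : ℝ) * (mean C a (fun A => f A ^ 2) - mean C a f ^ 2) := by
  have h1 : ∀ A, (f A - mean C a f) ^ 2 = f A ^ 2 - 2 * mean C a f * f A + mean C a f ^ 2 := by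
    intro A
    ring
  simp only [h1]
  rw [sum_add_distrib, sum_sub_distrib, ← mul_sum, sum_const, card_powersetCard,
    DIV_sum C a f h, DIV_sum C a (fun A => f A ^ 2) h, nsmul_eq_mul]
  ring

lemma DIV_choose (p b : ℕ) (hb : 1 ≤ b) (hp : b ≤ p) :
    ((p - 1).choose (b - 1) : ℝ) * p = b * (p.choose b : ℝ) := by
  obtain ⟨c, rfl⟩ : ∃ c, b = c + 1 := ⟨b - 1, by omega⟩
  obtain ⟨q, rfl⟩ : ∃ q, p = q + 1 := ⟨p - 1, by omega⟩
  have h1 := Nat.add_one_mul_choose_eq q c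
  have h2 : ((q + 1 : ℕ) : ℝ) * (q.choose c : ℝ) = ((q + 1).choose (c + 1) : ℝ) * ((c + 1 : ℕ) : ℝ) := by
    exact_mod_cast h1
  rw [Nat.add_sub_cancel, Nat.add_sub_cancel]
  linarith

theorem p_DIV : Stmt_SUB → Stmt_DIS → Stmt_DIV := by
  intro _ hDIS ι _ C a b f g ha hb hab
  have hMa : (0 : ℝ) < (C.card.choose a : ℝ) := by
    exact_mod_cast Nat.choose_pos (by omega)
  have hMb : (0 : ℝ) < (C.card.choose b : ℝ) := by
    exact_mod_cast Nat.choose_pos (by omega)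
  have hNa : (0 : ℝ) < ((C.card - a).choose b : ℝ) := by
    exact_mod_cast Nat.choose_pos (by omega)
  have hNb : (0 : ℝ) < ((C.card - b).choose a : ℝ) := by
    exact_mod_cast Nat.choose_pos (by omega)
  have hca : ∀ A ∈ C.powersetCard a, ((C \ A).powersetCard b).card = (C.card - a).choose b := by
    intro A hA
    rw [mem_powersetCard] at hA
    rw [card_powersetCard, card_sdiff_of_subset hA.1, hA.2]
  have hN : (C.card.choose a : ℝ) * ((C.card - a).choose b : ℝ) =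
      (C.card.choose b : ℝ) * ((C.card - b).choose a : ℝ) := by
    have h1 := DIV_comm C a b (fun _ => 1)
    rw [sum_const, card_powersetCard, nsmul_eq_mul, mul_one] at h1
    have h2 : ∑ A ∈ C.powersetCard a, ∑ B ∈ (C \ A).powersetCard b, (1 : ℝ) =
        (C.card.choose a : ℝ) * ((C.card - a).choose b : ℝ) := by
      rw [sum_congr rfl (fun A hA => by
        rw [sum_const, hca A hA, nsmul_eq_mul, mul_one])]
      rw [sum_const, card_powersetCard, nsmul_eq_mul]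
    rw [← h2, h1]
    ring
  obtain ⟨μ, hμ⟩ : ∃ μ, μ = mean C a f := ⟨_, rfl⟩
  obtain ⟨ν, hν⟩ : ∃ ν, ν = mean C b g := ⟨_, rfl⟩
  obtain ⟨S, hS⟩ : ∃ S, S = ∑ A ∈ C.powersetCard a, f A * ∑ B ∈ (C \ A).powersetCard b, g B :=
    ⟨_, rfl⟩
  have hg0 : ∑ B ∈ C.powersetCard b, (g B - ν) = 0 := by
    rw [sum_sub_distrib, DIV_sum C b g hMb.ne', sum_const, card_powersetCard, nsmul_eq_mul, hν]
    ring
  have hmain := hDIS ι C a b (fun A => f A - μ) (fun B => g B - ν) ha hb hab hg0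
  have hS' : ∑ A ∈ C.powersetCard a, (f A - μ) * ∑ B ∈ (C \ A).powersetCard b, (g B - ν) =
      S - μ * ν * ((C.card.choose a : ℝ) * ((C.card - a).choose b : ℝ)) := by
    have h1 : ∀ A ∈ C.powersetCard a, (f A - μ) * ∑ B ∈ (C \ A).powersetCard b, (g B - ν) =
        f A * ∑ B ∈ (C \ A).powersetCard b, g B - μ * ∑ B ∈ (C \ A).powersetCard b, g B -
          ((C.card - a).choose b : ℝ) * ν * (f A - μ) := by
      intro A hA
      rw [sum_sub_distrib, sum_const, hca A hA, nsmul_eq_mul]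
      ring
    rw [sum_congr rfl h1, sum_sub_distrib, sum_sub_distrib, ← mul_sum, ← mul_sum, sum_sub_distrib,
      DIV_comm C a b g, DIV_sum C b g hMb.ne', DIV_sum C a f hMa.ne', sum_const,
      card_powersetCard, nsmul_eq_mul, ← hS, ← hμ, ← hν]
    linear_combination (-(μ * ν)) * (-hN)
  simp only [hS', ← hS] at hmain ⊢
  rw [hμ, hν, DIV_var C a f hMa.ne', DIV_var C b g hMb.ne', ← hμ, ← hν] at hmain
  rw [← hμ, ← hν]
  obtain ⟨V, hV⟩ : ∃ V, V = mean C a (fun A => f A ^ 2) - μ ^ 2 := ⟨_, rfl⟩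
  obtain ⟨V', hV'⟩ : ∃ V', V' = mean C b (fun B => g B ^ 2) - ν ^ 2 := ⟨_, rfl⟩
  rw [← hV, ← hV'] at hmain ⊢
  have hma : ((C.card - a : ℕ) : ℝ) = (C.card : ℝ) - a := by
    rw [Nat.cast_sub (by omega)]
  have hmb : ((C.card - b : ℕ) : ℝ) = (C.card : ℝ) - b := by
    rw [Nat.cast_sub (by omega)]
  have hpa : (0 : ℝ) < (C.card : ℝ) - a := by
    rw [← hma]
    exact_mod_cast (by omega : 0 < C.card - a)
  have hpb : (0 : ℝ) < (C.card : ℝ) - b := by
    rw [← hmb]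
    exact_mod_cast (by omega : 0 < C.card - b)
  have h1 := DIV_choose (C.card - a) b hb (by omega)
  have h2 := DIV_choose (C.card - b) a ha (by omega)
  rw [hma] at h1
  rw [hmb] at h2
  have h3 : ((C.card - a - 1).choose (b - 1) : ℝ) =
      b * ((C.card - a).choose b : ℝ) / ((C.card : ℝ) - a) := by
    rw [eq_div_iff hpa.ne']
    exact h1
  have h4 : ((C.card - b - 1).choose (a - 1) : ℝ) =
      a * ((C.card - b).choose a : ℝ) / ((C.card : ℝ) - b) := by
    rw [eq_div_iff hpb.ne']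
    exact h2
  rw [h3, h4] at hmain
  obtain ⟨N, hNN⟩ : ∃ N, N = (C.card.choose a : ℝ) * ((C.card - a).choose b : ℝ) := ⟨_, rfl⟩
  rw [← hNN] at hmain ⊢
  have hN0 : 0 < N := by
    rw [hNN]
    positivity
  have h5 : S / N - μ * ν = (S - μ * ν * N) / N := by
    field_simp
  rw [h5, div_pow, div_le_iff₀ (by positivity)]
  refine hmain.trans (le_of_eq ?_)
  have h6 : N ^ 2 = (C.card.choose a : ℝ) * ((C.card - a).choose b : ℝ) *
      ((C.card.choose b : ℝ) * ((C.card - b).choose a : ℝ)) := by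
    rw [← hN, ← hNN]
    ring
  rw [h6]
  field_simp

end Pool.Agent.Work.MP_9999b5_sp
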