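import Pool.Agent.Work.MP_9999b5_sp.Interface

set_option autoImplicit false

namespace Pool.Agent.Work.MP_9999b5_sp

open Finset

theorem DNC_eq {ι : Type} [DecidableEq ι] (C : Finset ι) (a : ℕ) (B B' : Finset ι)
    (hB : B ⊆ C) :
    (C.powersetCard a).filter (fun A => A ⊆ B ∧ A ⊆ B') = (B ∩ B').powersetCard a := by
  ext A
  simp only [mem_filter, mem_powersetCard, subset_inter_iff]
  constructor
  · rintro ⟨⟨_, h2⟩, h3, h4⟩
    exact ⟨⟨h3, h4⟩, h2⟩
  · rintro ⟨⟨h3, h4⟩, h2⟩
    exact ⟨⟨h3.trans hB, h2⟩, h3, h4⟩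

theorem p_DNC : Stmt_DNC := by
  intro ι _ C a B B' hB hB'
  rw [mem_powersetCard] at hB hB'
  rw [DNC_eq C a B B' hB.1, card_powersetCard]
  by_cases h : B = B'
  · subst h
    rw [inter_self, hB.2, if_pos rfl]
    exact Nat.choose_succ_self_right a
  · rw [if_neg h]
    have hlt : (B ∩ B').card ≤ a := by
      by_contra hc
      have h1 : a + 1 ≤ (B ∩ B').card := by omega
      have h2 : B ∩ B' = B := eq_of_subset_of_card_le inter_subset_left (by rw [hB.2]; exact h1)
      have h3 : B ∩ B' = B' := eq_of_subset_of_card_le inter_subset_right (by rw [hB'.2]; exact h1)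
      exact h (h2.symm.trans h3)
    by_cases h4 : (B ∩ B').card = a
    · rw [if_pos h4, h4, Nat.choose_self]
    · rw [if_neg h4]
      exact Nat.choose_eq_zero_of_lt (lt_of_le_of_ne hlt h4)

end Pool.Agent.Work.MP_9999b5_sp
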