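import Pool.Agent.Work.MP_9999b5_sp.Interface4

/-!
EXG (MP_9999b5_co, typed by helper76): the exchange.
-/

set_option autoImplicit false

namespace Pool.Agent.Work.MP_9999b5_sp

open Finset

/-- the pairs with a positive first member, a second member `≤ 0` and a positive total -/
noncomputable def EXG_N {ι : Type} [DecidableEq ι] (C : Finset ι) (x : ι → ℝ) (k : ℕ) :
    Finset (Finset ι × Finset ι) :=
  (MP_9999b5_mr.prs C k).filter (fun p => 0 < ∑ i ∈ p.1, x i ∧ ∑ i ∈ p.2, x i ≤ 0 ∧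
    0 < ∑ i ∈ p.1, x i + ∑ i ∈ p.2, x i)

/-- the bad pairs -/
noncomputable def EXG_B {ι : Type} [DecidableEq ι] (C : Finset ι) (x : ι → ℝ) (k : ℕ) :
    Finset (Finset ι × Finset ι) :=
  (MP_9999b5_mr.prs C k).filter (fun p => ∑ i ∈ p.1, x i ≤ 0 ∧ ∑ i ∈ p.2, x i ≤ 0)

lemma EXG_prs {ι : Type} [DecidableEq ι] {C : Finset ι} {k : ℕ} {p : Finset ι × Finset ι} :
    p ∈ MP_9999b5_mr.prs C k ↔ p.1 ⊆ C ∧ p.1.card = k ∧ p.2 ⊆ C ∧ p.2.card = k ∧
      Disjoint p.1 p.2 := by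
  unfold MP_9999b5_mr.prs
  rw [mem_filter, mem_product, mem_powersetCard, mem_powersetCard]
  constructor
  · rintro ⟨⟨⟨h1, h2⟩, h3, h4⟩, h5⟩
    exact ⟨h1, h2, h3, h4, h5⟩
  · rintro ⟨h1, h2, h3, h4, h5⟩
    exact ⟨⟨⟨h1, h2⟩, h3, h4⟩, h5⟩

lemma EXG_swap {ι : Type} [DecidableEq ι] (C : Finset ι) (x : ι → ℝ) (k : ℕ) :
    ((MP_9999b5_mr.prs C k).filter (fun p => ∑ i ∈ p.1, x i ≤ 0 ∧ 0 < ∑ i ∈ p.2, x i ∧
      0 < ∑ i ∈ p.1, x i + ∑ i ∈ p.2, x i)).card = (EXG_N C x k).card := by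
  unfold EXG_N
  refine card_nbij' Prod.swap Prod.swap ?_ ?_ ?_ ?_
  · intro p hp
    obtain ⟨h1, h2, h3, h4⟩ := mem_filter.1 (mem_coe.1 hp)
    obtain ⟨a1, a2, a3, a4, a5⟩ := EXG_prs.1 h1
    refine mem_coe.2 (mem_filter.2 ⟨EXG_prs.2 ⟨a3, a4, a1, a2, a5.symm⟩, h3, h2, ?_⟩)
    rw [add_comm]
    exact h4
  · intro p hp
    obtain ⟨h1, h2, h3, h4⟩ := mem_filter.1 (mem_coe.1 hp)
    obtain ⟨a1, a2, a3, a4, a5⟩ := EXG_prs.1 h1
    refine mem_coe.2 (mem_filter.2 ⟨EXG_prs.2 ⟨a3, a4, a1, a2, a5.symm⟩, h3, h2, ?_⟩)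
    rw [add_comm]
    exact h4
  · intro p _
    exact Prod.swap_swap p
  · intro p _
    exact Prod.swap_swap p

lemma EXG_count {ι : Type} [DecidableEq ι] (C : Finset ι) (x : ι → ℝ) (k : ℕ) :
    2 * (EXG_N C x k).card + pp C x k + MP_9999b5_mr.hvy C x k =
      (MP_9999b5_mr.prs C k).card := by
  have h1 := card_filter_add_card_filter_not (s := MP_9999b5_mr.prs C k)
    (fun p => ∑ i ∈ p.1, x i + ∑ i ∈ p.2, x i ≤ 0)
  have h2 : ((MP_9999b5_mr.prs C k).filter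
      (fun p => ¬ (∑ i ∈ p.1, x i + ∑ i ∈ p.2, x i ≤ 0))).card =
      pp C x k + ((EXG_N C x k).card + (EXG_N C x k).card) := by
    nth_rewrite 2 [← EXG_swap C x k]
    unfold pp EXG_N
    rw [← card_union_of_disjoint, ← card_union_of_disjoint]
    · congr 1
      ext p
      simp only [mem_union, mem_filter]
      constructor
      · rintro ⟨hp, h⟩
        push Not at h
        rcases lt_or_ge 0 (∑ i ∈ p.1, x i) with ha | ha
        · rcases lt_or_ge 0 (∑ i ∈ p.2, x i) with hb | hb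
          · exact Or.inl ⟨hp, ha, hb⟩
          · exact Or.inr (Or.inl ⟨hp, ha, hb, h⟩)
        · refine Or.inr (Or.inr ⟨hp, ha, ?_, h⟩)
          linarith
      · rintro (⟨hp, ha, hb⟩ | ⟨hp, ha, hb, h⟩ | ⟨hp, ha, hb, h⟩)
        · exact ⟨hp, by linarith⟩
        · exact ⟨hp, by linarith⟩
        · exact ⟨hp, by linarith⟩
    · rw [disjoint_union_right, disjoint_filter, disjoint_filter]
      constructor
      · rintro p _ ⟨_, hb⟩ ⟨_, hb', _⟩
        linarith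
      · rintro p _ ⟨ha, _⟩ ⟨ha', _, _⟩
        linarith
    · rw [disjoint_filter]
      rintro p _ ⟨ha, _, _⟩ ⟨ha', _, _⟩
      linarith
  have h3 : MP_9999b5_mr.hvy C x k = ((MP_9999b5_mr.prs C k).filter
      (fun p => ∑ i ∈ p.1, x i + ∑ i ∈ p.2, x i ≤ 0)).card := rfl
  omega

/-- the exchange map -/
def EXG_f {ι : Type} [DecidableEq ι] (C : Finset ι) :
    (Σ _ : Finset ι × Finset ι, Finset ι) → (Σ _ : Finset ι × Finset ι, Finset ι) :=
  fun z => ⟨((z.1.1 \ z.2) ∪ ((C \ z.1.1) \ z.1.2), z.1.2), (C \ z.1.1) \ z.1.2⟩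

lemma EXG_inj {ι : Type} [DecidableEq ι] (C : Finset ι) (x : ι → ℝ) (k T : ℕ)
    (hC : C.card = 2 * k + T) (hc : 0 ≤ ∑ i ∈ C, x i) :
    ((EXG_B C x k).sigma (fun p => (p.1.powersetCard T).filter (fun K => ∑ i ∈ K, x i < 0))).card ≤
      ((EXG_N C x k).sigma (fun p => p.1.powersetCard T)).card := by
  refine card_le_card_of_injOn (EXG_f C) ?_ ?_
  · rintro ⟨⟨B, D⟩, K⟩ hz
    obtain ⟨hp, hK⟩ := mem_sigma.1 (mem_coe.1 hz)
    obtain ⟨hprs, hB0, hD0⟩ := mem_filter.1 hp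
    obtain ⟨b1, b2, b3, b4, b5⟩ := EXG_prs.1 hprs
    obtain ⟨hK1, hK0⟩ := mem_filter.1 hK
    obtain ⟨hKB, hKT⟩ := mem_powersetCard.1 hK1
    simp only at b1 b2 b3 b4 b5 hB0 hD0 hKB hK0 hKT
    have hDC : D ⊆ C \ B := subset_sdiff.2 ⟨b3, b5.symm⟩
    have sC : ∑ i ∈ C \ B, x i + ∑ i ∈ B, x i = ∑ i ∈ C, x i := sum_sdiff b1
    have sD : ∑ i ∈ (C \ B) \ D, x i + ∑ i ∈ D, x i = ∑ i ∈ C \ B, x i := sum_sdiff hDC
    have sK : ∑ i ∈ B \ K, x i + ∑ i ∈ K, x i = ∑ i ∈ B, x i := sum_sdiff hKB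
    have cL : ((C \ B) \ D).card = T := by
      rw [card_sdiff_of_subset hDC, card_sdiff_of_subset b1]
      omega
    have cK : (B \ K).card = k - T := by
      rw [card_sdiff_of_subset hKB, b2, hKT]
    have hTk : T ≤ k := by
      have := card_le_card hKB
      omega
    have dis : Disjoint (B \ K) ((C \ B) \ D) := by
      rw [disjoint_left]
      intro i hi hi'
      exact (mem_sdiff.1 (mem_sdiff.1 hi').1).2 (mem_sdiff.1 hi).1
    have sN : ∑ i ∈ (B \ K) ∪ ((C \ B) \ D), x i =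
        ∑ i ∈ B \ K, x i + ∑ i ∈ (C \ B) \ D, x i := sum_union dis
    apply mem_coe.2
    unfold EXG_f
    rw [mem_sigma]
    refine ⟨mem_filter.2 ⟨EXG_prs.2 ⟨?_, ?_, b3, b4, ?_⟩, ?_, hD0, ?_⟩, ?_⟩
    · exact union_subset (sdiff_subset.trans b1) (sdiff_subset.trans sdiff_subset)
    · simp only
      rw [card_union_of_disjoint dis, cK, cL]
      omega
    · simp only
      rw [disjoint_union_left]
      exact ⟨b5.mono_left sdiff_subset, sdiff_disjoint⟩
    · simp only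
      rw [sN]
      linarith
    · simp only
      rw [sN]
      linarith
    · exact mem_powersetCard.2 ⟨subset_union_right, cL⟩
  · rintro ⟨⟨B, D⟩, K⟩ hz ⟨⟨B', D'⟩, K'⟩ hz' h
    obtain ⟨hp, hK⟩ := mem_sigma.1 (mem_coe.1 hz)
    obtain ⟨hprs, -, -⟩ := mem_filter.1 hp
    obtain ⟨b1, -, b3, -, b5⟩ := EXG_prs.1 hprs
    have hKB := (mem_powersetCard.1 (mem_filter.1 hK).1).1
    obtain ⟨hp', hK'⟩ := mem_sigma.1 (mem_coe.1 hz')
    obtain ⟨hprs', -, -⟩ := mem_filter.1 hp'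
    obtain ⟨b1', -, b3', -, b5'⟩ := EXG_prs.1 hprs'
    have hKB' := (mem_powersetCard.1 (mem_filter.1 hK').1).1
    simp only at b1 b3 b5 b1' b3' b5' hKB hKB'
    unfold EXG_f at h
    simp only [Sigma.mk.injEq, Prod.mk.injEq, heq_eq_eq] at h
    obtain ⟨⟨h1, h2⟩, h3⟩ := h
    subst h2
    have hBB : B = B' := by
      ext i
      constructor
      · intro hi
        by_contra hi'
        have h4 : i ∈ (C \ B') \ D :=
          mem_sdiff.2 ⟨mem_sdiff.2 ⟨b1 hi, hi'⟩, fun h => (disjoint_left.1 b5) hi h⟩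
        rw [← h3] at h4
        exact (mem_sdiff.1 (mem_sdiff.1 h4).1).2 hi
      · intro hi
        by_contra hi'
        have h4 : i ∈ (C \ B) \ D :=
          mem_sdiff.2 ⟨mem_sdiff.2 ⟨b1' hi, hi'⟩, fun h => (disjoint_left.1 b5') hi h⟩
        rw [h3] at h4
        exact (mem_sdiff.1 (mem_sdiff.1 h4).1).2 hi
    subst hBB
    have hKK : K = K' := by
      ext i
      constructor
      · intro hi
        by_contra hi'
        have h4 : i ∈ (B \ K') ∪ ((C \ B) \ D) :=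
          mem_union_left _ (mem_sdiff.2 ⟨hKB hi, hi'⟩)
        rw [← h1] at h4
        rcases mem_union.1 h4 with h5 | h5
        · exact (mem_sdiff.1 h5).2 hi
        · exact (mem_sdiff.1 (mem_sdiff.1 h5).1).2 (hKB hi)
      · intro hi
        by_contra hi'
        have h4 : i ∈ (B \ K) ∪ ((C \ B) \ D) :=
          mem_union_left _ (mem_sdiff.2 ⟨hKB' hi, hi'⟩)
        rw [h1] at h4
        rcases mem_union.1 h4 with h5 | h5
        · exact (mem_sdiff.1 h5).2 hi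
        · exact (mem_sdiff.1 (mem_sdiff.1 h5).1).2 (hKB' hi)
    subst hKK
    rfl

theorem p_EXG : Stmt_EXG := by
  intro k T φ hk hT hW ι _ C x hC hinj hc
  have hX : (0 : ℝ) < (k.choose T : ℝ) := by exact_mod_cast Nat.choose_pos hT
  have hbad : (MP_9999b5_mr.bad C x k : ℝ) = ((EXG_B C x k).card : ℝ) := rfl
  have h1 : φ * (k.choose T : ℝ) * ((EXG_B C x k).card : ℝ) ≤
      (((EXG_B C x k).sigma
        (fun p => (p.1.powersetCard T).filter (fun K => ∑ i ∈ K, x i < 0))).card : ℝ) := by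
    rw [card_sigma, Nat.cast_sum, mul_comm, ← nsmul_eq_mul]
    refine card_nsmul_le_sum _ _ _ ?_
    intro p hp
    obtain ⟨hprs, hB0, -⟩ := mem_filter.1 hp
    obtain ⟨b1, b2, -, -, -⟩ := EXG_prs.1 hprs
    have h2 := hW ι p.1 (fun i => - x i) b2
      (fun a ha b hb hab => hinj (b1 ha) (b1 hb) (neg_injective hab))
      (by rw [sum_neg_distrib]; linarith)
    refine h2.trans (le_of_eq ?_)
    unfold MaxSums.pos
    congr 2
    apply filter_congr
    intro K _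
    rw [sum_neg_distrib, Left.neg_pos_iff]
  have h2 : (((EXG_N C x k).sigma (fun p => p.1.powersetCard T)).card : ℝ) =
      ((EXG_N C x k).card : ℝ) * (k.choose T : ℝ) := by
    rw [card_sigma, sum_congr rfl (g := fun _ => k.choose T), sum_const, smul_eq_mul]
    · push_cast
      ring
    · intro p hp
      obtain ⟨hprs, -, -, -⟩ := mem_filter.1 hp
      obtain ⟨-, b2, -, -, -⟩ := EXG_prs.1 hprs
      rw [card_powersetCard, b2]
  have h3 : (((EXG_B C x k).sigma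
        (fun p => (p.1.powersetCard T).filter (fun K => ∑ i ∈ K, x i < 0))).card : ℝ) ≤
      (((EXG_N C x k).sigma (fun p => p.1.powersetCard T)).card : ℝ) := by
    exact_mod_cast EXG_inj C x k T hC hc
  have h4 : φ * ((EXG_B C x k).card : ℝ) ≤ ((EXG_N C x k).card : ℝ) := by
    refine le_of_mul_le_mul_right ?_ hX
    calc φ * ((EXG_B C x k).card : ℝ) * (k.choose T : ℝ)
        = φ * (k.choose T : ℝ) * ((EXG_B C x k).card : ℝ) := by ring
      _ ≤ _ := h1.trans (h3.trans (le_of_eq h2))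
  have h5 : 2 * ((EXG_N C x k).card : ℝ) + (pp C x k : ℝ) + (MP_9999b5_mr.hvy C x k : ℝ) =
      ((MP_9999b5_mr.prs C k).card : ℝ) := by
    exact_mod_cast EXG_count C x k
  rw [hbad]
  linarith

end Pool.Agent.Work.MP_9999b5_sp
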