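import Pool.Agent.Work.MP_9999b5_sp.Interface5
import Pool.Agent.Work.MP_9999b5_sp.B_EXG

/-!
EX2 (MP_9999b5_co, typed by helper53): the exchange with a `T`-subset of the complement of the second set.
-/

set_option autoImplicit false

namespace Pool.Agent.Work.MP_9999b5_sp

open Finset

lemma EX2_fib {ι : Type} [DecidableEq ι] (C : Finset ι) (k : ℕ) (P : Finset ι → Finset ι → Prop)
    [∀ a b, Decidable (P a b)] :
    ((MP_9999b5_mr.prs C k).filter (fun p => P p.1 p.2)).card =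
      ∑ B ∈ C.powersetCard k, (((C \ B).powersetCard k).filter (fun A => P A B)).card := by
  rw [Finset.card_eq_sum_card_fiberwise (f := Prod.snd) (t := C.powersetCard k)]
  · refine Finset.sum_congr rfl ?_
    intro B hB
    obtain ⟨hB1, hB2⟩ := mem_powersetCard.1 hB
    refine card_nbij' Prod.fst (fun A => (A, B)) ?_ ?_ ?_ ?_
    · intro p hp
      obtain ⟨hp1, hp2⟩ := mem_filter.1 (mem_coe.1 hp)
      obtain ⟨hp3, hp4⟩ := mem_filter.1 hp1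
      obtain ⟨a1, a2, a3, a4, a5⟩ := EXG_prs.1 hp3
      subst hp2
      refine mem_coe.2 (mem_filter.2 ⟨mem_powersetCard.2 ⟨subset_sdiff.2 ⟨a1, a5⟩, a2⟩, hp4⟩)
    · intro A hA
      obtain ⟨hA1, hA2⟩ := mem_filter.1 (mem_coe.1 hA)
      obtain ⟨hA3, hA4⟩ := mem_powersetCard.1 hA1
      obtain ⟨hA5, hA6⟩ := subset_sdiff.1 hA3
      refine mem_coe.2 (mem_filter.2 ⟨mem_filter.2 ⟨EXG_prs.2 ⟨hA5, hA4, hB1, hB2, hA6⟩, hA2⟩, rfl⟩)
    · intro p hp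
      obtain ⟨_, hp2⟩ := mem_filter.1 (mem_coe.1 hp)
      exact Prod.ext rfl hp2.symm
    · intro A _
      rfl
  · intro p hp
    obtain ⟨hp3, _⟩ := mem_filter.1 (mem_coe.1 hp)
    obtain ⟨_, _, a3, a4, _⟩ := EXG_prs.1 hp3
    exact mem_coe.2 (mem_powersetCard.2 ⟨a3, a4⟩)

lemma EX2_comp {ι : Type} [DecidableEq ι] (A : Finset ι) (k T : ℕ) (hA : A.card = k + T)
    (P : Finset ι → Prop) [DecidablePred P] :
    ((A.powersetCard T).filter P).card = ((A.powersetCard k).filter (fun B => P (A \ B))).card := by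
  refine card_nbij' (fun K => A \ K) (fun B => A \ B) ?_ ?_ ?_ ?_
  · intro K hK
    obtain ⟨h1, h2⟩ := mem_filter.1 (mem_coe.1 hK)
    obtain ⟨h3, h4⟩ := mem_powersetCard.1 h1
    refine mem_coe.2 (mem_filter.2 ⟨mem_powersetCard.2 ⟨sdiff_subset, ?_⟩, ?_⟩)
    · rw [card_sdiff_of_subset h3]
      omega
    · simp only
      rw [Finset.sdiff_sdiff_eq_self h3]
      exact h2
  · intro B hB
    obtain ⟨h1, h2⟩ := mem_filter.1 (mem_coe.1 hB)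
    obtain ⟨h3, h4⟩ := mem_powersetCard.1 h1
    refine mem_coe.2 (mem_filter.2 ⟨mem_powersetCard.2 ⟨sdiff_subset, ?_⟩, h2⟩)
    rw [card_sdiff_of_subset h3]
    omega
  · intro K hK
    obtain ⟨h1, h2⟩ := mem_filter.1 (mem_coe.1 hK)
    exact Finset.sdiff_sdiff_eq_self (mem_powersetCard.1 h1).1
  · intro B hB
    obtain ⟨h1, h2⟩ := mem_filter.1 (mem_coe.1 hB)
    exact Finset.sdiff_sdiff_eq_self (mem_powersetCard.1 h1).1

/-- the pairs with second sum `≤ 0` -/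
noncomputable def EX2_L {ι : Type} [DecidableEq ι] (C : Finset ι) (x : ι → ℝ) (k : ℕ) : ℕ :=
  ((MP_9999b5_mr.prs C k).filter (fun p => ∑ i ∈ p.2, x i ≤ 0)).card

/-- the pairs with second sum `≤ 0`, first sum `≥ 0` -/
noncomputable def EX2_G {ι : Type} [DecidableEq ι] (C : Finset ι) (x : ι → ℝ) (k : ℕ) : ℕ :=
  ((MP_9999b5_mr.prs C k).filter (fun p => ∑ i ∈ p.2, x i ≤ 0 ∧ 0 ≤ ∑ i ∈ p.1, x i)).card

/-- the pairs with second sum `≤ 0` and negative rest -/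
noncomputable def EX2_N {ι : Type} [DecidableEq ι] (C : Finset ι) (x : ι → ℝ) (k : ℕ) : ℕ :=
  ((MP_9999b5_mr.prs C k).filter (fun p => ∑ i ∈ p.2, x i ≤ 0 ∧
    ∑ i ∈ (C \ p.2) \ p.1, x i < 0)).card

lemma EX2_LG {ι : Type} [DecidableEq ι] (C : Finset ι) (x : ι → ℝ) (k : ℕ) :
    EX2_L C x k = EX2_G C x k + bn C x k := by
  unfold EX2_L EX2_G bn
  rw [← card_union_of_disjoint]
  · congr 1
    ext p
    simp only [mem_union, mem_filter]
    constructor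
    · rintro ⟨hp, h⟩
      rcases lt_or_ge (∑ i ∈ p.1, x i) 0 with ha | ha
      · exact Or.inr ⟨hp, ha, h⟩
      · exact Or.inl ⟨hp, h, ha⟩
    · rintro (⟨hp, h, _⟩ | ⟨hp, _, h⟩)
      · exact ⟨hp, h⟩
      · exact ⟨hp, h⟩
  · rw [disjoint_filter]
    rintro p _ ⟨_, h⟩ ⟨h', _⟩
    linarith

lemma EX2_swap {ι : Type} [DecidableEq ι] (C : Finset ι) (x : ι → ℝ) (k : ℕ) :
    ((MP_9999b5_mr.prs C k).filter (fun p => ∑ i ∈ p.1, x i ≤ 0)).card = EX2_L C x k := by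
  unfold EX2_L
  refine card_nbij' Prod.swap Prod.swap ?_ ?_ ?_ ?_
  · intro p hp
    obtain ⟨h1, h2⟩ := mem_filter.1 (mem_coe.1 hp)
    obtain ⟨a1, a2, a3, a4, a5⟩ := EXG_prs.1 h1
    exact mem_coe.2 (mem_filter.2 ⟨EXG_prs.2 ⟨a3, a4, a1, a2, a5.symm⟩, h2⟩)
  · intro p hp
    obtain ⟨h1, h2⟩ := mem_filter.1 (mem_coe.1 hp)
    obtain ⟨a1, a2, a3, a4, a5⟩ := EXG_prs.1 h1
    exact mem_coe.2 (mem_filter.2 ⟨EXG_prs.2 ⟨a3, a4, a1, a2, a5.symm⟩, h2⟩)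
  · intro p _
    exact Prod.swap_swap p
  · intro p _
    exact Prod.swap_swap p

lemma EX2_two {ι : Type} [DecidableEq ι] (C : Finset ι) (x : ι → ℝ) (k : ℕ) :
    2 * EX2_L C x k + pp C x k = (MP_9999b5_mr.prs C k).card + MP_9999b5_mr.bad C x k := by
  have h1 := card_filter_add_card_filter_not (s := MP_9999b5_mr.prs C k)
    (fun p => 0 < ∑ i ∈ p.1, x i ∧ 0 < ∑ i ∈ p.2, x i)
  have h2 := card_union_add_card_inter
    ((MP_9999b5_mr.prs C k).filter (fun p => ∑ i ∈ p.1, x i ≤ 0))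
    ((MP_9999b5_mr.prs C k).filter (fun p => ∑ i ∈ p.2, x i ≤ 0))
  have h3 : (MP_9999b5_mr.prs C k).filter (fun p => ∑ i ∈ p.1, x i ≤ 0) ∪
      (MP_9999b5_mr.prs C k).filter (fun p => ∑ i ∈ p.2, x i ≤ 0) =
      (MP_9999b5_mr.prs C k).filter (fun p => ¬ (0 < ∑ i ∈ p.1, x i ∧ 0 < ∑ i ∈ p.2, x i)) := by
    ext p
    simp only [mem_union, mem_filter]
    constructor
    · rintro (⟨hp, h⟩ | ⟨hp, h⟩)
      · exact ⟨hp, fun h' => by linarith [h'.1]⟩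
      · exact ⟨hp, fun h' => by linarith [h'.2]⟩
    · rintro ⟨hp, h⟩
      rcases lt_or_ge 0 (∑ i ∈ p.1, x i) with ha | ha
      · rcases lt_or_ge 0 (∑ i ∈ p.2, x i) with hb | hb
        · exact absurd ⟨ha, hb⟩ h
        · exact Or.inr ⟨hp, hb⟩
      · exact Or.inl ⟨hp, ha⟩
  have h4 : (MP_9999b5_mr.prs C k).filter (fun p => ∑ i ∈ p.1, x i ≤ 0) ∩
      (MP_9999b5_mr.prs C k).filter (fun p => ∑ i ∈ p.2, x i ≤ 0) =
      (MP_9999b5_mr.prs C k).filter (fun p => ∑ i ∈ p.1, x i ≤ 0 ∧ ∑ i ∈ p.2, x i ≤ 0) := by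
    ext p
    simp only [mem_inter, mem_filter]
    constructor
    · rintro ⟨⟨hp, h⟩, _, h'⟩
      exact ⟨hp, h, h'⟩
    · rintro ⟨hp, h, h'⟩
      exact ⟨⟨hp, h⟩, hp, h'⟩
  rw [h3, h4, EX2_swap] at h2
  have e1 : ((MP_9999b5_mr.prs C k).filter (fun p => ∑ i ∈ p.2, x i ≤ 0)).card = EX2_L C x k := rfl
  have e2 : ((MP_9999b5_mr.prs C k).filter
    (fun p => 0 < ∑ i ∈ p.1, x i ∧ 0 < ∑ i ∈ p.2, x i)).card = pp C x k := rfl
  have e3 : ((MP_9999b5_mr.prs C k).filter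
    (fun p => ∑ i ∈ p.1, x i ≤ 0 ∧ ∑ i ∈ p.2, x i ≤ 0)).card = MP_9999b5_mr.bad C x k := rfl
  rw [e1, e3] at h2
  rw [e2] at h1
  omega

lemma EX2_NE {ι : Type} [DecidableEq ι] (C : Finset ι) (x : ι → ℝ) (k : ℕ)
    (hc : 0 ≤ ∑ i ∈ C, x i) : EX2_N C x k ≤ (EXG_N C x k).card := by
  unfold EX2_N EXG_N
  apply card_le_card
  intro p hp
  obtain ⟨h1, h2, h3⟩ := mem_filter.1 hp
  obtain ⟨a1, a2, a3, a4, a5⟩ := EXG_prs.1 h1
  have hDC : p.1 ⊆ C \ p.2 := subset_sdiff.2 ⟨a1, a5⟩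
  have sC : ∑ i ∈ C \ p.2, x i + ∑ i ∈ p.2, x i = ∑ i ∈ C, x i := sum_sdiff a3
  have sD : ∑ i ∈ (C \ p.2) \ p.1, x i + ∑ i ∈ p.1, x i = ∑ i ∈ C \ p.2, x i := sum_sdiff hDC
  refine mem_filter.2 ⟨h1, ?_, h2, ?_⟩
  · linarith
  · linarith

lemma EX2_main {ι : Type} [DecidableEq ι] (hS : Stmt_SHF) (k T : ℕ) (φ : ℝ) (hT : 1 ≤ T)
    (hW : WP T (k + T) φ) (C : Finset ι) (x : ι → ℝ) (hC : C.card = 2 * k + T)
    (hc : 0 ≤ ∑ i ∈ C, x i) :
    φ * (k + T) * (EX2_L C x k : ℝ) ≤ k * (EX2_N C x k : ℝ) + T * (EX2_G C x k : ℝ) := by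
  have hL : (EX2_L C x k : ℝ) = ∑ B ∈ C.powersetCard k,
      ((((C \ B).powersetCard k).filter (fun _ => ∑ i ∈ B, x i ≤ 0)).card : ℝ) := by
    unfold EX2_L
    rw [EX2_fib C k (fun _ B => ∑ i ∈ B, x i ≤ 0), Nat.cast_sum]
  have hN : (EX2_N C x k : ℝ) = ∑ B ∈ C.powersetCard k,
      ((((C \ B).powersetCard k).filter (fun A => ∑ i ∈ B, x i ≤ 0 ∧
        ∑ i ∈ (C \ B) \ A, x i < 0)).card : ℝ) := by
    unfold EX2_N
    rw [EX2_fib C k (fun A B => ∑ i ∈ B, x i ≤ 0 ∧ ∑ i ∈ (C \ B) \ A, x i < 0), Nat.cast_sum]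
  have hG : (EX2_G C x k : ℝ) = ∑ B ∈ C.powersetCard k,
      ((((C \ B).powersetCard k).filter (fun A => ∑ i ∈ B, x i ≤ 0 ∧
        0 ≤ ∑ i ∈ A, x i)).card : ℝ) := by
    unfold EX2_G
    rw [EX2_fib C k (fun A B => ∑ i ∈ B, x i ≤ 0 ∧ 0 ≤ ∑ i ∈ A, x i), Nat.cast_sum]
  rw [hL, hN, hG, Finset.mul_sum, Finset.mul_sum, Finset.mul_sum, ← Finset.sum_add_distrib]
  refine Finset.sum_le_sum ?_
  intro B hB
  obtain ⟨hB1, hB2⟩ := mem_powersetCard.1 hB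
  by_cases hb : ∑ i ∈ B, x i ≤ 0
  · have hA : (C \ B).card = k + T := by
      rw [card_sdiff_of_subset hB1]
      omega
    have sC : ∑ i ∈ C \ B, x i + ∑ i ∈ B, x i = ∑ i ∈ C, x i := sum_sdiff hB1
    have h1 := hS k T φ hT hW ι (C \ B) x hA (by linarith)
    rw [EX2_comp (C \ B) k T hA (fun K => ∑ i ∈ K, x i < 0),
      EX2_comp (C \ B) k T hA (fun K => ∑ i ∈ K, x i ≤ ∑ i ∈ C \ B, x i)] at h1
    have e1 : (((C \ B).powersetCard k).filter (fun _ => ∑ i ∈ B, x i ≤ 0)).card =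
        (k + T).choose T := by
      rw [filter_true_of_mem (fun _ _ => hb), card_powersetCard, hA]
      rw [Nat.choose_symm_add]
    have e2 : ((C \ B).powersetCard k).filter (fun A => ∑ i ∈ B, x i ≤ 0 ∧
        ∑ i ∈ (C \ B) \ A, x i < 0) =
        ((C \ B).powersetCard k).filter (fun A => ∑ i ∈ (C \ B) \ A, x i < 0) := by
      apply filter_congr
      intro A _
      exact ⟨fun h => h.2, fun h => ⟨hb, h⟩⟩
    have e3 : ((C \ B).powersetCard k).filter (fun A => ∑ i ∈ B, x i ≤ 0 ∧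
        0 ≤ ∑ i ∈ A, x i) =
        ((C \ B).powersetCard k).filter
          (fun A => ∑ i ∈ (C \ B) \ A, x i ≤ ∑ i ∈ C \ B, x i) := by
      apply filter_congr
      intro A hA'
      have sD : ∑ i ∈ (C \ B) \ A, x i + ∑ i ∈ A, x i = ∑ i ∈ C \ B, x i :=
        sum_sdiff (mem_powersetCard.1 hA').1
      constructor
      · intro h
        linarith [h.2]
      · intro h
        exact ⟨hb, by linarith⟩
    rw [e1, e2, e3]
    exact h1
  · have e1 : ((C \ B).powersetCard k).filter (fun _ => ∑ i ∈ B, x i ≤ 0) = ∅ :=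
      filter_false_of_mem (fun _ _ => hb)
    have e2 : ((C \ B).powersetCard k).filter (fun A => ∑ i ∈ B, x i ≤ 0 ∧
        ∑ i ∈ (C \ B) \ A, x i < 0) = ∅ :=
      filter_false_of_mem (fun _ _ h => hb h.1)
    have e3 : ((C \ B).powersetCard k).filter (fun A => ∑ i ∈ B, x i ≤ 0 ∧
        0 ≤ ∑ i ∈ A, x i) = ∅ :=
      filter_false_of_mem (fun _ _ h => hb h.1)
    rw [e1, e2, e3, card_empty]
    simp

theorem p_EX2 : Stmt_SHF → Stmt_EX2 := by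
  intro hS k T φ hk hT hW ι _ C x hC hc
  have h1 := EX2_main hS k T φ hT hW C x hC hc
  have h2 : (EX2_L C x k : ℝ) = (EX2_G C x k : ℝ) + (bn C x k : ℝ) := by
    exact_mod_cast EX2_LG C x k
  have h3 : 2 * (EX2_L C x k : ℝ) + (pp C x k : ℝ) =
      ((MP_9999b5_mr.prs C k).card : ℝ) + (MP_9999b5_mr.bad C x k : ℝ) := by
    exact_mod_cast EX2_two C x k
  have h4 : 2 * ((EXG_N C x k).card : ℝ) + (pp C x k : ℝ) + (MP_9999b5_mr.hvy C x k : ℝ) =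
      ((MP_9999b5_mr.prs C k).card : ℝ) := by
    exact_mod_cast EXG_count C x k
  have h5 : (EX2_N C x k : ℝ) ≤ ((EXG_N C x k).card : ℝ) := by
    exact_mod_cast EX2_NE C x k hc
  have hk0 : (0 : ℝ) ≤ (k : ℝ) := Nat.cast_nonneg k
  have h6 : (k : ℝ) * (2 * (EX2_N C x k : ℝ)) ≤
      k * (((MP_9999b5_mr.prs C k).card : ℝ) - (pp C x k : ℝ) - (MP_9999b5_mr.hvy C x k : ℝ)) := by
    apply mul_le_mul_of_nonneg_left _ hk0
    linarith
  have h7 : ((MP_9999b5_mr.prs C k).card : ℝ) + (MP_9999b5_mr.bad C x k : ℝ) - (pp C x k : ℝ) =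
      2 * (EX2_L C x k : ℝ) := by linarith
  rw [h7]
  have h8 : (EX2_G C x k : ℝ) = (EX2_L C x k : ℝ) - (bn C x k : ℝ) := by linarith
  rw [h8] at h1
  nlinarith

end Pool.Agent.Work.MP_9999b5_sp
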