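import Pool.Agent.Work.MP_9999b5_sp.Interface4
import Pool.Agent.Work.MP_9999b5_mr.B_FLO

/-! # Block FLO4: the flow with the weights of helper83 (helper21, after FLL by helper53 and FLO by helper40) -/

set_option autoImplicit false

namespace Pool.Agent.Work.MP_9999b5_sp

open Finset

/-- FLO4. -/
theorem p_FLO4 : Stmt_WSO → Stmt_WAO → Stmt_FLO4 := by
  intro hWSO hWAO k T hk hQ hH ι _ V x hV hinj hx
  classical
  set X := (2 * k).choose k with hX
  set M := (2 * k + T - 1).choose (2 * k - 1) with hM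
  set D := (2 * k + T).choose (2 * k) with hD
  set E := (4 * k + T).choose (2 * k) with hE
  have hXpos : 0 < X := Nat.choose_pos (by omega)
  have hMpos : 0 < M := Nat.choose_pos (by omega)
  set P := V.powersetCard (2 * k) with hP
  have h1 : ∀ U ∈ P, MP_9999b5_mr.al x k U * ((2 * k + T) * (X * M)) ≤
      ∑ W ∈ (V \ U).powersetCard (2 * k), MP_9999b5_mr.al x k U * wo x k T W := by
    intro U hU
    rw [hP, mem_powersetCard] at hU
    obtain ⟨hUV, hUc⟩ := hU
    rw [← mul_sum]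
    by_cases h0 : 0 < ∑ i ∈ U, x i
    · rw [MP_9999b5_mr.FLO_al_pos x k U h0]
      simp
    · refine Nat.mul_le_mul_left _ ?_
      refine hWSO k T hk hQ ι (V \ U) x ?_ (hinj.mono ?_) ?_
      · rw [card_sdiff_of_subset hUV]; omega
      · intro i hi
        exact (mem_sdiff.1 hi).1
      · have := sum_sdiff (f := x) hUV
        linarith [not_lt.1 h0]
  have h2 : ∑ U ∈ P, ∑ W ∈ (V \ U).powersetCard (2 * k), MP_9999b5_mr.al x k U * wo x k T W =
      ∑ W ∈ P, ∑ U ∈ (V \ W).powersetCard (2 * k),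
        MP_9999b5_mr.al x k U * wo x k T W := by
    refine sum_comm' ?_
    intro U W
    rw [hP, mem_powersetCard, mem_powersetCard, mem_powersetCard, mem_powersetCard]
    constructor
    · rintro ⟨⟨a1, a2⟩, a4, a5⟩
      refine ⟨⟨?_, a2⟩, ⟨a4.trans sdiff_subset, a5⟩⟩
      intro i hi
      refine mem_sdiff.2 ⟨a1 hi, fun h => ?_⟩
      exact (mem_sdiff.1 (a4 h)).2 hi
    · rintro ⟨⟨a1, a2⟩, ⟨a4, a5⟩⟩
      refine ⟨⟨a1.trans sdiff_subset, a2⟩, ?_, a5⟩
      intro i hi
      refine mem_sdiff.2 ⟨a4 hi, fun h => ?_⟩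
      exact (mem_sdiff.1 (a1 h)).2 hi
  have h3 : ∀ W ∈ P, ∑ U ∈ (V \ W).powersetCard (2 * k),
        MP_9999b5_mr.al x k U * wo x k T W ≤
      (X - MP_9999b5_mr.al x k W) * ((2 * k + T) * (X * D)) := by
    intro W hW
    rw [hP, mem_powersetCard] at hW
    obtain ⟨hWV, hWc⟩ := hW
    rw [← sum_mul, mul_comm]
    exact hWAO k T hk hH ι V W x hV hinj hx hWV hWc
  have h4 : ((2 * k + T) * (X * M)) * ∑ U ∈ P, MP_9999b5_mr.al x k U ≤
      ((2 * k + T) * (X * D)) * ∑ W ∈ P, (X - MP_9999b5_mr.al x k W) := by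
    calc ((2 * k + T) * (X * M)) * ∑ U ∈ P, MP_9999b5_mr.al x k U =
          ∑ U ∈ P, MP_9999b5_mr.al x k U * ((2 * k + T) * (X * M)) := by
          rw [mul_comm, sum_mul]
      _ ≤ ∑ U ∈ P, ∑ W ∈ (V \ U).powersetCard (2 * k), MP_9999b5_mr.al x k U * wo x k T W :=
          sum_le_sum h1
      _ = ∑ W ∈ P, ∑ U ∈ (V \ W).powersetCard (2 * k),
          MP_9999b5_mr.al x k U * wo x k T W := h2
      _ ≤ ∑ W ∈ P, (X - MP_9999b5_mr.al x k W) * ((2 * k + T) * (X * D)) := sum_le_sum h3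
      _ = ((2 * k + T) * (X * D)) * ∑ W ∈ P, (X - MP_9999b5_mr.al x k W) := by
          rw [mul_comm ((2 * k + T) * (X * D)), sum_mul]
  have h7 : ∑ W ∈ P, (X - MP_9999b5_mr.al x k W) + ∑ W ∈ P, MP_9999b5_mr.al x k W = X * E := by
    rw [← sum_add_distrib, sum_const_nat (m := X)]
    · rw [hP, card_powersetCard, hV]
      ring
    · intro W hW
      rw [hP, mem_powersetCard] at hW
      have := MP_9999b5_mr.FLO_al_le x k W hW.2
      omega
  obtain ⟨S, hS⟩ : ∃ S, S = ∑ U ∈ P, MP_9999b5_mr.al x k U := ⟨_, rfl⟩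
  obtain ⟨R, hR⟩ : ∃ R, R = ∑ W ∈ P, (X - MP_9999b5_mr.al x k W) := ⟨_, rfl⟩
  rw [← hS, ← hR] at h4 h7
  rw [← hS]
  have c1 : (2 * k + T) * M = D * (2 * k) := by
    have := Nat.add_one_mul_choose_eq (2 * k + T - 1) (2 * k - 1)
    rw [show 2 * k + T - 1 + 1 = 2 * k + T by omega,
      show 2 * k - 1 + 1 = 2 * k by omega] at this
    exact this
  have c2 : (4 * k + T - 1).choose (2 * k) * (4 * k + T) = E * (2 * k + T) := by
    have := Nat.choose_mul_succ_eq (4 * k + T - 1) (2 * k)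
    rw [show 4 * k + T - 1 + 1 = 4 * k + T by omega,
      show 4 * k + T - 2 * k = 2 * k + T by omega] at this
    exact this
  have h5 : M * S ≤ D * R := by
    have e1 : ((2 * k + T) * (X * M)) * S = ((2 * k + T) * X) * (M * S) := by ring
    have e2 : ((2 * k + T) * (X * D)) * R = ((2 * k + T) * X) * (D * R) := by ring
    rw [e1, e2] at h4
    exact Nat.le_of_mul_le_mul_left h4 (Nat.mul_pos (by omega) hXpos)
  have h6 : 2 * k * S ≤ (2 * k + T) * R := by
    have e3 : M * (2 * k * S) ≤ M * ((2 * k + T) * R) := by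
      calc M * (2 * k * S) = 2 * k * (M * S) := by ring
        _ ≤ 2 * k * (D * R) := Nat.mul_le_mul_left _ h5
        _ = (D * (2 * k)) * R := by ring
        _ = (2 * k + T) * M * R := by rw [c1]
        _ = M * ((2 * k + T) * R) := by ring
    exact Nat.le_of_mul_le_mul_left e3 hMpos
  have h8 : (4 * k + T) * S ≤ (4 * k + T) * (X * (4 * k + T - 1).choose (2 * k)) := by
    calc (4 * k + T) * S = 2 * k * S + (2 * k + T) * S := by ring
      _ ≤ (2 * k + T) * R + (2 * k + T) * S := Nat.add_le_add_right h6 _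
      _ = (2 * k + T) * (R + S) := by ring
      _ = (2 * k + T) * (X * E) := by rw [h7]
      _ = X * (E * (2 * k + T)) := by ring
      _ = X * ((4 * k + T - 1).choose (2 * k) * (4 * k + T)) := by rw [c2]
      _ = _ := by ring
  exact Nat.le_of_mul_le_mul_left h8 (by omega)

end Pool.Agent.Work.MP_9999b5_sp

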