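import Pool.Agent.Work.MP_9999b5_sp.Interface5

set_option autoImplicit false

/-! Block HO2 (typed by helper58, after HOE of helper55). -/

namespace Pool.Agent.Work.MP_9999b5_sp

open Finset

theorem HO2_real (k T D w q r ε : ℝ) (hk : 1 ≤ k) (hT : 1 ≤ T) (hr : 0 ≤ r) (hD0 : 0 ≤ D)
    (hDT : D ≤ T)
    (h1 : (k + T) * (1 - w) ≤ T)
    (h2 : 2 * T * (q - ε) + k * r + k * w ≤ k + D * (1 + q - r))
    (h3 : 2 * D * ((k + T) * (3 * k + 2 * T)) ≤
      T ^ 2 * (3 * k + 2 * T) - 2 * T * ε * ((k + T) * (4 * k + 3 * T))) :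
    (4 * k + 3 * T) * q ≤ 2 * k + T := by
  by_contra hcon
  push Not at hcon
  have hs : 0 < k + T := by linarith
  have hm : 0 < 4 * k + 3 * T := by linarith
  have hDr : 0 ≤ D * r := mul_nonneg hD0 hr
  have hkr : 0 ≤ k * r := mul_nonneg (by linarith) hr
  have a0 : 2 * T * (q - ε) ≤ k * (1 - w) + D * (1 + q) := by linarith
  have a1 : (k + T) * (2 * T * (q - ε)) ≤ (k + T) * (k * (1 - w) + D * (1 + q)) :=
    mul_le_mul_of_nonneg_left a0 hs.le
  have a2 : k * ((k + T) * (1 - w)) ≤ k * T := mul_le_mul_of_nonneg_left h1 (by linarith)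
  have a3 : (k + T) * (2 * T - D) * q ≤ k * T + (D + 2 * T * ε) * (k + T) := by linarith
  have a4 : (4 * k + 3 * T) * ((k + T) * (2 * T - D) * q) ≤
      (4 * k + 3 * T) * (k * T + (D + 2 * T * ε) * (k + T)) := mul_le_mul_of_nonneg_left a3 hm.le
  have a5 : 0 < (k + T) * (2 * T - D) := mul_pos hs (by linarith)
  have a6 : (k + T) * (2 * T - D) * (2 * k + T) <
      (k + T) * (2 * T - D) * ((4 * k + 3 * T) * q) := mul_lt_mul_of_pos_left hcon a5
  linarith

theorem p_HO2 : Stmt_NR2 → Stmt_RBZ → Stmt_LIG → Stmt_EX2 → Stmt_ZE2 → Stmt_HO2 := by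
  intro hN hR hL hE hZ k T φ hk hT hW hφ1 hφ2 ι _ C x hC hx hs
  obtain ⟨w, q, r, hq, hqw, hw1, hr, hrw, hbad, hhvy, hpp, hmain⟩ := hN ι C x k T hk hC
  have hE' := hE k T φ hk hT hW ι C x hC hs
  have hZ' := hZ k T hk ι C x hC hx
  obtain ⟨N, hNdef⟩ : ∃ N : ℝ, N = ((MP_9999b5_mr.prs C k).card : ℝ) := ⟨_, rfl⟩
  have hZR : ((k : ℝ) + T + 1) * (MP_9999b5_mr.bad C x k : ℝ) ≤
      ((k : ℝ) + T + 1) * (bn C x k : ℝ) + N := by
    rw [hNdef]
    exact_mod_cast hZ'
  rw [← hNdef] at hbad hhvy hpp hE'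
  have hN0 : 0 ≤ N := by rw [hNdef]; exact Nat.cast_nonneg _
  have hkR : (1 : ℝ) ≤ k := by exact_mod_cast hk
  have hTR : (1 : ℝ) ≤ T := by exact_mod_cast hT
  have hm : (0 : ℝ) < 2 * k + T := by linarith
  obtain ⟨t, ht⟩ : ∃ t : ℝ, t = (T : ℝ) / (2 * k + T) := ⟨_, rfl⟩
  have ht0 : 0 < t := by rw [ht]; exact div_pos (by linarith) hm
  have ht1 : t < 1 := by rw [ht, div_lt_one hm]; linarith
  have e2t : 2 + t = (4 * k + 3 * T) / (2 * k + T) := by
    rw [ht]; field_simp; ring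
  have e1t : 1 + t = (2 * k + 2 * T) / (2 * k + T) := by
    rw [ht]; field_simp; ring
  have em : 1 - t = (2 * k) / (2 * k + T) := by
    rw [ht]; field_simp; ring
  have eA : t / (2 * (1 + t)) = (T : ℝ) / (4 * (k + T)) := by
    rw [e1t, ht]; field_simp; ring
  have eB : t / (2 * (1 - t)) = (T : ℝ) / (4 * k) := by
    rw [em, ht]; field_simp; ring
  have key : (4 * (k : ℝ) + 3 * T) * q * N ≤ (2 * k + T) * N := by
    rcases hN0.eq_or_lt with h0 | hNp
    · rw [← h0]; simp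
    · apply mul_le_mul_of_nonneg_right _ hN0
      by_contra hcon
      push Not at hcon
      have hgt : 1 ≤ (2 + t) * q := by
        rw [e2t, div_mul_eq_mul_div, le_div_iff₀ hm]
        linarith
      have hrb := hR t w q r ht0 ht1 hq hqw hw1 hr hrw (by rw [eA, eB]; exact hmain)
      have hlig := hL t w q ht0 ht1 hq hqw hw1 hgt hrb
      have h1 : ((k : ℝ) + T) * (1 - w) ≤ T := by
        rw [e1t, ht, div_mul_eq_mul_div, ← mul_div_assoc, div_le_div_iff_of_pos_right hm] at hlig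
        linarith
      obtain ⟨ε, hε⟩ : ∃ ε : ℝ, ε = 1 / ((k : ℝ) + T + 1) := ⟨_, rfl⟩
      have hs1 : (0 : ℝ) < (k : ℝ) + T + 1 := by linarith
      have hε1 : ((k : ℝ) + T + 1) * ε = 1 := by rw [hε]; field_simp
      have hbn : (q - ε) * N ≤ (bn C x k : ℝ) := by
        have : ((k : ℝ) + T + 1) * ((q - ε) * N) ≤ ((k : ℝ) + T + 1) * (bn C x k : ℝ) := by
          have e : ((k : ℝ) + T + 1) * ((q - ε) * N) =
              ((k : ℝ) + T + 1) * (q * N) - (((k : ℝ) + T + 1) * ε) * N := by ring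
          rw [e, hε1, ← hbad]
          linarith
        exact le_of_mul_le_mul_left this hs1
      have h2 : 2 * (T : ℝ) * (q - ε) + k * r + k * w ≤ k + (T - φ * (k + T)) * (1 + q - r) := by
        rw [hbad, hpp, hhvy] at hE'
        have hh : 2 * (T : ℝ) * ((q - ε) * N) ≤ 2 * T * (bn C x k : ℝ) :=
          mul_le_mul_of_nonneg_left hbn (by linarith)
        have : (2 * (T : ℝ) * (q - ε) + k * r + k * w) * N ≤
            (k + (T - φ * (k + T)) * (1 + q - r)) * N := by linarith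
        exact le_of_mul_le_mul_right this hNp
      have hs0 : (0 : ℝ) < (k : ℝ) + T := by linarith
      have h32 : (0 : ℝ) < 3 * (k : ℝ) + 2 * T := by linarith
      have hDT : (T : ℝ) - φ * (k + T) ≤ T := by
        have : 0 ≤ φ := by
          refine le_trans ?_ hφ2
          positivity
        have := mul_nonneg this hs0.le
        linarith
      have h3 : 2 * ((T : ℝ) - φ * (k + T)) * ((k + T) * (3 * k + 2 * T)) ≤
          (T : ℝ) ^ 2 * (3 * k + 2 * T) - 2 * T * ε * ((k + T) * (4 * k + 3 * T)) := by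
        have e : (T : ℝ) * (4 * k + 3 * T) / ((k + T) * (3 * k + 2 * T) * (k + T + 1)) =
            T * (4 * k + 3 * T) * ε / ((k + T) * (3 * k + 2 * T)) := by
          rw [hε]; field_simp
        rw [e] at hφ2
        have := mul_le_mul_of_nonneg_left hφ2
          (show (0 : ℝ) ≤ 2 * ((k + T) ^ 2 * (3 * k + 2 * T)) by positivity)
        have e3 : 2 * (((k : ℝ) + T) ^ 2 * (3 * k + 2 * T)) *
            ((T : ℝ) * (2 * k + T) / (2 * (k + T) ^ 2) +
              T * (4 * k + 3 * T) * ε / ((k + T) * (3 * k + 2 * T))) =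
            (3 * k + 2 * T) * (T * (2 * k + T)) + 2 * (k + T) * (T * (4 * k + 3 * T) * ε) := by
          field_simp
        rw [e3] at this
        linarith
      have := HO2_real k T (T - φ * (k + T)) w q r ε hkR hTR hr (by linarith) hDT h1 h2 h3
      linarith
  have : ((4 * k + 3 * T) * MP_9999b5_mr.bad C x k : ℝ) ≤
      (2 * k + T) * ((MP_9999b5_mr.prs C k).card : ℝ) := by
    rw [hbad, ← hNdef]
    linarith
  exact_mod_cast this

end Pool.Agent.Work.MP_9999b5_sp
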