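import Pool.Agent.Work.MP_9999b5_sp.Interface4

set_option autoImplicit false

namespace Pool.Agent.Work.MP_9999b5_sp

open Finset

theorem HOE_real (t φ w q r : ℝ) (ht : 0 < t) (hq : 0 ≤ q) (hr : 0 ≤ r)
    (h1 : (1 + t) * (1 - w) ≤ 2 * t) (h2 : 2 * φ * q + r + w ≤ 1)
    (h3 : t * (2 + t) ≤ φ * (1 + t)) : (2 + t) * q ≤ 1 := by
  have e1 : φ * q * (1 + t) ≤ t := by
    have : (1 + t) * (2 * φ * q) ≤ (1 + t) * (1 - w) :=
      mul_le_mul_of_nonneg_left (by linarith) (by linarith)
    nlinarith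
  have e2 : q * (t * (2 + t)) ≤ q * (φ * (1 + t)) := mul_le_mul_of_nonneg_left h3 hq
  have e3 : t * ((2 + t) * q) ≤ t * 1 := by nlinarith
  exact le_of_mul_le_mul_left e3 ht

theorem p_HOE : Stmt_NR2 → Stmt_RBZ → Stmt_LIG → Stmt_EXG → Stmt_HOE := by
  intro hN hR hL hE k T φ hk hT hTk hW hφ ι _ C x hC hx hs
  obtain ⟨w, q, r, hq, hqw, hw1, hr, hrw, hbad, hhvy, hpp, hmain⟩ := hN ι C x k T hk hC
  have hE' := hE k T φ hk hTk hW ι C x hC hx hs
  set N : ℝ := ((MP_9999b5_mr.prs C k).card : ℝ) with hNdef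
  have hN0 : 0 ≤ N := by rw [hNdef]; exact Nat.cast_nonneg _
  have hkR : (1 : ℝ) ≤ k := by exact_mod_cast hk
  have hTR : (1 : ℝ) ≤ T := by exact_mod_cast hT
  have hm : (0 : ℝ) < 2 * k + T := by linarith
  set t : ℝ := (T : ℝ) / (2 * k + T) with ht
  have ht0 : 0 < t := div_pos (by linarith) hm
  have ht1 : t < 1 := by rw [ht, div_lt_one hm]; linarith
  have e2t : 2 + t = (4 * k + 3 * T) / (2 * k + T) := by
    rw [ht]; field_simp; ring
  have e1t : 1 + t = (2 * k + 2 * T) / (2 * k + T) := by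
    rw [ht]; field_simp; ring
  have em : 1 - t = (2 * k) / (2 * k + T) := by
    rw [ht]; field_simp; ring
  have eA : t / (2 * (1 + t)) = (T : ℝ) / (4 * (k + T)) := by
    rw [e1t, ht]; field_simp; ring
  have eB : t / (2 * (1 - t)) = (T : ℝ) / (4 * k) := by
    rw [em, ht]; field_simp; ring
  have key : (2 + t) * q * N ≤ N := by
    rcases hN0.eq_or_lt with h0 | hNp
    · rw [← h0]; simp
    · by_contra hcon
      have hgt : 1 < (2 + t) * q := by
        by_contra h
        push Not at h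
        apply hcon
        nlinarith
      have hrb := hR t w q r ht0 ht1 hq hqw hw1 hr hrw (by rw [eA, eB]; exact hmain)
      have hlig := hL t w q ht0 ht1 hq hqw hw1 hgt.le hrb
      have h2 : 2 * φ * q + r + w ≤ 1 := by
        rw [hbad, hpp, hhvy] at hE'
        have : (2 * φ * q + r + w) * N ≤ 1 * N := by nlinarith
        exact le_of_mul_le_mul_right this hNp
      have h3 : t * (2 + t) ≤ φ * (1 + t) := by
        rw [e2t, e1t, ht, div_mul_div_comm, ← mul_div_assoc, div_le_div_iff₀ (by positivity) hm]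
        nlinarith
      have := HOE_real t φ w q r ht0 hq hr hlig h2 h3
      linarith
  have : ((4 * k + 3 * T) * MP_9999b5_mr.bad C x k : ℝ) ≤
      (2 * k + T) * ((MP_9999b5_mr.prs C k).card : ℝ) := by
    rw [hbad, ← hNdef]
    have e : (4 * (k : ℝ) + 3 * T) = (2 + t) * (2 * k + T) := by
      rw [e2t]; field_simp
    rw [e]
    have := mul_le_mul_of_nonneg_left key hm.le
    nlinarith
  exact_mod_cast this

end Pool.Agent.Work.MP_9999b5_sp
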