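import Pool.Agent.Work.MP_9999b5_sp.Interface4

set_option autoImplicit false

namespace Pool.Agent.Work.MP_9999b5_sp

open Finset

theorem p_HOM : Stmt_QOE → Stmt_RD4 → Stmt_HOM := by
  intro hQOE hRD4 k T hk hT hHO
  exact hRD4 k T hk (hQOE k T hk hT hHO) hHO

end Pool.Agent.Work.MP_9999b5_sp
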