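import Pool.Agent.Work.MP_9999b5_sp.Interface2

/-!
HPA (MP_9999b5_co, spectral part): (H') implies (H'a).
-/

set_option autoImplicit false

namespace Pool.Agent.Work.MP_9999b5_sp

open Finset

theorem p_HPA (hPAC : MP_9999b5_mr.Stmt_PAC) (hMON : MP_9999b5_mr.Stmt_MON) : Stmt_HPA := by
  intro k T hk hHP ι _ C x a hC hinj hsum ha hmax
  have h1 := hHP ι C x hC hinj hsum
  obtain ⟨p1, p2, -⟩ := hPAC ι C x k
  rw [p1, p2, hC] at h1
  have h2 := hMON ι C x k (2 * k) a ha hmax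
  rw [hC] at h2
  have h3 : 2 * k * (2 * k + T).choose (2 * k) =
      (2 * k + T) * (2 * k + T - 1).choose (2 * k - 1) := by
    obtain ⟨m, hm⟩ : ∃ m, 2 * k + T = m + 1 := ⟨2 * k + T - 1, by omega⟩
    obtain ⟨l, hl⟩ : ∃ l, 2 * k = l + 1 := ⟨2 * k - 1, by omega⟩
    rw [hm, hl, Nat.add_sub_cancel, Nat.add_sub_cancel, Nat.add_one_mul_choose_eq, mul_comm]
  set S := ∑ U ∈ (C.powersetCard (2 * k)).filter (fun U => a ∈ U), MP_9999b5_mr.al x k U with hS
  set A := ∑ U ∈ C.powersetCard (2 * k), MP_9999b5_mr.al x k U with hA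
  apply Nat.le_of_mul_le_mul_left _ (show 0 < 2 * k + T by omega)
  calc (2 * k + T) * ((2 * k + T) * S) ≤ (2 * k + T) * (2 * k * A) := Nat.mul_le_mul_left _ h2
    _ = 2 * k * ((2 * k + T) * A) := by ring
    _ ≤ 2 * k * (k * ((2 * k).choose k * (2 * k + T).choose (2 * k))) := Nat.mul_le_mul_left _ h1
    _ = k * (2 * k).choose k * (2 * k * (2 * k + T).choose (2 * k)) := by ring
    _ = k * (2 * k).choose k * ((2 * k + T) * (2 * k + T - 1).choose (2 * k - 1)) := by rw [h3]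
    _ = (2 * k + T) * (k * ((2 * k).choose k * (2 * k + T - 1).choose (2 * k - 1))) := by ring

end Pool.Agent.Work.MP_9999b5_sp
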