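import Pool.Agent.Work.MP_9999b5_sp.Interface

/-!
Block HSP: (H) for a set `C` with at least three tenths positive `k`-subsets, by negative association (helper67).
-/

set_option autoImplicit false

namespace Pool.Agent.Work.MP_9999b5_sp

open Finset

lemma HSP_prs {ι : Type} [DecidableEq ι] (C : Finset ι) (k : ℕ) :
    (MP_9999b5_mr.prs C k).card = C.card.choose k * (C.card - k).choose k := by
  have h1 : (MP_9999b5_mr.prs C k).card =
      ∑ A ∈ C.powersetCard k, ((C.powersetCard k).filter (fun B => Disjoint A B)).card := by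
    unfold MP_9999b5_mr.prs
    rw [Finset.card_filter, Finset.sum_product]
    refine Finset.sum_congr rfl ?_
    intro A _
    rw [Finset.card_filter]
  rw [h1]
  have h2 : ∀ A ∈ C.powersetCard k,
      ((C.powersetCard k).filter (fun B => Disjoint A B)).card = (C.card - k).choose k := by
    intro A hA
    rw [Finset.mem_powersetCard] at hA
    have h3 : (C.powersetCard k).filter (fun B => Disjoint A B) = (C \ A).powersetCard k := by
      ext B
      simp only [Finset.mem_filter, Finset.mem_powersetCard, Finset.subset_sdiff]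
      constructor
      · rintro ⟨⟨h4, h5⟩, h6⟩
        exact ⟨⟨h4, h6.symm⟩, h5⟩
      · rintro ⟨⟨h4, h5⟩, h6⟩
        exact ⟨⟨h4, h6⟩, h5.symm⟩
    rw [h3, Finset.card_powersetCard, Finset.card_sdiff_of_subset hA.1, hA.2]
  rw [Finset.sum_congr rfl h2, Finset.sum_const, Finset.card_powersetCard, smul_eq_mul]

lemma HSP_bad {ι : Type} [DecidableEq ι] (C : Finset ι) (x : ι → ℝ) (k : ℕ) :
    MP_9999b5_mr.bad C x k = lo2 C x k k 0 0 := by
  unfold MP_9999b5_mr.bad lo2 MP_9999b5_mr.prs
  rw [Finset.filter_filter]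

lemma HSP_lo {ι : Type} [DecidableEq ι] (C : Finset ι) (x : ι → ℝ) (k : ℕ) :
    lo C x k 0 + MaxSums.pos x C k = C.card.choose k := by
  unfold lo MaxSums.pos
  rw [← Finset.card_powersetCard, ← Finset.card_filter_add_card_filter_not
    (s := C.powersetCard k) (fun B => ∑ i ∈ B, x i ≤ 0)]
  congr 2
  apply Finset.filter_congr
  intro B _
  rw [not_le]

theorem p_HSP : Stmt_NEA → Stmt_HSP := by
  intro hN ι _ C x k h2k hpos
  have h1 := hN ι C x k k 0 0 (by omega)
  rw [← HSP_bad] at h1
  have h2 := HSP_lo C x k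
  rw [HSP_prs]
  have hc : 0 < C.card.choose k := Nat.choose_pos (by omega)
  generalize C.card.choose k = c at *
  generalize (C.card - k).choose k = d at *
  generalize MP_9999b5_mr.bad C x k = b at *
  generalize lo C x k 0 = l at *
  generalize MaxSums.pos x C k = p at *
  have h3 : 10 * l ≤ 7 * c := by omega
  have h4 : (10 * l) * (10 * l) ≤ (7 * c) * (7 * c) := Nat.mul_le_mul h3 h3
  have h5 : 100 * (l * l * d) ≤ 49 * (c * c * d) := by
    have h6 := Nat.mul_le_mul_right d h4
    nlinarith
  have h7 : (2 * b) * c ≤ (c * d) * c := by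
    nlinarith
  exact Nat.le_of_mul_le_mul_right h7 hc

end Pool.Agent.Work.MP_9999b5_sp
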