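import Pool.Agent.Work.MP_9999b5_sp.Interface3

/-! # Block KN2: the disjointness operator on functions with zero degrees (helper7) -/

set_option autoImplicit false

namespace Pool.Agent.Work.MP_9999b5_sp

open Finset

lemma KN2_bij {ι : Type} [DecidableEq ι] (C : Finset ι) (k T : ℕ) (g : Finset ι → ℝ)
    (hC : C.card = 2 * k + T) :
    ∑ A ∈ C.powersetCard k, (∑ B ∈ (C \ A).powersetCard k, g B) ^ 2 =
      ∑ W ∈ C.powersetCard (k + T), (∑ B ∈ W.powersetCard k, g B) ^ 2 := by
  refine sum_nbij' (fun A => C \ A) (fun W => C \ W) ?_ ?_ ?_ ?_ ?_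
  · intro A hA
    have h := mem_powersetCard.1 hA
    refine mem_powersetCard.2 ⟨sdiff_subset, ?_⟩
    rw [card_sdiff_of_subset h.1, hC, h.2]
    omega
  · intro W hW
    have h := mem_powersetCard.1 hW
    refine mem_powersetCard.2 ⟨sdiff_subset, ?_⟩
    rw [card_sdiff_of_subset h.1, hC, h.2]
    omega
  · intro A hA
    exact Finset.sdiff_sdiff_eq_self (mem_powersetCard.1 hA).1
  · intro W hW
    exact Finset.sdiff_sdiff_eq_self (mem_powersetCard.1 hW).1
  · intro A _
    rfl

/-- KN2. -/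
theorem p_KN2 : Stmt_TL2 → Stmt_KN2 := by
  intro hTL ι _ C k T g hk hC hZ
  have h1 := hTL ι C k (k + T) g hk (Nat.le_add_right _ _) (by omega) hZ
  have e1 : C.card - k - 2 = k + T - 2 := by omega
  have e2 : k + T - k = T := by omega
  have e3 : (k + T - 2).choose T = (k + T - 2).choose (k - 2) :=
    Nat.choose_symm_of_eq_add (by omega)
  rw [e1, e2, e3, ← KN2_bij C k T g hC] at h1
  set c : ℝ := ((k + T - 2).choose (k - 2) : ℝ) with hcdef
  have hc : 0 < c := by
    have : 0 < (k + T - 2).choose (k - 2) := Nat.choose_pos (by omega)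
    rw [hcdef]
    exact_mod_cast this
  have h2 : ∀ A ∈ C.powersetCard k, g A * ∑ B ∈ (C \ A).powersetCard k, g B ≤
      c / 2 * g A ^ 2 + 1 / (2 * c) * (∑ B ∈ (C \ A).powersetCard k, g B) ^ 2 := by
    intro A _
    set v := ∑ B ∈ (C \ A).powersetCard k, g B
    have e : c / 2 * g A ^ 2 + 1 / (2 * c) * v ^ 2 - g A * v =
        1 / (2 * c) * (c * g A - v) ^ 2 := by
      field_simp
      ring
    have : 0 ≤ 1 / (2 * c) * (c * g A - v) ^ 2 := by positivity
    linarith
  refine (sum_le_sum h2).trans ?_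
  rw [sum_add_distrib, ← mul_sum, ← mul_sum]
  have h3 : 1 / (2 * c) * ∑ A ∈ C.powersetCard k, (∑ B ∈ (C \ A).powersetCard k, g B) ^ 2 ≤
      1 / (2 * c) * (c * c * ∑ B ∈ C.powersetCard k, g B ^ 2) :=
    mul_le_mul_of_nonneg_left h1 (by positivity)
  have h4 : 1 / (2 * c) * (c * c * ∑ B ∈ C.powersetCard k, g B ^ 2) =
      c / 2 * ∑ B ∈ C.powersetCard k, g B ^ 2 := by
    field_simp
  rw [h4] at h3
  linarith

end Pool.Agent.Work.MP_9999b5_sp
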