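import Pool.Agent.Work.MP_9999b5_sp.Interface3

/-!
# Block KSY: the disjointness operator is symmetric (helper32)
-/

set_option autoImplicit false

namespace Pool.Agent.Work.MP_9999b5_sp

open Finset

theorem p_KSY : Stmt_KSY := by
  intro ι _ C k f g
  simp only [Finset.mul_sum]
  rw [Finset.sum_comm' (s' := fun B => (C \ B).powersetCard k) (t' := C.powersetCard k)]
  · refine Finset.sum_congr rfl fun B _ => Finset.sum_congr rfl fun A _ => mul_comm _ _
  · intro A B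
    simp only [Finset.mem_powersetCard, Finset.subset_sdiff]
    constructor
    · rintro ⟨⟨h1, h2⟩, ⟨h3, h4⟩, h5⟩
      exact ⟨⟨⟨h1, h4.symm⟩, h2⟩, h3, h5⟩
    · rintro ⟨⟨⟨h1, h4⟩, h2⟩, h3, h5⟩
      exact ⟨⟨h1, h2⟩, ⟨h3, h4.symm⟩, h5⟩

end Pool.Agent.Work.MP_9999b5_sp
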