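import Pool.Agent.Work.MP_9999b5_sp.Interface4

set_option autoImplicit false

/-! Block LIG (typed by helper95). -/

namespace Pool.Agent.Work.MP_9999b5_sp

open Finset

theorem p_LIG : Stmt_LIG := by
  intro t w q ht ht1 hq hqw hw h1 h2
  have hD : 0 < q ^ 2 - t * (1 + t) * q + t := by
    nlinarith [sq_nonneg (q - t * (1 + t) / 2), mul_pos ht (sub_pos.2 ht1),
      mul_pos ht (mul_pos (sub_pos.2 ht1) (sub_pos.2 ht1)), mul_pos ht ht]
  have e1 : (q ^ 2 - t * (1 + t) * q + t) * (1 - w) ≤ t * ((1 - q) * (1 - t * q)) := by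
    nlinarith
  have e2 : 0 ≤ (1 - t) * (((2 + t) * q - 1) * (q + 1)) :=
    mul_nonneg (sub_pos.2 ht1).le (mul_nonneg (by linarith) (by linarith))
  have e3 : (1 + t) * ((1 - q) * (1 - t * q)) ≤ 2 * (q ^ 2 - t * (1 + t) * q + t) := by
    nlinarith
  have e4 : (q ^ 2 - t * (1 + t) * q + t) * ((1 + t) * (1 - w)) ≤
      (q ^ 2 - t * (1 + t) * q + t) * (2 * t) := by
    calc (q ^ 2 - t * (1 + t) * q + t) * ((1 + t) * (1 - w))
        = (1 + t) * ((q ^ 2 - t * (1 + t) * q + t) * (1 - w)) := by ring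
      _ ≤ (1 + t) * (t * ((1 - q) * (1 - t * q))) := mul_le_mul_of_nonneg_left e1 (by linarith)
      _ = t * ((1 + t) * ((1 - q) * (1 - t * q))) := by ring
      _ ≤ t * (2 * (q ^ 2 - t * (1 + t) * q + t)) := mul_le_mul_of_nonneg_left e3 ht.le
      _ = _ := by ring
  exact le_of_mul_le_mul_left e4 hD

end Pool.Agent.Work.MP_9999b5_sp
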