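import Pool.Agent.Work.MP_9999b5_sp.Interface

/-!
Block LMO of `msp_blocks` (MP_9999b5_co): counting of the pairs `(B, b)`.
-/

set_option autoImplicit false

namespace Pool.Agent.Work.MP_9999b5_sp

open Finset

theorem p_LMO : Stmt_LMO := by
  intro ι _ C x a k s ha hk
  unfold lo
  set L := (C.powersetCard k).filter (fun B => ∑ i ∈ B, x i ≤ s - x a) with hL
  set R := (C.powersetCard (k + 1)).filter (fun B => ∑ i ∈ B, x i ≤ s) with hR
  have e1 : (C.card - k) * L.card = (L.sigma (fun B => C \ B)).card := by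
    rw [Finset.card_sigma, Finset.sum_const_nat (m := C.card - k)]
    · ring
    · intro B hB
      have h := Finset.mem_powersetCard.1 (Finset.mem_filter.1 hB).1
      rw [Finset.card_sdiff_of_subset h.1, h.2]
  have e2 : (k + 1) * R.card = (R.sigma (fun B => B)).card := by
    rw [Finset.card_sigma, Finset.sum_const_nat (m := k + 1)]
    · ring
    · intro B hB
      exact (Finset.mem_powersetCard.1 (Finset.mem_filter.1 hB).1).2
  rw [e1, e2]
  apply Finset.card_le_card_of_injOn (fun p => ⟨insert p.2 p.1, p.2⟩)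
  · rintro ⟨B, b⟩ hp
    have hp' := Finset.mem_sigma.1 hp
    have hB := Finset.mem_filter.1 hp'.1
    have hB' := Finset.mem_powersetCard.1 hB.1
    have hb := Finset.mem_sdiff.1 hp'.2
    have hBs : ∑ i ∈ B, x i ≤ s - x a := hB.2
    refine Finset.mem_coe.2 (Finset.mem_sigma.2 ⟨Finset.mem_filter.2
      ⟨Finset.mem_powersetCard.2 ⟨?_, ?_⟩, ?_⟩, Finset.mem_insert_self _ _⟩)
    · exact Finset.insert_subset hb.1 hB'.1
    · rw [Finset.card_insert_of_notMem hb.2, hB'.2]
    · rw [Finset.sum_insert hb.2]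
      have := ha b hb.1
      linarith
  · rintro ⟨B, b⟩ hp ⟨B', b'⟩ hq h
    have hp' := Finset.mem_sigma.1 hp
    have hq' := Finset.mem_sigma.1 hq
    have hb : b ∉ B := (Finset.mem_sdiff.1 hp'.2).2
    have hb' : b' ∉ B' := (Finset.mem_sdiff.1 hq'.2).2
    simp only [Sigma.mk.injEq] at h
    obtain ⟨h1, h2⟩ := h
    have h3 : b = b' := eq_of_heq h2
    subst h3
    have h4 : B = B' := by
      rw [← Finset.erase_insert hb, ← Finset.erase_insert hb', h1]
    subst h4
    rfl

end Pool.Agent.Work.MP_9999b5_sp
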