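import Pool.Agent.Work.MP_9999b5_sp.Interface

/-!
Block LOS of `MP_9999b5_sp`: splitting the counts `lo`, `lo2` by an element `a`.
-/

set_option autoImplicit false

namespace Pool.Agent.Work.MP_9999b5_sp

open Finset

theorem LOS_sum {ι : Type} [DecidableEq ι] (C : Finset ι) (a : ι) (ha : a ∉ C) (k : ℕ)
    (F : Finset ι → ℕ) :
    ∑ B ∈ (insert a C).powersetCard (k + 1), F B =
      ∑ B ∈ C.powersetCard (k + 1), F B + ∑ B ∈ C.powersetCard k, F (insert a B) := by
  have hn : ∀ B ∈ C.powersetCard k, a ∉ B := fun B hB hh =>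
    ha ((mem_powersetCard.mp hB).1 hh)
  rw [powersetCard_succ_insert ha, sum_union, sum_image]
  · intro B hB B' hB' h
    have h1 := hn B hB
    have h2 := hn B' hB'
    have h3 : (insert a B).erase a = (insert a B').erase a := by
      have h4 : insert a B = insert a B' := h
      rw [h4]
    rwa [erase_insert h1, erase_insert h2] at h3
  · rw [disjoint_left]
    intro B hB hB'
    rw [mem_image] at hB'
    obtain ⟨B', _, rfl⟩ := hB'
    exact ha ((mem_powersetCard.mp hB).1 (mem_insert_self a B'))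

theorem p_LOS : Stmt_LOS := by
  classical
  intro ι _ C x a ha
  have hn : ∀ (k : ℕ), ∀ B ∈ C.powersetCard k, a ∉ B := fun k B hB hh =>
    ha ((mem_powersetCard.mp hB).1 hh)
  refine ⟨?_, ?_⟩
  · intro k s
    unfold lo
    rw [card_filter, card_filter, card_filter, LOS_sum C a ha k]
    congr 1
    refine sum_congr rfl fun B hB => ?_
    rw [sum_insert (hn k B hB)]
    have : (x a + ∑ i ∈ B, x i ≤ s) ↔ (∑ i ∈ B, x i ≤ s - x a) := by
      constructor <;> intro h <;> linarith
    simp only [this]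
  · intro j k s t
    unfold lo2
    rw [card_filter, card_filter, card_filter, card_filter, sum_product, sum_product, sum_product,
      sum_product, LOS_sum C a ha j]
    have e1 : ∀ A ∈ C.powersetCard (j + 1), ∑ B ∈ (insert a C).powersetCard (k + 1),
        (if Disjoint (A, B).1 (A, B).2 ∧ ∑ i ∈ (A, B).1, x i ≤ s ∧ ∑ i ∈ (A, B).2, x i ≤ t
          then 1 else 0) =
        ∑ B ∈ C.powersetCard (k + 1),
          (if Disjoint (A, B).1 (A, B).2 ∧ ∑ i ∈ (A, B).1, x i ≤ s ∧ ∑ i ∈ (A, B).2, x i ≤ t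
            then 1 else 0) +
        ∑ B ∈ C.powersetCard k,
          (if Disjoint (A, B).1 (A, B).2 ∧ ∑ i ∈ (A, B).1, x i ≤ s ∧
              ∑ i ∈ (A, B).2, x i ≤ t - x a then 1 else 0) := by
      intro A hA
      rw [LOS_sum C a ha k]
      congr 1
      refine sum_congr rfl fun B hB => ?_
      have h1 : a ∉ A := hn (j + 1) A hA
      have h2 : a ∉ B := hn k B hB
      have h3 : (Disjoint A (insert a B) ∧ ∑ i ∈ A, x i ≤ s ∧ ∑ i ∈ insert a B, x i ≤ t) ↔
          (Disjoint A B ∧ ∑ i ∈ A, x i ≤ s ∧ ∑ i ∈ B, x i ≤ t - x a) := by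
        rw [disjoint_insert_right, sum_insert h2]
        constructor
        · rintro ⟨⟨_, hd⟩, hs, ht⟩
          exact ⟨hd, hs, by linarith⟩
        · rintro ⟨hd, hs, ht⟩
          exact ⟨⟨h1, hd⟩, hs, by linarith⟩
      simp only [h3]
    have e2 : ∀ A ∈ C.powersetCard j, ∑ B ∈ (insert a C).powersetCard (k + 1),
        (if Disjoint (insert a A, B).1 (insert a A, B).2 ∧ ∑ i ∈ (insert a A, B).1, x i ≤ s ∧
            ∑ i ∈ (insert a A, B).2, x i ≤ t then 1 else 0) =
        ∑ B ∈ C.powersetCard (k + 1),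
          (if Disjoint (A, B).1 (A, B).2 ∧ ∑ i ∈ (A, B).1, x i ≤ s - x a ∧
              ∑ i ∈ (A, B).2, x i ≤ t then 1 else 0) := by
      intro A hA
      have h1 : a ∉ A := hn j A hA
      rw [LOS_sum C a ha k]
      have h0 : ∑ B ∈ C.powersetCard k,
          (if Disjoint (insert a A, insert a B).1 (insert a A, insert a B).2 ∧
              ∑ i ∈ (insert a A, insert a B).1, x i ≤ s ∧
              ∑ i ∈ (insert a A, insert a B).2, x i ≤ t then 1 else 0) = 0 := by
        refine sum_eq_zero fun B _ => ?_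
        rw [if_neg]
        rintro ⟨hd, _⟩
        exact disjoint_left.mp hd (mem_insert_self a A) (mem_insert_self a B)
      rw [h0, add_zero]
      refine sum_congr rfl fun B hB => ?_
      have h2 : a ∉ B := hn (k + 1) B hB
      have h3 : (Disjoint (insert a A) B ∧ ∑ i ∈ insert a A, x i ≤ s ∧ ∑ i ∈ B, x i ≤ t) ↔
          (Disjoint A B ∧ ∑ i ∈ A, x i ≤ s - x a ∧ ∑ i ∈ B, x i ≤ t) := by
        rw [disjoint_insert_left, sum_insert h1]
        constructor
        · rintro ⟨⟨_, hd⟩, hs, ht⟩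
          exact ⟨hd, by linarith, ht⟩
        · rintro ⟨hd, hs, ht⟩
          exact ⟨⟨h2, hd⟩, by linarith, ht⟩
      simp only [h3]
    rw [sum_congr rfl e1, sum_congr rfl e2, sum_add_distrib]
    ring

end Pool.Agent.Work.MP_9999b5_sp
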