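import Pool.Agent.Work.MP_9999b5_sp.Interface3

set_option autoImplicit false

namespace Pool.Agent.Work.MP_9999b5_sp

open Finset

/-- the number of the `b`-sets containing a given element -/
theorem LSM_count {ι : Type} [DecidableEq ι] (D : Finset ι) (b : ℕ) (hb : 1 ≤ b) (j : ι) (hj : j ∈ D) :
    ((D.powersetCard b).filter (fun W => j ∈ W)).card = (D.card - 1).choose (b - 1) := by
  rw [← card_erase_of_mem hj, ← card_powersetCard]
  refine card_bij (fun W _ => W.erase j) ?_ ?_ ?_
  · intro W hW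
    obtain ⟨hW1, hjW⟩ := mem_filter.1 hW
    obtain ⟨hWD, hWc⟩ := mem_powersetCard.1 hW1
    refine mem_powersetCard.2 ⟨?_, ?_⟩
    · intro x hx
      have hx' := mem_erase.1 hx
      exact mem_erase.2 ⟨hx'.1, hWD hx'.2⟩
    · rw [card_erase_of_mem hjW, hWc]
  · intro W hW W' hW' h
    have hjW := (mem_filter.1 hW).2
    have hjW' := (mem_filter.1 hW').2
    rw [← insert_erase hjW, ← insert_erase hjW', h]
  · intro W hW
    obtain ⟨hWD, hWc⟩ := mem_powersetCard.1 hW
    have hjW : j ∉ W := fun h => (mem_erase.1 (hWD h)).1 rfl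
    refine ⟨insert j W, mem_filter.2 ⟨mem_powersetCard.2 ⟨?_, ?_⟩, mem_insert_self _ _⟩,
      erase_insert hjW⟩
    · intro x hx
      rcases mem_insert.1 hx with rfl | hx
      · exact hj
      · exact (mem_erase.1 (hWD hx)).2
    · rw [card_insert_of_notMem hjW, hWc]
      omega

/-- **LSM.** -/
theorem p_LSM : Stmt_LSM := by
  intro ι _ D b γ hb
  have h1 : ∀ W ∈ D.powersetCard b, ∑ j ∈ W, γ j = ∑ j ∈ D, (if j ∈ W then γ j else 0) := by
    intro W hW
    rw [← sum_filter]
    refine sum_congr ?_ fun _ _ => rfl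
    ext x
    simp only [mem_filter]
    exact ⟨fun h => ⟨(mem_powersetCard.1 hW).1 h, h⟩, fun h => h.2⟩
  rw [sum_congr rfl h1, sum_comm, mul_sum]
  refine sum_congr rfl fun j hj => ?_
  rw [← sum_filter, sum_const, nsmul_eq_mul, LSM_count D b hb j hj]

end Pool.Agent.Work.MP_9999b5_sp
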