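import Pool.Agent.Work.MP_9999b5_sp.Interface5

/-!
# Block MS2: `MMS(k+T,T)` implies `MMS(4k+T,k)` for `T ≥ 3` (helper32)
-/

set_option autoImplicit false

namespace Pool.Agent.Work.MP_9999b5_sp

open Finset

theorem MS2_num (a b : ℝ) (ha : 1 ≤ a) (hb : 3 ≤ b) :
    b * (2 * a + b) / (2 * (a + b) ^ 2) +
      b * (4 * a + 3 * b) / ((a + b) * (3 * a + 2 * b) * (a + b + 1)) ≤ b / (a + b) := by
  have h1 : 0 < a + b := by linarith
  have h2 : 0 < 3 * a + 2 * b := by linarith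
  have h3 : 0 < a + b + 1 := by linarith
  have hb0 : 0 < b := by linarith
  have e1 : b / (a + b) - b * (2 * a + b) / (2 * (a + b) ^ 2) = b ^ 2 / (2 * (a + b) ^ 2) := by
    field_simp
    ring
  have key : 2 * (a + b) * (4 * a + 3 * b) ≤ b * ((3 * a + 2 * b) * (a + b + 1)) := by
    have h4 : 3 * ((3 * a + 2 * b) * (a + b + 1)) ≤ b * ((3 * a + 2 * b) * (a + b + 1)) :=
      mul_le_mul_of_nonneg_right hb (by positivity)
    have h5 : 0 ≤ a * (a + b) := by positivity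
    nlinarith
  have e2 : b * (4 * a + 3 * b) / ((a + b) * (3 * a + 2 * b) * (a + b + 1)) ≤
      b ^ 2 / (2 * (a + b) ^ 2) := by
    rw [div_le_div_iff₀ (by positivity) (by positivity)]
    have h6 := mul_le_mul_of_nonneg_left key (show 0 ≤ b * (a + b) by positivity)
    calc b * (4 * a + 3 * b) * (2 * (a + b) ^ 2)
        = b * (a + b) * (2 * (a + b) * (4 * a + 3 * b)) := by ring
      _ ≤ b * (a + b) * (b * ((3 * a + 2 * b) * (a + b + 1))) := h6
      _ = _ := by ring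
  linarith

theorem p_MS2 : Stmt_PRT → Stmt_MS3 → Stmt_MS2 := by
  intro hP hM k T hk hT hW
  have hk' : (1 : ℝ) ≤ (k : ℝ) := by exact_mod_cast hk
  have hT' : (3 : ℝ) ≤ (T : ℝ) := by exact_mod_cast hT
  have h0 : (0 : ℝ) < (k : ℝ) + T := by linarith
  refine hM k T ((T : ℝ) / (k + T)) hk (by omega) (hP T (k + T) _ hW) ?_
    (MS2_num (k : ℝ) (T : ℝ) hk' hT')
  rw [div_mul_cancel₀ _ h0.ne']

end Pool.Agent.Work.MP_9999b5_sp
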