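import Pool.Agent.Work.MP_9999b5_sp.Interface5

/-!
MS3 (MP_9999b5_co, typed by helper76).
-/

set_option autoImplicit false

namespace Pool.Agent.Work.MP_9999b5_sp

open Finset

theorem p_MS3 : Stmt_HO2 → Stmt_HOM → Stmt_MS3 := by
  intro hHO2 hHOM k T φ hk hT hW h1 h2
  exact hHOM k T hk hT (hHO2 k T φ hk hT hW h1 h2)

end Pool.Agent.Work.MP_9999b5_sp
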