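import Pool.Agent.Work.MP_9999b5_sp.Interface4

set_option autoImplicit false

namespace Pool.Agent.Work.MP_9999b5_sp

open Finset

theorem p_MST : Stmt_HOE → Stmt_HOM → Stmt_MST := by
  intro hHOE hHOM k T hT hTk hW
  have hk : 1 ≤ k := hT.trans hTk
  apply hHOM k T hk hT
  apply hHOE k T ((T : ℝ) / k) hk hT hTk hW
  have hk0 : (0 : ℝ) < k := by exact_mod_cast hk
  have hT0 : (0 : ℝ) < T := by exact_mod_cast hT
  rw [div_mul_eq_mul_div, le_div_iff₀ hk0]
  have h1 : ((4 : ℝ) * k + 3 * T) * k ≤ (2 * k + T) * (2 * k + 2 * T) := by nlinarith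
  have h2 := mul_le_mul_of_nonneg_left h1 hT0.le
  linarith

end Pool.Agent.Work.MP_9999b5_sp
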