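import Pool.Agent.Work.MP_9999b5_sp.Interface4
import Pool.Agent.Work.MP_9999b5_sp.B_ALP
import Pool.Agent.Work.MP_9999b5_mr.B_PAI
import Pool.Agent.Work.MP_9999b5_mr.B_CNT

set_option autoImplicit false

namespace Pool.Agent.Work.MP_9999b5_sp

open Finset

/-- number of halvings of `W` with both sums positive -/
noncomputable def NR2_h {ι : Type} [DecidableEq ι] (x : ι → ℝ) (k : ℕ) (W : Finset ι) : ℕ :=
  ((W.powersetCard k).filter (fun B => 0 < ∑ i ∈ B, x i ∧ 0 < ∑ i ∈ W \ B, x i)).card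

theorem NR2_pp {ι : Type} [DecidableEq ι] (C : Finset ι) (x : ι → ℝ) (k : ℕ) :
    pp C x k = ∑ W ∈ C.powersetCard (2 * k), NR2_h x k W := by
  have h := MP_9999b5_mr.p_PAI ι C k
    (fun B₁ B₂ => if 0 < ∑ i ∈ B₁, x i ∧ 0 < ∑ i ∈ B₂, x i then 1 else 0)
  unfold pp NR2_h
  rw [Finset.card_filter, h]
  refine Finset.sum_congr rfl (fun U _ => ?_)
  rw [Finset.card_filter]

theorem NR2_h0 {ι : Type} [DecidableEq ι] (W : Finset ι) (x : ι → ℝ) (k : ℕ)
    (hx : ∑ i ∈ W, x i ≤ 0) : NR2_h x k W = 0 := by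
  unfold NR2_h
  rw [card_eq_zero, filter_eq_empty_iff]
  rintro B hB ⟨h1, h2⟩
  have h5 := ALP_sum W B x (mem_powersetCard.1 hB).1
  linarith

theorem NR2_h1 {ι : Type} [DecidableEq ι] (W : Finset ι) (x : ι → ℝ) (k : ℕ)
    (hW : W.card = 2 * k) (hx : 0 < ∑ i ∈ W, x i) :
    2 * MaxSums.pos x W k = (2 * k).choose k + NR2_h x k W := by
  have h1 := card_union_add_card_inter ((W.powersetCard k).filter (fun B => 0 < ∑ i ∈ B, x i))
    ((W.powersetCard k).filter (fun B => 0 < ∑ i ∈ W \ B, x i))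
  rw [ALP_card W x k hW, ← filter_or, ← filter_and] at h1
  have h2 : (W.powersetCard k).filter (fun B => 0 < ∑ i ∈ B, x i ∨ 0 < ∑ i ∈ W \ B, x i) =
      W.powersetCard k := by
    rw [filter_eq_self]
    intro B hB
    have h5 := ALP_sum W B x (mem_powersetCard.1 hB).1
    by_contra h6
    rw [not_or, not_lt, not_lt] at h6
    linarith [h6.1, h6.2]
  rw [h2, card_powersetCard, hW] at h1
  unfold NR2_h
  rw [h1]
  unfold MaxSums.pos
  ring

theorem NR2_one {ι : Type} [DecidableEq ι] (C B : Finset ι) (k : ℕ)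
    (hB : B ∈ C.powersetCard k) :
    ((C.powersetCard (2 * k)).filter (fun W => B ⊆ W)).card = (C.card - k).choose k := by
  obtain ⟨hBC, hBk⟩ := mem_powersetCard.1 hB
  have h2 := MP_9999b5_mr.p_CNT ι C B (2 * k) k hBC (by omega)
  rw [hBk, Nat.choose_self, one_mul] at h2
  have h3 : 2 * k - k = k := by omega
  rw [h3] at h2
  rw [← h2]
  congr 1
  apply filter_congr
  intro W _
  constructor
  · intro h
    rw [inter_eq_right.2 h, hBk]
  · intro h
    have h4 : W ∩ B = B := eq_of_subset_of_card_le inter_subset_right (by rw [h, hBk])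
    exact inter_eq_right.1 h4

/-- double counting of the pairs `B ⊆ W`, `B ∈ P` -/
theorem NR2_dc {ι : Type} [DecidableEq ι] (C : Finset ι) (P : Finset (Finset ι)) (k : ℕ)
    (hP : P ⊆ C.powersetCard k) :
    ∑ W ∈ C.powersetCard (2 * k), (P.filter (fun B => B ⊆ W)).card =
      P.card * (C.card - k).choose k := by
  have h1 : ∑ W ∈ C.powersetCard (2 * k), (P.filter (fun B => B ⊆ W)).card =
      ∑ B ∈ P, ((C.powersetCard (2 * k)).filter (fun W => B ⊆ W)).card := by
    simp only [card_filter]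
    rw [sum_comm]
  have hc : ∑ B ∈ P, ((C.powersetCard (2 * k)).filter (fun W => B ⊆ W)).card =
      ∑ _B ∈ P, (C.card - k).choose k := by
    refine sum_congr rfl fun B hB => ?_
    exact NR2_one C B k (hP hB)
  rw [h1, hc, sum_const, smul_eq_mul]

theorem NR2_alg (w q r c d GH GK : ℝ) (hw0 : 0 ≤ w) (hw1 : w ≤ 1)
    (c1' : ((w - q) / 2) ^ 2 ≤ w * GH) (c2' : ((1 - w + r) / 2) ^ 2 ≤ (1 - w) * GK)
    (href : GH + GK - ((1 - q + r) / 2) ^ 2 + d * (r - ((1 - q + r) / 2) ^ 2) ≤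
      c * ((1 - q + r) / 2 * (1 - (1 - q + r) / 2))) :
    (1 - w) * q ^ 2 + w * r ^ 2 ≤ w * (1 - w) * ((q - r) ^ 2 + c * (1 - (q - r) ^ 2) +
      d * ((1 - q + r) ^ 2 - 4 * r)) := by
  have c3 : (1 - w) * ((w - q) / 2) ^ 2 + w * ((1 - w + r) / 2) ^ 2 ≤
      w * (1 - w) * (GH + GK) := by
    have e1 := mul_le_mul_of_nonneg_left c1' (sub_nonneg.2 hw1)
    have e2 := mul_le_mul_of_nonneg_left c2' hw0
    have e3 : w * (1 - w) * (GH + GK) = (1 - w) * (w * GH) + w * ((1 - w) * GK) := by ring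
    rw [e3]
    linarith
  have c4 : 4 * (GH + GK) ≤ (1 - q + r) ^ 2 + c * (1 - (q - r) ^ 2) +
      d * ((1 - q + r) ^ 2 - 4 * r) := by
    have e1 : c * (1 - (q - r) ^ 2) = 4 * (c * ((1 - q + r) / 2 * (1 - (1 - q + r) / 2))) := by ring
    have e2 : d * ((1 - q + r) ^ 2 - 4 * r) = - (4 * (d * (r - ((1 - q + r) / 2) ^ 2))) := by ring
    rw [e1, e2]
    linarith
  have c5 : (0 : ℝ) ≤ w * (1 - w) := mul_nonneg hw0 (sub_nonneg.2 hw1)
  have c6 := mul_le_mul_of_nonneg_left c4 c5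
  nlinarith [c3, c6]

theorem p_NR2 : MP_9999b5_mr.Stmt_PAC → Stmt_ALP → Stmt_REF4 → Stmt_NR2 := by
  intro hPAC hALP hREF ι _ C x k T hk hC
  classical
  obtain ⟨h1, h2, h3⟩ := hPAC ι C x k
  set H := (C.powersetCard (2 * k)).filter (fun U => ∑ i ∈ U, x i ≤ 0) with hH
  set K := (C.powersetCard (2 * k)).filter (fun U => ¬ ∑ i ∈ U, x i ≤ 0) with hK
  set P := (C.powersetCard k).filter (fun B => 0 < ∑ i ∈ B, x i) with hP
  set X := (2 * k).choose k with hX
  set N := (2 * k + T).choose (2 * k) with hN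
  have hXp : 0 < X := Nat.choose_pos (by omega)
  have hNp : 0 < N := Nat.choose_pos (by omega)
  have hS : ∀ W ∈ C.powersetCard (2 * k), (P.filter (fun B => B ⊆ W)).card = MaxSums.pos x W k := by
    intro W hW
    have hWC : W ⊆ C := (mem_powersetCard.1 hW).1
    unfold MaxSums.pos
    congr 1
    ext B
    simp only [hP, mem_filter, mem_powersetCard]
    constructor
    · rintro ⟨⟨⟨_, hb⟩, hp⟩, hs⟩
      exact ⟨⟨hs, hb⟩, hp⟩
    · rintro ⟨⟨hs, hb⟩, hp⟩
      exact ⟨⟨⟨hs.trans hWC, hb⟩, hp⟩, hs⟩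
  have hHK : H.card + K.card = N := by
    rw [hH, hK, card_filter_add_card_filter_not, card_powersetCard, hC]
  have hbad : MP_9999b5_mr.bad C x k + 2 * ∑ W ∈ H, MaxSums.pos x W k = X * H.card := by
    rw [h2]
    have e1 : ∑ U ∈ C.powersetCard (2 * k), MP_9999b5_mr.al x k U =
        ∑ U ∈ H, MP_9999b5_mr.al x k U := by
      rw [hH, sum_filter]
      refine sum_congr rfl fun U hU => ?_
      split_ifs with h
      · rfl
      · exact (hALP ι U x k (mem_powersetCard.1 hU).2).2 (not_le.1 h)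
    rw [e1, mul_sum, ← sum_add_distrib]
    have e2 : ∀ U ∈ H, MP_9999b5_mr.al x k U + 2 * MaxSums.pos x U k = (2 * k).choose k := by
      intro U hU
      rw [hH, mem_filter, mem_powersetCard] at hU
      exact (hALP ι U x k hU.1.2).1 hU.2
    rw [sum_congr rfl e2, sum_const, smul_eq_mul, mul_comm]
  have hpp : 2 * ∑ W ∈ K, MaxSums.pos x W k = X * K.card + pp C x k := by
    rw [NR2_pp]
    have e1 : ∑ U ∈ C.powersetCard (2 * k), NR2_h x k U = ∑ U ∈ K, NR2_h x k U := by
      rw [hK, sum_filter]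
      refine sum_congr rfl fun U hU => ?_
      split_ifs with h
      · exact NR2_h0 U x k h
      · rfl
    rw [e1, mul_sum]
    have e2 : ∀ U ∈ K, 2 * MaxSums.pos x U k = X + NR2_h x k U := by
      intro U hU
      rw [hK, mem_filter, mem_powersetCard, not_le] at hU
      exact NR2_h1 U x k hU.1.2 hU.2
    rw [sum_congr rfl e2, sum_add_distrib, sum_const, smul_eq_mul, mul_comm]
  have hsub : ∀ W ∈ C.powersetCard (2 * k), MaxSums.pos x W k ≤ X := by
    intro W hW
    unfold MaxSums.pos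
    refine (card_filter_le _ _).trans ?_
    rw [card_powersetCard, (mem_powersetCard.1 hW).2]
  have hKle : ∑ W ∈ K, MaxSums.pos x W k ≤ K.card * X := by
    rw [← smul_eq_mul]
    exact sum_le_card_nsmul K _ X (fun W hW => hsub W (mem_filter.1 hW).1)
  have hdc : (∑ W ∈ H, MaxSums.pos x W k + ∑ W ∈ K, MaxSums.pos x W k) * (2 * k + T).choose k =
      P.card * (X * N) := by
    have e1 : ∑ W ∈ H, MaxSums.pos x W k + ∑ W ∈ K, MaxSums.pos x W k =
        P.card * (C.card - k).choose k := by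
      rw [hH, hK, sum_filter_add_sum_filter_not, ← NR2_dc C P k (filter_subset _ _)]
      exact sum_congr rfl fun W hW => (hS W hW).symm
    have e2 : N * X = (2 * k + T).choose k * (2 * k + T - k).choose (2 * k - k) :=
      Nat.choose_mul (by omega)
    have e3 : 2 * k - k = k := by omega
    rw [e3] at e2
    rw [e1, hC, mul_assoc, mul_comm X N, e2, mul_comm ((2 * k + T - k).choose k)]
  -- real numbers
  have hXr : (0 : ℝ) < X := by exact_mod_cast hXp
  have hNr : (0 : ℝ) < N := by exact_mod_cast hNp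
  have hMr : (0 : ℝ) < ((2 * k + T).choose k : ℕ) := by
    exact_mod_cast Nat.choose_pos (by omega)
  set a : ℝ := ∑ W ∈ H, (MaxSums.pos x W k : ℝ) / X with ha
  set b : ℝ := ∑ W ∈ K, (MaxSums.pos x W k : ℝ) / X with hb
  have haN : a * X = ((∑ W ∈ H, MaxSums.pos x W k : ℕ) : ℝ) := by
    rw [ha, ← sum_div, div_mul_cancel₀ _ hXr.ne']
    push_cast
    rfl
  have hbN : b * X = ((∑ W ∈ K, MaxSums.pos x W k : ℕ) : ℝ) := by
    rw [hb, ← sum_div, div_mul_cancel₀ _ hXr.ne']
    push_cast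
    rfl
  have ha0 : 0 ≤ a := sum_nonneg fun W _ => by positivity
  set w : ℝ := (H.card : ℝ) / N with hw
  set q : ℝ := w - 2 * (a / N) with hq
  set r : ℝ := 2 * (b / N) - (1 - w) with hr
  have hwN : w * N = H.card := by rw [hw, div_mul_cancel₀ _ hNr.ne']
  have hw1N : (1 - w) * N = K.card := by
    rw [sub_mul, hwN, one_mul]
    have : (H.card : ℝ) + K.card = N := by exact_mod_cast hHK
    linarith
  have hprs : ((MP_9999b5_mr.prs C k).card : ℝ) = X * N := by
    rw [h1, hC]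
    push_cast
    rfl
  have hbadr : (MP_9999b5_mr.bad C x k : ℝ) = q * (X * N) := by
    have e1 : (MP_9999b5_mr.bad C x k : ℝ) + 2 * (a * X) = X * H.card := by
      rw [haN]
      exact_mod_cast hbad
    have e2 : q * (X * N) = X * (w * N) - 2 * (a * X) * (N / N) := by
      rw [hq]
      field_simp
    rw [e2, hwN, div_self hNr.ne']
    linarith
  have hppr : (pp C x k : ℝ) = r * (X * N) := by
    have e1 : 2 * (b * X) = X * K.card + (pp C x k : ℝ) := by
      rw [hbN]
      exact_mod_cast hpp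
    have e2 : r * (X * N) = 2 * (b * X) * (N / N) - X * ((1 - w) * N) := by
      rw [hr]
      field_simp
    rw [e2, hw1N, div_self hNr.ne']
    linarith
  have hhvy : (MP_9999b5_mr.hvy C x k : ℝ) = w * (X * N) := by
    rw [h3]
    push_cast
    rw [← hwN]
    ring
  have hXN : (0 : ℝ) < X * N := mul_pos hXr hNr
  have hq0 : 0 ≤ q := by
    have : 0 ≤ q * (X * N) := by rw [← hbadr]; exact Nat.cast_nonneg _
    exact nonneg_of_mul_nonneg_left this hXN
  have hr0 : 0 ≤ r := by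
    have : 0 ≤ r * (X * N) := by rw [← hppr]; exact Nat.cast_nonneg _
    exact nonneg_of_mul_nonneg_left this hXN
  have hw0 : 0 ≤ w := div_nonneg (Nat.cast_nonneg _) hNr.le
  have hw1 : w ≤ 1 := by
    have : 0 ≤ (1 - w) * N := by rw [hw1N]; exact Nat.cast_nonneg _
    have := nonneg_of_mul_nonneg_left this hNr
    linarith
  have hqw : q ≤ w := by
    have : 0 ≤ a / N := div_nonneg ha0 hNr.le
    rw [hq]
    linarith
  have hb1 : b ≤ K.card := by
    have e1 : b * X ≤ K.card * X := by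
      rw [hbN]
      exact_mod_cast hKle
    exact le_of_mul_le_mul_right e1 hXr
  have hrw : r ≤ 1 - w := by
    have : b / N ≤ 1 - w := by
      rw [div_le_iff₀ hNr, hw1N]
      exact hb1
    rw [hr]
    linarith
  refine ⟨w, q, r, hq0, hqw, hw1, hr0, hrw, by rw [hprs]; exact hbadr, by rw [hprs]; exact hhvy,
    by rw [hprs]; exact hppr, ?_⟩
  -- the spectral inequality
  have hp : (P.card : ℝ) = ((1 - q + r) / 2) * ((2 * k + T).choose k : ℝ) := by
    have e1 : (a * X + b * X) * ((2 * k + T).choose k : ℝ) = P.card * (X * N) := by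
      rw [haN, hbN]
      exact_mod_cast hdc
    have e2 : (1 - q + r) / 2 = (a + b) / N := by
      rw [hq, hr]
      ring
    rw [e2, div_mul_eq_mul_div, eq_div_iff hNr.ne']
    have e3 : X * ((a + b) * ((2 * k + T).choose k : ℝ)) = X * (P.card * N) := by
      linarith
    have := mul_left_cancel₀ hXr.ne' e3
    linarith
  have href := hREF ι C k T P ((1 - q + r) / 2) hk hC (filter_subset _ _) hp
  have hrr : ((((MP_9999b5_mr.prs C k).filter (fun z => z.1 ∈ P ∧ z.2 ∈ P)).card : ℕ) : ℝ) /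
      ((MP_9999b5_mr.prs C k).card : ℝ) = r := by
    have e1 : ((MP_9999b5_mr.prs C k).filter (fun z => z.1 ∈ P ∧ z.2 ∈ P)).card = pp C x k := by
      unfold pp
      congr 1
      apply filter_congr
      intro z hz
      unfold MP_9999b5_mr.prs at hz
      rw [mem_filter, mem_product] at hz
      simp only [hP, mem_filter]
      constructor
      · rintro ⟨⟨_, h4⟩, _, h5⟩
        exact ⟨h4, h5⟩
      · rintro ⟨h4, h5⟩
        exact ⟨⟨hz.1.1, h4⟩, hz.1.2, h5⟩
    rw [e1, hppr, hprs, mul_div_assoc, div_self hXN.ne', mul_one]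
  rw [hrr] at href
  have hsq : ∑ W ∈ C.powersetCard (2 * k), (((P.filter (fun B => B ⊆ W)).card : ℝ) / (X : ℝ)) ^ 2 =
      ∑ W ∈ H, ((MaxSums.pos x W k : ℝ) / X) ^ 2 + ∑ W ∈ K, ((MaxSums.pos x W k : ℝ) / X) ^ 2 := by
    rw [hH, hK, sum_filter_add_sum_filter_not]
    exact sum_congr rfl fun W hW => by rw [hS W hW]
  rw [hsq] at href
  set GH : ℝ := ∑ W ∈ H, ((MaxSums.pos x W k : ℝ) / X) ^ 2 with hGH
  set GK : ℝ := ∑ W ∈ K, ((MaxSums.pos x W k : ℝ) / X) ^ 2 with hGK
  have c1 : a ^ 2 ≤ H.card * GH := sq_sum_le_card_mul_sum_sq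
  have c2 : b ^ 2 ≤ K.card * GK := sq_sum_le_card_mul_sum_sq
  have c1' : ((w - q) / 2) ^ 2 ≤ w * (GH / N) := by
    have e1 : (w - q) / 2 = a / N := by rw [hq]; ring
    rw [e1, hw, div_pow, div_mul_div_comm, ← pow_two]
    gcongr
  have c2' : ((1 - w + r) / 2) ^ 2 ≤ (1 - w) * (GK / N) := by
    have e1 : (1 - w + r) / 2 = b / N := by rw [hr]; ring
    have e2 : 1 - w = (K.card : ℝ) / N := by
      rw [eq_div_iff hNr.ne', hw1N]
    rw [e1, e2, div_pow, div_mul_div_comm, ← pow_two]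
    gcongr
  exact NR2_alg w q r (T / (4 * (k + T))) (T / (4 * k)) (GH / N) (GK / N) hw0 hw1 c1' c2'
    (by rw [← add_div]; exact href)

end Pool.Agent.Work.MP_9999b5_sp
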