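import Pool.Agent.Work.MP_9999b5_sp.Interface

set_option autoImplicit false

namespace Pool.Agent.Work.MP_9999b5_sp

open Finset

theorem SUB_card {ι : Type} [DecidableEq ι] (C B : Finset ι) (a b : ℕ) (hab : a ≤ b)
    (hB : B ∈ C.powersetCard a) :
    ((C.powersetCard b).filter (fun W => B ⊆ W)).card = (C.card - a).choose (b - a) := by
  rw [Finset.mem_powersetCard] at hB
  have h1 : (C \ B).card = C.card - a := by
    rw [Finset.card_sdiff_of_subset hB.1, hB.2]
  rw [← h1, ← Finset.card_powersetCard]
  refine Finset.card_bij' (fun W _ => W \ B) (fun V _ => V ∪ B) ?_ ?_ ?_ ?_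
  · intro W hW
    rw [Finset.mem_filter, Finset.mem_powersetCard] at hW
    rw [Finset.mem_powersetCard]
    refine ⟨Finset.sdiff_subset_sdiff hW.1.1 (Finset.Subset.refl B), ?_⟩
    rw [Finset.card_sdiff_of_subset hW.2, hW.1.2, hB.2]
  · intro V hV
    rw [Finset.mem_powersetCard] at hV
    rw [Finset.mem_filter, Finset.mem_powersetCard]
    have hd : Disjoint V B := by
      rw [Finset.disjoint_left]
      intro x hx hxB
      have := hV.1 hx
      rw [Finset.mem_sdiff] at this
      exact this.2 hxB
    refine ⟨⟨?_, ?_⟩, Finset.subset_union_right⟩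
    · apply Finset.union_subset _ hB.1
      exact hV.1.trans Finset.sdiff_subset
    · rw [Finset.card_union_of_disjoint hd, hV.2, hB.2]
      omega
  · intro W hW
    rw [Finset.mem_filter] at hW
    exact Finset.sdiff_union_of_subset hW.2
  · intro V hV
    rw [Finset.mem_powersetCard] at hV
    have hd : Disjoint V B := by
      rw [Finset.disjoint_left]
      intro x hx hxB
      have := hV.1 hx
      rw [Finset.mem_sdiff] at this
      exact this.2 hxB
    exact Finset.union_sdiff_cancel_right hd

theorem p_SUB : Stmt_SUB := by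
  intro ι _ C a b g hab
  have h : ∑ W ∈ C.powersetCard b, ∑ B ∈ W.powersetCard a, g B =
      ∑ B ∈ C.powersetCard a, ∑ W ∈ (C.powersetCard b).filter (fun W => B ⊆ W), g B := by
    apply Finset.sum_comm'
    intro W B
    simp only [Finset.mem_powersetCard, Finset.mem_filter]
    constructor
    · rintro ⟨⟨h1, h2⟩, h3, h4⟩
      exact ⟨⟨⟨h1, h2⟩, h3⟩, h3.trans h1, h4⟩
    · rintro ⟨⟨⟨h1, h2⟩, h3⟩, h4, h5⟩
      exact ⟨⟨h1, h2⟩, h3, h5⟩
  rw [h, Finset.mul_sum]
  apply Finset.sum_congr rfl
  intro B hB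
  rw [Finset.sum_const, SUB_card C B a b hab hB, nsmul_eq_mul]

end Pool.Agent.Work.MP_9999b5_sp
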