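import Pool.Agent.Work.MP_9999b5_sp.Interface2
import Pool.Agent.Work.MP_9999b5_sp.B_SUB

set_option autoImplicit false

namespace Pool.Agent.Work.MP_9999b5_sp

open Finset

/-- halvings of a set with positive sum: `X ≤ 2 pos W ≤ 2 X` -/
theorem NRM_half {ι : Type} [DecidableEq ι] (W : Finset ι) (x : ι → ℝ) (k : ℕ)
    (hW : W.card = 2 * k) (h0 : 0 < ∑ i ∈ W, x i) :
    (2 * k).choose k ≤ 2 * MaxSums.pos x W k := by
  classical
  have hsp : ((W.powersetCard k).filter (fun B => 0 < ∑ i ∈ B, x i)).card +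
      ((W.powersetCard k).filter (fun B => ¬ 0 < ∑ i ∈ B, x i)).card = (2 * k).choose k := by
    rw [card_filter_add_card_filter_not, card_powersetCard, hW]
  have hle : ((W.powersetCard k).filter (fun B => ¬ 0 < ∑ i ∈ B, x i)).card ≤
      ((W.powersetCard k).filter (fun B => 0 < ∑ i ∈ B, x i)).card := by
    refine card_le_card_of_injOn (fun B => W \ B) ?_ ?_
    · intro B hB
      rw [mem_coe, mem_filter, mem_powersetCard] at hB
      rw [mem_coe, mem_filter, mem_powersetCard]
      refine ⟨⟨sdiff_subset, ?_⟩, ?_⟩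
      · rw [card_sdiff_of_subset hB.1.1, hB.1.2, hW]; omega
      · have h := sum_sdiff (f := x) hB.1.1
        have h2 := not_lt.1 hB.2
        linarith
    · intro B hB B' hB' h
      rw [mem_coe, mem_filter, mem_powersetCard] at hB hB'
      have h1 : W \ (W \ B) = B := Finset.sdiff_sdiff_eq_self hB.1.1
      have h2 : W \ (W \ B') = B' := Finset.sdiff_sdiff_eq_self hB'.1.1
      have h3 : W \ B = W \ B' := h
      rw [← h1, ← h2, h3]
  have hp : MaxSums.pos x W k = ((W.powersetCard k).filter (fun B => 0 < ∑ i ∈ B, x i)).card := rfl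
  omega

theorem p_NRM : MP_9999b5_mr.Stmt_PAC → Stmt_ALP → Stmt_COV → Stmt_NRM := by
  intro hPAC hALP hCOV ι _ C x k T hk hC
  classical
  obtain ⟨h1, h2, h3⟩ := hPAC ι C x k
  set H := (C.powersetCard (2 * k)).filter (fun U => ∑ i ∈ U, x i ≤ 0) with hH
  set P := (C.powersetCard k).filter (fun B => 0 < ∑ i ∈ B, x i) with hP
  have hS : ∀ W ∈ C.powersetCard (2 * k), (P.filter (fun B => B ⊆ W)).card = MaxSums.pos x W k := by
    intro W hW
    have hWC : W ⊆ C := (mem_powersetCard.1 hW).1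
    unfold MaxSums.pos
    congr 1
    ext B
    simp only [hP, mem_filter, mem_powersetCard]
    constructor
    · rintro ⟨⟨⟨_, hb⟩, hp⟩, hs⟩
      exact ⟨⟨hs, hb⟩, hp⟩
    · rintro ⟨⟨hs, hb⟩, hp⟩
      exact ⟨⟨⟨hs.trans hWC, hb⟩, hp⟩, hs⟩
  obtain ⟨p, w, s, hp0, hp1, hw0, hw1, hPc, hHc, hsum, hfin⟩ :=
    hCOV ι C k T H P hk hC (filter_subset _ _) (filter_subset _ _)
  have hHC : ∀ W ∈ H, W ∈ C.powersetCard (2 * k) := fun W hW => (mem_filter.1 hW).1
  have hsumN : ∑ W ∈ H, ((P.filter (fun B => B ⊆ W)).card : ℝ) =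
      ∑ W ∈ H, (MaxSums.pos x W k : ℝ) :=
    sum_congr rfl fun W hW => by rw [hS W (hHC W hW)]
  rw [hsumN] at hsum
  -- the number of pairs
  set N : ℝ := (((2 * k).choose k : ℝ) * ((2 * k + T).choose (2 * k) : ℝ)) with hN
  have hprs : ((MP_9999b5_mr.prs C k).card : ℝ) = N := by
    rw [h1, hC]; push_cast; rfl
  have hNpos : 0 < N := by
    have ha : 0 < (2 * k).choose k := Nat.choose_pos (by omega)
    have hb : 0 < (2 * k + T).choose (2 * k) := Nat.choose_pos (by omega)
    rw [hN]; positivity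
  have hhvy : (MP_9999b5_mr.hvy C x k : ℝ) = w * N := by
    rw [h3]; push_cast; rw [hHc, hN]; ring
  -- bad pairs
  have hbadN : MP_9999b5_mr.bad C x k + 2 * ∑ W ∈ H, MaxSums.pos x W k =
      (2 * k).choose k * H.card := by
    rw [h2]
    have e1 : ∑ U ∈ C.powersetCard (2 * k), MP_9999b5_mr.al x k U =
        ∑ U ∈ H, MP_9999b5_mr.al x k U := by
      rw [hH, sum_filter]
      refine sum_congr rfl fun U hU => ?_
      split_ifs with h
      · rfl
      · exact (hALP ι U x k (mem_powersetCard.1 hU).2).2 (not_le.1 h)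
    rw [e1, mul_sum, ← sum_add_distrib]
    have e2 : ∀ U ∈ H, MP_9999b5_mr.al x k U + 2 * MaxSums.pos x U k = (2 * k).choose k := by
      intro U hU
      rw [hH, mem_filter, mem_powersetCard] at hU
      exact (hALP ι U x k hU.1.2).1 hU.2
    rw [sum_congr rfl e2, sum_const, smul_eq_mul, mul_comm]
  have hbadR : (MP_9999b5_mr.bad C x k : ℝ) + 2 * ∑ W ∈ H, (MaxSums.pos x W k : ℝ) =
      ((2 * k).choose k : ℝ) * (H.card : ℝ) := by exact_mod_cast hbadN
  have hbad : (MP_9999b5_mr.bad C x k : ℝ) = (w - 2 * (w * p + s)) * N := by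
    rw [hsum, hHc] at hbadR
    rw [hN]; linarith
  -- all pairs
  have hallN : ∑ W ∈ C.powersetCard (2 * k), (MaxSums.pos x W k : ℝ) = p * N := by
    have hsub := p_SUB ι C k (2 * k) (fun B => if 0 < ∑ i ∈ B, x i then (1 : ℝ) else 0) (by omega)
    have e1 : ∀ W : Finset ι, ∑ B ∈ W.powersetCard k, (if 0 < ∑ i ∈ B, x i then (1 : ℝ) else 0) =
        (MaxSums.pos x W k : ℝ) := by
      intro W
      unfold MaxSums.pos
      rw [sum_boole]
    rw [sum_congr rfl (fun W _ => e1 W), e1 C, hC] at hsub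
    have e2 : (MaxSums.pos x C k : ℝ) = (P.card : ℝ) := rfl
    have e3 : 2 * k + T - k = k + T := by omega
    have e4 : 2 * k - k = k := by omega
    rw [hsub, e2, hPc, e3, e4, hN]
    have e5 := Nat.choose_mul (n := 2 * k + T) (k := 2 * k) (s := k) (by omega)
    rw [e3, e4] at e5
    have e6 : ((2 * k + T).choose (2 * k) : ℝ) * ((2 * k).choose k : ℝ) =
        ((2 * k + T).choose k : ℝ) * ((k + T).choose k : ℝ) := by exact_mod_cast e5
    calc ((k + T).choose k : ℝ) * (p * ((2 * k + T).choose k : ℝ))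
        = p * (((2 * k + T).choose k : ℝ) * ((k + T).choose k : ℝ)) := by ring
      _ = p * (((2 * k).choose k : ℝ) * ((2 * k + T).choose (2 * k) : ℝ)) := by rw [← e6]; ring
  -- sums over the sets with positive sum
  have hsplit : ∑ W ∈ C.powersetCard (2 * k), (MaxSums.pos x W k : ℝ) =
      ∑ W ∈ H, (MaxSums.pos x W k : ℝ) +
        ∑ W ∈ (C.powersetCard (2 * k)).filter (fun U => ¬ ∑ i ∈ U, x i ≤ 0),
          (MaxSums.pos x W k : ℝ) := by
    rw [hH, sum_filter_add_sum_filter_not]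
  have hcardR : (((C.powersetCard (2 * k)).filter (fun U => ¬ ∑ i ∈ U, x i ≤ 0)).card : ℝ) =
      (1 - w) * ((2 * k + T).choose (2 * k) : ℝ) := by
    have h := card_filter_add_card_filter_not (s := C.powersetCard (2 * k))
      (fun U => ∑ i ∈ U, x i ≤ 0)
    rw [card_powersetCard, hC] at h
    have h' : (H.card : ℝ) +
        (((C.powersetCard (2 * k)).filter (fun U => ¬ ∑ i ∈ U, x i ≤ 0)).card : ℝ) =
        ((2 * k + T).choose (2 * k) : ℝ) := by exact_mod_cast h
    rw [hHc] at h'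
    linarith
  set R : ℝ := ∑ W ∈ (C.powersetCard (2 * k)).filter (fun U => ¬ ∑ i ∈ U, x i ≤ 0),
          (MaxSums.pos x W k : ℝ) with hR
  have hRlo : (1 - w) * N ≤ 2 * R := by
    have h : ∑ W ∈ (C.powersetCard (2 * k)).filter (fun U => ¬ ∑ i ∈ U, x i ≤ 0),
        ((2 * k).choose k : ℝ) ≤
        ∑ W ∈ (C.powersetCard (2 * k)).filter (fun U => ¬ ∑ i ∈ U, x i ≤ 0),
          2 * (MaxSums.pos x W k : ℝ) := by
      refine sum_le_sum fun W hW => ?_
      rw [mem_filter, mem_powersetCard] at hW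
      have := NRM_half W x k hW.1.2 (not_le.1 hW.2)
      exact_mod_cast this
    rw [sum_const, nsmul_eq_mul, hcardR, ← mul_sum, ← hR] at h
    rw [hN]; linarith
  have hRhi : 2 * R ≤ 2 * ((1 - w) * N) := by
    have h : R ≤ ∑ W ∈ (C.powersetCard (2 * k)).filter (fun U => ¬ ∑ i ∈ U, x i ≤ 0),
        ((2 * k).choose k : ℝ) := by
      rw [hR]
      refine sum_le_sum fun W hW => ?_
      rw [mem_filter, mem_powersetCard] at hW
      have h := card_filter_le (W.powersetCard k) (fun B => 0 < ∑ i ∈ B, x i)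
      rw [card_powersetCard, hW.1.2] at h
      exact_mod_cast h
    rw [sum_const, nsmul_eq_mul, hcardR] at h
    rw [hN]; linarith
  have hRval : p * N = (w * p + s) * N + R := by
    rw [← hallN, hsplit, hsum]
  have hHs0 : 0 ≤ ∑ W ∈ H, (MaxSums.pos x W k : ℝ) := sum_nonneg fun _ _ => Nat.cast_nonneg _
  refine ⟨w, w - 2 * (w * p + s), w - 2 * (w * p + s) - 1 + 2 * p, ?_, ?_, hw1, ?_, ?_, ?_, ?_, ?_⟩
  · have h : 0 ≤ (w - 2 * (w * p + s)) * N := by rw [← hbad]; exact Nat.cast_nonneg _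
    by_contra hneg
    push Not at hneg
    have := mul_neg_of_neg_of_pos hneg hNpos
    linarith
  · rw [hsum] at hHs0
    have h : 0 ≤ w * p + s := by
      by_contra hneg
      push Not at hneg
      have := mul_neg_of_neg_of_pos hneg hNpos
      linarith
    linarith
  · by_contra hneg
    push Not at hneg
    have := mul_neg_of_neg_of_pos hneg hNpos
    nlinarith [hRlo, hRval]
  · by_contra hneg
    push Not at hneg
    have := mul_pos (sub_pos.2 hneg) hNpos
    nlinarith [hRhi, hRval]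
  · rw [hprs]; exact hbad
  · rw [hprs]; exact hhvy
  · nlinarith [hfin]

end Pool.Agent.Work.MP_9999b5_sp
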