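import Pool.Agent.Work.MP_9999b5_sp.Interface3

set_option autoImplicit false

namespace Pool.Agent.Work.MP_9999b5_sp

open Finset

theorem p_ORT : Stmt_ORT := by
  intro ι _ C k γ g hg
  have h1 : ∀ B ∈ C.powersetCard k, (∑ i ∈ B, γ i) * g B =
      ∑ i ∈ C, (if i ∈ B then γ i * g B else 0) := by
    intro B hB
    have hBC : B ⊆ C := (Finset.mem_powersetCard.1 hB).1
    rw [Finset.sum_mul, ← Finset.sum_filter]
    apply Finset.sum_congr _ (fun _ _ => rfl)
    ext i
    simp only [Finset.mem_filter]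
    exact ⟨fun h => ⟨hBC h, h⟩, fun h => h.2⟩
  rw [Finset.sum_congr rfl h1, Finset.sum_comm]
  apply Finset.sum_eq_zero
  intro i hi
  rw [← Finset.sum_filter, ← Finset.mul_sum, hg i hi, mul_zero]

end Pool.Agent.Work.MP_9999b5_sp
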