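import Pool.Agent.Work.MP_9999b5_sp.Interface3

/-!
MP_9999b5_co, block PO2: second Poincare inequality of the Johnson scheme (zero degrees).
-/

set_option autoImplicit false

namespace Pool.Agent.Work.MP_9999b5_sp

open Finset

theorem PO2_single {ι : Type} [DecidableEq ι] (C : Finset ι) (g : Finset ι → ℝ)
    (h : ZD C 1 g) (i : ι) (hi : i ∈ C) : g {i} = 0 := by
  have h1 := h i hi
  have h2 : (C.powersetCard 1).filter (fun B => i ∈ B) = {{i}} := by
    ext B
    rw [mem_filter, mem_powersetCard, mem_singleton]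
    constructor
    · rintro ⟨⟨_, h4⟩, h5⟩
      rw [card_eq_one] at h4
      obtain ⟨x, hx⟩ := h4
      rw [hx, mem_singleton] at h5
      rw [hx, h5]
    · intro hB
      rw [hB]
      exact ⟨⟨singleton_subset_iff.mpr hi, card_singleton i⟩, mem_singleton_self i⟩
  rw [h2, sum_singleton] at h1
  exact h1

theorem p_PO2 : Stmt_ADJ → Stmt_UPD → Stmt_ZDD → Stmt_PO2 := by
  intro hADJ hUPD hZDD ι _ C j
  induction j with
  | zero =>
    intro g h1
    exact absurd h1 (by omega)
  | succ a ih =>
    intro g _ hm h0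
    rcases Nat.eq_zero_or_pos a with ha0 | hapos
    · subst ha0
      have h2 : ∑ W ∈ C.powersetCard (0 + 1 + 1), (∑ B ∈ W.powersetCard (0 + 1), g B) ^ 2 = 0 := by
        apply sum_eq_zero
        intro W hW
        rw [mem_powersetCard] at hW
        have h3 : ∑ B ∈ W.powersetCard (0 + 1), g B = 0 := by
          apply sum_eq_zero
          intro B hB
          rw [mem_powersetCard] at hB
          obtain ⟨x, hx⟩ := card_eq_one.mp hB.2
          have h4 : x ∈ B := by
            rw [hx]
            exact mem_singleton_self x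
          rw [hx]
          exact PO2_single C g h0 x (hW.1 (hB.1 h4))
        rw [h3]
        norm_num
      rw [h2]
      push_cast
      norm_num
    · let d : Finset ι → ℝ := fun A => ∑ B ∈ (C.powersetCard (a + 1)).filter (fun B => A ⊆ B), g B
      have e1 : ZD C a d := hZDD ι C a g h0
      have e2 : ∑ A ∈ C.powersetCard a, d A ^ 2 =
          ∑ B ∈ C.powersetCard (a + 1), g B * ∑ A ∈ B.powersetCard a, d A := by
        rw [← hADJ ι C a g d]
        apply sum_congr rfl
        intro A _
        rw [pow_two]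
      have e3 := ih d hapos (by omega) e1
      have e4 := sum_mul_sq_le_sq_mul_sq (C.powersetCard (a + 1)) g
        (fun B => ∑ A ∈ B.powersetCard a, d A)
      rw [← e2] at e4
      have e5 := hUPD ι C a g
      have hmr : (a : ℝ) + 3 ≤ (C.card : ℝ) := by exact_mod_cast hm
      have hD : (0 : ℝ) ≤ ∑ A ∈ C.powersetCard a, d A ^ 2 := sum_nonneg (fun _ _ => sq_nonneg _)
      have hG : (0 : ℝ) ≤ ∑ B ∈ C.powersetCard (a + 1), g B ^ 2 :=
        sum_nonneg (fun _ _ => sq_nonneg _)
      have ha : (1 : ℝ) ≤ (a : ℝ) := by exact_mod_cast hapos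
      change ∑ W ∈ C.powersetCard (a + 2), (∑ B ∈ W.powersetCard (a + 1), g B) ^ 2 ≤ _
      rw [e5]
      change ∑ A ∈ C.powersetCard a, d A ^ 2 + _ ≤ _
      have hc : (0 : ℝ) ≤ ((a : ℝ) - 1) * ((C.card : ℝ) - a - 2) :=
        mul_nonneg (by linarith) (by linarith)
      generalize ∑ A ∈ C.powersetCard a, d A ^ 2 = D at e3 e4 hD ⊢
      generalize ∑ B ∈ C.powersetCard (a + 1), (∑ A ∈ B.powersetCard a, d A) ^ 2 = U at e3 e4
      generalize ∑ B ∈ C.powersetCard (a + 1), g B ^ 2 = G at e4 hG ⊢
      have key : D ≤ ((a : ℝ) - 1) * ((C.card : ℝ) - a - 2) * G := by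
        rcases hD.eq_or_lt with h | h
        · rw [← h]
          exact mul_nonneg hc hG
        · have h1 : D * D ≤ ((a : ℝ) - 1) * ((C.card : ℝ) - a - 2) * G * D := by
            have h2 := mul_le_mul_of_nonneg_left e3 hG
            rw [pow_two] at e4
            nlinarith
          exact le_of_mul_le_mul_right h1 h
      push_cast
      nlinarith

end Pool.Agent.Work.MP_9999b5_sp
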