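import Pool.Agent.Work.MP_9999b5_sp.Interface

/-!
MP_9999b5_co, block POI: Poincare inequality of the Johnson scheme.
-/

set_option autoImplicit false

namespace Pool.Agent.Work.MP_9999b5_sp

open Finset

theorem p_POI : Stmt_ADJ → Stmt_UPD → Stmt_POI := by
  intro hADJ hUPD ι _ C j
  induction j with
  | zero =>
    intro g _ h0
    have h1 : g ∅ = 0 := by
      rw [powersetCard_zero, sum_singleton] at h0
      exact h0
    have h2 : ∑ W ∈ C.powersetCard (0 + 1), (∑ B ∈ W.powersetCard 0, g B) ^ 2 = 0 := by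
      apply sum_eq_zero
      intro W _
      rw [powersetCard_zero, sum_singleton, h1]
      norm_num
    rw [h2]
    push_cast
    rw [zero_mul, zero_mul]
  | succ a ih =>
    intro g hm h0
    let d : Finset ι → ℝ := fun A => ∑ B ∈ (C.powersetCard (a + 1)).filter (fun B => A ⊆ B), g B
    have hd : ∀ A, d A = ∑ B ∈ (C.powersetCard (a + 1)).filter (fun B => A ⊆ B), g B :=
      fun _ => rfl
    -- the down-sum has sum zero
    have e1 : ∑ A ∈ C.powersetCard a, d A = 0 := by
      have h1 := hADJ ι C a g (fun _ => 1)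
      have h2 : ∑ B ∈ C.powersetCard (a + 1), g B * ∑ _A ∈ B.powersetCard a, (1 : ℝ) =
          ∑ B ∈ C.powersetCard (a + 1), g B * ((a : ℝ) + 1) := by
        apply sum_congr rfl
        intro B hB
        rw [mem_powersetCard] at hB
        rw [sum_const, card_powersetCard, hB.2, Nat.choose_succ_self_right, nsmul_eq_mul, mul_one]
        push_cast
        ring
      have h3 : ∑ B ∈ C.powersetCard (a + 1), g B * ((a : ℝ) + 1) = 0 := by
        rw [← sum_mul, h0, zero_mul]
      rw [h2, h3] at h1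
      rw [← h1]
      apply sum_congr rfl
      intro A _
      rw [mul_one]
    have e2 : ∑ A ∈ C.powersetCard a, d A ^ 2 =
        ∑ B ∈ C.powersetCard (a + 1), g B * ∑ A ∈ B.powersetCard a, d A := by
      rw [← hADJ ι C a g d]
      apply sum_congr rfl
      intro A _
      rw [pow_two]
    have e3 := ih d (by omega) e1
    have e4 := sum_mul_sq_le_sq_mul_sq (C.powersetCard (a + 1)) g
      (fun B => ∑ A ∈ B.powersetCard a, d A)
    rw [← e2] at e4
    have e5 := hUPD ι C a g
    have hmr : (a : ℝ) + 2 ≤ (C.card : ℝ) := by exact_mod_cast hm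
    have hD : (0 : ℝ) ≤ ∑ A ∈ C.powersetCard a, d A ^ 2 := sum_nonneg (fun _ _ => sq_nonneg _)
    have hG : (0 : ℝ) ≤ ∑ B ∈ C.powersetCard (a + 1), g B ^ 2 := sum_nonneg (fun _ _ => sq_nonneg _)
    have ha : (0 : ℝ) ≤ (a : ℝ) := Nat.cast_nonneg _
    change ∑ W ∈ C.powersetCard (a + 2), (∑ B ∈ W.powersetCard (a + 1), g B) ^ 2 ≤ _
    rw [e5]
    change ∑ A ∈ C.powersetCard a, d A ^ 2 + _ ≤ _
    have hc : (0 : ℝ) ≤ (a : ℝ) * ((C.card : ℝ) - a - 1) := mul_nonneg ha (by linarith)
    generalize ∑ A ∈ C.powersetCard a, d A ^ 2 = D at e3 e4 hD ⊢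
    generalize ∑ B ∈ C.powersetCard (a + 1), (∑ A ∈ B.powersetCard a, d A) ^ 2 = U at e3 e4
    generalize ∑ B ∈ C.powersetCard (a + 1), g B ^ 2 = G at e4 hG ⊢
    have key : D ≤ (a : ℝ) * ((C.card : ℝ) - a - 1) * G := by
      rcases hD.eq_or_lt with h | h
      · rw [← h]
        exact mul_nonneg hc hG
      · have h1 : D * D ≤ (a : ℝ) * ((C.card : ℝ) - a - 1) * G * D := by
          have h2 := mul_le_mul_of_nonneg_left e3 hG
          rw [pow_two] at e4
          nlinarith
        exact le_of_mul_le_mul_right h1 h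
    push_cast
    nlinarith

end Pool.Agent.Work.MP_9999b5_sp
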