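import Pool.Agent.Work.MP_9999b5_sp.Interface4

/-!
Block QET: real numbers (helper58).
-/

namespace Pool.Agent.Work.MP_9999b5_sp

open Finset

theorem p_QET : Stmt_QET := by
  intro t w q ht0 ht1 hq0 hqw _ h1 h2
  by_cases hqt : q ≤ t
  · have h3 : 0 ≤ (1 + t) * (w - q) := mul_nonneg (by linarith) (by linarith)
    linarith
  · push Not at hqt
    have hD : 0 < q ^ 2 - t * (1 + t) * q + t := by
      have h3 : t * (1 + t) ^ 2 < 4 := by
        have h4 : (1 + t) ^ 2 < 4 := by nlinarith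
        have h5 : t * (1 + t) ^ 2 ≤ 1 * (1 + t) ^ 2 :=
          mul_le_mul_of_nonneg_right ht1.le (sq_nonneg _)
        linarith
      have h4 : 0 < t * (4 - t * (1 + t) ^ 2) := mul_pos ht0 (by linarith)
      have h5 := sq_nonneg (q - t * (1 + t) / 2)
      have h6 : q ^ 2 - t * (1 + t) * q + t =
          (q - t * (1 + t) / 2) ^ 2 + t * (4 - t * (1 + t) ^ 2) / 4 := by ring
      rw [h6]
      linarith
    by_contra hcon
    push Not at hcon
    have h3 : 0 ≤ (q - t) ^ 2 * (1 - (2 + t) * q) := mul_nonneg (sq_nonneg _) (by linarith)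
    have h4 : (1 + t) * (q ^ 2 * (1 - t ^ 2)) ≤ (1 + t) * (w * (q ^ 2 - t * (1 + t) * q + t)) :=
      mul_le_mul_of_nonneg_left h2 (by linarith)
    have h5 : 0 < (q ^ 2 - t * (1 + t) * q + t) * ((2 + t) * q - ((1 + t) * w + t)) :=
      mul_pos hD (by linarith)
    have h6 : (1 + t) * (q ^ 2 * (1 - t ^ 2)) - (q ^ 2 - t * (1 + t) * q + t) * ((2 + t) * q - t) =
        (q - t) ^ 2 * (1 - (2 + t) * q) := by ring
    have h7 : (q ^ 2 - t * (1 + t) * q + t) * ((2 + t) * q - ((1 + t) * w + t)) =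
        (q ^ 2 - t * (1 + t) * q + t) * ((2 + t) * q - t) -
          (1 + t) * (w * (q ^ 2 - t * (1 + t) * q + t)) := by ring
    linarith

end Pool.Agent.Work.MP_9999b5_sp
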