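import Pool.Agent.Work.MP_9999b5_sp.Interface4

/-!
Block QOE (MP_9999b5_co): (H°) for all `C` gives (Q°) for all `C` (helper43).
-/

set_option autoImplicit false

namespace Pool.Agent.Work.MP_9999b5_sp

open Finset

theorem p_QOE (hNR2 : Stmt_NR2) (hRBZ : Stmt_RBZ) (hQET : Stmt_QET) : Stmt_QOE := by
  intro k T hk hT hHO ι _ C x hC hinj hsum
  obtain ⟨w, q, r, hq0, hqw, hw1, hr0, hr1, hbad, hhvy, -, hineq⟩ := hNR2 ι C x k T hk hC
  have hH := hHO ι C x hC hinj hsum
  set M : ℕ := (MP_9999b5_mr.prs C k).card with hM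
  rcases Nat.eq_zero_or_pos M with hM0 | hMpos
  · rw [hM0] at hH
    have h0 : (4 * k + 3 * T) * MP_9999b5_mr.bad C x k = 0 := by
      simpa using hH
    rw [h0]
    exact Nat.zero_le _
  · have hMR : (0 : ℝ) < (M : ℝ) := by exact_mod_cast hMpos
    have hkR : (1 : ℝ) ≤ (k : ℝ) := by exact_mod_cast hk
    have hTR : (1 : ℝ) ≤ (T : ℝ) := by exact_mod_cast hT
    have hm : (0 : ℝ) < 2 * (k : ℝ) + T := by linarith
    have hHR : (4 * (k : ℝ) + 3 * T) * (MP_9999b5_mr.bad C x k : ℝ) ≤ (2 * (k : ℝ) + T) * (M : ℝ) := by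
      exact_mod_cast hH
    rw [hbad] at hHR
    have hq1 : (4 * (k : ℝ) + 3 * T) * q ≤ 2 * (k : ℝ) + T := by
      have h1 : ((4 * (k : ℝ) + 3 * T) * q) * (M : ℝ) ≤ (2 * (k : ℝ) + T) * (M : ℝ) := by
        linarith
      exact le_of_mul_le_mul_right h1 hMR
    set t : ℝ := (T : ℝ) / (2 * k + T) with ht
    have htm : t * (2 * (k : ℝ) + T) = T := by
      rw [ht, div_mul_cancel₀ _ hm.ne']
    have ht0 : 0 < t := by
      rw [ht]
      exact div_pos (by linarith) hm
    have ht1 : t < 1 := by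
      rw [ht, div_lt_one hm]
      linarith
    have hq2 : (2 + t) * q ≤ 1 := by
      have h1 : ((2 + t) * q) * (2 * (k : ℝ) + T) ≤ 1 * (2 * (k : ℝ) + T) := by
        have h2 : ((2 + t) * q) * (2 * (k : ℝ) + T) = (4 * (k : ℝ) + 3 * T) * q := by
          have h3 : ((2 + t) * q) * (2 * (k : ℝ) + T) =
              (2 * (2 * (k : ℝ) + T) + t * (2 * (k : ℝ) + T)) * q := by ring
          rw [h3, htm]
          ring
        rw [h2]
        linarith
      exact le_of_mul_le_mul_right h1 hm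
    have e1 : t / (2 * (1 + t)) = (T : ℝ) / (4 * (k + T)) := by
      have h1 : (0 : ℝ) < (k : ℝ) + T := by linarith
      rw [div_eq_div_iff (by positivity) (by positivity)]
      have h2 : T * (2 * (1 + t)) = 2 * ((t * (2 * (k : ℝ) + T)) * (1 + t)) := by
        rw [htm]
        ring
      have h3 : (T : ℝ) * (2 * (1 + t)) = 2 * T + 2 * (T * t) := by ring
      rw [h3]
      have h4 : t * (4 * ((k : ℝ) + T)) = 2 * (t * (2 * (k : ℝ) + T)) + 2 * (T * t) := by ring
      rw [h4, htm]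
    have e2 : t / (2 * (1 - t)) = (T : ℝ) / (4 * k) := by
      have h0 : (0 : ℝ) < 1 - t := by linarith
      rw [div_eq_div_iff (by positivity) (by positivity)]
      have h3 : (T : ℝ) * (2 * (1 - t)) = 2 * T - 2 * (T * t) := by ring
      rw [h3]
      have h4 : t * (4 * (k : ℝ)) = 2 * (t * (2 * (k : ℝ) + T)) - 2 * (T * t) := by ring
      rw [h4, htm]
    have hR := hRBZ t w q r ht0 ht1 hq0 hqw hw1 hr0 hr1 (by rw [e1, e2]; exact hineq)
    have hQ := hQET t w q ht0 ht1 hq0 hqw hw1 hq2 hR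
    have hfin : (4 * (k : ℝ) + 3 * T) * q ≤ (2 * (k : ℝ) + 2 * T) * w + T := by
      have h1 := mul_le_mul_of_nonneg_right hQ hm.le
      have h2 : ((2 + t) * q) * (2 * (k : ℝ) + T) = (4 * (k : ℝ) + 3 * T) * q := by
        have h3 : ((2 + t) * q) * (2 * (k : ℝ) + T) =
            (2 * (2 * (k : ℝ) + T) + t * (2 * (k : ℝ) + T)) * q := by ring
        rw [h3, htm]
        ring
      have h4 : ((1 + t) * w + t) * (2 * (k : ℝ) + T) = (2 * (k : ℝ) + 2 * T) * w + T := by
        have h5 : ((1 + t) * w + t) * (2 * (k : ℝ) + T) =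
            ((2 * (k : ℝ) + T) + t * (2 * (k : ℝ) + T)) * w + t * (2 * (k : ℝ) + T) := by ring
        rw [h5, htm]
        ring
      rw [h2, h4] at h1
      exact h1
    have hgoal : (4 * (k : ℝ) + 3 * T) * (MP_9999b5_mr.bad C x k : ℝ) ≤
        (2 * (k : ℝ) + 2 * T) * (MP_9999b5_mr.hvy C x k : ℝ) + T * (M : ℝ) := by
      rw [hbad, hhvy]
      have h1 := mul_le_mul_of_nonneg_right hfin hMR.le
      linarith
    exact_mod_cast hgoal

end Pool.Agent.Work.MP_9999b5_sp
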