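import Pool.Agent.Work.MP_9999b5_sp.Interface2

set_option autoImplicit false

namespace Pool.Agent.Work.MP_9999b5_sp

open Finset

theorem p_QPR : Stmt_NRM → Stmt_BSC → Stmt_QPR := by
  intro hNRM hBSC ι _ C x k T hk hC hyp
  obtain ⟨w, q, r, hq0, hqw, hw1, hr0, hrw, hbad, hhvy, hsq⟩ := hNRM ι C x k T hk hC
  set N : ℕ := (MP_9999b5_mr.prs C k).card with hN
  set b : ℕ := MP_9999b5_mr.bad C x k with hb
  set v : ℕ := MP_9999b5_mr.hvy C x k with hv
  rcases Nat.eq_zero_or_pos N with h0 | hpos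
  · have hb0 : (b : ℝ) = 0 := by rw [hbad, h0]; simp
    have hv0 : (v : ℝ) = 0 := by rw [hhvy, h0]; simp
    have hb1 : b = 0 := by exact_mod_cast hb0
    have hv1 : v = 0 := by exact_mod_cast hv0
    rw [hb1, hv1, h0]
    simp
  · have hNr : (0 : ℝ) < (N : ℝ) := by exact_mod_cast hpos
    have hkr : (1 : ℝ) ≤ (k : ℝ) := by exact_mod_cast hk
    have hTr : (0 : ℝ) ≤ (T : ℝ) := Nat.cast_nonneg _
    have hm : (0 : ℝ) < 2 * (k : ℝ) + T := by linarith
    have hypr : (2 * (k : ℝ) + T) * (q * N) ≤ k * N := by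
      rw [← hbad]
      exact_mod_cast hyp
    have hmq : (2 * (k : ℝ) + T) * q ≤ k := by
      have h1 : ((2 * (k : ℝ) + T) * q) * N ≤ k * N := by linarith
      exact le_of_mul_le_mul_right h1 hNr
    obtain ⟨t, ht⟩ : ∃ t : ℝ, t = (T : ℝ) / (2 * (k : ℝ) + T) := ⟨_, rfl⟩
    have htm : t * (2 * (k : ℝ) + T) = T := by
      rw [ht]
      field_simp
    have ht0 : 0 ≤ t := by rw [ht]; positivity
    have ht1 : t ≤ 1 := by
      rw [ht, div_le_one hm]
      linarith
    have h2q : 2 * q ≤ 1 - t := by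
      have h1 : (2 * (k : ℝ) + T) * (2 * q) ≤ (2 * (k : ℝ) + T) * (1 - t) := by
        have h2 : (2 * (k : ℝ) + T) * (1 - t) = 2 * k := by linarith
        rw [h2]
        linarith
      exact le_of_mul_le_mul_left h1 hm
    have hs : (1 + t) * (q * (1 - w) + w * r) ^ 2 ≤ t * (w * (1 - w) * (1 - (q - r) ^ 2)) := by
      have h1 : (2 * (k : ℝ) + T) * ((1 + t) * (q * (1 - w) + w * r) ^ 2) ≤
          (2 * (k : ℝ) + T) * (t * (w * (1 - w) * (1 - (q - r) ^ 2))) := by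
        have h2 : (2 * (k : ℝ) + T) * ((1 + t) * (q * (1 - w) + w * r) ^ 2) =
            2 * ((k : ℝ) + T) * (q * (1 - w) + w * r) ^ 2 := by
          have h3 : (2 * (k : ℝ) + T) * (1 + t) = 2 * ((k : ℝ) + T) := by linarith
          rw [← mul_assoc, h3]
        have h4 : (2 * (k : ℝ) + T) * (t * (w * (1 - w) * (1 - (q - r) ^ 2))) =
            T * (w * (1 - w) * (1 - (q - r) ^ 2)) := by
          rw [← mul_assoc, mul_comm (2 * (k : ℝ) + T) t, htm]
        rw [h2, h4]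
        exact hsq
      exact le_of_mul_le_mul_left h1 hm
    have hfin := hBSC t w q r ht0 ht1 hq0 hqw hw1 hr0 hrw h2q hs
    have key : (k : ℝ) * (2 * k + T) * w + (2 * (k : ℝ) + T) ^ 2 * q ≤
        (2 * (k : ℝ) + T) ^ 2 * w + k * T := by
      have h1 : (2 * (k : ℝ) + T) ^ 2 * (2 * q - t * (1 - t)) ≤
          (2 * (k : ℝ) + T) ^ 2 * ((1 + t) * w) :=
        mul_le_mul_of_nonneg_left hfin (by positivity)
      have h2 : (2 * (k : ℝ) + T) ^ 2 * (2 * q - t * (1 - t)) =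
          2 * (2 * (k : ℝ) + T) ^ 2 * q - T * (2 * k) := by
        have h3 : (2 * (k : ℝ) + T) ^ 2 * (t * (1 - t)) = T * (2 * k) := by
          have h5 : (2 * (k : ℝ) + T) ^ 2 * (t * (1 - t)) =
              (t * (2 * (k : ℝ) + T)) * ((2 * (k : ℝ) + T) - t * (2 * (k : ℝ) + T)) := by ring
          rw [h5, htm]
          ring
        rw [mul_sub, h3]
        ring
      have h4 : (2 * (k : ℝ) + T) ^ 2 * ((1 + t) * w) =
          (2 * (k : ℝ) + T) * ((2 * (k : ℝ) + T) + t * (2 * (k : ℝ) + T)) * w := by ring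
      rw [h2, h4, htm] at h1
      nlinarith [h1]
    have hgoal : (k : ℝ) * (2 * k + T) * (v : ℝ) + (2 * (k : ℝ) + T) ^ 2 * (b : ℝ) ≤
        (2 * (k : ℝ) + T) ^ 2 * (v : ℝ) + k * T * (N : ℝ) := by
      rw [hbad, hhvy]
      have h1 := mul_le_mul_of_nonneg_right key hNr.le
      linarith
    exact_mod_cast hgoal

end Pool.Agent.Work.MP_9999b5_sp
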