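import Pool.Agent.Work.MP_9999b5_sp.Interface

set_option autoImplicit false

namespace Pool.Agent.Work.MP_9999b5_sp

open Finset

theorem p_QSP : MP_9999b5_mr.Stmt_PAC → Stmt_ALP → Stmt_SPF → Stmt_QSP := by
  intro hPAC hALP hSPF ι _ C x k T hk hC hpos
  classical
  obtain ⟨h1, h2, h3⟩ := hPAC ι C x k
  set H := (C.powersetCard (2 * k)).filter (fun U => ∑ i ∈ U, x i ≤ 0) with hH
  set P := (C.powersetCard k).filter (fun B => 0 < ∑ i ∈ B, x i) with hP
  have hPc : P.card = MaxSums.pos x C k := rfl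
  have hS : ∀ W ∈ H, (P.filter (fun B => B ⊆ W)).card = MaxSums.pos x W k := by
    intro W hW
    have hWC : W ⊆ C := (mem_powersetCard.1 (mem_filter.1 hW).1).1
    unfold MaxSums.pos
    congr 1
    ext B
    simp only [hP, mem_filter, mem_powersetCard]
    constructor
    · rintro ⟨⟨⟨_, hb⟩, hp⟩, hs⟩
      exact ⟨⟨hs, hb⟩, hp⟩
    · rintro ⟨⟨hs, hb⟩, hp⟩
      exact ⟨⟨⟨hs.trans hWC, hb⟩, hp⟩, hs⟩
  have hspf := hSPF ι C k T H P hk hC (filter_subset _ _) (filter_subset _ _) (by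
    rw [hPc]; exact hpos)
  rw [sum_congr rfl hS] at hspf
  have hbad : MP_9999b5_mr.bad C x k + 2 * ∑ W ∈ H, MaxSums.pos x W k = (2 * k).choose k * H.card := by
    rw [h2]
    have e1 : ∑ U ∈ C.powersetCard (2 * k), MP_9999b5_mr.al x k U =
        ∑ U ∈ H, MP_9999b5_mr.al x k U := by
      rw [hH, sum_filter]
      refine sum_congr rfl fun U hU => ?_
      split_ifs with h
      · rfl
      · exact (hALP ι U x k (mem_powersetCard.1 hU).2).2 (not_le.1 h)
    rw [e1, mul_sum, ← sum_add_distrib]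
    have e2 : ∀ U ∈ H, MP_9999b5_mr.al x k U + 2 * MaxSums.pos x U k = (2 * k).choose k := by
      intro U hU
      rw [hH, mem_filter, mem_powersetCard] at hU
      exact (hALP ι U x k hU.1.2).1 hU.2
    rw [sum_congr rfl e2, sum_const, smul_eq_mul, mul_comm]
  rw [h1, h3, hC]
  nlinarith [hbad, hspf]

end Pool.Agent.Work.MP_9999b5_sp
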