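import Pool.Agent.Work.MP_9999b5_sp.Interface3

/-! # Block REF4 (helper21) -/

set_option autoImplicit false

namespace Pool.Agent.Work.MP_9999b5_sp

open Finset

lemma REF4_disj {ι : Type} [DecidableEq ι] (C A : Finset ι) (k : ℕ) :
    (C.powersetCard k).filter (fun B => Disjoint A B) = (C \ A).powersetCard k := by
  ext B
  rw [mem_filter, mem_powersetCard, mem_powersetCard]
  constructor
  · rintro ⟨⟨h1, h2⟩, h3⟩
    refine ⟨fun i hi => mem_sdiff.2 ⟨h1 hi, fun h => ?_⟩, h2⟩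
    exact (Finset.disjoint_left.1 h3) h hi
  · rintro ⟨h1, h2⟩
    refine ⟨⟨h1.trans sdiff_subset, h2⟩, ?_⟩
    rw [Finset.disjoint_left]
    intro i hi hB
    exact (mem_sdiff.1 (h1 hB)).2 hi

lemma REF4_pairs {ι : Type} [DecidableEq ι] (C : Finset ι) (k : ℕ)
    (F : Finset ι → Finset ι → ℝ) :
    ∑ z ∈ MP_9999b5_mr.prs C k, F z.1 z.2 =
      ∑ A ∈ C.powersetCard k, ∑ B ∈ (C \ A).powersetCard k, F A B := by
  unfold MP_9999b5_mr.prs
  rw [sum_filter, sum_product]
  refine sum_congr rfl fun A _ => ?_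
  rw [← REF4_disj C A k, sum_filter]

lemma REF4_swap {ι : Type} [DecidableEq ι] (C : Finset ι) (k : ℕ) (f : Finset ι → ℝ) :
    ∑ z ∈ MP_9999b5_mr.prs C k, f z.2 = ∑ z ∈ MP_9999b5_mr.prs C k, f z.1 := by
  refine sum_nbij' (fun z => (z.2, z.1)) (fun z => (z.2, z.1)) ?_ ?_ (fun _ _ => rfl)
    (fun _ _ => rfl) (fun _ _ => rfl)
  all_goals
    intro z hz
    unfold MP_9999b5_mr.prs at hz ⊢
    rw [mem_filter, mem_product] at hz ⊢
    exact ⟨⟨hz.1.2, hz.1.1⟩, hz.2.symm⟩

/-- REF4. -/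
theorem p_REF4 : MP_9999b5_mr.Stmt_PAC → Stmt_SUB → Stmt_RFS → Stmt_REF4 := by
  intro hPAC hSUB hRFS ι _ C k T P p hk hC hP hp
  have hk' : (0 : ℝ) < k := by exact_mod_cast hk
  have hprs := (hPAC ι C (fun _ => 0) k).1
  rw [hC] at hprs
  obtain ⟨X, hX⟩ : ∃ X : ℝ, X = ((2 * k).choose k : ℝ) := ⟨_, rfl⟩
  obtain ⟨N1, hN1⟩ : ∃ N1 : ℝ, N1 = ((2 * k + T).choose k : ℝ) := ⟨_, rfl⟩
  obtain ⟨N2, hN2⟩ : ∃ N2 : ℝ, N2 = ((2 * k + T).choose (2 * k) : ℝ) := ⟨_, rfl⟩
  obtain ⟨Y, hY⟩ : ∃ Y : ℝ, Y = ((k + T).choose k : ℝ) := ⟨_, rfl⟩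
  have hX0 : 0 < X := by
    rw [hX]; exact_mod_cast Nat.choose_pos (by omega)
  have hN20 : 0 < N2 := by
    rw [hN2]; exact_mod_cast Nat.choose_pos (by omega)
  have hNN : N2 * X = N1 * Y := by
    have h1 : (2 * k + T).choose (2 * k) * (2 * k).choose k =
        (2 * k + T).choose k * (k + T).choose k := by
      rw [Nat.choose_mul (by omega : k ≤ 2 * k)]
      rw [show 2 * k + T - k = k + T by omega, show 2 * k - k = k by omega]
    rw [hX, hN1, hN2, hY]
    exact_mod_cast h1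
  have hprs' : ((MP_9999b5_mr.prs C k).card : ℝ) = X * N2 := by
    rw [hprs, hX, hN2]
    push_cast
    ring
  rw [← hN1] at hp
  -- the indicator
  obtain ⟨one, hone⟩ : ∃ one : Finset ι → ℝ, one = fun B => if B ∈ P then 1 else 0 := ⟨_, rfl⟩
  have hW : ∀ W ∈ C.powersetCard (2 * k), ∑ B ∈ W.powersetCard k, one B =
      ((P.filter (fun B => B ⊆ W)).card : ℝ) := by
    intro W _
    rw [hone, sum_boole]
    congr 2
    ext B
    rw [mem_filter, mem_filter, mem_powersetCard]
    constructor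
    · rintro ⟨⟨h1, _⟩, h3⟩
      exact ⟨h3, h1⟩
    · rintro ⟨h1, h2⟩
      exact ⟨⟨h2, (mem_powersetCard.1 (hP h1)).2⟩, h1⟩
  have hPc : ∑ B ∈ C.powersetCard k, one B = p * N1 := by
    rw [hone, sum_boole, ← hp]
    congr 2
    ext B
    rw [mem_filter]
    exact ⟨fun h => h.2, fun h => ⟨hP h, h⟩⟩
  rw [← hX, ← hN2, hprs']
  rcases Nat.eq_zero_or_pos T with hT | hT
  · subst hT
    have e1 : C.powersetCard (2 * k) = {C} := by
      rw [← show C.card = 2 * k by omega]
      exact powersetCard_self C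
    have e2 : P.filter (fun B => B ⊆ C) = P := by
      apply filter_true_of_mem
      intro B hB
      exact (mem_powersetCard.1 (hP hB)).1
    rw [e1, sum_singleton, e2, hp]
    have e3 : N2 = 1 := by rw [hN2, Nat.add_zero, Nat.choose_self]; simp
    have e4 : N1 = X := by rw [hN1, hX, Nat.add_zero]
    rw [e3, e4, mul_div_assoc, div_self hX0.ne']
    simp
  · have hT' : (0 : ℝ) < T := by exact_mod_cast hT
    have hcard : ((C.powersetCard k).card : ℝ) = N1 := by
      rw [card_powersetCard, hC, hN1]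
    -- the function
    have hf0 : ∑ B ∈ C.powersetCard k, (one B - p) = 0 := by
      rw [sum_sub_distrib, hPc, sum_const, nsmul_eq_mul, hcard]
      ring
    have hR := hRFS ι C k T (fun B => one B - p) hk hT hC hf0
    beta_reduce at hR
    rw [← hX, ← hY] at hR
    -- first sum
    have h1 : ∑ W ∈ C.powersetCard (2 * k), (∑ B ∈ W.powersetCard k, (one B - p)) ^ 2 =
        ∑ W ∈ C.powersetCard (2 * k), ((P.filter (fun B => B ⊆ W)).card : ℝ) ^ 2 -
          p ^ 2 * X ^ 2 * N2 := by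
      have a1 : ∀ W ∈ C.powersetCard (2 * k), (∑ B ∈ W.powersetCard k, (one B - p)) ^ 2 =
          ((P.filter (fun B => B ⊆ W)).card : ℝ) ^ 2 -
            2 * p * X * ∑ B ∈ W.powersetCard k, one B + p ^ 2 * X ^ 2 := by
        intro W hW'
        have a2 : ((W.powersetCard k).card : ℝ) = X := by
          rw [card_powersetCard, (mem_powersetCard.1 hW').2, hX]
        rw [sum_sub_distrib, sum_const, nsmul_eq_mul, a2, hW W hW']
        ring
      rw [sum_congr rfl a1, sum_add_distrib, sum_sub_distrib, ← mul_sum,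
        hSUB ι C k (2 * k) one (by omega), hPc, sum_const, nsmul_eq_mul, card_powersetCard, hC,
        show 2 * k + T - k = k + T by omega, show 2 * k - k = k by omega, ← hY, ← hN2]
      linear_combination (2 * p ^ 2 * X) * hNN
    -- second sum
    have hpr : ∀ F : Finset ι → ℝ, ∑ z ∈ MP_9999b5_mr.prs C k, F z.1 =
        Y * ∑ A ∈ C.powersetCard k, F A := by
      intro F
      rw [REF4_pairs C k (fun A _ => F A), mul_sum]
      refine sum_congr rfl fun A hA => ?_
      rw [sum_const, nsmul_eq_mul, card_powersetCard,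
        card_sdiff_of_subset (mem_powersetCard.1 hA).1, hC, (mem_powersetCard.1 hA).2,
        show 2 * k + T - k = k + T by omega, ← hY]
    have h2 : ∑ A ∈ C.powersetCard k, (one A - p) * ∑ B ∈ (C \ A).powersetCard k, (one B - p) =
        (((MP_9999b5_mr.prs C k).filter (fun z => z.1 ∈ P ∧ z.2 ∈ P)).card : ℝ) -
          p ^ 2 * (X * N2) := by
      have b1 : ∑ A ∈ C.powersetCard k, (one A - p) *
          ∑ B ∈ (C \ A).powersetCard k, (one B - p) =
          ∑ z ∈ MP_9999b5_mr.prs C k, (one z.1 - p) * (one z.2 - p) := by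
        rw [REF4_pairs C k (fun A B => (one A - p) * (one B - p))]
        exact sum_congr rfl fun A _ => mul_sum _ _ _
      have b2 : (((MP_9999b5_mr.prs C k).filter (fun z => z.1 ∈ P ∧ z.2 ∈ P)).card : ℝ) =
          ∑ z ∈ MP_9999b5_mr.prs C k, one z.1 * one z.2 := by
        rw [← sum_boole]
        refine sum_congr rfl fun z _ => ?_
        rw [hone]
        by_cases c1 : z.1 ∈ P <;> by_cases c2 : z.2 ∈ P <;> simp [c1, c2]
      rw [b1, b2]
      have b3 : ∀ z ∈ MP_9999b5_mr.prs C k, (one z.1 - p) * (one z.2 - p) =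
          one z.1 * one z.2 - p * one z.1 - p * one z.2 + p ^ 2 := by
        intro z _
        ring
      rw [sum_congr rfl b3, sum_add_distrib, sum_sub_distrib, sum_sub_distrib, ← mul_sum,
        ← mul_sum, REF4_swap C k one, hpr one, hPc, sum_const, nsmul_eq_mul, hprs']
      linear_combination (2 * p ^ 2) * hNN
    -- third sum
    have h3 : ∑ A ∈ C.powersetCard k, (one A - p) ^ 2 = N1 * (p * (1 - p)) := by
      have c1 : ∀ A ∈ C.powersetCard k, (one A - p) ^ 2 = one A - 2 * p * one A + p ^ 2 := by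
        intro A _
        have : one A ^ 2 = one A := by
          rw [hone]
          by_cases h : A ∈ P <;> simp [h]
        linear_combination this
      rw [sum_congr rfl c1, sum_add_distrib, sum_sub_distrib, ← mul_sum, hPc, sum_const,
        nsmul_eq_mul, hcard]
      ring
    rw [h1, h2, h3] at hR
    have h4 : ∑ W ∈ C.powersetCard (2 * k),
        (((P.filter (fun B => B ⊆ W)).card : ℝ) / X) ^ 2 =
        (∑ W ∈ C.powersetCard (2 * k), ((P.filter (fun B => B ⊆ W)).card : ℝ) ^ 2) / X ^ 2 := by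
      rw [sum_div]
      exact sum_congr rfl fun W _ => div_pow _ _ _
    rw [h4]
    obtain ⟨S2, hS2⟩ : ∃ S2 : ℝ, S2 =
      ∑ W ∈ C.powersetCard (2 * k), ((P.filter (fun B => B ⊆ W)).card : ℝ) ^ 2 := ⟨_, rfl⟩
    obtain ⟨R, hRR⟩ : ∃ R : ℝ, R =
      (((MP_9999b5_mr.prs C k).filter (fun z => z.1 ∈ P ∧ z.2 ∈ P)).card : ℝ) := ⟨_, rfl⟩
    rw [← hS2, ← hRR] at hR ⊢
    have key : (T : ℝ) / (4 * (k + T)) * (p * (1 - p)) -
        (S2 / X ^ 2 / N2 - p ^ 2 + (T : ℝ) / (4 * k) * (R / (X * N2) - p ^ 2)) =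
        ((T : ℝ) * k * X * (N2 * X) * (p * (1 - p)) -
          (4 * (k : ℝ) * (k + T) * (S2 - p ^ 2 * X ^ 2 * N2) +
            (T : ℝ) * (k + T) * X * (R - p ^ 2 * (X * N2)))) /
          (4 * k * (k + T) * X ^ 2 * N2) := by
      field_simp
    have h5 : 0 ≤ (T : ℝ) * k * X * (N2 * X) * (p * (1 - p)) -
          (4 * (k : ℝ) * (k + T) * (S2 - p ^ 2 * X ^ 2 * N2) +
            (T : ℝ) * (k + T) * X * (R - p ^ 2 * (X * N2))) := by
      rw [hNN]
      have h6 : (T : ℝ) * k * X * Y * (N1 * (p * (1 - p))) =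
          (T : ℝ) * k * X * (N1 * Y) * (p * (1 - p)) := by ring
      rw [h6] at hR
      linarith
    have h7 := div_nonneg h5 (by positivity : (0 : ℝ) ≤ 4 * k * (k + T) * X ^ 2 * N2)
    rw [← key] at h7
    linarith

end Pool.Agent.Work.MP_9999b5_sp

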