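import Pool.Agent.Work.MP_9999b5_sp.Interface2
import Pool.Agent.Work.MP_9999b5_mr.B_RED

/-!
REL (MP_9999b5_co, typed by helper76): reduction with (Q') and (H'a). The same text as RED of `MP_9999b5_mr`.
-/

set_option autoImplicit false

namespace Pool.Agent.Work.MP_9999b5_sp

open Finset

theorem p_REL : MP_9999b5_mr.Stmt_PAC → Stmt_FLL → Stmt_REL := by
  intro hPAC hFLL k T hk hQ hH ι _ A x hA hinj hsum
  obtain ⟨e1, e2, -⟩ := hPAC ι A x k
  have e3 := hFLL k T hk hQ hH ι A x hA hinj hsum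
  have h1 : (MP_9999b5_mr.prs A k).card ≤ MP_9999b5_mr.bad A x k +
      ((MP_9999b5_mr.prs A k).filter (fun p => 0 < ∑ i ∈ p.1, x i)).card +
      ((MP_9999b5_mr.prs A k).filter (fun p => 0 < ∑ i ∈ p.2, x i)).card := by
    have h2 : MP_9999b5_mr.prs A k ⊆ ((MP_9999b5_mr.prs A k).filter
        (fun p => ∑ i ∈ p.1, x i ≤ 0 ∧ ∑ i ∈ p.2, x i ≤ 0) ∪
        (MP_9999b5_mr.prs A k).filter (fun p => 0 < ∑ i ∈ p.1, x i)) ∪
        (MP_9999b5_mr.prs A k).filter (fun p => 0 < ∑ i ∈ p.2, x i) := by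
      intro p hp
      rw [Finset.mem_union, Finset.mem_union, Finset.mem_filter, Finset.mem_filter,
        Finset.mem_filter]
      rcases le_or_gt (∑ i ∈ p.1, x i) 0 with h | h
      · rcases le_or_gt (∑ i ∈ p.2, x i) 0 with h' | h'
        · exact Or.inl (Or.inl ⟨hp, h, h'⟩)
        · exact Or.inr ⟨hp, h'⟩
      · exact Or.inl (Or.inr ⟨hp, h⟩)
    refine (Finset.card_le_card h2).trans ((Finset.card_union_le _ _).trans ?_)
    exact Nat.add_le_add_right (Finset.card_union_le _ _) _
  rw [MP_9999b5_mr.RED_snd, MP_9999b5_mr.RED_fst, e1, e2, hA] at h1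
  set P := Pool.Agent.Work.MaxSums.pos x A k with hP
  obtain ⟨m, hm⟩ : ∃ m, 4 * k + T = m + 1 := ⟨4 * k + T - 1, by omega⟩
  obtain ⟨l, hl⟩ : ∃ l, 2 * k = l + 1 := ⟨2 * k - 1, by omega⟩
  have c1 : (4 * k + T).choose (2 * k) * (2 * k).choose k =
      (4 * k + T).choose k * (4 * k + T - k).choose k := by
    have h := Nat.choose_mul (n := 4 * k + T) (k := 2 * k) (s := k) (by omega)
    rw [h]
    congr 2
    omega
  have c2 : (4 * k + T) * m.choose l = (4 * k + T).choose (2 * k) * (2 * k) := by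
    rw [hm, hl]
    exact Nat.add_one_mul_choose_eq m l
  have c3 : (4 * k + T).choose (2 * k) = m.choose l + (4 * k + T - 1).choose (2 * k) := by
    rw [hm, hl, Nat.add_sub_cancel]
    exact Nat.choose_succ_succ m l
  have c4 : 0 < (4 * k + T - k).choose k := Nat.choose_pos (by omega)
  have h3 : (2 * k).choose k * m.choose l ≤ 2 * (P * (4 * k + T - k).choose k) := by
    have h4 : (2 * k).choose k * (4 * k + T).choose (2 * k) =
        (2 * k).choose k * m.choose l + (2 * k).choose k * (4 * k + T - 1).choose (2 * k) := by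
      rw [c3]; ring
    omega
  have h5 : k * (4 * k + T).choose k ≤ (4 * k + T) * P := by
    have h6 : 2 * (k * (4 * k + T).choose k) * (4 * k + T - k).choose k ≤
        2 * ((4 * k + T) * P) * (4 * k + T - k).choose k := by
      calc 2 * (k * (4 * k + T).choose k) * (4 * k + T - k).choose k
          = 2 * k * ((4 * k + T).choose k * (4 * k + T - k).choose k) := by ring
        _ = (2 * k).choose k * ((4 * k + T).choose (2 * k) * (2 * k)) := by rw [← c1]; ring
        _ = (4 * k + T) * ((2 * k).choose k * m.choose l) := by rw [← c2]; ring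
        _ ≤ (4 * k + T) * (2 * (P * (4 * k + T - k).choose k)) := Nat.mul_le_mul_left _ h3
        _ = _ := by ring
    have h7 := Nat.le_of_mul_le_mul_right h6 c4
    omega
  have h8 : (0 : ℝ) < 4 * (k : ℝ) + T := by
    have : (1 : ℝ) ≤ (k : ℝ) := by exact_mod_cast hk
    positivity
  have h9 : (k : ℝ) * ((4 * k + T).choose k : ℝ) ≤ (4 * (k : ℝ) + T) * (P : ℝ) := by
    exact_mod_cast h5
  rw [div_mul_eq_mul_div, div_le_iff₀ h8]
  linarith

end Pool.Agent.Work.MP_9999b5_sp
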