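import Pool.Agent.Work.MP_9999b5_sp.Interface3

/-!
MP_9999b5_co, block RF1: the two-level inequality is an equality on the first level.
-/

set_option autoImplicit false

namespace Pool.Agent.Work.MP_9999b5_sp

open Finset

theorem RF1_X (k' : ℕ) : ((2 * (k' + 1)).choose (k' + 1) : ℝ) = 2 * ((2 * k' + 1).choose k' : ℝ) := by
  have h1 : (2 * (k' + 1)).choose (k' + 1) = (2 * k' + 1).choose k' + (2 * k' + 1).choose (k' + 1) := by
    rw [show 2 * (k' + 1) = (2 * k' + 1) + 1 by ring, Nat.choose_succ_succ]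
  have h2 : (2 * k' + 1).choose (k' + 1) = (2 * k' + 1).choose k' := Nat.choose_symm_half k'
  rw [h1, h2]
  push_cast
  ring

theorem RF1_E1 (k' T' : ℕ) : ((2 * k' + 1).choose k' : ℝ) * ((2 * k' + T' + 1).choose (2 * k' + 1) : ℝ) =
    ((2 * k' + T' + 1).choose k' : ℝ) * ((k' + T' + 1).choose (k' + 1) : ℝ) := by
  have h := Nat.choose_mul (n := 2 * k' + T' + 1) (k := 2 * k' + 1) (s := k') (by omega)
  have h1 : 2 * k' + T' + 1 - k' = k' + T' + 1 := by omega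
  have h2 : 2 * k' + 1 - k' = k' + 1 := by omega
  rw [h1, h2] at h
  have h3 : (((2 * k' + T' + 1).choose (2 * k' + 1) * (2 * k' + 1).choose k' : ℕ) : ℝ) =
      (((2 * k' + T' + 1).choose k' * (k' + T' + 1).choose (k' + 1) : ℕ) : ℝ) := by exact_mod_cast h
  push_cast at h3
  linarith

theorem RF1_E2 (k' T' : ℕ) : ((k' : ℝ) + 1 + (T' + 1)) * ((k' + T' + 1).choose (k' + 1) : ℝ) =
    ((T' : ℝ) + 1) * ((k' + T' + 2).choose (k' + 1) : ℝ) := by
  have h := Nat.choose_mul_succ_eq (k' + T' + 1) (k' + 1)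
  have h1 : k' + T' + 1 + 1 - (k' + 1) = T' + 1 := by omega
  rw [h1] at h
  have h3 : (((k' + T' + 1).choose (k' + 1) * (k' + T' + 1 + 1) : ℕ) : ℝ) =
      (((k' + T' + 1 + 1).choose (k' + 1) * (T' + 1) : ℕ) : ℝ) := by exact_mod_cast h
  push_cast at h3
  have h4 : k' + T' + 1 + 1 = k' + T' + 2 := by ring
  rw [h4] at h3
  linarith

theorem RF1_E3 (k' T' : ℕ) : ((k' : ℝ) + 1 + (T' + 1)) * ((k' + T' + 1).choose k' : ℝ) =
    ((k' : ℝ) + 1) * ((k' + T' + 2).choose (k' + 1) : ℝ) := by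
  have h := Nat.add_one_mul_choose_eq (k' + T' + 1) k'
  have h3 : (((k' + T' + 1 + 1) * (k' + T' + 1).choose k' : ℕ) : ℝ) =
      (((k' + T' + 1 + 1).choose (k' + 1) * (k' + 1) : ℕ) : ℝ) := by exact_mod_cast h
  push_cast at h3
  have h4 : k' + T' + 1 + 1 = k' + T' + 2 := by ring
  rw [h4] at h3
  linarith

theorem p_RF1 : Stmt_LSM → Stmt_SQ1 → Stmt_RF1 := by
  intro hLSM hSQ1 ι _ C k T γ hk hT hC hγ
  obtain ⟨k', rfl⟩ : ∃ k', k = k' + 1 := ⟨k - 1, by omega⟩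
  obtain ⟨T', rfl⟩ : ∃ T', T = T' + 1 := ⟨T - 1, by omega⟩
  set G : ℝ := ∑ j ∈ C, γ j ^ 2 with hG
  -- first term
  have hA : ∑ W ∈ C.powersetCard (2 * (k' + 1)),
      (∑ B ∈ W.powersetCard (k' + 1), ∑ i ∈ B, γ i) ^ 2 =
      ((2 * k' + 1).choose k' : ℝ) ^ 2 * (((2 * k' + T' + 1).choose (2 * k' + 1) : ℝ) * G) := by
    have h1 : ∀ W ∈ C.powersetCard (2 * (k' + 1)),
        (∑ B ∈ W.powersetCard (k' + 1), ∑ i ∈ B, γ i) ^ 2 =
        ((2 * k' + 1).choose k' : ℝ) ^ 2 * (∑ j ∈ W, γ j) ^ 2 := by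
      intro W hW
      have hWc : W.card = 2 * (k' + 1) := (mem_powersetCard.1 hW).2
      rw [hLSM ι W (k' + 1) γ hk, hWc]
      have e1 : 2 * (k' + 1) - 1 = 2 * k' + 1 := by omega
      have e2 : k' + 1 - 1 = k' := by omega
      rw [e1, e2]
      ring
    rw [sum_congr rfl h1, ← mul_sum, hSQ1 ι C (2 * (k' + 1)) γ (by omega) (by omega) hγ, hC]
    have e1 : 2 * (k' + 1) + (T' + 1) - 2 = 2 * k' + T' + 1 := by omega
    have e2 : 2 * (k' + 1) - 1 = 2 * k' + 1 := by omega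
    rw [e1, e2]
  -- the level sum
  have hB0 : ∑ A ∈ C.powersetCard (k' + 1), (∑ i ∈ A, γ i) ^ 2 =
      ((2 * k' + T' + 1).choose k' : ℝ) * G := by
    rw [hSQ1 ι C (k' + 1) γ (by omega) (by omega) hγ, hC]
    have e1 : 2 * (k' + 1) + (T' + 1) - 2 = 2 * k' + T' + 1 := by omega
    have e2 : k' + 1 - 1 = k' := by omega
    rw [e1, e2]
  -- second term
  have hB : ∑ A ∈ C.powersetCard (k' + 1),
      (∑ i ∈ A, γ i) * ∑ B ∈ (C \ A).powersetCard (k' + 1), ∑ i ∈ B, γ i =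
      - (((k' + T' + 1).choose k' : ℝ) * (((2 * k' + T' + 1).choose k' : ℝ) * G)) := by
    have h1 : ∀ A ∈ C.powersetCard (k' + 1),
        (∑ i ∈ A, γ i) * ∑ B ∈ (C \ A).powersetCard (k' + 1), ∑ i ∈ B, γ i =
        - (((k' + T' + 1).choose k' : ℝ) * (∑ i ∈ A, γ i) ^ 2) := by
      intro A hA'
      have hAs : A ⊆ C := (mem_powersetCard.1 hA').1
      have hAc : A.card = k' + 1 := (mem_powersetCard.1 hA').2
      have hcard : (C \ A).card = k' + T' + 2 := by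
        rw [card_sdiff_of_subset hAs, hC, hAc]
        omega
      have hsum : ∑ j ∈ C \ A, γ j = - ∑ i ∈ A, γ i := by
        have := sum_sdiff (f := γ) hAs
        linarith
      rw [hLSM ι (C \ A) (k' + 1) γ hk, hcard, hsum]
      have e1 : k' + T' + 2 - 1 = k' + T' + 1 := by omega
      have e2 : k' + 1 - 1 = k' := by omega
      rw [e1, e2]
      ring
    rw [sum_congr rfl h1, sum_neg_distrib, ← mul_sum, hB0]
  rw [hA, hB, hB0, RF1_X]
  have e4 : k' + 1 + (T' + 1) = k' + T' + 2 := by ring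
  rw [e4]
  have E1 := RF1_E1 k' T'
  have E2 := RF1_E2 k' T'
  have E3 := RF1_E3 k' T'
  push_cast
  set x : ℝ := ((2 * k' + 1).choose k' : ℝ)
  set y : ℝ := ((2 * k' + T' + 1).choose (2 * k' + 1) : ℝ)
  set z : ℝ := ((2 * k' + T' + 1).choose k' : ℝ)
  set a : ℝ := ((k' + T' + 1).choose (k' + 1) : ℝ)
  set b : ℝ := ((k' + T' + 1).choose k' : ℝ)
  set d : ℝ := ((k' + T' + 2).choose (k' + 1) : ℝ)
  have f1 : 4 * ((k' : ℝ) + 1) * ((k' : ℝ) + 1 + (T' + 1)) * (x ^ 2 * (y * G)) =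
      4 * ((k' : ℝ) + 1) * x * z * G * (((T' : ℝ) + 1) * d) := by
    calc 4 * ((k' : ℝ) + 1) * ((k' : ℝ) + 1 + (T' + 1)) * (x ^ 2 * (y * G))
        = 4 * ((k' : ℝ) + 1) * ((k' : ℝ) + 1 + (T' + 1)) * x * G * (x * y) := by ring
      _ = 4 * ((k' : ℝ) + 1) * ((k' : ℝ) + 1 + (T' + 1)) * x * G * (z * a) := by rw [E1]
      _ = 4 * ((k' : ℝ) + 1) * x * z * G * (((k' : ℝ) + 1 + (T' + 1)) * a) := by ring
      _ = 4 * ((k' : ℝ) + 1) * x * z * G * (((T' : ℝ) + 1) * d) := by rw [E2]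
  have f2 : ((T' : ℝ) + 1) * ((k' : ℝ) + 1 + (T' + 1)) * (2 * x) * (-(b * (z * G))) =
      - (((T' : ℝ) + 1) * (2 * x) * z * G * (((k' : ℝ) + 1) * d)) := by
    calc ((T' : ℝ) + 1) * ((k' : ℝ) + 1 + (T' + 1)) * (2 * x) * (-(b * (z * G)))
        = - (((T' : ℝ) + 1) * (2 * x) * z * G * (((k' : ℝ) + 1 + (T' + 1)) * b)) := by ring
      _ = - (((T' : ℝ) + 1) * (2 * x) * z * G * (((k' : ℝ) + 1) * d)) := by rw [E3]
  rw [f1, f2]
  ring

end Pool.Agent.Work.MP_9999b5_sp
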