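import Pool.Agent.Work.MP_9999b5_sp.Interface3

/-!
MP_9999b5_co (Manickam-Miklos-Singhi), `n = 4k + T`, block RF2: the two-level spectral inequality on the levels `≥ 2` (zero degrees).
-/

set_option autoImplicit false

namespace Pool.Agent.Work.MP_9999b5_sp

open Finset

theorem p_RF2 : Stmt_TL2 → Stmt_KN2 → Stmt_RF2 := by
  intro hTL hKN ι _ C k T g hk hT hC hZ
  rcases Nat.lt_or_ge k 2 with hk2 | hk2
  · have hk1 : k = 1 := by omega
    subst hk1
    have hg : ∀ B ∈ C.powersetCard 1, g B = 0 := by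
      intro B hB
      rw [mem_powersetCard] at hB
      obtain ⟨i, rfl⟩ := card_eq_one.mp hB.2
      have hi : i ∈ C := hB.1 (mem_singleton_self i)
      have h1 := hZ i hi
      have h2 : (C.powersetCard 1).filter (fun B => i ∈ B) = {{i}} := by
        ext A
        simp only [mem_filter, mem_powersetCard, mem_singleton]
        constructor
        · rintro ⟨⟨_, hA⟩, hiA⟩
          obtain ⟨a, rfl⟩ := card_eq_one.mp hA
          rw [mem_singleton] at hiA
          rw [hiA]
        · rintro rfl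
          exact ⟨⟨by simpa using hi, card_singleton i⟩, mem_singleton_self i⟩
      rw [h2, sum_singleton] at h1
      exact h1
    have e1 : ∑ W ∈ C.powersetCard (2 * 1), (∑ B ∈ W.powersetCard 1, g B) ^ 2 = 0 := by
      apply sum_eq_zero
      intro W hW
      rw [mem_powersetCard] at hW
      have h0 : ∑ B ∈ W.powersetCard 1, g B = 0 := by
        apply sum_eq_zero
        intro B hB
        rw [mem_powersetCard] at hB
        exact hg B (mem_powersetCard.mpr ⟨hB.1.trans hW.1, hB.2⟩)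
      rw [h0]
      ring
    have e2 : ∑ A ∈ C.powersetCard 1, g A * ∑ B ∈ (C \ A).powersetCard 1, g B = 0 := by
      apply sum_eq_zero
      intro A hA
      rw [hg A hA, zero_mul]
    have e3 : ∑ A ∈ C.powersetCard 1, g A ^ 2 = 0 := by
      apply sum_eq_zero
      intro A hA
      rw [hg A hA]
      ring
    rw [e1, e2, e3]
    simp
  · obtain ⟨j, rfl⟩ : ∃ j, k = j + 2 := ⟨k - 2, by omega⟩
    obtain ⟨t, rfl⟩ : ∃ t, T = t + 1 := ⟨T - 1, by omega⟩
    have h1 := hTL ι C (j + 2) (2 * (j + 2)) g (by omega) (by omega) (by omega) hZ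
    have h2 := hKN ι C (j + 2) (t + 1) g (by omega) hC hZ
    rw [hC] at h1
    have n1 : 2 * (j + 2) - 2 = 2 * j + 2 := by omega
    have n2 : j + 2 - 2 = j := by omega
    have n3 : 2 * (j + 2) + (t + 1) - (j + 2) - 2 = j + t + 1 := by omega
    have n4 : 2 * (j + 2) - (j + 2) = j + 2 := by omega
    have n5 : j + 2 + (t + 1) - 2 = j + t + 1 := by omega
    rw [n1, n2, n3, n4] at h1
    rw [n5, n2] at h2
    have i1 : 2 * (2 * (j : ℝ) + 3) * ((2 * j + 2).choose j : ℝ) =
        ((j : ℝ) + 1) * ((2 * (j + 2)).choose (j + 2) : ℝ) := by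
      have q1 := Nat.add_one_mul_choose_eq (2 * j + 2) j
      have q2 := Nat.add_one_mul_choose_eq (2 * j + 3) (j + 1)
      have r1 : ((2 * j + 2 + 1 : ℕ) : ℝ) * ((2 * j + 2).choose j : ℝ) =
          ((2 * j + 3).choose (j + 1) : ℝ) * ((j + 1 : ℕ) : ℝ) := by exact_mod_cast q1
      have r2 : ((2 * j + 3 + 1 : ℕ) : ℝ) * ((2 * j + 3).choose (j + 1) : ℝ) =
          ((2 * (j + 2)).choose (j + 2) : ℝ) * ((j + 1 + 1 : ℕ) : ℝ) := by
        have : 2 * (j + 2) = (2 * j + 3).succ := by omega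
        rw [this]
        exact_mod_cast q2
      push_cast at r1 r2
      have hj : (0 : ℝ) < (j : ℝ) + 2 := by positivity
      have r3 : 2 * ((2 * j + 3).choose (j + 1) : ℝ) = ((2 * (j + 2)).choose (j + 2) : ℝ) := by
        apply mul_right_cancel₀ hj.ne'
        linear_combination r2
      linear_combination 2 * r1 + ((j : ℝ) + 1) * r3
    have i2 : ((j : ℝ) + t + 3) * ((j : ℝ) + t + 2) * ((j + t + 1).choose (j + 2) : ℝ) =
        ((t : ℝ) + 1) * t * ((j + 2 + (t + 1)).choose (j + 2) : ℝ) := by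
      have q3 := Nat.choose_mul_succ_eq (j + t + 1) (j + 2)
      have q4 := Nat.choose_mul_succ_eq (j + t + 2) (j + 2)
      have m1 : j + t + 1 + 1 - (j + 2) = t := by omega
      have m2 : j + t + 2 + 1 - (j + 2) = t + 1 := by omega
      rw [m1] at q3
      rw [m2] at q4
      have r1 : ((j + t + 1).choose (j + 2) : ℝ) * ((j + t + 1 + 1 : ℕ) : ℝ) =
          ((j + t + 2).choose (j + 2) : ℝ) * (t : ℝ) := by exact_mod_cast q3
      have r2 : ((j + t + 2).choose (j + 2) : ℝ) * ((j + t + 2 + 1 : ℕ) : ℝ) =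
          ((j + 2 + (t + 1)).choose (j + 2) : ℝ) * ((t + 1 : ℕ) : ℝ) := by
        have : j + 2 + (t + 1) = j + t + 2 + 1 := by omega
        rw [this]
        exact_mod_cast q4
      push_cast at r1 r2
      linear_combination ((j : ℝ) + t + 3) * r1 + (t : ℝ) * r2
    have i3 : ((j : ℝ) + t + 3) * ((j : ℝ) + t + 2) * ((j + t + 1).choose j : ℝ) =
        ((j : ℝ) + 2) * ((j : ℝ) + 1) * ((j + 2 + (t + 1)).choose (j + 2) : ℝ) := by
      have q5 := Nat.add_one_mul_choose_eq (j + t + 1) j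
      have q6 := Nat.add_one_mul_choose_eq (j + t + 2) (j + 1)
      have r1 : ((j + t + 1 + 1 : ℕ) : ℝ) * ((j + t + 1).choose j : ℝ) =
          ((j + t + 2).choose (j + 1) : ℝ) * ((j + 1 : ℕ) : ℝ) := by exact_mod_cast q5
      have r2 : ((j + t + 2 + 1 : ℕ) : ℝ) * ((j + t + 2).choose (j + 1) : ℝ) =
          ((j + 2 + (t + 1)).choose (j + 2) : ℝ) * ((j + 1 + 1 : ℕ) : ℝ) := by
        have : j + 2 + (t + 1) = (j + t + 2).succ := by omega
        rw [this]
        exact_mod_cast q6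
      push_cast at r1 r2
      linear_combination ((j : ℝ) + t + 3) * r1 + ((j : ℝ) + 1) * r2
    have hS : 0 ≤ ∑ B ∈ C.powersetCard (j + 2), g B ^ 2 := sum_nonneg fun _ _ => sq_nonneg _
    generalize hSd : ∑ B ∈ C.powersetCard (j + 2), g B ^ 2 = S at h1 h2 hS ⊢
    generalize hUd : ∑ W ∈ C.powersetCard (2 * (j + 2)),
      (∑ B ∈ W.powersetCard (j + 2), g B) ^ 2 = U at h1 ⊢
    generalize hVd : ∑ A ∈ C.powersetCard (j + 2),
      g A * ∑ B ∈ (C \ A).powersetCard (j + 2), g B = V at h2 ⊢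
    have hX : (0 : ℝ) ≤ ((2 * (j + 2)).choose (j + 2) : ℝ) := Nat.cast_nonneg _
    have hY : (0 : ℝ) ≤ ((j + 2 + (t + 1)).choose (j + 2) : ℝ) := Nat.cast_nonneg _
    generalize ((2 * (j + 2)).choose (j + 2) : ℝ) = X at i1 hX ⊢
    generalize ((j + 2 + (t + 1)).choose (j + 2) : ℝ) = Y at i2 i3 hY ⊢
    generalize ((2 * j + 2).choose j : ℝ) = a1 at i1 h1
    generalize ((j + t + 1).choose (j + 2) : ℝ) = a2 at i2 h1
    generalize ((j + t + 1).choose j : ℝ) = a3 at i3 h2
    push_cast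
    have hj : (0 : ℝ) ≤ (j : ℝ) := Nat.cast_nonneg _
    have ht : (0 : ℝ) ≤ (t : ℝ) := Nat.cast_nonneg _
    generalize (j : ℝ) = x at i1 i2 i3 hj ⊢
    generalize (t : ℝ) = y at i2 i3 ht ⊢
    have key : 4 * (x + 2) * (x + 2 + (y + 1)) * (a1 * a2) + (y + 1) * (x + 2 + (y + 1)) * X * a3 ≤
        (y + 1) * (x + 2) * X * Y := by
      have hD : 0 < 2 * (2 * x + 3) * (x + y + 2) := by positivity
      refine le_of_mul_le_mul_left ?_ hD
      have e1 : 2 * (2 * x + 3) * (x + y + 2) *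
          (4 * (x + 2) * (x + 2 + (y + 1)) * (a1 * a2) + (y + 1) * (x + 2 + (y + 1)) * X * a3) =
          4 * (x + 2) * ((x + 1) * X) * ((y + 1) * y * Y) +
            2 * (2 * x + 3) * (y + 1) * X * ((x + 2) * (x + 1) * Y) := by
        rw [← i1, ← i2, ← i3]
        ring
      have e2 : 0 ≤ 2 * (y + 1) * (x + 2) * (X * Y) * (y + 2 * x + 3) := by positivity
      rw [e1]
      linarith
    have c1 : 0 ≤ 4 * (x + 2) * (x + 2 + (y + 1)) := by positivity
    have c2 : 0 ≤ (y + 1) * (x + 2 + (y + 1)) * X := by positivity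
    have s1 := mul_le_mul_of_nonneg_left h1 c1
    have s2 := mul_le_mul_of_nonneg_left h2 c2
    have s3 := mul_le_mul_of_nonneg_right key hS
    calc 4 * (x + 2) * (x + 2 + (y + 1)) * U + (y + 1) * (x + 2 + (y + 1)) * X * V
        ≤ 4 * (x + 2) * (x + 2 + (y + 1)) * (a1 * a2 * S) +
          (y + 1) * (x + 2 + (y + 1)) * X * (a3 * S) := add_le_add s1 s2
      _ = (4 * (x + 2) * (x + 2 + (y + 1)) * (a1 * a2) +
          (y + 1) * (x + 2 + (y + 1)) * X * a3) * S := by ring
      _ ≤ (y + 1) * (x + 2) * X * Y * S := s3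

end Pool.Agent.Work.MP_9999b5_sp
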