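import Pool.Agent.Work.MP_9999b5_sp.Interface3

/-!
MP_9999b5_co, block RFS: the two-level inequality for functions.
-/

set_option autoImplicit false

namespace Pool.Agent.Work.MP_9999b5_sp

open Finset

theorem p_RFS : Stmt_LSM → Stmt_ZDU → Stmt_DEC → Stmt_ORT → Stmt_KSY → Stmt_RF1 → Stmt_RF2 → Stmt_RFS := by
  intro hLSM hZDU hDEC hORT hKSY hRF1 hRF2 ι _ C k T f hk hT hC hf
  obtain ⟨γ, hγ, hZ⟩ := hDEC ι C k f hk (by omega) hf
  have h1 := hRF1 ι C k T γ hk hT hC hγ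
  have h2 := hRF2 ι C k T (fun B => f B - ∑ i ∈ B, γ i) hk hT hC hZ
  beta_reduce at h2
  -- the up-sum of `g` has zero degrees on level `2k`
  have hU := hZDU ι C k (2 * k) (fun B => f B - ∑ i ∈ B, γ i) hk (by omega) hZ
  have hO2 := hORT ι C (2 * k) γ _ hU
  have hO1 := hORT ι C k γ _ hZ
  beta_reduce at hO1 hO2
  -- `∑_W U s · U g = 0`
  have hUs : ∀ W ∈ C.powersetCard (2 * k), ∑ B ∈ W.powersetCard k, ∑ i ∈ B, γ i =
      ((2 * k - 1).choose (k - 1) : ℝ) * ∑ j ∈ W, γ j := by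
    intro W hW
    have := hLSM ι W k γ hk
    rw [(mem_powersetCard.1 hW).2] at this
    exact this
  have hc1 : ∑ W ∈ C.powersetCard (2 * k), (∑ B ∈ W.powersetCard k, ∑ i ∈ B, γ i) *
      (∑ B ∈ W.powersetCard k, (f B - ∑ i ∈ B, γ i)) = 0 := by
    calc ∑ W ∈ C.powersetCard (2 * k), (∑ B ∈ W.powersetCard k, ∑ i ∈ B, γ i) *
          (∑ B ∈ W.powersetCard k, (f B - ∑ i ∈ B, γ i))
        = ∑ W ∈ C.powersetCard (2 * k), ((2 * k - 1).choose (k - 1) : ℝ) * ((∑ j ∈ W, γ j) *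
          (∑ B ∈ W.powersetCard k, (f B - ∑ i ∈ B, γ i))) := by
          apply sum_congr rfl
          intro W hW
          rw [hUs W hW, mul_assoc]
      _ = 0 := by rw [← mul_sum, hO2, mul_zero]
  have e1 : ∑ W ∈ C.powersetCard (2 * k), (∑ B ∈ W.powersetCard k, f B) ^ 2 =
      ∑ W ∈ C.powersetCard (2 * k), (∑ B ∈ W.powersetCard k, ∑ i ∈ B, γ i) ^ 2 +
      ∑ W ∈ C.powersetCard (2 * k), (∑ B ∈ W.powersetCard k, (f B - ∑ i ∈ B, γ i)) ^ 2 := by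
    have : ∀ W ∈ C.powersetCard (2 * k), (∑ B ∈ W.powersetCard k, f B) ^ 2 =
        (∑ B ∈ W.powersetCard k, ∑ i ∈ B, γ i) ^ 2 +
        (∑ B ∈ W.powersetCard k, (f B - ∑ i ∈ B, γ i)) ^ 2 +
        2 * ((∑ B ∈ W.powersetCard k, ∑ i ∈ B, γ i) *
          (∑ B ∈ W.powersetCard k, (f B - ∑ i ∈ B, γ i))) := by
      intro W _
      rw [sum_sub_distrib]
      ring
    rw [sum_congr rfl this, sum_add_distrib, sum_add_distrib, ← mul_sum, hc1]
    ring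
  -- `K s`
  have hKs : ∀ A ∈ C.powersetCard k, ∑ B ∈ (C \ A).powersetCard k, ∑ i ∈ B, γ i =
      ((k + T - 1).choose (k - 1) : ℝ) * (-∑ j ∈ A, γ j) := by
    intro A hA
    have hA' := mem_powersetCard.1 hA
    have := hLSM ι (C \ A) k γ hk
    have hcard : (C \ A).card = k + T := by
      rw [card_sdiff_of_subset hA'.1, hC, hA'.2]
      omega
    rw [hcard] at this
    rw [this]
    congr 1
    have h5 := sum_sdiff (f := γ) hA'.1
    rw [hγ] at h5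
    linarith
  have hc2 : ∑ A ∈ C.powersetCard k, (f A - ∑ i ∈ A, γ i) *
      ∑ B ∈ (C \ A).powersetCard k, ∑ i ∈ B, γ i = 0 := by
    calc ∑ A ∈ C.powersetCard k, (f A - ∑ i ∈ A, γ i) *
          ∑ B ∈ (C \ A).powersetCard k, ∑ i ∈ B, γ i
        = ∑ A ∈ C.powersetCard k, (-((k + T - 1).choose (k - 1) : ℝ)) * ((∑ i ∈ A, γ i) *
          (f A - ∑ i ∈ A, γ i)) := by
          apply sum_congr rfl
          intro A hA
          rw [hKs A hA]
          ring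
      _ = 0 := by rw [← mul_sum, hO1, mul_zero]
  have hc3 : ∑ A ∈ C.powersetCard k, (∑ i ∈ A, γ i) *
      ∑ B ∈ (C \ A).powersetCard k, (f B - ∑ i ∈ B, γ i) = 0 := by
    have := hKSY ι C k (fun A => ∑ i ∈ A, γ i) (fun B => f B - ∑ i ∈ B, γ i)
    beta_reduce at this
    rw [this, hc2]
  have e2 : ∑ A ∈ C.powersetCard k, f A * ∑ B ∈ (C \ A).powersetCard k, f B =
      ∑ A ∈ C.powersetCard k, (∑ i ∈ A, γ i) * ∑ B ∈ (C \ A).powersetCard k, ∑ i ∈ B, γ i +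
      ∑ A ∈ C.powersetCard k, (f A - ∑ i ∈ A, γ i) *
        ∑ B ∈ (C \ A).powersetCard k, (f B - ∑ i ∈ B, γ i) := by
    have : ∀ A ∈ C.powersetCard k, f A * ∑ B ∈ (C \ A).powersetCard k, f B =
        (∑ i ∈ A, γ i) * (∑ B ∈ (C \ A).powersetCard k, ∑ i ∈ B, γ i) +
        (f A - ∑ i ∈ A, γ i) * (∑ B ∈ (C \ A).powersetCard k, (f B - ∑ i ∈ B, γ i)) +
        (∑ i ∈ A, γ i) * (∑ B ∈ (C \ A).powersetCard k, (f B - ∑ i ∈ B, γ i)) +
        (f A - ∑ i ∈ A, γ i) * (∑ B ∈ (C \ A).powersetCard k, ∑ i ∈ B, γ i) := by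
      intro A _
      rw [sum_sub_distrib]
      ring
    rw [sum_congr rfl this, sum_add_distrib, sum_add_distrib, sum_add_distrib, hc2, hc3]
    ring
  have e3 : ∑ A ∈ C.powersetCard k, f A ^ 2 =
      ∑ A ∈ C.powersetCard k, (∑ i ∈ A, γ i) ^ 2 +
      ∑ A ∈ C.powersetCard k, (f A - ∑ i ∈ A, γ i) ^ 2 := by
    have : ∀ A ∈ C.powersetCard k, f A ^ 2 =
        (∑ i ∈ A, γ i) ^ 2 + (f A - ∑ i ∈ A, γ i) ^ 2 +
        2 * ((∑ i ∈ A, γ i) * (f A - ∑ i ∈ A, γ i)) := by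
      intro A _
      ring
    rw [sum_congr rfl this, sum_add_distrib, sum_add_distrib, ← mul_sum, hO1]
    ring
  rw [e1, e2, e3]
  linarith

end Pool.Agent.Work.MP_9999b5_sp
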