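import Pool.Agent.Work.MP_9999b5_sp.Interface

set_option autoImplicit false

namespace Pool.Agent.Work.MP_9999b5_sp

open Finset

theorem p_SCA : Stmt_SCA := by
  intro t p q r ht0 ht1 hp0 hp1 hq0 hq1 hpt hr
  rcases eq_or_lt_of_le ht0 with h0 | hpos
  · -- `t = 0`
    subst h0
    have hr0 : r = 0 := by
      have : r ^ 2 ≤ 0 := by nlinarith
      exact pow_eq_zero_iff (two_ne_zero) |>.mp (le_antisymm this (sq_nonneg r))
    subst hr0
    have : 1 - 4 * p ≤ 0 := by linarith
    nlinarith
  · have hP : 0 ≤ p * (1 - p) := mul_nonneg hp0 (by linarith)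
    set A : ℝ := (1 + t) * (1 - 4 * p) ^ 2 + 16 * t * (p * (1 - p)) with hA
    have hApos : 0 < A := by
      rcases eq_or_lt_of_le hP with h | h
      · -- `p (1 - p) = 0`
        have h4 : 1 - 4 * p ≠ 0 := by
          intro h4
          have hp4 : p = 1 / 4 := by linarith
          rw [hp4] at h
          norm_num at h
        have : 0 < (1 - 4 * p) ^ 2 := by positivity
        rw [hA, ← h]
        nlinarith
      · rw [hA]
        have h1 : 0 ≤ (1 + t) * (1 - 4 * p) ^ 2 := by positivity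
        have h2 : 0 < 16 * t * (p * (1 - p)) := by positivity
        linarith
    have key : A * ((1 + t) * (t - q * (1 - 4 * p)) ^ 2 - 16 * t * (q * (1 - q) * (p * (1 - p)))) =
        (A * q - t * ((1 + t) * (1 - 4 * p) + 8 * (p * (1 - p)))) ^ 2 +
          16 * t ^ 2 * (p * (1 - p)) * ((t + 2 * p) ^ 2 - 1) := by
      rw [hA]; ring
    have hge : 0 ≤ (t + 2 * p) ^ 2 - 1 := by nlinarith
    have hrhs : 0 ≤ (A * q - t * ((1 + t) * (1 - 4 * p) + 8 * (p * (1 - p)))) ^ 2 +
          16 * t ^ 2 * (p * (1 - p)) * ((t + 2 * p) ^ 2 - 1) := by positivity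
    have hmain : 0 ≤ (1 + t) * (t - q * (1 - 4 * p)) ^ 2 -
        16 * t * (q * (1 - q) * (p * (1 - p))) := by
      by_contra hneg
      push Not at hneg
      have := mul_neg_of_pos_of_neg hApos hneg
      linarith [key ▸ hrhs]
    have hD : 0 ≤ t - q * (1 - 4 * p) := by
      rcases le_or_gt (1 - 4 * p) 0 with h | h
      · nlinarith
      · have h1 : q * (1 - 4 * p) ≤ 1 - 4 * p := by nlinarith
        linarith
    have hsq : (1 + t) * (4 * r) ^ 2 ≤ (1 + t) * (t - q * (1 - 4 * p)) ^ 2 := by nlinarith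
    have hsq' : (4 * r) ^ 2 ≤ (t - q * (1 - 4 * p)) ^ 2 :=
      le_of_mul_le_mul_left hsq (by linarith)
    have habs := abs_le_of_sq_le_sq hsq' hD
    have := (abs_le.mp habs).1
    linarith

end Pool.Agent.Work.MP_9999b5_sp
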