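import Pool.Agent.Work.MP_9999b5_sp.Interface

/-!
# SPF: the sharp inequality for families
-/

set_option autoImplicit false

namespace Pool.Agent.Work.MP_9999b5_sp

open Finset

theorem p_SPF : Stmt_COV → Stmt_SCA → Stmt_SPF := by
  intro hCOV hSCA ι _ C k T H P hk hC hH hP hcard
  obtain ⟨p, q, r, hp0, hp1, hq0, hq1, hPc, hHc, hsum, hr⟩ := hCOV ι C k T H P hk hC hH hP
  have hkR : (1 : ℝ) ≤ k := by exact_mod_cast hk
  have hTR : (0 : ℝ) ≤ T := Nat.cast_nonneg T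
  set m : ℝ := 2 * (k : ℝ) + T with hm
  have hmpos : 0 < m := by linarith
  have hN1 : (0 : ℝ) < ((2 * k + T).choose k : ℝ) := by
    exact_mod_cast Nat.choose_pos (by omega)
  have hN2 : (0 : ℝ) ≤ ((2 * k + T).choose (2 * k) : ℝ) := Nat.cast_nonneg _
  have hX : (0 : ℝ) ≤ ((2 * k).choose k : ℝ) := Nat.cast_nonneg _
  have h1 : (k : ℝ) * ((2 * k + T).choose k : ℝ) ≤ m * (P.card : ℝ) := by
    have := (Nat.cast_le (α := ℝ)).2 hcard
    push_cast at this
    rw [hm]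
    linarith
  have h2 : (k : ℝ) ≤ m * p := by
    rw [hPc] at h1
    have : (k : ℝ) * ((2 * k + T).choose k : ℝ) ≤ (m * p) * ((2 * k + T).choose k : ℝ) := by
      linarith
    exact le_of_mul_le_mul_right this hN1
  have ht0 : 0 ≤ (T : ℝ) / m := div_nonneg hTR hmpos.le
  have ht1 : (T : ℝ) / m ≤ 1 := by
    rw [div_le_one hmpos]
    linarith
  have hpt : 1 ≤ 2 * p + (T : ℝ) / m := by
    have : 1 - 2 * p ≤ (T : ℝ) / m := by
      rw [le_div_iff₀ hmpos]
      nlinarith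
    linarith
  have hr' : (1 + (T : ℝ) / m) * r ^ 2 ≤ (T : ℝ) / m * (q * (1 - q) * (p * (1 - p))) := by
    have e1 : (1 + (T : ℝ) / m) * r ^ 2 = (2 * ((k : ℝ) + T) * r ^ 2) / m := by
      field_simp
      rw [hm]
      ring
    have e2 : (T : ℝ) / m * (q * (1 - q) * (p * (1 - p))) =
        ((T : ℝ) * (q * (1 - q) * (p * (1 - p)))) / m := by
      ring
    rw [e1, e2]
    exact div_le_div_of_nonneg_right hr hmpos.le
  have h3 := hSCA ((T : ℝ) / m) p q r ht0 ht1 hp0 hp1 hq0 hq1 hpt hr'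
  have h4 : m * (q * (1 - 4 * p) - 4 * r) ≤ T := by
    rw [le_div_iff₀ hmpos] at h3
    linarith
  have h5 : m * (q * (1 - 4 * p) - 4 * r) *
      (((2 * k).choose k : ℝ) * ((2 * k + T).choose (2 * k) : ℝ)) ≤
      (T : ℝ) * (((2 * k).choose k : ℝ) * ((2 * k + T).choose (2 * k) : ℝ)) :=
    mul_le_mul_of_nonneg_right h4 (mul_nonneg hX hN2)
  have h6 : m * (((2 * k).choose k : ℝ) * (H.card : ℝ)) ≤
      (T : ℝ) * (((2 * k).choose k : ℝ) * ((2 * k + T).choose (2 * k) : ℝ)) +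
        4 * m * ∑ W ∈ H, ((P.filter (fun B => B ⊆ W)).card : ℝ) := by
    rw [hsum, hHc]
    linarith
  have h7 : (((2 * k + T) * ((2 * k).choose k * H.card) : ℕ) : ℝ) ≤
      ((T * ((2 * k).choose k * (2 * k + T).choose (2 * k)) +
        4 * (2 * k + T) * ∑ W ∈ H, (P.filter (fun B => B ⊆ W)).card : ℕ) : ℝ) := by
    push_cast
    rw [hm] at h6
    exact h6
  exact_mod_cast h7

end Pool.Agent.Work.MP_9999b5_sp
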