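import Pool.Agent.Work.MP_9999b5_sp.Interface3

set_option autoImplicit false

/-! SQ1: the sum of the squares of a linear function on a level. -/

namespace Pool.Agent.Work.MP_9999b5_sp

open Finset

theorem p_SQ1 : Stmt_DG1 → Stmt_SQ1 := by
  intro hD ι _ C b γ hb hb1 h0
  have h1 : ∑ W ∈ C.powersetCard b, (∑ j ∈ W, γ j) ^ 2 =
      ∑ W ∈ C.powersetCard b, ∑ i ∈ W, γ i * ∑ j ∈ W, γ j := by
    refine Finset.sum_congr rfl fun W _ => ?_
    rw [sq, Finset.sum_mul]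
  have h2 : ∑ W ∈ C.powersetCard b, ∑ i ∈ W, γ i * ∑ j ∈ W, γ j =
      ∑ i ∈ C, ∑ W ∈ (C.powersetCard b).filter (fun W => i ∈ W), γ i * ∑ j ∈ W, γ j := by
    refine Finset.sum_comm' ?_
    intro W i
    simp only [Finset.mem_filter]
    constructor
    · rintro ⟨hW, hi⟩
      exact ⟨⟨hW, hi⟩, (Finset.mem_powersetCard.1 hW).1 hi⟩
    · rintro ⟨⟨hW, hi⟩, _⟩
      exact ⟨hW, hi⟩
  rw [h1, h2, Finset.mul_sum]
  refine Finset.sum_congr rfl fun i hi => ?_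
  rw [← Finset.mul_sum, hD ι C b γ hb hb1 h0 i hi]
  ring

end Pool.Agent.Work.MP_9999b5_sp
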