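import Pool.Agent.Work.MP_9999b5_sp.Interface

/-!
Block TEL (helper52): the Poincare inequality over several levels.
-/

set_option autoImplicit false

namespace Pool.Agent.Work.MP_9999b5_sp

open Finset

theorem p_TEL (hP : Stmt_POI) (hS : Stmt_SUB) : Stmt_TEL := by
  intro ι _ C a b g ha hab hb h0
  obtain ⟨a', rfl⟩ : ∃ a', a = a' + 1 := ⟨a - 1, by omega⟩
  obtain ⟨d, rfl⟩ := Nat.exists_eq_add_of_le hab
  clear hab ha
  have key : ∀ d, a' + 1 + d ≤ C.card →
      ∑ W ∈ C.powersetCard (a' + 1 + d), (∑ B ∈ W.powersetCard (a' + 1), g B) ^ 2 ≤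
        ((a' + d).choose a' : ℝ) * ((C.card - (a' + 1) - 1).choose d : ℝ) *
          ∑ B ∈ C.powersetCard (a' + 1), g B ^ 2 := by
    intro d
    induction d with
    | zero =>
      intro _
      refine le_of_eq ?_
      rw [show a' + 1 + 0 = a' + 1 from rfl, show a' + 0 = a' from rfl, Nat.choose_self,
        Nat.choose_zero_right, Nat.cast_one, one_mul, one_mul]
      refine Finset.sum_congr rfl (fun W hW => ?_)
      have : W.powersetCard (a' + 1) = {W} := by
        rw [← (mem_powersetCard.1 hW).2, Finset.powersetCard_self]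
      rw [this, sum_singleton]
    | succ d ih =>
      intro hd
      have ih' := ih (by omega)
      set S := ∑ B ∈ C.powersetCard (a' + 1), g B ^ 2 with hSdef
      set M := C.card - (a' + 1) - 1 with hM
      have h1 : ∑ U ∈ C.powersetCard (a' + 1 + d), ∑ B ∈ U.powersetCard (a' + 1), g B = 0 := by
        rw [hS ι C (a' + 1) (a' + 1 + d) g (by omega), h0, mul_zero]
      have h2 := hP ι C (a' + 1 + d) (fun U => ∑ B ∈ U.powersetCard (a' + 1), g B) (by omega) h1
      have h3 : ∑ W ∈ C.powersetCard (a' + 1 + d + 1),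
          (∑ U ∈ W.powersetCard (a' + 1 + d), ∑ B ∈ U.powersetCard (a' + 1), g B) ^ 2 =
          ((d : ℝ) + 1) ^ 2 * ∑ W ∈ C.powersetCard (a' + 1 + (d + 1)),
            (∑ B ∈ W.powersetCard (a' + 1), g B) ^ 2 := by
        rw [mul_sum]
        refine sum_congr rfl (fun W hW => ?_)
        rw [hS ι W (a' + 1) (a' + 1 + d) g (by omega), (mem_powersetCard.1 hW).2, mul_pow]
        have q1 : a' + 1 + (d + 1) - (a' + 1) = d + 1 := by omega
        have q2 : a' + 1 + d - (a' + 1) = d := by omega
        rw [q1, q2, Nat.choose_succ_self_right]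
        push_cast
        rfl
      rw [h3] at h2
      have e1 : ((a' + (d + 1)).choose a' : ℝ) * ((d : ℝ) + 1) =
          ((a' : ℝ) + 1 + d) * ((a' + d).choose a' : ℝ) := by
        have := Nat.choose_mul_succ_eq (a' + d) a'
        have q : a' + d + 1 - a' = d + 1 := by omega
        rw [q] at this
        have h := congrArg (Nat.cast : ℕ → ℝ) this
        push_cast at h
        have q' : a' + (d + 1) = a' + d + 1 := by omega
        rw [q', ← h]
        ring
      have e2 : ((M.choose (d + 1) : ℕ) : ℝ) * ((d : ℝ) + 1) =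
          (M.choose d : ℝ) * ((C.card : ℝ) - ((a' + 1 + d : ℕ) : ℝ) - 1) := by
        have := Nat.choose_succ_right_eq M d
        have q : ((M - d : ℕ) : ℝ) = (C.card : ℝ) - ((a' + 1 + d : ℕ) : ℝ) - 1 := by
          have : C.card = (M - d) + (a' + 1 + d) + 1 := by omega
          have h := congrArg (Nat.cast : ℕ → ℝ) this
          push_cast at h ⊢
          linarith
        have h := congrArg (Nat.cast : ℕ → ℝ) this
        rw [Nat.cast_mul, Nat.cast_mul, q] at h
        push_cast at h ⊢
        linarith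
      have hk : (0 : ℝ) ≤ ((a' + 1 + d : ℕ) : ℝ) * ((C.card : ℝ) - ((a' + 1 + d : ℕ) : ℝ) - 1) := by
        refine mul_nonneg (Nat.cast_nonneg _) ?_
        have : ((a' + 1 + d + 1 : ℕ) : ℝ) ≤ (C.card : ℝ) := by
          exact_mod_cast (by omega : a' + 1 + d + 1 ≤ C.card)
        push_cast at this ⊢
        linarith
      have h4 := h2.trans (mul_le_mul_of_nonneg_left ih' hk)
      have hpos : (0 : ℝ) < ((d : ℝ) + 1) ^ 2 := by positivity
      refine le_of_mul_le_mul_left (h4.trans (le_of_eq ?_)) hpos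
      have e3 : ((a' + 1 + d : ℕ) : ℝ) = (a' : ℝ) + 1 + d := by push_cast; ring
      calc ((a' + 1 + d : ℕ) : ℝ) * ((C.card : ℝ) - ((a' + 1 + d : ℕ) : ℝ) - 1) *
            (((a' + d).choose a' : ℝ) * (M.choose d : ℝ) * S)
          = (((a' : ℝ) + 1 + d) * ((a' + d).choose a' : ℝ)) *
            ((M.choose d : ℝ) * ((C.card : ℝ) - ((a' + 1 + d : ℕ) : ℝ) - 1)) * S := by
            rw [e3]; ring
        _ = (((a' + (d + 1)).choose a' : ℝ) * ((d : ℝ) + 1)) *
            (((M.choose (d + 1) : ℕ) : ℝ) * ((d : ℝ) + 1)) * S := by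
            rw [e1, e2]
        _ = ((d : ℝ) + 1) ^ 2 * (((a' + (d + 1)).choose a' : ℝ) *
            ((M.choose (d + 1) : ℕ) : ℝ) * S) := by ring
  have h := key d hb
  have q1 : a' + 1 + d - 1 = a' + d := by omega
  have q2 : a' + 1 - 1 = a' := by omega
  have q3 : a' + 1 + d - (a' + 1) = d := by omega
  rw [q1, q2, q3]
  exact h

end Pool.Agent.Work.MP_9999b5_sp
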