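import Pool.Agent.Work.MP_9999b5_sp.Interface

set_option autoImplicit false

namespace Pool.Agent.Work.MP_9999b5_sp

open Finset

/-- number of the `(a+2)`-sets above two `(a+1)`-sets -/
theorem p_UPC : Stmt_UPC := by
  intro ι _ C a B B' hB hB'
  obtain ⟨hBC, hBc⟩ := mem_powersetCard.1 hB
  obtain ⟨hBC', hBc'⟩ := mem_powersetCard.1 hB'
  split_ifs with h h2
  · subst h
    have himg : (C.powersetCard (a + 2)).filter (fun W => B ⊆ W ∧ B ⊆ W) =
        (C \ B).image (fun x => insert x B) := by
      ext W
      simp only [mem_filter, mem_powersetCard, mem_image, mem_sdiff, and_self]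
      constructor
      · rintro ⟨⟨hWC, hWc⟩, hBW⟩
        have h1 : (W \ B).card = 1 := by
          rw [card_sdiff_of_subset hBW]
          omega
        obtain ⟨x, hx⟩ := card_eq_one.1 h1
        have hxm : x ∈ W \ B := by rw [hx]; exact mem_singleton_self x
        rw [mem_sdiff] at hxm
        refine ⟨x, ⟨hWC hxm.1, hxm.2⟩, ?_⟩
        rw [insert_eq, ← hx, sdiff_union_of_subset hBW]
      · rintro ⟨x, ⟨hxC, hxB⟩, rfl⟩
        refine ⟨⟨insert_subset hxC hBC, ?_⟩, subset_insert _ _⟩
        rw [card_insert_of_notMem hxB, hBc]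
    rw [himg, card_image_of_injOn, card_sdiff_of_subset hBC, hBc]
    intro x hx y hy hxy
    have hx' : x ∉ B := (mem_sdiff.1 hx).2
    have h3 : x ∈ insert y B := by
      rw [← (show insert x B = insert y B from hxy)]
      exact mem_insert_self _ _
    rcases mem_insert.1 h3 with h4 | h4
    · exact h4
    · exact absurd h4 hx'
  · have hcard : (B ∪ B').card = a + 2 := by
      have := card_union_add_card_inter B B'
      omega
    have hs : (C.powersetCard (a + 2)).filter (fun W => B ⊆ W ∧ B' ⊆ W) = {B ∪ B'} := by
      ext W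
      simp only [mem_filter, mem_powersetCard, mem_singleton]
      constructor
      · rintro ⟨⟨_, hWc⟩, h5, h6⟩
        exact (eq_of_subset_of_card_le (union_subset h5 h6) (by omega)).symm
      · rintro rfl
        exact ⟨⟨union_subset hBC hBC', hcard⟩, subset_union_left, subset_union_right⟩
    rw [hs, card_singleton]
  · rw [card_eq_zero, filter_eq_empty_iff]
    rintro W hW ⟨h5, h6⟩
    obtain ⟨_, hWc⟩ := mem_powersetCard.1 hW
    have h7 : (B ∪ B').card ≤ a + 2 := by
      rw [← hWc]
      exact card_le_card (union_subset h5 h6)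
    have h8 := card_union_add_card_inter B B'
    have h9 : (B ∩ B').card ≤ a + 1 := by
      rw [← hBc]
      exact card_le_card inter_subset_left
    have h10 : (B ∩ B').card = a + 1 := by omega
    apply h
    have h11 : B ∩ B' = B := eq_of_subset_of_card_le inter_subset_left (by omega)
    have h12 : B ∩ B' = B' := eq_of_subset_of_card_le inter_subset_right (by omega)
    rw [← h11]
    exact h12

end Pool.Agent.Work.MP_9999b5_sp
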