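import Pool.Agent.Work.MP_9999b5_sp.Interface

set_option autoImplicit false

namespace Pool.Agent.Work.MP_9999b5_sp

open Finset

/-- expansion of the squares -/
theorem UPD_expand {ι : Type} [DecidableEq ι] (P Q : Finset (Finset ι)) (R : Finset ι → Finset ι → Prop)
    [∀ W B, Decidable (R W B)] (g : Finset ι → ℝ) :
    ∑ W ∈ Q, (∑ B ∈ P.filter (fun B => R W B), g B) ^ 2 =
      ∑ B ∈ P, ∑ B' ∈ P, g B * g B' * ((Q.filter (fun W => R W B ∧ R W B')).card : ℝ) := by
  have h1 : ∀ W ∈ Q, (∑ B ∈ P.filter (fun B => R W B), g B) ^ 2 =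
      ∑ B ∈ P, ∑ B' ∈ P, g B * g B' * (if R W B ∧ R W B' then (1 : ℝ) else 0) := by
    intro W _
    rw [sq, sum_mul_sum, sum_filter]
    refine sum_congr rfl fun B _ => ?_
    by_cases hB : R W B
    · rw [if_pos hB, sum_filter]
      refine sum_congr rfl fun B' _ => ?_
      by_cases hB' : R W B'
      · rw [if_pos hB', if_pos ⟨hB, hB'⟩, mul_one]
      · rw [if_neg hB', if_neg (fun h => hB' h.2), mul_zero]
    · rw [if_neg hB]
      symm
      refine sum_eq_zero fun B' _ => ?_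
      rw [if_neg (fun h => hB h.1), mul_zero]
  rw [sum_congr rfl h1, sum_comm]
  refine sum_congr rfl fun B _ => ?_
  rw [sum_comm]
  refine sum_congr rfl fun B' _ => ?_
  rw [← mul_sum, ← sum_boole]

/-- **UPD.** -/
theorem p_UPD : Stmt_UPC → Stmt_DNC → Stmt_UPD := by
  intro hup hdn ι _ C a g
  have e1 : ∑ W ∈ C.powersetCard (a + 2), (∑ B ∈ W.powersetCard (a + 1), g B) ^ 2 =
      ∑ W ∈ C.powersetCard (a + 2),
        (∑ B ∈ (C.powersetCard (a + 1)).filter (fun B => B ⊆ W), g B) ^ 2 := by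
    refine sum_congr rfl fun W hW => ?_
    have hWC := (mem_powersetCard.1 hW).1
    congr 2
    ext B
    simp only [mem_powersetCard, mem_filter]
    constructor
    · rintro ⟨h1, h2⟩
      exact ⟨⟨h1.trans hWC, h2⟩, h1⟩
    · rintro ⟨⟨_, h2⟩, h1⟩
      exact ⟨h1, h2⟩
  rw [e1, UPD_expand (C.powersetCard (a + 1)) (C.powersetCard (a + 2)) (fun W B => B ⊆ W) g,
    UPD_expand (C.powersetCard (a + 1)) (C.powersetCard a) (fun A B => A ⊆ B) g, mul_sum,
    ← sum_add_distrib]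
  refine sum_congr rfl fun B hB => ?_
  have h2 : ((C.card : ℝ) - 2 * ((a : ℝ) + 1)) * g B ^ 2 =
      ∑ B' ∈ C.powersetCard (a + 1),
        if B = B' then ((C.card : ℝ) - 2 * ((a : ℝ) + 1)) * (g B * g B') else 0 := by
    rw [sum_ite_eq, if_pos hB, sq]
  rw [h2, ← sum_add_distrib]
  refine sum_congr rfl fun B' hB' => ?_
  rw [hup ι C a B B' hB hB', hdn ι C a B B' hB hB']
  have hcard : a + 1 ≤ C.card := by
    obtain ⟨h3, h4⟩ := mem_powersetCard.1 hB
    rw [← h4]
    exact card_le_card h3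
  by_cases h : B = B'
  · rw [if_pos h, if_pos h, if_pos h, Nat.cast_sub hcard]
    push_cast
    ring
  · rw [if_neg h, if_neg h, if_neg h, add_zero]

end Pool.Agent.Work.MP_9999b5_sp
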