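import Pool.Agent.Work.MP_9999b5_sp.Interface2
import Pool.Agent.Work.MP_9999b5_mr.B_WAB

/-!
WAL (MP_9999b5_co, helper31's theorem): weights times demand.
-/

set_option autoImplicit false

namespace Pool.Agent.Work.MP_9999b5_sp

open Finset

theorem p_WAL : Stmt_WAL := by
  intro k T hk hH ι _ V W x a hV hinj hsum ha hmax hWV hW haW
  set D := V \ W with hD
  have hDc : D.card = 2 * k + T := by
    rw [hD, card_sdiff_of_subset hWV, hV, hW]
    omega
  have haD : a ∈ D := mem_sdiff.2 ⟨ha, haW⟩
  by_cases hpos : 0 < ∑ i ∈ W, x i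
  · rw [wl, if_pos hpos, MP_9999b5_mr.WAB_al_zero x k hpos, Nat.sub_zero]
    have h1 : ∑ U ∈ (D.powersetCard (2 * k)).filter (fun U => a ∈ U), MP_9999b5_mr.al x k U ≤
        ((D.powersetCard (2 * k)).filter (fun U => a ∈ U)).card * (2 * k).choose k := by
      refine (sum_le_card_nsmul _ _ ((2 * k).choose k) ?_).trans (le_of_eq (smul_eq_mul _ _))
      intro U hU
      exact MP_9999b5_mr.WAB_al_le x k (mem_powersetCard.1 (mem_filter.1 hU).1).2
    have h2 := MP_9999b5_mr.WAB_card D (2 * k) a haD
    rw [hDc] at h2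
    calc k * (2 * k).choose k *
          ∑ U ∈ (D.powersetCard (2 * k)).filter (fun U => a ∈ U), MP_9999b5_mr.al x k U
        ≤ k * (2 * k).choose k * ((2 * k + T - 1).choose (2 * k - 1) * (2 * k).choose k) :=
          Nat.mul_le_mul_left _ (h1.trans (Nat.mul_le_mul_right _ h2))
      _ = (2 * k).choose k *
          (k * ((2 * k).choose k * (2 * k + T - 1).choose (2 * k - 1))) := by ring
  · rw [wl, if_neg hpos]
    push Not at hpos
    have hDs : 0 ≤ ∑ i ∈ D, x i := by
      have := sum_sdiff (f := x) hWV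
      rw [← hD] at this
      linarith
    have h1 := hH ι D x a hDc (hinj.mono (fun i hi => (mem_sdiff.1 hi).1)) hDs haD
      (fun i hi => hmax i (mem_sdiff.1 hi).1)
    calc (2 * k + T) * ((2 * k).choose k - MP_9999b5_mr.al x k W) *
          ∑ U ∈ (D.powersetCard (2 * k)).filter (fun U => a ∈ U), MP_9999b5_mr.al x k U
        = ((2 * k).choose k - MP_9999b5_mr.al x k W) * ((2 * k + T) *
          ∑ U ∈ (D.powersetCard (2 * k)).filter (fun U => a ∈ U), MP_9999b5_mr.al x k U) := by
          ring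
      _ ≤ ((2 * k).choose k - MP_9999b5_mr.al x k W) *
          (k * ((2 * k).choose k * (2 * k + T - 1).choose (2 * k - 1))) :=
          Nat.mul_le_mul_left _ h1

end Pool.Agent.Work.MP_9999b5_sp
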