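import Pool.Agent.Work.MP_9999b5_sp.Interface4

/-!
WAO (MP_9999b5_co): weights times demand (as WAB of `MP_9999b5_mr`, no maximum).
-/

set_option autoImplicit false

namespace Pool.Agent.Work.MP_9999b5_sp

open Finset

theorem WAO_al_le {ι : Type} [DecidableEq ι] (x : ι → ℝ) (k : ℕ) {U : Finset ι}
    (hU : U.card = 2 * k) : MP_9999b5_mr.al x k U ≤ (2 * k).choose k := by
  unfold MP_9999b5_mr.al
  refine (card_filter_le _ _).trans ?_
  rw [card_powersetCard, hU]

theorem WAO_al_zero {ι : Type} [DecidableEq ι] (x : ι → ℝ) (k : ℕ) {U : Finset ι}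
    (hU : 0 < ∑ i ∈ U, x i) : MP_9999b5_mr.al x k U = 0 := by
  unfold MP_9999b5_mr.al
  rw [card_eq_zero, filter_eq_empty_iff]
  rintro B hB ⟨h1, h2⟩
  have h3 := sum_sdiff (f := x) (mem_powersetCard.1 hB).1
  linarith

theorem p_WAO (hPAC : MP_9999b5_mr.Stmt_PAC) : Stmt_WAO := by
  intro k T hk hH ι _ V W x hV hinj hsum hWV hW
  set D := V \ W with hD
  have hDc : D.card = 2 * k + T := by
    rw [hD, card_sdiff_of_subset hWV, hV, hW]
    omega
  by_cases hpos : 0 < ∑ i ∈ W, x i
  · rw [wo, if_pos hpos, WAO_al_zero x k hpos, Nat.sub_zero]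
    have h1 : ∑ U ∈ D.powersetCard (2 * k), MP_9999b5_mr.al x k U ≤
        (2 * k + T).choose (2 * k) * (2 * k).choose k := by
      refine (sum_le_card_nsmul _ _ ((2 * k).choose k) ?_).trans (le_of_eq ?_)
      · intro U hU
        exact WAO_al_le x k (mem_powersetCard.1 hU).2
      · rw [smul_eq_mul, card_powersetCard, hDc]
    calc (2 * k + T) * (2 * k).choose k * ∑ U ∈ D.powersetCard (2 * k), MP_9999b5_mr.al x k U
        ≤ (2 * k + T) * (2 * k).choose k * ((2 * k + T).choose (2 * k) * (2 * k).choose k) :=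
          Nat.mul_le_mul_left _ h1
      _ = (2 * k).choose k * ((2 * k + T) * ((2 * k).choose k * (2 * k + T).choose (2 * k))) := by
          ring
  · rw [wo, if_neg hpos]
    push Not at hpos
    have hDs : 0 ≤ ∑ i ∈ D, x i := by
      have := sum_sdiff (f := x) hWV
      rw [← hD] at this
      linarith
    have h1 := hH ι D x hDc (hinj.mono (fun i hi => (mem_sdiff.1 hi).1)) hDs
    obtain ⟨p1, p2, -⟩ := hPAC ι D x k
    rw [p1, p2, hDc] at h1
    calc (4 * k + 3 * T) * ((2 * k).choose k - MP_9999b5_mr.al x k W) *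
          ∑ U ∈ D.powersetCard (2 * k), MP_9999b5_mr.al x k U
        = ((2 * k).choose k - MP_9999b5_mr.al x k W) *
          ((4 * k + 3 * T) * ∑ U ∈ D.powersetCard (2 * k), MP_9999b5_mr.al x k U) := by ring
      _ ≤ ((2 * k).choose k - MP_9999b5_mr.al x k W) *
          ((2 * k + T) * ((2 * k).choose k * (2 * k + T).choose (2 * k))) :=
          Nat.mul_le_mul_left _ h1

end Pool.Agent.Work.MP_9999b5_sp
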