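import Pool.Agent.Work.MP_9999b5_sp.Interface2

/-! # Block WSL: the sum of the weights `wl` (helper7) -/

set_option autoImplicit false

namespace Pool.Agent.Work.MP_9999b5_sp

open Finset

lemma WSL_al_le {ι : Type} [DecidableEq ι] (x : ι → ℝ) (k : ℕ) (W : Finset ι)
    (h : W.card = 2 * k) : MP_9999b5_mr.al x k W ≤ (2 * k).choose k := by
  unfold MP_9999b5_mr.al
  refine (card_filter_le _ _).trans ?_
  rw [card_powersetCard, h]

/-- WSL. -/
theorem p_WSL : MP_9999b5_mr.Stmt_PAC → Stmt_ALP → Stmt_WSL := by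
  intro hPAC hALP k T hk hQ ι _ C x hC hinj hx
  obtain ⟨h1, h2, h3⟩ := hPAC ι C x k
  have hq := hQ ι C x hC hinj hx
  have hW : ∀ W ∈ C.powersetCard (2 * k), wl x k T W + (2 * k + T) * MP_9999b5_mr.al x k W +
      (if ∑ i ∈ W, x i ≤ 0 then k * (2 * k).choose k else 0) =
      k * (2 * k).choose k + (if ∑ i ∈ W, x i ≤ 0 then (2 * k + T) * (2 * k).choose k else 0) := by
    intro W hW
    have hc : W.card = 2 * k := (mem_powersetCard.1 hW).2
    unfold wl
    by_cases h0 : 0 < ∑ i ∈ W, x i
    · rw [if_pos h0, (hALP ι W x k hc).2 h0, if_neg (not_le.2 h0), if_neg (not_le.2 h0)]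
      simp
    · rw [if_neg h0, if_pos (not_lt.1 h0), if_pos (not_lt.1 h0), ← mul_add,
        Nat.sub_add_cancel (WSL_al_le x k W hc), add_comm]
  have hsum : ∑ W ∈ C.powersetCard (2 * k), wl x k T W + (2 * k + T) * MP_9999b5_mr.bad C x k +
      k * MP_9999b5_mr.hvy C x k =
      k * (MP_9999b5_mr.prs C k).card + (2 * k + T) * MP_9999b5_mr.hvy C x k := by
    rw [h1, h2, h3, mul_sum]
    have e1 : k * ((2 * k).choose k *
        ((C.powersetCard (2 * k)).filter (fun U => ∑ i ∈ U, x i ≤ 0)).card) =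
        ∑ W ∈ C.powersetCard (2 * k),
          (if ∑ i ∈ W, x i ≤ 0 then k * (2 * k).choose k else 0) := by
      rw [← sum_filter, sum_const, smul_eq_mul]; ring
    have e2 : (2 * k + T) * ((2 * k).choose k *
        ((C.powersetCard (2 * k)).filter (fun U => ∑ i ∈ U, x i ≤ 0)).card) =
        ∑ W ∈ C.powersetCard (2 * k),
          (if ∑ i ∈ W, x i ≤ 0 then (2 * k + T) * (2 * k).choose k else 0) := by
      rw [← sum_filter, sum_const, smul_eq_mul]; ring
    have e3 : k * ((2 * k).choose k * C.card.choose (2 * k)) =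
        ∑ W ∈ C.powersetCard (2 * k), k * (2 * k).choose k := by
      rw [sum_const, card_powersetCard, smul_eq_mul]; ring
    rw [e1, e2, e3, ← sum_add_distrib, ← sum_add_distrib, ← sum_add_distrib]
    exact sum_congr rfl hW
  have hch : 2 * k * (2 * k + T).choose (2 * k) =
      (2 * k + T) * (2 * k + T - 1).choose (2 * k - 1) := by
    have h4 := Nat.add_one_mul_choose_eq (2 * k + T - 1) (2 * k - 1)
    have h5 : 2 * k + T - 1 + 1 = 2 * k + T := by omega
    have h6 : 2 * k - 1 + 1 = 2 * k := by omega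
    rw [h5, h6] at h4
    rw [h4, mul_comm]
  have hpr : 2 * k * (MP_9999b5_mr.prs C k).card =
      (2 * k + T) * ((2 * k).choose k * (2 * k + T - 1).choose (2 * k - 1)) := by
    rw [h1, hC]
    calc 2 * k * ((2 * k).choose k * (2 * k + T).choose (2 * k))
        = (2 * k).choose k * (2 * k * (2 * k + T).choose (2 * k)) := by ring
      _ = _ := by rw [hch]; ring
  have hpos : 0 < 2 * k + T := by omega
  refine Nat.le_of_mul_le_mul_left ?_ hpos
  set S := ∑ W ∈ C.powersetCard (2 * k), wl x k T W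
  set P := (MP_9999b5_mr.prs C k).card
  set b := MP_9999b5_mr.bad C x k
  set y := MP_9999b5_mr.hvy C x k
  set Y := (2 * k).choose k * (2 * k + T - 1).choose (2 * k - 1)
  have e : (2 * k + T) * (k * Y) = k * (2 * k * P) := by rw [hpr]; ring
  rw [e]
  have h7 : (2 * k + T) * S + (2 * k + T) ^ 2 * b + k * (2 * k + T) * y =
      k * (2 * k * P) + k * T * P + (2 * k + T) ^ 2 * y := by
    have := congrArg (fun z => (2 * k + T) * z) hsum
    beta_reduce at this
    linear_combination this
  omega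

end Pool.Agent.Work.MP_9999b5_sp
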