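import Pool.Agent.Work.MP_9999b5_sp.Interface4

/-! # Block WSO: the sum of the weights `wo` (copy of B_WSL of helper7) -/

set_option autoImplicit false

namespace Pool.Agent.Work.MP_9999b5_sp

open Finset

lemma WSO_al_le {ι : Type} [DecidableEq ι] (x : ι → ℝ) (k : ℕ) (W : Finset ι)
    (h : W.card = 2 * k) : MP_9999b5_mr.al x k W ≤ (2 * k).choose k := by
  unfold MP_9999b5_mr.al
  refine (card_filter_le _ _).trans ?_
  rw [card_powersetCard, h]

/-- WSO. -/
theorem p_WSO : MP_9999b5_mr.Stmt_PAC → Stmt_ALP → Stmt_WSO := by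
  intro hPAC hALP k T hk hQ ι _ C x hC hinj hx
  obtain ⟨h1, h2, h3⟩ := hPAC ι C x k
  have hq := hQ ι C x hC hinj hx
  have hW : ∀ W ∈ C.powersetCard (2 * k), wo x k T W + (4 * k + 3 * T) * MP_9999b5_mr.al x k W +
      (if ∑ i ∈ W, x i ≤ 0 then (2 * k + T) * (2 * k).choose k else 0) =
      (2 * k + T) * (2 * k).choose k +
        (if ∑ i ∈ W, x i ≤ 0 then (4 * k + 3 * T) * (2 * k).choose k else 0) := by
    intro W hW
    have hc : W.card = 2 * k := (mem_powersetCard.1 hW).2
    unfold wo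
    by_cases h0 : 0 < ∑ i ∈ W, x i
    · rw [if_pos h0, (hALP ι W x k hc).2 h0, if_neg (not_le.2 h0), if_neg (not_le.2 h0)]
      simp
    · rw [if_neg h0, if_pos (not_lt.1 h0), if_pos (not_lt.1 h0), ← mul_add,
        Nat.sub_add_cancel (WSO_al_le x k W hc), add_comm]
  have hsum : ∑ W ∈ C.powersetCard (2 * k), wo x k T W +
      (4 * k + 3 * T) * MP_9999b5_mr.bad C x k + (2 * k + T) * MP_9999b5_mr.hvy C x k =
      (2 * k + T) * (MP_9999b5_mr.prs C k).card + (4 * k + 3 * T) * MP_9999b5_mr.hvy C x k := by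
    rw [h1, h2, h3, mul_sum]
    have e1 : (2 * k + T) * ((2 * k).choose k *
        ((C.powersetCard (2 * k)).filter (fun U => ∑ i ∈ U, x i ≤ 0)).card) =
        ∑ W ∈ C.powersetCard (2 * k),
          (if ∑ i ∈ W, x i ≤ 0 then (2 * k + T) * (2 * k).choose k else 0) := by
      rw [← sum_filter, sum_const, smul_eq_mul]; ring
    have e2 : (4 * k + 3 * T) * ((2 * k).choose k *
        ((C.powersetCard (2 * k)).filter (fun U => ∑ i ∈ U, x i ≤ 0)).card) =
        ∑ W ∈ C.powersetCard (2 * k),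
          (if ∑ i ∈ W, x i ≤ 0 then (4 * k + 3 * T) * (2 * k).choose k else 0) := by
      rw [← sum_filter, sum_const, smul_eq_mul]; ring
    have e3 : (2 * k + T) * ((2 * k).choose k * C.card.choose (2 * k)) =
        ∑ W ∈ C.powersetCard (2 * k), (2 * k + T) * (2 * k).choose k := by
      rw [sum_const, card_powersetCard, smul_eq_mul]; ring
    rw [e1, e2, e3, ← sum_add_distrib, ← sum_add_distrib, ← sum_add_distrib]
    exact sum_congr rfl hW
  have hch : 2 * k * (2 * k + T).choose (2 * k) =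
      (2 * k + T) * (2 * k + T - 1).choose (2 * k - 1) := by
    have h4 := Nat.add_one_mul_choose_eq (2 * k + T - 1) (2 * k - 1)
    have h5 : 2 * k + T - 1 + 1 = 2 * k + T := by omega
    have h6 : 2 * k - 1 + 1 = 2 * k := by omega
    rw [h5, h6] at h4
    rw [h4, mul_comm]
  have hpr : 2 * k * (MP_9999b5_mr.prs C k).card =
      (2 * k + T) * ((2 * k).choose k * (2 * k + T - 1).choose (2 * k - 1)) := by
    rw [h1, hC]
    calc 2 * k * ((2 * k).choose k * (2 * k + T).choose (2 * k))
        = (2 * k).choose k * (2 * k * (2 * k + T).choose (2 * k)) := by ring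
      _ = _ := by rw [hch]; ring
  rw [← hpr]
  generalize (∑ W ∈ C.powersetCard (2 * k), wo x k T W) = S at hsum ⊢
  generalize (MP_9999b5_mr.prs C k).card = P at hsum hq ⊢
  generalize MP_9999b5_mr.bad C x k = b at hsum hq
  generalize MP_9999b5_mr.hvy C x k = y at hsum hq
  nlinarith [hsum, hq]

end Pool.Agent.Work.MP_9999b5_sp
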