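import Pool.Agent.Work.MP_9999b5_sp.Interface3

/-!
ZD0 (MP_9999b5_co, typed by helper76): a function with zero degrees has sum zero.
-/

set_option autoImplicit false

namespace Pool.Agent.Work.MP_9999b5_sp

open Finset

theorem p_ZD0 : Stmt_ZD0 := by
  intro ι _ C j g hj hZD
  have h1 : ∑ i ∈ C, ∑ B ∈ (C.powersetCard j).filter (fun B => i ∈ B), g B =
      ∑ B ∈ C.powersetCard j, ∑ _i ∈ B, g B := by
    refine sum_comm' ?_
    intro i B
    rw [mem_filter, mem_powersetCard]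
    constructor
    · rintro ⟨_, ⟨h1, h2⟩, h3⟩
      exact ⟨h3, h1, h2⟩
    · rintro ⟨h3, h1, h2⟩
      exact ⟨h1 h3, ⟨h1, h2⟩, h3⟩
  have h2 : ∑ B ∈ C.powersetCard j, ∑ _i ∈ B, g B = (j : ℝ) * ∑ B ∈ C.powersetCard j, g B := by
    rw [mul_sum]
    refine sum_congr rfl fun B hB => ?_
    rw [sum_const, nsmul_eq_mul, (mem_powersetCard.1 hB).2]
  have h3 : ∑ i ∈ C, ∑ B ∈ (C.powersetCard j).filter (fun B => i ∈ B), g B = 0 :=
    sum_eq_zero fun i hi => hZD i hi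
  have hj' : (j : ℝ) ≠ 0 := by
    have : 0 < j := hj
    exact_mod_cast this.ne'
  have h4 : (j : ℝ) * ∑ B ∈ C.powersetCard j, g B = 0 := by
    rw [← h2, ← h1, h3]
  exact (mul_eq_zero.1 h4).resolve_left hj'

end Pool.Agent.Work.MP_9999b5_sp
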