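import Pool.Agent.Work.MP_9999b5_sp.Interface3

set_option autoImplicit false

namespace Pool.Agent.Work.MP_9999b5_sp

open Finset

theorem ZDD_count {ι : Type} [DecidableEq ι] (B : Finset ι) (a : ℕ) (i : ι)
    (hB : B.card = a + 1) :
    ∑ A ∈ B.powersetCard a, (if i ∈ A then (1 : ℝ) else 0) = if i ∈ B then (a : ℝ) else 0 := by
  rw [sum_boole]
  by_cases hi : i ∈ B
  · rw [if_pos hi]
    have h1 : ((B.powersetCard a).filter (fun A => i ∈ A)).card +
        ((B.powersetCard a).filter (fun A => ¬ i ∈ A)).card = a + 1 := by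
      rw [card_filter_add_card_filter_not, card_powersetCard, hB, Nat.choose_succ_self_right]
    have h2 : (B.powersetCard a).filter (fun A => ¬ i ∈ A) = (B.erase i).powersetCard a := by
      ext A
      simp only [mem_filter, mem_powersetCard]
      constructor
      · rintro ⟨⟨hs, hc⟩, hn⟩
        exact ⟨subset_erase.2 ⟨hs, hn⟩, hc⟩
      · rintro ⟨hs, hc⟩
        exact ⟨⟨(subset_erase.1 hs).1, hc⟩, (subset_erase.1 hs).2⟩
    have h3 : ((B.erase i).powersetCard a).card = 1 := by
      rw [card_powersetCard, card_erase_of_mem hi, hB, Nat.add_sub_cancel, Nat.choose_self]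
    rw [h2, h3] at h1
    have h4 : ((B.powersetCard a).filter (fun A => i ∈ A)).card = a := by omega
    rw [h4]
  · rw [if_neg hi]
    have h1 : (B.powersetCard a).filter (fun A => i ∈ A) = ∅ := by
      rw [filter_eq_empty_iff]
      intro A hA hiA
      exact hi ((mem_powersetCard.1 hA).1 hiA)
    rw [h1]
    simp

theorem p_ZDD : Stmt_ADJ → Stmt_ZDD := by
  intro hADJ ι _ C a g hg i hi
  have h1 := hADJ ι C a g (fun A => if i ∈ A then (1 : ℝ) else 0)
  have h2 : ∑ A ∈ (C.powersetCard a).filter (fun B => i ∈ B),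
      (∑ B ∈ (C.powersetCard (a + 1)).filter (fun B => A ⊆ B), g B) =
      ∑ A ∈ C.powersetCard a, (∑ B ∈ (C.powersetCard (a + 1)).filter (fun B => A ⊆ B), g B) *
        (if i ∈ A then (1 : ℝ) else 0) := by
    rw [sum_filter]
    refine sum_congr rfl fun A _ => ?_
    split_ifs <;> simp
  have h3 : ∑ B ∈ C.powersetCard (a + 1), g B * ∑ A ∈ B.powersetCard a,
      (if i ∈ A then (1 : ℝ) else 0) = a * ∑ B ∈ (C.powersetCard (a + 1)).filter
        (fun B => i ∈ B), g B := by
    rw [sum_filter, mul_sum]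
    refine sum_congr rfl fun B hB => ?_
    rw [ZDD_count B a i (mem_powersetCard.1 hB).2]
    split_ifs
    · ring
    · simp
  rw [h2, h1, h3, hg i hi, mul_zero]

end Pool.Agent.Work.MP_9999b5_sp
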