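import Pool.Agent.Work.MP_9999b5_mr.B_PAI
import Pool.Agent.Work.MP_9999b5_mr.B_PAC
import Pool.Agent.Work.MP_9999b5_mr.B_ANT
import Pool.Agent.Work.MP_9999b5_mr.B_MON
import Pool.Agent.Work.MP_9999b5_sp.B_ADJ
import Pool.Agent.Work.MP_9999b5_sp.B_ALP
import Pool.Agent.Work.MP_9999b5_sp.B_BSC
import Pool.Agent.Work.MP_9999b5_sp.B_COV
import Pool.Agent.Work.MP_9999b5_sp.B_DEC
import Pool.Agent.Work.MP_9999b5_sp.B_DG1
import Pool.Agent.Work.MP_9999b5_sp.B_DIS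
import Pool.Agent.Work.MP_9999b5_sp.B_DIV
import Pool.Agent.Work.MP_9999b5_sp.B_DNC
import Pool.Agent.Work.MP_9999b5_sp.B_EX2
import Pool.Agent.Work.MP_9999b5_sp.B_EXG
import Pool.Agent.Work.MP_9999b5_sp.B_FLL
import Pool.Agent.Work.MP_9999b5_sp.B_FLO4
import Pool.Agent.Work.MP_9999b5_sp.B_HO2
import Pool.Agent.Work.MP_9999b5_sp.B_HOE
import Pool.Agent.Work.MP_9999b5_sp.B_HOM
import Pool.Agent.Work.MP_9999b5_sp.B_HPA
import Pool.Agent.Work.MP_9999b5_sp.B_HPM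
import Pool.Agent.Work.MP_9999b5_sp.B_HSP
import Pool.Agent.Work.MP_9999b5_sp.B_KN2
import Pool.Agent.Work.MP_9999b5_sp.B_KSY
import Pool.Agent.Work.MP_9999b5_sp.B_LIG
import Pool.Agent.Work.MP_9999b5_sp.B_LMO
import Pool.Agent.Work.MP_9999b5_sp.B_LOS
import Pool.Agent.Work.MP_9999b5_sp.B_LSM
import Pool.Agent.Work.MP_9999b5_sp.B_MS2
import Pool.Agent.Work.MP_9999b5_sp.B_MS3
import Pool.Agent.Work.MP_9999b5_sp.B_MST
import Pool.Agent.Work.MP_9999b5_sp.B_NEA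
import Pool.Agent.Work.MP_9999b5_sp.B_NR2
import Pool.Agent.Work.MP_9999b5_sp.B_NRM
import Pool.Agent.Work.MP_9999b5_sp.B_ORT
import Pool.Agent.Work.MP_9999b5_sp.B_PO2
import Pool.Agent.Work.MP_9999b5_sp.B_POI
import Pool.Agent.Work.MP_9999b5_sp.B_PRT
import Pool.Agent.Work.MP_9999b5_sp.B_QET
import Pool.Agent.Work.MP_9999b5_sp.B_QOE
import Pool.Agent.Work.MP_9999b5_sp.B_QPR
import Pool.Agent.Work.MP_9999b5_sp.B_QSP
import Pool.Agent.Work.MP_9999b5_sp.B_RBZ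
import Pool.Agent.Work.MP_9999b5_sp.B_RD4
import Pool.Agent.Work.MP_9999b5_sp.B_REF4
import Pool.Agent.Work.MP_9999b5_sp.B_REL
import Pool.Agent.Work.MP_9999b5_sp.B_RF1
import Pool.Agent.Work.MP_9999b5_sp.B_RF2
import Pool.Agent.Work.MP_9999b5_sp.B_RFS
import Pool.Agent.Work.MP_9999b5_sp.B_SCA
import Pool.Agent.Work.MP_9999b5_sp.B_SHF
import Pool.Agent.Work.MP_9999b5_sp.B_SPF
import Pool.Agent.Work.MP_9999b5_sp.B_SQ1
import Pool.Agent.Work.MP_9999b5_sp.B_SUB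
import Pool.Agent.Work.MP_9999b5_sp.B_TEL
import Pool.Agent.Work.MP_9999b5_sp.B_TL2
import Pool.Agent.Work.MP_9999b5_sp.B_UPC
import Pool.Agent.Work.MP_9999b5_sp.B_UPD
import Pool.Agent.Work.MP_9999b5_sp.B_WAL
import Pool.Agent.Work.MP_9999b5_sp.B_WAO
import Pool.Agent.Work.MP_9999b5_sp.B_WSL
import Pool.Agent.Work.MP_9999b5_sp.B_WSO
import Pool.Agent.Work.MP_9999b5_sp.B_ZD0
import Pool.Agent.Work.MP_9999b5_sp.B_ZDD
import Pool.Agent.Work.MP_9999b5_sp.B_ZDU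
import Pool.Agent.Work.MP_9999b5_sp.B_ZE2

/-!
MP_9999b5_co: assembly of the blocks of `MP_9999b5_sp` (Interfaces 1-5): spectral inequalities `h_QSP`, `h_REF4`, `h_NR2`, exchanges `h_EXG`,
`h_EX2`, the theorems `h_MST` (`MMS(k,T)` implies `MMS(4k+T,k)`) and `h_MS2` (`MMS(k+T,T)` implies `MMS(4k+T,k)`, `T ≥ 3`, strict).
-/

set_option autoImplicit false

namespace Pool.Agent.Work.MP_9999b5_sp

theorem h_PAC : MP_9999b5_mr.Stmt_PAC := MP_9999b5_mr.p_PAC MP_9999b5_mr.p_PAI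

theorem h_MON : MP_9999b5_mr.Stmt_MON := MP_9999b5_mr.p_MON MP_9999b5_mr.p_ANT

theorem h_UPD : Stmt_UPD := p_UPD p_UPC p_DNC

theorem h_POI : Stmt_POI := p_POI p_ADJ h_UPD

theorem h_TEL : Stmt_TEL := p_TEL h_POI p_SUB

theorem h_DIS : Stmt_DIS := p_DIS h_TEL

theorem h_DIV : Stmt_DIV := p_DIV p_SUB h_DIS

theorem h_COV : Stmt_COV := p_COV p_SUB h_TEL

theorem h_SPF : Stmt_SPF := p_SPF h_COV p_SCA

theorem h_QSP : Stmt_QSP := p_QSP h_PAC p_ALP h_SPF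

theorem h_NEA : Stmt_NEA := p_NEA p_LOS p_LMO

theorem h_HSP : Stmt_HSP := p_HSP h_NEA

theorem h_NRM : Stmt_NRM := p_NRM h_PAC p_ALP h_COV

theorem h_QPR : Stmt_QPR := p_QPR h_NRM p_BSC

theorem h_HPA : Stmt_HPA := p_HPA h_PAC h_MON

theorem h_FLL : Stmt_FLL := p_FLL (p_WSL h_PAC p_ALP) p_WAL

theorem h_REL : Stmt_REL := p_REL h_PAC h_FLL

theorem h_HPM : Stmt_HPM := p_HPM h_QPR h_HPA h_REL

theorem h_DG1 : Stmt_DG1 := p_DG1 p_LSM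

theorem h_ZDD : Stmt_ZDD := p_ZDD p_ADJ

theorem h_ZDU : Stmt_ZDU := p_ZDU p_SUB p_ZD0

theorem h_PO2 : Stmt_PO2 := p_PO2 p_ADJ h_UPD h_ZDD

theorem h_TL2 : Stmt_TL2 := p_TL2 h_PO2 p_SUB h_ZDU

theorem h_SQ1 : Stmt_SQ1 := p_SQ1 h_DG1

theorem h_DEC : Stmt_DEC := p_DEC h_DG1

theorem h_KN2 : Stmt_KN2 := p_KN2 h_TL2

theorem h_RF1 : Stmt_RF1 := p_RF1 p_LSM h_SQ1

theorem h_RF2 : Stmt_RF2 := p_RF2 h_TL2 h_KN2

theorem h_RFS : Stmt_RFS := p_RFS p_LSM h_ZDU h_DEC p_ORT p_KSY h_RF1 h_RF2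

/-- the two-level spectral inequality -/
theorem h_REF4 : Stmt_REF4 := p_REF4 h_PAC p_SUB h_RFS

theorem h_NR2 : Stmt_NR2 := p_NR2 h_PAC p_ALP h_REF4

theorem h_HOE : Stmt_HOE := p_HOE h_NR2 p_RBZ p_LIG p_EXG

theorem h_QOE : Stmt_QOE := p_QOE h_NR2 p_RBZ p_QET

theorem h_FLO4 : Stmt_FLO4 := p_FLO4 (p_WSO h_PAC p_ALP) (p_WAO h_PAC)

theorem h_RD4 : Stmt_RD4 := p_RD4 h_PAC h_FLO4

theorem h_HOM : Stmt_HOM := p_HOM h_QOE h_RD4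

/-- `MMS(k,T)` implies `MMS(4k+T,k)` -/
theorem h_MST : Stmt_MST := p_MST h_HOE h_HOM

/-- the R-flow -/
theorem h_EX2 : Stmt_EX2 := p_EX2 p_SHF

theorem h_HO2 : Stmt_HO2 := p_HO2 h_NR2 p_RBZ p_LIG h_EX2 p_ZE2

theorem h_MS3 : Stmt_MS3 := p_MS3 h_HO2 h_HOM

/-- `MMS(k+T,T)` implies `MMS(4k+T,k)`, strict version for `T ≥ 3` -/
theorem h_MS2 : Stmt_MS2 := p_MS2 p_PRT h_MS3

end Pool.Agent.Work.MP_9999b5_sp
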