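import Pool.Agent.Work.MP_9999b5_sp.Interface4

set_option autoImplicit false

namespace Pool.Agent.Work.MP_9999b5_sp

/-- RBZ, real numbers: elimination of `r`. -/
theorem p_RBZ : Stmt_RBZ := by
  intro t w q r ht0 ht1 hq0 hqw hw1 hr0 hr1 h
  have h1t : (0:ℝ) < 1 - t := by linarith
  have h1t' : (0:ℝ) < 1 + t := by linarith
  obtain ⟨a, ha⟩ : ∃ a : ℝ, a = t / (2 * (1 + t)) := ⟨_, rfl⟩
  obtain ⟨b, hb⟩ : ∃ b : ℝ, b = t / (2 * (1 - t)) := ⟨_, rfl⟩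
  rw [← ha, ← hb] at h
  have ha' : a * (2 * (1 + t)) = t := by rw [ha]; field_simp
  have hb' : b * (2 * (1 - t)) = t := by rw [hb]; field_simp
  have ha0 : 0 < a := by rw [ha]; exact div_pos ht0 (by linarith)
  have hb0 : 0 < b := by rw [hb]; exact div_pos ht0 (by linarith)
  have ha1 : a ≤ 1 / 2 := by nlinarith
  have hq1 : q ≤ 1 := le_trans hqw hw1
  have hw0 : 0 ≤ w := le_trans hq0 hqw
  have e1 : (1 - t ^ 2) * a = t * (1 - t) / 2 := by linear_combination ((1 - t) / 2) * ha'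
  have e2 : (1 - t ^ 2) * b = t * (1 + t) / 2 := by linear_combination ((1 + t) / 2) * hb'
  have hF0 : (1 - t ^ 2) * (q ^ 2 + a * (1 - q ^ 2) + b * (1 - q) ^ 2) =
      q ^ 2 - t * (1 + t) * q + t := by
    linear_combination (1 - q ^ 2) * e1 + (1 - q) ^ 2 * e2
  rcases eq_or_lt_of_le hw1 with hw | hw
  · have htq : 0 ≤ 1 - t * q := by nlinarith
    have hh : 0 ≤ t * (1 - q) * (1 - t * q) :=
      mul_nonneg (mul_nonneg ht0.le (by linarith)) htq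
    rw [hw]
    nlinarith
  · have hw' : 0 < 1 - w := by linarith
    have hr1' : r ≤ 1 := by linarith
    have hqr : 0 ≤ q * r := mul_nonneg hq0 hr0
    have hrr : r ^ 2 ≤ r := by nlinarith
    have hmono : (q - r) ^ 2 + a * (1 - (q - r) ^ 2) + b * ((1 - q + r) ^ 2 - 4 * r) - r ^ 2 ≤
        q ^ 2 + a * (1 - q ^ 2) + b * (1 - q) ^ 2 := by
      have h1 : 0 ≤ b * (2 * r + 2 * (q * r) - r ^ 2) :=
        mul_nonneg hb0.le (by nlinarith)
      have h2 : a * (2 * (q * r)) ≤ 1 / 2 * (2 * (q * r)) :=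
        mul_le_mul_of_nonneg_right ha1 (by linarith)
      have h3 : 0 ≤ a * r ^ 2 := mul_nonneg ha0.le (sq_nonneg r)
      nlinarith
    have hwr : w * (1 - w) * r ^ 2 ≤ w * r ^ 2 := by
      have : 0 ≤ w * w * r ^ 2 := mul_nonneg (mul_nonneg hw0 hw0) (sq_nonneg r)
      nlinarith
    have hww : 0 ≤ w * (1 - w) := mul_nonneg hw0 hw'.le
    have hA : w * (1 - w) *
        ((q - r) ^ 2 + a * (1 - (q - r) ^ 2) + b * ((1 - q + r) ^ 2 - 4 * r) - r ^ 2) ≤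
        w * (1 - w) * (q ^ 2 + a * (1 - q ^ 2) + b * (1 - q) ^ 2) :=
      mul_le_mul_of_nonneg_left hmono hww
    have hB : (1 - w) * q ^ 2 ≤ (1 - w) * (w * (q ^ 2 + a * (1 - q ^ 2) + b * (1 - q) ^ 2)) := by
      nlinarith
    have hC : q ^ 2 ≤ w * (q ^ 2 + a * (1 - q ^ 2) + b * (1 - q) ^ 2) :=
      le_of_mul_le_mul_left hB hw'
    have ht2 : 0 < 1 - t ^ 2 := by nlinarith
    calc q ^ 2 * (1 - t ^ 2) ≤ w * (q ^ 2 + a * (1 - q ^ 2) + b * (1 - q) ^ 2) * (1 - t ^ 2) :=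
          mul_le_mul_of_nonneg_right hC ht2.le
      _ = w * ((1 - t ^ 2) * (q ^ 2 + a * (1 - q ^ 2) + b * (1 - q) ^ 2)) := by ring
      _ = w * (q ^ 2 - t * (1 + t) * q + t) := by rw [hF0]

end Pool.Agent.Work.MP_9999b5_sp
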