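import Pool.Agent.Work.MP_9999b5_sp.Interface3

/-!
ZDU (MP_9999b5_co): the up-sum of a function with zero degrees has zero degrees.
-/

set_option autoImplicit false

namespace Pool.Agent.Work.MP_9999b5_sp

open Finset

theorem ZDU_not {ι : Type} [DecidableEq ι] (C : Finset ι) (n : ℕ) (i : ι) :
    (C.powersetCard n).filter (fun B => ¬ i ∈ B) = (C.erase i).powersetCard n := by
  ext B
  rw [mem_filter, mem_powersetCard, mem_powersetCard, subset_erase]
  tauto

theorem p_ZDU : Stmt_SUB → Stmt_ZD0 → Stmt_ZDU := by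
  intro hSUB hZD0 ι _ C a b g ha hab hg i hi
  have h1 := sum_filter_add_sum_filter_not (C.powersetCard b) (fun W => i ∈ W)
    (fun W => ∑ B ∈ W.powersetCard a, g B)
  have h2 := sum_filter_add_sum_filter_not (C.powersetCard a) (fun B => i ∈ B) g
  have h3 : ∑ B ∈ C.powersetCard a, g B = 0 := hZD0 ι C a g ha hg
  rw [ZDU_not, hSUB ι C a b g hab, h3, mul_zero, hSUB ι (C.erase i) a b g hab] at h1
  rw [ZDU_not, hg i hi, zero_add, h3] at h2
  rw [h2, mul_zero, add_zero] at h1
  exact h1

end Pool.Agent.Work.MP_9999b5_sp
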