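import Pool.Agent.Work.MP_9999b5_mr.B_PAI
import Pool.Agent.Work.MP_9999b5_mr.B_PAC
import Pool.Agent.Work.MP_9999b5_sp.B_ADJ
import Pool.Agent.Work.MP_9999b5_sp.B_UPC
import Pool.Agent.Work.MP_9999b5_sp.B_DNC
import Pool.Agent.Work.MP_9999b5_sp.B_UPD
import Pool.Agent.Work.MP_9999b5_sp.B_SUB
import Pool.Agent.Work.MP_9999b5_sp.B_LSM
import Pool.Agent.Work.MP_9999b5_sp.B_ZD0
import Pool.Agent.Work.MP_9999b5_sp.B_ZDD
import Pool.Agent.Work.MP_9999b5_sp.B_ZDU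
import Pool.Agent.Work.MP_9999b5_sp.B_PO2
import Pool.Agent.Work.MP_9999b5_sp.B_TL2
import Pool.Agent.Work.MP_9999b5_sp.B_DG1
import Pool.Agent.Work.MP_9999b5_sp.B_SQ1
import Pool.Agent.Work.MP_9999b5_sp.B_DEC
import Pool.Agent.Work.MP_9999b5_sp.B_ORT
import Pool.Agent.Work.MP_9999b5_sp.B_KSY
import Pool.Agent.Work.MP_9999b5_sp.B_KN2
import Pool.Agent.Work.MP_9999b5_sp.B_RF1
import Pool.Agent.Work.MP_9999b5_sp.B_RF2
import Pool.Agent.Work.MP_9999b5_sp.B_RFS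
import Pool.Agent.Work.MP_9999b5_sp.B_REF4

/-!
MP_9999b5_co: assembly of the blocks of `Interface3.lean` (two-level spectral inequality): `h_REF4 : Stmt_REF4` (helper19).
-/

set_option autoImplicit false

namespace Pool.Agent.Work.MP_9999b5_sp

theorem r_UPD : Stmt_UPD := p_UPD p_UPC p_DNC

theorem r_ZDD : Stmt_ZDD := p_ZDD p_ADJ

theorem r_ZDU : Stmt_ZDU := p_ZDU p_SUB p_ZD0

theorem r_PO2 : Stmt_PO2 := p_PO2 p_ADJ r_UPD r_ZDD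

theorem r_TL2 : Stmt_TL2 := p_TL2 r_PO2 p_SUB r_ZDU

theorem r_DG1 : Stmt_DG1 := p_DG1 p_LSM

theorem r_SQ1 : Stmt_SQ1 := p_SQ1 r_DG1

theorem r_DEC : Stmt_DEC := p_DEC r_DG1

theorem r_KN2 : Stmt_KN2 := p_KN2 r_TL2

theorem r_RF1 : Stmt_RF1 := p_RF1 p_LSM r_SQ1

theorem r_RF2 : Stmt_RF2 := p_RF2 r_TL2 r_KN2

theorem r_RFS : Stmt_RFS := p_RFS p_LSM r_ZDU r_DEC p_ORT p_KSY r_RF1 r_RF2

/-- the two-level spectral inequality, unconditional -/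
theorem h_REF4 : Stmt_REF4 :=
  p_REF4 (MP_9999b5_mr.p_PAC MP_9999b5_mr.p_PAI) p_SUB r_RFS

end Pool.Agent.Work.MP_9999b5_sp
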