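import Pool.Agent.Work.MP_9999b5_sp.Interface

set_option autoImplicit false

/-! DIS: the disjointness operator. -/

namespace Pool.Agent.Work.MP_9999b5_sp

open Finset

lemma DIS_compl {ι : Type} [DecidableEq ι] (C : Finset ι) (a : ℕ) (ha : a ≤ C.card)
    (F : Finset ι → ℝ) :
    ∑ A ∈ C.powersetCard a, F (C \ A) = ∑ W ∈ C.powersetCard (C.card - a), F W := by
  refine Finset.sum_nbij' (fun A => C \ A) (fun W => C \ W) ?_ ?_ ?_ ?_ ?_
  · intro A hA
    rw [Finset.mem_powersetCard] at hA ⊢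
    refine ⟨Finset.sdiff_subset, ?_⟩
    rw [Finset.card_sdiff_of_subset hA.1, hA.2]
  · intro W hW
    rw [Finset.mem_powersetCard] at hW ⊢
    refine ⟨Finset.sdiff_subset, ?_⟩
    rw [Finset.card_sdiff_of_subset hW.1, hW.2]
    omega
  · intro A hA
    rw [Finset.mem_powersetCard] at hA
    exact Finset.sdiff_sdiff_eq_self hA.1
  · intro W hW
    rw [Finset.mem_powersetCard] at hW
    exact Finset.sdiff_sdiff_eq_self hW.1
  · intro A _
    rfl

theorem p_DIS : Stmt_TEL → Stmt_DIS := by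
  intro hT ι _ C a b f g ha hb hab hg
  have h1 := hT ι C b (C.card - a) g hb (by omega) (by omega) hg
  have h2 : (C.card - b - 1).choose (C.card - a - b) = (C.card - b - 1).choose (a - 1) := by
    rw [← Nat.choose_symm (by omega : a - 1 ≤ C.card - b - 1)]
    congr 1
    omega
  rw [h2] at h1
  have h3 := Finset.sum_mul_sq_le_sq_mul_sq (C.powersetCard a) f
    (fun A => ∑ B ∈ (C \ A).powersetCard b, g B)
  have h4 := DIS_compl C a (by omega) (fun W => (∑ B ∈ W.powersetCard b, g B) ^ 2)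
  rw [h4] at h3
  have h5 : (0 : ℝ) ≤ ∑ A ∈ C.powersetCard a, f A ^ 2 :=
    Finset.sum_nonneg (fun A _ => sq_nonneg _)
  have h6 := mul_le_mul_of_nonneg_left h1 h5
  refine le_trans h3 (le_trans h6 (le_of_eq ?_))
  ring

end Pool.Agent.Work.MP_9999b5_sp
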