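import Pool.Agent.Work.MP_9999b5_sp.Interface2

set_option autoImplicit false

namespace Pool.Agent.Work.MP_9999b5_sp

open Finset

theorem p_HPM : Stmt_QPR → Stmt_HPA → Stmt_REL → Stmt_HPM := by
  intro hQPR hHPA hREL k T hk hHP
  refine hREL k T hk ?_ (hHPA k T hk hHP)
  intro ι _ C x hC hinj hx
  exact hQPR ι C x k T hk hC (hHP ι C x hC hinj hx)

end Pool.Agent.Work.MP_9999b5_sp
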