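import Pool.Agent.Work.MP_9999b5_sp.Interface

/-!
NEA (helper53): negative association of the sums over disjoint random subsets.
-/

set_option autoImplicit false

namespace Pool.Agent.Work.MP_9999b5_sp

open Finset

lemma NEA_j0 {ι : Type} [DecidableEq ι] (C : Finset ι) (x : ι → ℝ) (k : ℕ) (s t : ℝ) :
    lo2 C x 0 k s t = lo C x 0 s * lo C x k t := by
  unfold lo2 lo
  rw [← card_product]
  congr 1
  ext p
  rw [mem_filter, mem_product, mem_product, mem_filter, mem_filter]
  constructor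
  · rintro ⟨⟨h1, h2⟩, -, h4, h5⟩
    exact ⟨⟨h1, h4⟩, h2, h5⟩
  · rintro ⟨⟨h1, h4⟩, h2, h5⟩
    refine ⟨⟨h1, h2⟩, ?_, h4, h5⟩
    have h6 : p.1 = ∅ := card_eq_zero.1 (mem_powersetCard.1 h1).2
    rw [h6]
    exact disjoint_empty_left _

lemma NEA_k0 {ι : Type} [DecidableEq ι] (C : Finset ι) (x : ι → ℝ) (j : ℕ) (s t : ℝ) :
    lo2 C x j 0 s t = lo C x j s * lo C x 0 t := by
  unfold lo2 lo
  rw [← card_product]
  congr 1
  ext p
  rw [mem_filter, mem_product, mem_product, mem_filter, mem_filter]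
  constructor
  · rintro ⟨⟨h1, h2⟩, -, h4, h5⟩
    exact ⟨⟨h1, h4⟩, h2, h5⟩
  · rintro ⟨⟨h1, h4⟩, h2, h5⟩
    refine ⟨⟨h1, h2⟩, ?_, h4, h5⟩
    have h6 : p.2 = ∅ := card_eq_zero.1 (mem_powersetCard.1 h2).2
    rw [h6]
    exact disjoint_empty_right _

lemma NEA_zero {ι : Type} [DecidableEq ι] (C : Finset ι) (x : ι → ℝ) (j k : ℕ) (s t : ℝ)
    (h : C.card < j + k) : lo2 C x j k s t = 0 := by
  unfold lo2
  rw [card_eq_zero, filter_eq_empty_iff]
  rintro p hp ⟨hd, -, -⟩
  rw [mem_product, mem_powersetCard, mem_powersetCard] at hp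
  have h1 : (p.1 ∪ p.2).card = j + k := by
    rw [card_union_of_disjoint hd, hp.1.2, hp.2.2]
  have h2 : (p.1 ∪ p.2).card ≤ C.card := card_le_card (union_subset hp.1.1 hp.2.1)
  omega

/-- The inequality of the induction step, real numbers. -/
lemma NEA_real (m j k F0 F1 G0 G1 L1 L2 L3 B b0 b1 D D1 D2 : ℝ)
    (hk : 0 ≤ k) (hm : 0 ≤ m) (hP : 0 < m - j) (hQ : 0 < m - k)
    (hD : 0 ≤ D)
    (e1 : (m - k) * B = (m + 1) * b0) (e2 : (k + 1) * B = (m + 1) * b1)
    (e3 : (m - j) * D1 = (m - j - k - 1) * D) (e4 : (m - j) * D2 = (k + 1) * D)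
    (hA : L1 * b0 ≤ F0 * G0 * D1) (hB : L2 * b0 ≤ F1 * G0 * D) (hC : L3 * b1 ≤ F0 * G1 * D2)
    (hF : (m - j) * F1 ≤ (j + 1) * F0) (hG : (m - k) * G1 ≤ (k + 1) * G0) :
    (L1 + L2 + L3) * B ≤ (F0 + F1) * (G0 + G1) * D := by
  have hm1 : 0 ≤ m + 1 := by linarith
  have t1 : (m - j) * ((m - k) * (L1 * B)) ≤ (m + 1) * ((m - j - k - 1) * (F0 * G0 * D)) := by
    calc (m - j) * ((m - k) * (L1 * B)) = (m - j) * ((m + 1) * (L1 * b0)) := by
          have : (m - k) * (L1 * B) = (m + 1) * (L1 * b0) := by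
            calc (m - k) * (L1 * B) = L1 * ((m - k) * B) := by ring
              _ = L1 * ((m + 1) * b0) := by rw [e1]
              _ = _ := by ring
          rw [this]
      _ ≤ (m - j) * ((m + 1) * (F0 * G0 * D1)) :=
          mul_le_mul_of_nonneg_left (mul_le_mul_of_nonneg_left hA hm1) hP.le
      _ = (m + 1) * (F0 * G0 * ((m - j) * D1)) := by ring
      _ = (m + 1) * ((m - j - k - 1) * (F0 * G0 * D)) := by rw [e3]; ring
  have t2 : (m - j) * ((m - k) * (L2 * B)) ≤ (m + 1) * ((m - j) * (F1 * G0 * D)) := by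
    calc (m - j) * ((m - k) * (L2 * B)) = (m - j) * ((m + 1) * (L2 * b0)) := by
          have : (m - k) * (L2 * B) = (m + 1) * (L2 * b0) := by
            calc (m - k) * (L2 * B) = L2 * ((m - k) * B) := by ring
              _ = L2 * ((m + 1) * b0) := by rw [e1]
              _ = _ := by ring
          rw [this]
      _ ≤ (m - j) * ((m + 1) * (F1 * G0 * D)) :=
          mul_le_mul_of_nonneg_left (mul_le_mul_of_nonneg_left hB hm1) hP.le
      _ = _ := by ring
  have t3 : (m - j) * (L3 * B) ≤ (m + 1) * (F0 * G1 * D) := by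
    have hk1 : 0 < k + 1 := by linarith
    apply le_of_mul_le_mul_left _ hk1
    calc (k + 1) * ((m - j) * (L3 * B)) = (m - j) * (L3 * ((k + 1) * B)) := by ring
      _ = (m - j) * ((m + 1) * (L3 * b1)) := by rw [e2]; ring
      _ ≤ (m - j) * ((m + 1) * (F0 * G1 * D2)) :=
          mul_le_mul_of_nonneg_left (mul_le_mul_of_nonneg_left hC hm1) hP.le
      _ = (m + 1) * (F0 * G1 * ((m - j) * D2)) := by ring
      _ = (k + 1) * ((m + 1) * (F0 * G1 * D)) := by rw [e4]; ring
  have t3' : (m - j) * ((m - k) * (L3 * B)) ≤ (m - k) * ((m + 1) * (F0 * G1 * D)) := by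
    calc (m - j) * ((m - k) * (L3 * B)) = (m - k) * ((m - j) * (L3 * B)) := by ring
      _ ≤ _ := mul_le_mul_of_nonneg_left t3 hQ.le
  have t4 : 0 ≤ D * (((j + 1) * F0 - (m - j) * F1) * ((k + 1) * G0 - (m - k) * G1)) :=
    mul_nonneg hD (mul_nonneg (sub_nonneg.2 hF) (sub_nonneg.2 hG))
  have hPQ : 0 < (m - j) * (m - k) := mul_pos hP hQ
  apply le_of_mul_le_mul_left _ hPQ
  nlinarith [t1, t2, t3', t4]

theorem p_NEA : Stmt_LOS → Stmt_LMO → Stmt_NEA := by
  intro hLOS hLMO ι _ C x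
  refine Finset.induction_on_max_value (motive := fun C => ∀ (j k : ℕ) (s t : ℝ), j + k ≤ C.card →
    lo2 C x j k s t * C.card.choose k ≤ lo C x j s * lo C x k t * (C.card - j).choose k)
    x C ?_ ?_
  · intro j k s t h
    rw [card_empty] at h
    have hj : j = 0 := by omega
    have hk : k = 0 := by omega
    subst hj
    subst hk
    rw [NEA_j0]
    simp
  · intro a C ha hmax ih j k s t h
    rw [card_insert_of_notMem ha] at h ⊢
    rcases j with _ | j
    · rw [NEA_j0, Nat.sub_zero]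
    rcases k with _ | k
    · rw [NEA_k0]
      simp
    obtain ⟨hL1, hL2⟩ := hLOS ι C x a ha
    rw [hL1 j s, hL1 k t, hL2 j k s t]
    set m := C.card with hm
    have hjk : j + k + 1 ≤ m := by omega
    -- the three inequalities of the induction
    have hA : lo2 C x (j + 1) (k + 1) s t * m.choose (k + 1) ≤
        lo C x (j + 1) s * lo C x (k + 1) t * (m - j - 1).choose (k + 1) := by
      rcases Nat.lt_or_ge m (j + 1 + (k + 1)) with hlt | hge
      · rw [NEA_zero C x (j + 1) (k + 1) s t hlt, zero_mul]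
        exact Nat.zero_le _
      · have := ih (j + 1) (k + 1) s t hge
        rwa [← Nat.sub_sub] at this
    have hB := ih j (k + 1) (s - x a) t (by omega)
    have hC := ih (j + 1) k s (t - x a) (by omega)
    rw [← Nat.sub_sub] at hC
    have hF := hLMO ι C x a j s hmax (by omega)
    have hG := hLMO ι C x a k t hmax (by omega)
    rw [← hm] at hF hG
    -- binomial identities
    obtain ⟨d, hd⟩ : ∃ d, m = j + k + 1 + d := ⟨m - (j + k + 1), by omega⟩
    have e1 : (m - k) * (m + 1).choose (k + 1) = (m + 1) * m.choose (k + 1) := by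
      have := Nat.choose_mul_succ_eq m (k + 1)
      have e : m + 1 - (k + 1) = m - k := by omega
      rw [e] at this
      linarith
    have e2 : (k + 1) * (m + 1).choose (k + 1) = (m + 1) * m.choose k := by
      have := Nat.add_one_mul_choose_eq m k
      linarith
    have e3 : (m - j) * (m - j - 1).choose (k + 1) = (m - j - k - 1) * (m - j).choose (k + 1) := by
      have := Nat.choose_mul_succ_eq (m - j - 1) (k + 1)
      have e : m - j - 1 + 1 = m - j := by omega
      rw [e] at this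
      have e' : m - j - (k + 1) = m - j - k - 1 := by omega
      rw [e'] at this
      linarith
    have e4 : (m - j) * (m - j - 1).choose k = (k + 1) * (m - j).choose (k + 1) := by
      have := Nat.add_one_mul_choose_eq (m - j - 1) k
      have e : m - j - 1 + 1 = m - j := by omega
      rw [e] at this
      linarith
    have e5 : m + 1 - (j + 1) = m - j := by omega
    rw [e5]
    have c1 : ((m - k : ℕ) : ℝ) = (m : ℝ) - k := by
      rw [Nat.cast_sub (by omega)]
    have c2 : ((m - j : ℕ) : ℝ) = (m : ℝ) - j := by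
      rw [Nat.cast_sub (by omega)]
    have c3 : ((m - j - k - 1 : ℕ) : ℝ) = (m : ℝ) - j - k - 1 := by
      rw [Nat.cast_sub (by omega), Nat.cast_sub (by omega), Nat.cast_sub (by omega), Nat.cast_one]
    have e1' : ((m : ℝ) - k) * ((m + 1).choose (k + 1) : ℕ) = ((m : ℝ) + 1) * (m.choose (k + 1) : ℕ) := by
      rw [← c1]
      exact_mod_cast e1
    have e2' : ((k : ℝ) + 1) * ((m + 1).choose (k + 1) : ℕ) = ((m : ℝ) + 1) * (m.choose k : ℕ) := by
      exact_mod_cast e2
    have e3' : ((m : ℝ) - j) * ((m - j - 1).choose (k + 1) : ℕ) =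
        ((m : ℝ) - j - k - 1) * ((m - j).choose (k + 1) : ℕ) := by
      rw [← c3, ← c2]
      exact_mod_cast e3
    have e4' : ((m : ℝ) - j) * ((m - j - 1).choose k : ℕ) =
        ((k : ℝ) + 1) * ((m - j).choose (k + 1) : ℕ) := by
      rw [← c2]
      exact_mod_cast e4
    have hA' : ((lo2 C x (j + 1) (k + 1) s t : ℕ) : ℝ) * (m.choose (k + 1) : ℕ) ≤
        (lo C x (j + 1) s : ℕ) * (lo C x (k + 1) t : ℕ) * ((m - j - 1).choose (k + 1) : ℕ) := by
      exact_mod_cast hA
    have hB' : ((lo2 C x j (k + 1) (s - x a) t : ℕ) : ℝ) * (m.choose (k + 1) : ℕ) ≤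
        (lo C x j (s - x a) : ℕ) * (lo C x (k + 1) t : ℕ) * ((m - j).choose (k + 1) : ℕ) := by
      exact_mod_cast hB
    have hC' : ((lo2 C x (j + 1) k s (t - x a) : ℕ) : ℝ) * (m.choose k : ℕ) ≤
        (lo C x (j + 1) s : ℕ) * (lo C x k (t - x a) : ℕ) * ((m - j - 1).choose k : ℕ) := by
      exact_mod_cast hC
    have hF' : ((m : ℝ) - j) * (lo C x j (s - x a) : ℕ) ≤ ((j : ℝ) + 1) * (lo C x (j + 1) s : ℕ) := by
      rw [← c2]
      exact_mod_cast hF
    have hG' : ((m : ℝ) - k) * (lo C x k (t - x a) : ℕ) ≤ ((k : ℝ) + 1) * (lo C x (k + 1) t : ℕ) := by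
      rw [← c1]
      exact_mod_cast hG
    have hPr : (0 : ℝ) < (m : ℝ) - j := by
      rw [← c2]
      exact_mod_cast (by omega : 0 < m - j)
    have hQr : (0 : ℝ) < (m : ℝ) - k := by
      rw [← c1]
      exact_mod_cast (by omega : 0 < m - k)
    have key := NEA_real (m : ℝ) (j : ℝ) (k : ℝ) _ _ _ _ _ _ _ _ _ _ _ _ _ (Nat.cast_nonneg k)
      (Nat.cast_nonneg m) hPr hQr (Nat.cast_nonneg _) e1' e2' e3' e4' hA' hB' hC' hF' hG'
    exact_mod_cast key

end Pool.Agent.Work.MP_9999b5_sp
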