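import Pool.Agent.Work.MP_9999b5_mr.Interface

/-!
MP_9999b5_co (Manickam-Miklos-Singhi), `n = 4k + T`: THE SPECTRAL PART (helper92, helper19). For a set `C` of `2k + T` elements the
inequality (Q) of `MP_9999b5_mr/Interface.lean` holds as soon as at least a fraction `k/(2k+T)` of all `k`-subsets of `C` has
positive sum, and the bound `P(both <= 0) <= P(<= 0)^2` (negative association).

Everything is counted over finite sets of subsets. `m = C.card`. Level `j` = `C.powersetCard j`. For a function `g` of sets the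
up-sum is `W ↦ ∑ B ∈ W.powersetCard j, g B`, the down-sum is `A ↦ ∑ B ∈ (C.powersetCard (a+1)).filter (A ⊆ ·), g B`.

RULES: one file `Pool/Agent/Work/MP_9999b5_sp/B_<ID>.lean` per block, `import Pool.Agent.Work.MP_9999b5_sp.Interface`,
`namespace Pool.Agent.Work.MP_9999b5_sp`, `open Finset`, theorem `p_<ID> : Stmt_X → Stmt_Y → Stmt_<ID>` with exactly the
statements of the column `uses` as hypotheses, in this order; auxiliary lemmas with the name of the block in front. No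
straight double quotes.
-/

set_option autoImplicit false

namespace Pool.Agent.Work.MP_9999b5_sp

open Finset

/-! ### A. Poincare inequality of the Johnson scheme -/

/-- ADJ (30 lines): exchange of the sums (`Finset.sum_comm'`); `A ⊆ B`, `A` of level `a` in `C` iff `A ∈ B.powersetCard a`
(as `B ⊆ C`). -/
def Stmt_ADJ : Prop := ∀ (ι : Type) [DecidableEq ι] (C : Finset ι) (a : ℕ) (g f : Finset ι → ℝ),
  ∑ A ∈ C.powersetCard a, (∑ B ∈ (C.powersetCard (a + 1)).filter (fun B => A ⊆ B), g B) * f A =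
    ∑ B ∈ C.powersetCard (a + 1), g B * ∑ A ∈ B.powersetCard a, f A

/-- UPC (60 lines): number of `(a+2)`-sets above two `(a+1)`-sets. If `B ≠ B'` then `|B ∪ B'| = 2(a+1) - |B ∩ B'| ≥ a + 2`, with
equality iff `|B ∩ B'| = a`. -/
def Stmt_UPC : Prop := ∀ (ι : Type) [DecidableEq ι] (C : Finset ι) (a : ℕ) (B B' : Finset ι),
  B ∈ C.powersetCard (a + 1) → B' ∈ C.powersetCard (a + 1) →
  ((C.powersetCard (a + 2)).filter (fun W => B ⊆ W ∧ B' ⊆ W)).card =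
    if B = B' then C.card - (a + 1) else if (B ∩ B').card = a then 1 else 0

/-- DNC (40 lines): number of `a`-sets below two `(a+1)`-sets. -/
def Stmt_DNC : Prop := ∀ (ι : Type) [DecidableEq ι] (C : Finset ι) (a : ℕ) (B B' : Finset ι),
  B ∈ C.powersetCard (a + 1) → B' ∈ C.powersetCard (a + 1) →
  ((C.powersetCard a).filter (fun A => A ⊆ B ∧ A ⊆ B')).card =
    if B = B' then a + 1 else if (B ∩ B').card = a then 1 else 0

/-- UPD (80 lines; uses UPC DNC). Expand the squares, exchange the sums: both sides are `∑_(B, B') g B g B' · (number)`; the numbers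
differ by `(m - (a+1)) - (a+1)` for `B = B'` and by `0` else. (`(m - (a+1) : ℕ)` is a real subtraction, as `B` exists.) -/
def Stmt_UPD : Prop := ∀ (ι : Type) [DecidableEq ι] (C : Finset ι) (a : ℕ) (g : Finset ι → ℝ),
  ∑ W ∈ C.powersetCard (a + 2), (∑ B ∈ W.powersetCard (a + 1), g B) ^ 2 =
    ∑ A ∈ C.powersetCard a, (∑ B ∈ (C.powersetCard (a + 1)).filter (fun B => A ⊆ B), g B) ^ 2 +
      ((C.card : ℝ) - 2 * ((a : ℝ) + 1)) * ∑ B ∈ C.powersetCard (a + 1), g B ^ 2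

/-- POI (100 lines; uses ADJ UPD), Poincare inequality, induction on `j`. `j = 0`: `g ∅ = 0`. `j = a + 1`: let `d` be the down-sum of `g`;
`∑ d = (a+1) ∑ g = 0` (ADJ with `f = 1`), `∑ d² = ∑ g · (up-sum of d)` (ADJ with `f = d`), so by Cauchy-Schwarz and the induction
hypothesis for `d`: `(∑ d²)² ≤ ∑ g² · a (m-a-1) ∑ d²`, hence `∑ d² ≤ a (m-a-1) ∑ g²`; UPD:
`a (m-a-1) + m - 2(a+1) = (a+1)(m-a-2)`. -/
def Stmt_POI : Prop := ∀ (ι : Type) [DecidableEq ι] (C : Finset ι) (j : ℕ) (g : Finset ι → ℝ),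
  j + 1 ≤ C.card → ∑ B ∈ C.powersetCard j, g B = 0 →
  ∑ W ∈ C.powersetCard (j + 1), (∑ B ∈ W.powersetCard j, g B) ^ 2 ≤
    (j : ℝ) * ((C.card : ℝ) - j - 1) * ∑ B ∈ C.powersetCard j, g B ^ 2

/-- SUB (50 lines): every `a`-set `B` is in `C(m-a, b-a)` sets `W` of level `b` (bijection `W ↦ W \ B` onto
`(C \ B).powersetCard (b-a)`). -/
def Stmt_SUB : Prop := ∀ (ι : Type) [DecidableEq ι] (C : Finset ι) (a b : ℕ) (g : Finset ι → ℝ),
  a ≤ b → ∑ W ∈ C.powersetCard b, ∑ B ∈ W.powersetCard a, g B =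
    ((C.card - a).choose (b - a) : ℝ) * ∑ B ∈ C.powersetCard a, g B

/-- TEL (100 lines; uses POI SUB), several levels, induction on `b` (from `b = a`, equality). Let `V W = ∑ B ∈ W.powersetCard a, g B`.
For `|W| = b + 1`: the up-sum of `V` from level `b` is `(b+1-a) V W` (SUB for `W`), `∑ V = 0` on level `b` (SUB for `C`), so by POI
`(b+1-a)² ∑_(b+1) V² ≤ b (m-b-1) ∑_b V²`. And `(b+1-a) C(b, a-1) = b C(b-1, a-1)`,
`(b+1-a) C(m-a-1, b+1-a) = (m-b-1) C(m-a-1, b-a)`. -/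
def Stmt_TEL : Prop := ∀ (ι : Type) [DecidableEq ι] (C : Finset ι) (a b : ℕ) (g : Finset ι → ℝ),
  1 ≤ a → a ≤ b → b ≤ C.card → ∑ B ∈ C.powersetCard a, g B = 0 →
  ∑ W ∈ C.powersetCard b, (∑ B ∈ W.powersetCard a, g B) ^ 2 ≤
    ((b - 1).choose (a - 1) : ℝ) * ((C.card - a - 1).choose (b - a) : ℝ) *
      ∑ B ∈ C.powersetCard a, g B ^ 2

/-- DIS (60 lines; uses TEL): the disjointness operator from `b`-sets to `a`-sets. `∑ B ∈ (C \ A).powersetCard b, g B` is the function `V` of TEL on the set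
`C \ A` of level `m - a` (bijection `A ↦ C \ A`); Cauchy-Schwarz; `C(m-b-1, m-a-b) = C(m-b-1, a-1)`. -/
def Stmt_DIS : Prop := ∀ (ι : Type) [DecidableEq ι] (C : Finset ι) (a b : ℕ) (f g : Finset ι → ℝ),
  1 ≤ a → 1 ≤ b → a + b ≤ C.card → ∑ B ∈ C.powersetCard b, g B = 0 →
  (∑ A ∈ C.powersetCard a, f A * ∑ B ∈ (C \ A).powersetCard b, g B) ^ 2 ≤
    ((C.card - a - 1).choose (b - 1) : ℝ) * ((C.card - b - 1).choose (a - 1) : ℝ) *
      ((∑ A ∈ C.powersetCard a, f A ^ 2) * ∑ B ∈ C.powersetCard b, g B ^ 2)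

/-- mean over the `a`-subsets -/
noncomputable def mean {ι : Type} [DecidableEq ι] (C : Finset ι) (a : ℕ) (f : Finset ι → ℝ) : ℝ :=
  (∑ A ∈ C.powersetCard a, f A) / (C.card.choose a : ℝ)

/-- DIV (80 lines; uses SUB DIS): covariance of `f A`, `g B` for a random disjoint pair `(A, B)` of an `a`-set and a `b`-set:
`(Cov)² ≤ (a b / ((m-a)(m-b))) Var f Var g`. DIS for `f - mean`, `g - mean`; the number of the pairs is `C(m,a) C(m-a,b) = C(m,b) C(m-b,a)`;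
`C(m-a-1,b-1) (m-a) = b C(m-a,b)`. (For `a = b`, `f = g`: Hoffman's bound for the Kneser graph.) -/
def Stmt_DIV : Prop := ∀ (ι : Type) [DecidableEq ι] (C : Finset ι) (a b : ℕ) (f g : Finset ι → ℝ),
  1 ≤ a → 1 ≤ b → a + b ≤ C.card →
  ((∑ A ∈ C.powersetCard a, f A * ∑ B ∈ (C \ A).powersetCard b, g B) /
      ((C.card.choose a : ℝ) * ((C.card - a).choose b : ℝ)) - mean C a f * mean C b g) ^ 2 ≤
    ((a : ℝ) * b / (((C.card : ℝ) - a) * ((C.card : ℝ) - b))) *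
      ((mean C a (fun A => f A ^ 2) - mean C a f ^ 2) *
        (mean C b (fun B => g B ^ 2) - mean C b g ^ 2))

/-! ### B. Families of `k`-sets and `2k`-sets in a set of `2k + T` elements -/

/-- COV (120 lines; uses SUB TEL). `N₁ = C(m,k)`, `N₂ = C(m,2k)`, `X = C(2k,k)`, `p = |P|/N₁`, `q = |H|/N₂`. `g = 1_P - p` on level `k`:
`∑ g = 0`, `∑ g² = N₁ p (1-p)`. `V W = ∑ B ∈ W.powersetCard k, g B = #{B ∈ P, B ⊆ W} - p X`, `∑ V = 0` (SUB), so with
`R = ∑_(W ∈ H) V W = ∑_W (1_H W - q) V W`: `R² ≤ N₂ q (1-q) · ∑ V²` (Cauchy-Schwarz) and TEL (`a = k`, `b = 2k`):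
`∑ V² ≤ C(2k-1,k-1) C(k+T-1,k) N₁ p (1-p)`. `r = R/(X N₂)`. `2 C(2k-1,k-1) = X`, `(k+T) C(k+T-1,k) = T C(k+T,k)`,
`N₁ C(k+T,k) = N₂ X` (`Nat.choose_mul`). -/
def Stmt_COV : Prop := ∀ (ι : Type) [DecidableEq ι] (C : Finset ι) (k T : ℕ)
    (H P : Finset (Finset ι)), 1 ≤ k → C.card = 2 * k + T → H ⊆ C.powersetCard (2 * k) →
  P ⊆ C.powersetCard k → ∃ p q r : ℝ, 0 ≤ p ∧ p ≤ 1 ∧ 0 ≤ q ∧ q ≤ 1 ∧
    (P.card : ℝ) = p * ((2 * k + T).choose k : ℝ) ∧
    (H.card : ℝ) = q * ((2 * k + T).choose (2 * k) : ℝ) ∧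
    ∑ W ∈ H, ((P.filter (fun B => B ⊆ W)).card : ℝ) =
      (q * p + r) * (((2 * k).choose k : ℝ) * ((2 * k + T).choose (2 * k) : ℝ)) ∧
    2 * ((k : ℝ) + T) * r ^ 2 ≤ T * (q * (1 - q) * (p * (1 - p)))

/-- SCA (60 lines), real numbers. `D = t - q (1 - 4p) ≥ 0` (if `4p < 1`: `q (1-4p) ≤ 1 - 4p ≤ 2t - 1 ≤ t`). With
`A = (1+t)(1-4p)² + 16 t p (1-p)` (`> 0` if `t > 0`), `E = 2t[(1+t)(1-4p) + 8p(1-p)]`:
`A · ((1+t) D² - 16 t q (1-q) p (1-p)) = (A q - E/2)² + 16 t² p (1-p) ((t+2p)² - 1) ≥ 0`, so `(4r)² ≤ D²`. `t = 0`: `r = 0`, `p ≥ 1/2`. -/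
def Stmt_SCA : Prop := ∀ t p q r : ℝ, 0 ≤ t → t ≤ 1 → 0 ≤ p → p ≤ 1 → 0 ≤ q → q ≤ 1 →
  1 ≤ 2 * p + t → (1 + t) * r ^ 2 ≤ t * (q * (1 - q) * (p * (1 - p))) →
  q * (1 - 4 * p) - 4 * r ≤ t

/-- SPF (80 lines; uses COV SCA), the sharp inequality for families. `t = T/m`: `1 + t = 2(k+T)/m`, `p ≥ k/m` is `1 ≤ 2p + t`.
(In `ℝ`: divide by `m X N₂`.) -/
def Stmt_SPF : Prop := ∀ (ι : Type) [DecidableEq ι] (C : Finset ι) (k T : ℕ)
    (H P : Finset (Finset ι)), 1 ≤ k → C.card = 2 * k + T → H ⊆ C.powersetCard (2 * k) →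
  P ⊆ C.powersetCard k → k * (2 * k + T).choose k ≤ (2 * k + T) * P.card →
  (2 * k + T) * ((2 * k).choose k * H.card) ≤
    T * ((2 * k).choose k * (2 * k + T).choose (2 * k)) +
      4 * (2 * k + T) * ∑ W ∈ H, (P.filter (fun B => B ⊆ W)).card

/-- ALP (60 lines): halvings of a set `U` of `2k` elements with `x(U) ≤ 0`. If `B` is not counted in `al` then exactly one of `B`, `U \ B`
is positive (both: `x(U) > 0`); `B ↦ U \ B` is a bijection of the halvings. -/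
def Stmt_ALP : Prop := ∀ (ι : Type) [DecidableEq ι] (U : Finset ι) (x : ι → ℝ) (k : ℕ),
  U.card = 2 * k →
  (∑ i ∈ U, x i ≤ 0 → MP_9999b5_mr.al x k U + 2 * MaxSums.pos x U k = (2 * k).choose k) ∧
  (0 < ∑ i ∈ U, x i → MP_9999b5_mr.al x k U = 0)

/-- QSP (60 lines; uses PAC ALP SPF): (Q) for `C` if the fraction of positive `k`-subsets is at least `k/m`. `H` = the `2k`-subsets with sum `≤ 0`,
`P` = the positive `k`-subsets: `bad = ∑_(W ∈ H) (X - 2 pos W)`, `hvy = X |H|`, `#{B ∈ P, B ⊆ W} = pos W`. (`Stmt_PAC` is in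
`MP_9999b5_mr/Interface.lean`.) -/
def Stmt_QSP : Prop := ∀ (ι : Type) [DecidableEq ι] (C : Finset ι) (x : ι → ℝ) (k T : ℕ),
  1 ≤ k → C.card = 2 * k + T →
  k * (2 * k + T).choose k ≤ (2 * k + T) * MaxSums.pos x C k →
  (2 * k + T) * (2 * MP_9999b5_mr.bad C x k) ≤
    (2 * k + T) * MP_9999b5_mr.hvy C x k + T * (MP_9999b5_mr.prs C k).card

/-! ### C. Negative association -/

/-- number of `k`-subsets with sum at most `s` -/
noncomputable def lo {ι : Type} [DecidableEq ι] (C : Finset ι) (x : ι → ℝ) (k : ℕ) (s : ℝ) : ℕ :=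
  ((C.powersetCard k).filter (fun B => ∑ i ∈ B, x i ≤ s)).card

/-- number of ordered pairs of disjoint sets of `j` and `k` elements with sums at most `s`, `t` -/
noncomputable def lo2 {ι : Type} [DecidableEq ι] (C : Finset ι) (x : ι → ℝ) (j k : ℕ) (s t : ℝ) : ℕ :=
  (((C.powersetCard j) ×ˢ (C.powersetCard k)).filter (fun p => Disjoint p.1 p.2 ∧
    ∑ i ∈ p.1, x i ≤ s ∧ ∑ i ∈ p.2, x i ≤ t)).card

/-- LOS (50 lines): splitting by an element `a`. -/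
def Stmt_LOS : Prop := ∀ (ι : Type) [DecidableEq ι] (C : Finset ι) (x : ι → ℝ) (a : ι), a ∉ C →
  (∀ (k : ℕ) (s : ℝ), lo (insert a C) x (k + 1) s = lo C x (k + 1) s + lo C x k (s - x a)) ∧
  ∀ (j k : ℕ) (s t : ℝ), lo2 (insert a C) x (j + 1) (k + 1) s t =
    lo2 C x (j + 1) (k + 1) s t + lo2 C x j (k + 1) (s - x a) t + lo2 C x (j + 1) k s (t - x a)

/-- LMO (80 lines): `a` maximal. Fractions: `P(x(B) + x a ≤ s) ≤ P(x(B') ≤ s)`, `B`, `B'` random `k`-, `(k+1)`-subsets of `C`. Count the pairs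
`(B, b)`, `b ∈ C \ B`: `x(B) + x a ≤ s` implies `x(insert b B) ≤ s`: `(m-k) lo k (s - x a) ≤ (k+1) lo (k+1) s`, `m = |C|`. -/
def Stmt_LMO : Prop := ∀ (ι : Type) [DecidableEq ι] (C : Finset ι) (x : ι → ℝ) (a : ι) (k : ℕ)
    (s : ℝ), (∀ i ∈ C, x i ≤ x a) → k ≤ C.card →
  (C.card - k) * lo C x k (s - x a) ≤ (k + 1) * lo C x (k + 1) s

/-- NEA (150 lines; uses LOS LMO), negative association: `P(x(B₁) ≤ s, x(B₂) ≤ t) ≤ P(x(B₁) ≤ s) P(x(B₂) ≤ t)`. Induction on `C`, removing a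
maximal element `a` (`Finset.induction_on_max_value`): `C = insert a C'`, `|C'| = m`. With `f₁ = P(x(B) ≤ s - x a)` (`|B| = j - 1`), `f₀ = P(x(B) ≤ s)`
(`|B| = j`) in `C'`, `g₁`, `g₀` similarly for `k`, `t`: `f₁ ≤ f₀`, `g₁ ≤ g₀` (LMO), by induction the left side is at most
`(j/M) f₁ g₀ + (k/M) f₀ g₁ + (1 - (j+k)/M) f₀ g₀`, `M = m + 1`, and the right side is
`((j/M) f₁ + (1-j/M) f₀) ((k/M) g₁ + (1-k/M) g₀)`; the difference is `(jk/M²)(f₀-f₁)(g₀-g₁) ≥ 0`. Cases `j = 0`, `k = 0`: direct. In counting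
form: `N = C(M,j) C(M-j,k)` pairs. -/
def Stmt_NEA : Prop := ∀ (ι : Type) [DecidableEq ι] (C : Finset ι) (x : ι → ℝ) (j k : ℕ)
    (s t : ℝ), j + k ≤ C.card →
  lo2 C x j k s t * C.card.choose k ≤ lo C x j s * lo C x k t * (C.card - j).choose k

/-- HSP (50 lines; uses NEA): (H) for `C` if the fraction of positive `k`-subsets is at least `3/10`. `bad = lo2 k k 0 0`, `|prs| = C(m,k) C(m-k,k)`,
`lo C x k 0 = C(m,k) - pos ≤ 7/10 C(m,k)`, `49/100 ≤ 1/2`. -/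
def Stmt_HSP : Prop := ∀ (ι : Type) [DecidableEq ι] (C : Finset ι) (x : ι → ℝ) (k : ℕ),
  2 * k ≤ C.card → 3 * C.card.choose k ≤ 10 * MaxSums.pos x C k →
  2 * MP_9999b5_mr.bad C x k ≤ (MP_9999b5_mr.prs C k).card

end Pool.Agent.Work.MP_9999b5_sp
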