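import Pool.Agent.Work.MP_9999b5_sp.Interface

/-!
MP_9999b5_co (Manickam-Miklos-Singhi), `n = 4k + T`: helper31's THEOREM (two-group Bessel inequality). For ONE set `C` of `m = 2k + T`
elements: `P(both sums <= 0) <= k/m` implies `(Q')`: `P(B₁ positive, B₁ ∪ B₂ <= 0) >= (k/2m) (P(B₁ ∪ B₂ <= 0) - T/m)`. With it the
whole problem is (H'): `P(both sums <= 0) <= k/m`. Same rules as in `Interface.lean` (import this file).
-/

set_option autoImplicit false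

namespace Pool.Agent.Work.MP_9999b5_sp

open Finset

/-- NRM (100 lines; uses PAC ALP COV), normalized numbers. `N = |prs| = X C(m,2k)`. `H` = the `2k`-subsets `W` with sum `≤ 0`, `P` = the
positive `k`-subsets; `p`, `w` (called `q` in COV), `s` (called `r` in COV) from COV: `w = |H|/C(m,2k) = hvy/N`, `p = pos/C(m,k)`,
`∑_(W ∈ H) pos W = (w p + s) N`. `q = bad/N`: `bad = ∑_(W ∈ H) (X - 2 pos W)`, so `q = w - 2 (w p + s)`. `r = q - 1 + 2p`: the number of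
pairs with both sums positive is `r N ≥ 0`; they are over `W ∉ H`, so `r ≤ 1 - w`. `s = -(q (1-w) + w r)/2`,
`4 p (1-p) = 1 - (q-r)²`, `t = T/m`, `1 + t = 2(k+T)/m`. -/
def Stmt_NRM : Prop := ∀ (ι : Type) [DecidableEq ι] (C : Finset ι) (x : ι → ℝ) (k T : ℕ),
  1 ≤ k → C.card = 2 * k + T → ∃ w q r : ℝ, 0 ≤ q ∧ q ≤ w ∧ w ≤ 1 ∧ 0 ≤ r ∧ r ≤ 1 - w ∧
    (MP_9999b5_mr.bad C x k : ℝ) = q * ((MP_9999b5_mr.prs C k).card : ℝ) ∧
    (MP_9999b5_mr.hvy C x k : ℝ) = w * ((MP_9999b5_mr.prs C k).card : ℝ) ∧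
    2 * ((k : ℝ) + T) * (q * (1 - w) + w * r) ^ 2 ≤ T * (w * (1 - w) * (1 - (q - r) ^ 2))

/-- BSC (60 lines), real numbers. Suppose `(1+t) w < 2q - t(1-t)`. `w = 1`: `2q ≤ 1 - t`, contradiction. `w < 1`: as
`(q(1-w) + wr)² = w(1-w)(q²/w + r²/(1-w) - (q-r)²)`, i.e. `(q(1-w)+wr)² = (1-w) q² + w r² - w(1-w)(q-r)²`, the hypothesis is
`(1+t)((1-w) q² + w r²) ≤ w(1-w)(t + (q-r)²)`; divide by `1 - w`: `(1+t) q² ≤ w (t + (q-r)² - (1+t) r²/(1-w)) ≤ w (t + q²)`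
(`r²/(1-w) ≥ r²`, `q r ≥ 0`). If `q ≤ t`: `(1+t) w ≥ (1+t) q ≥ 2q - t(1-t)`. If `q > t`: `(1+t)² q² < (2q - t + t²)(t + q²)`, but
`(1+t)² q² - (2q - t + t²)(q² + t) = (q-t)² (1 - t - 2q) ≥ 0`. -/
def Stmt_BSC : Prop := ∀ t w q r : ℝ, 0 ≤ t → t ≤ 1 → 0 ≤ q → q ≤ w → w ≤ 1 → 0 ≤ r →
  r ≤ 1 - w → 2 * q ≤ 1 - t →
  (1 + t) * (q * (1 - w) + w * r) ^ 2 ≤ t * (w * (1 - w) * (1 - (q - r) ^ 2)) →
  2 * q - t * (1 - t) ≤ (1 + t) * w

/-- QPR (60 lines; uses NRM BSC), helper31's theorem: (H') for `C` implies (Q') for `C`. Divide by `|prs|`: the hypothesis is `m q ≤ k`, the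
claim is `k m w + m² q ≤ m² w + k T`, i.e. with `t = T/m`, `k/m = (1-t)/2`: `(1+t) w ≥ 2q - t(1-t)`. (If `|prs| = 0` both sides are `0`;
it is not `0`.) -/
def Stmt_QPR : Prop := ∀ (ι : Type) [DecidableEq ι] (C : Finset ι) (x : ι → ℝ) (k T : ℕ),
  1 ≤ k → C.card = 2 * k + T →
  (2 * k + T) * MP_9999b5_mr.bad C x k ≤ k * (MP_9999b5_mr.prs C k).card →
  k * (2 * k + T) * MP_9999b5_mr.hvy C x k + (2 * k + T) ^ 2 * MP_9999b5_mr.bad C x k ≤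
    (2 * k + T) ^ 2 * MP_9999b5_mr.hvy C x k + k * T * (MP_9999b5_mr.prs C k).card

/-- (H') for `k`, `T`: a pair has two sums `≤ 0` with probability at most `k/(2k+T)` -/
def HP (k T : ℕ) : Prop := ∀ (ι : Type) [DecidableEq ι] (C : Finset ι) (x : ι → ℝ),
  C.card = 2 * k + T → Set.InjOn x C → 0 ≤ ∑ i ∈ C, x i →
  (2 * k + T) * MP_9999b5_mr.bad C x k ≤ k * (MP_9999b5_mr.prs C k).card

/-- (Q') for `k`, `T` -/
def QP (k T : ℕ) : Prop := ∀ (ι : Type) [DecidableEq ι] (C : Finset ι) (x : ι → ℝ),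
  C.card = 2 * k + T → Set.InjOn x C → 0 ≤ ∑ i ∈ C, x i →
  k * (2 * k + T) * MP_9999b5_mr.hvy C x k + (2 * k + T) ^ 2 * MP_9999b5_mr.bad C x k ≤
    (2 * k + T) ^ 2 * MP_9999b5_mr.hvy C x k + k * T * (MP_9999b5_mr.prs C k).card

/-- the weights: `k X` for positive `W`, `m (X - al W)` else (`k/m` times the weights `1` and `L g(W)`, `L = 2m/k`, of helper31,
`g = (X - al)/(2X)`) -/
noncomputable def wl {ι : Type} [DecidableEq ι] (x : ι → ℝ) (k T : ℕ) (W : Finset ι) : ℕ :=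
  if 0 < ∑ i ∈ W, x i then k * (2 * k).choose k
  else (2 * k + T) * ((2 * k).choose k - MP_9999b5_mr.al x k W)

/-- WSL (80 lines; uses PAC ALP), as WSU of `MP_9999b5_mr`. `∑ wl = k X #{W > 0} + m ∑_(W ≤ 0) (X - al W) = k (|prs| - hvy) + m (hvy - bad)`,
(as `al W = 0` for `0 < x(W)`); QP says `m² (hvy - bad) ≥ k m hvy - k T |prs|`, so `m ∑ wl ≥ k m |prs| - k T |prs| = 2k² |prs|`,
`|prs| = X C(m,2k)`, `2k C(m,2k) = m C(m-1,2k-1)`. So `∑ wl ≥ k X C(m-1,2k-1)`. -/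
def Stmt_WSL : Prop := ∀ (k T : ℕ), 1 ≤ k → QP k T → ∀ (ι : Type) [DecidableEq ι] (C : Finset ι)
    (x : ι → ℝ), C.card = 2 * k + T → Set.InjOn x C → 0 ≤ ∑ i ∈ C, x i →
  k * ((2 * k).choose k * (2 * k + T - 1).choose (2 * k - 1)) ≤
    ∑ W ∈ C.powersetCard (2 * k), wl x k T W

/-- (H'a): the same as (H') for the pairs whose union contains the maximum `a` (weaker than `HP` by `MON` of `MP_9999b5_mr`):
`∑ over U ∋ a of al U ≤ (k/m) X C(m-1,2k-1)` -/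
def HA (k T : ℕ) : Prop := ∀ (ι : Type) [DecidableEq ι] (C : Finset ι) (x : ι → ℝ) (a : ι),
  C.card = 2 * k + T → Set.InjOn x C → 0 ≤ ∑ i ∈ C, x i → a ∈ C → (∀ i ∈ C, x i ≤ x a) →
  (2 * k + T) * ∑ U ∈ (C.powersetCard (2 * k)).filter (fun U => a ∈ U), MP_9999b5_mr.al x k U ≤
    k * ((2 * k).choose k * (2 * k + T - 1).choose (2 * k - 1))

/-- HPA (40 lines; uses PAC MON): `HP` implies `HA`. MON (`l = 2k`): `m ∑_(U ∋ a) al U ≤ 2k ∑_U al U = 2k bad`; HP: `m bad ≤ k |prs| =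
k X C(m,2k)`; `2k C(m,2k) = m C(m-1,2k-1)`. -/
def Stmt_HPA : Prop := ∀ (k T : ℕ), 1 ≤ k → HP k T → HA k T

/-- WAL (80 lines), as WAB. `D = V \ W`. If `0 < x(W)`: `al W = 0`, `al U ≤ X`, there are `C(m-1, 2k-1)` sets `U`. If `x(W) ≤ 0`: `x(D) ≥ 0`, HA
for `D`: `m ∑_(U ∋ a) al U ≤ k X C(m-1,2k-1)`. -/
def Stmt_WAL : Prop := ∀ (k T : ℕ), 1 ≤ k → HA k T → ∀ (ι : Type) [DecidableEq ι] (V W : Finset ι)
    (x : ι → ℝ) (a : ι), V.card = 4 * k + T → Set.InjOn x V → 0 ≤ ∑ i ∈ V, x i → a ∈ V →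
  (∀ i ∈ V, x i ≤ x a) → W ⊆ V → W.card = 2 * k → a ∉ W →
  wl x k T W * ∑ U ∈ ((V \ W).powersetCard (2 * k)).filter (fun U => a ∈ U), MP_9999b5_mr.al x k U ≤
    ((2 * k).choose k - MP_9999b5_mr.al x k W) *
      (k * ((2 * k).choose k * (2 * k + T - 1).choose (2 * k - 1)))

/-- FLL (120 lines; uses WSL WAL), word for word as FLO of `MP_9999b5_mr`. -/
def Stmt_FLL : Prop := ∀ (k T : ℕ), 1 ≤ k → QP k T → HA k T → ∀ (ι : Type) [DecidableEq ι]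
    (V : Finset ι) (x : ι → ℝ), V.card = 4 * k + T → Set.InjOn x V → 0 ≤ ∑ i ∈ V, x i →
  ∑ U ∈ V.powersetCard (2 * k), MP_9999b5_mr.al x k U ≤
    (2 * k).choose k * (4 * k + T - 1).choose (2 * k)

/-- REL (40 lines; uses PAC FLL), word for word as RED of `MP_9999b5_mr`. -/
def Stmt_REL : Prop := ∀ (k T : ℕ), 1 ≤ k → QP k T → HA k T →
  Pool.Agent.Work.MaxSums.W k (4 * k + T) ((k : ℝ) / (4 * k + T))

/-- HPM (20 lines; uses QPR HPA REL): (H') implies MMS for `n = 4k + T`. -/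
def Stmt_HPM : Prop := ∀ (k T : ℕ), 1 ≤ k → HP k T →
  Pool.Agent.Work.MaxSums.W k (4 * k + T) ((k : ℝ) / (4 * k + T))

end Pool.Agent.Work.MP_9999b5_sp
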