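import Pool.Agent.Work.MP_9999b5_sp.Interface4

/-!
MP_9999b5_co (Manickam-Miklos-Singhi), `n = 4k + T`: THE TWO-LEVEL SPECTRAL INEQUALITY `REF4` (`Stmt_REF4` of `Interface4.lean`)
(helper19). Same rules as in `Interface.lean` (import this file: `import Pool.Agent.Work.MP_9999b5_sp.Interface3`). `|C| = m = 2k + T`,
`X = C(2k,k)`. Idea: `f` on level `k` with `∑ f = 0` is `s + g`, `s B = ∑ i ∈ B, γ i`, `g` with zero degrees; for `s` everything is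
explicit, for `g` the constants of the second eigenspace of the Johnson scheme are enough.
-/

set_option autoImplicit false

namespace Pool.Agent.Work.MP_9999b5_sp

open Finset

/-- zero degrees on level `j`: for every `i ∈ C` the sum of `g` over the `j`-sets containing `i` is `0` -/
def ZD {ι : Type} [DecidableEq ι] (C : Finset ι) (j : ℕ) (g : Finset ι → ℝ) : Prop :=
  ∀ i ∈ C, ∑ B ∈ (C.powersetCard j).filter (fun B => i ∈ B), g B = 0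

/-- LSM (30 lines): `∑_W ∑_(j ∈ W) γ j = ∑_(j ∈ D) γ j · #{W : j ∈ W}`, `#{W : j ∈ W} = C(|D|-1, b-1)`. -/
def Stmt_LSM : Prop := ∀ (ι : Type) [DecidableEq ι] (D : Finset ι) (b : ℕ) (γ : ι → ℝ), 1 ≤ b →
  ∑ W ∈ D.powersetCard b, ∑ j ∈ W, γ j = ((D.card - 1).choose (b - 1) : ℝ) * ∑ j ∈ D, γ j

/-- ZD0 (20 lines): `j ∑ g = ∑_(i ∈ C) ∑_(B ∋ i) g B = 0`. -/
def Stmt_ZD0 : Prop := ∀ (ι : Type) [DecidableEq ι] (C : Finset ι) (j : ℕ) (g : Finset ι → ℝ),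
  1 ≤ j → ZD C j g → ∑ B ∈ C.powersetCard j, g B = 0

/-- ZDD (40 lines; uses ADJ), the down-sum has zero degrees. ADJ with `f A = 1` if `i ∈ A`, `0` else: for `B` of level `a+1` the number
of the `A ∈ B.powersetCard a` with `i ∈ A` is `a` if `i ∈ B` (all `B \ {b}`, `b ≠ i`), `0` else. -/
def Stmt_ZDD : Prop := ∀ (ι : Type) [DecidableEq ι] (C : Finset ι) (a : ℕ) (g : Finset ι → ℝ),
  ZD C (a + 1) g →
  ZD C a (fun A => ∑ B ∈ (C.powersetCard (a + 1)).filter (fun B => A ⊆ B), g B)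

/-- ZDU (40 lines; uses SUB ZD0), the up-sum `V W = ∑ B ∈ W.powersetCard a, g B` has zero degrees. `∑_(W ∋ i) V = ∑_W V - ∑_(W ∌ i) V`; the
`W ∌ i` are `(C.erase i).powersetCard b`. SUB for `C`: `∑_W V = C(..) ∑ g = 0` (ZD0). SUB for `C.erase i`:
`∑_(W ∌ i) V = C(..) ∑_(B ∌ i) g B = C(..) (∑ g - ∑_(B ∋ i) g B) = 0`. -/
def Stmt_ZDU : Prop := ∀ (ι : Type) [DecidableEq ι] (C : Finset ι) (a b : ℕ) (g : Finset ι → ℝ),
  1 ≤ a → a ≤ b → ZD C a g → ZD C b (fun W => ∑ B ∈ W.powersetCard a, g B)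

/-- PO2 (100 lines; uses ADJ UPD ZDD), second Poincare inequality, induction on `j` as in POI (`B_POI.lean`). `j = 1`: `g {i} = 0` for all
`i ∈ C`, both sides are `0`. `j = a + 1`, `a ≥ 1`: `d` = the down-sum of `g`, zero degrees on level `a` (ZDD); `∑ d² = ∑ g · (up-sum of d)`
(ADJ with `f = d`); by Cauchy-Schwarz and the induction hypothesis for `d` (`a + 2 ≤ m`): `(∑ d²)² ≤ ∑ g² · (a-1)(m-a-2) ∑ d²`, hence
`∑ d² ≤ (a-1)(m-a-2) ∑ g²`; UPD: `(a-1)(m-a-2) + m - 2(a+1) = a (m-a-3)`. -/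
def Stmt_PO2 : Prop := ∀ (ι : Type) [DecidableEq ι] (C : Finset ι) (j : ℕ) (g : Finset ι → ℝ),
  1 ≤ j → j + 2 ≤ C.card → ZD C j g →
  ∑ W ∈ C.powersetCard (j + 1), (∑ B ∈ W.powersetCard j, g B) ^ 2 ≤
    ((j : ℝ) - 1) * ((C.card : ℝ) - j - 2) * ∑ B ∈ C.powersetCard j, g B ^ 2

/-- TL2 (100 lines; uses PO2 SUB ZDU), several levels, induction on `b` (from `b = a`, equality), as in TEL (`B_TEL.lean`).
`V W = ∑ B ∈ W.powersetCard a, g B`. For `|W| = b + 1`: the up-sum of `V` from level `b` is `(b+1-a) V W` (SUB for `W`), `V` has zero degrees on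
level `b` (ZDU), so by PO2 (`b + 2 ≤ m`) `(b+1-a)² ∑_(b+1) V² ≤ (b-1)(m-b-2) ∑_b V²`. And `(b+1-a) C(b-1, a-2) = (b-1) C(b-2, a-2)`,
`(b+1-a) C(m-a-2, b+1-a) = (m-b-2) C(m-a-2, b-a)`. -/
def Stmt_TL2 : Prop := ∀ (ι : Type) [DecidableEq ι] (C : Finset ι) (a b : ℕ) (g : Finset ι → ℝ),
  2 ≤ a → a ≤ b → b + 1 ≤ C.card → ZD C a g →
  ∑ W ∈ C.powersetCard b, (∑ B ∈ W.powersetCard a, g B) ^ 2 ≤
    ((b - 2).choose (a - 2) : ℝ) * ((C.card - a - 2).choose (b - a) : ℝ) *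
      ∑ B ∈ C.powersetCard a, g B ^ 2

/-- DG1 (30 lines; uses LSM). The sum over all `W` is `0` (LSM for `C`), the sum over `W ∌ i` is (LSM for `C.erase i`)
`C(m-2, b-1) (0 - γ i)`. -/
def Stmt_DG1 : Prop := ∀ (ι : Type) [DecidableEq ι] (C : Finset ι) (b : ℕ) (γ : ι → ℝ),
  1 ≤ b → b + 1 ≤ C.card → ∑ j ∈ C, γ j = 0 → ∀ i ∈ C,
  ∑ W ∈ (C.powersetCard b).filter (fun W => i ∈ W), ∑ j ∈ W, γ j =
    ((C.card - 2).choose (b - 1) : ℝ) * γ i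

/-- SQ1 (30 lines; uses DG1): `∑_W (∑_(j ∈ W) γ j)² = ∑_(i ∈ C) γ i ∑_(W ∋ i) ∑_(j ∈ W) γ j`. -/
def Stmt_SQ1 : Prop := ∀ (ι : Type) [DecidableEq ι] (C : Finset ι) (b : ℕ) (γ : ι → ℝ),
  1 ≤ b → b + 1 ≤ C.card → ∑ j ∈ C, γ j = 0 →
  ∑ W ∈ C.powersetCard b, (∑ j ∈ W, γ j) ^ 2 =
    ((C.card - 2).choose (b - 1) : ℝ) * ∑ j ∈ C, γ j ^ 2

/-- DEC (40 lines; uses DG1), decomposition. `δ = C(m-2, k-1) > 0`, `γ i = (∑_(B ∋ i) f B)/δ`; `∑_(i ∈ C) ∑_(B ∋ i) f B = k ∑ f = 0`;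
`∑_(B ∋ i) (f B - ∑_(j ∈ B) γ j) = δ γ i - δ γ i = 0` (DG1). -/
def Stmt_DEC : Prop := ∀ (ι : Type) [DecidableEq ι] (C : Finset ι) (k : ℕ) (f : Finset ι → ℝ),
  1 ≤ k → k + 1 ≤ C.card → ∑ B ∈ C.powersetCard k, f B = 0 →
  ∃ γ : ι → ℝ, ∑ i ∈ C, γ i = 0 ∧ ZD C k (fun B => f B - ∑ i ∈ B, γ i)

/-- ORT (20 lines), orthogonality: `∑_B (∑_(i ∈ B) γ i) g B = ∑_(i ∈ C) γ i ∑_(B ∋ i) g B`. -/
def Stmt_ORT : Prop := ∀ (ι : Type) [DecidableEq ι] (C : Finset ι) (k : ℕ) (γ : ι → ℝ)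
    (g : Finset ι → ℝ), ZD C k g → ∑ B ∈ C.powersetCard k, (∑ i ∈ B, γ i) * g B = 0

/-- KSY (20 lines), the disjointness operator is symmetric (`Finset.sum_comm'`). -/
def Stmt_KSY : Prop := ∀ (ι : Type) [DecidableEq ι] (C : Finset ι) (k : ℕ) (f g : Finset ι → ℝ),
  ∑ A ∈ C.powersetCard k, f A * ∑ B ∈ (C \ A).powersetCard k, g B =
    ∑ B ∈ C.powersetCard k, g B * ∑ A ∈ (C \ B).powersetCard k, f A

/-- KN2 (60 lines; uses TL2), the disjointness operator on zero degrees. `K g A = ∑ B ∈ (C \ A).powersetCard k, g B` is `V (C \ A)`, and `A ↦ C \ A` is a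
bijection of level `k` onto level `k + T`; TL2 (`a = k`, `b = k + T`, `m - a - 2 = k + T - 2`) and `C(k+T-2, T) = C(k+T-2, k-2)`:
`∑ (K g)² ≤ C(k+T-2,k-2)² ∑ g²`; Cauchy-Schwarz. -/
def Stmt_KN2 : Prop := ∀ (ι : Type) [DecidableEq ι] (C : Finset ι) (k T : ℕ) (g : Finset ι → ℝ),
  2 ≤ k → C.card = 2 * k + T → ZD C k g →
  ∑ A ∈ C.powersetCard k, g A * ∑ B ∈ (C \ A).powersetCard k, g B ≤
    ((k + T - 2).choose (k - 2) : ℝ) * ∑ B ∈ C.powersetCard k, g B ^ 2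

/-- RF1 (80 lines; uses LSM SQ1), level 1. `s B = ∑ i ∈ B, γ i`, `G = ∑ γ²`. LSM: `∑ B ∈ W.powersetCard k, s B = C(2k-1,k-1) s W` and
`∑ B ∈ (C \ A).powersetCard k, s B = C(k+T-1,k-1) (0 - s A)`; SQ1 (`b = 2k` and `b = k`). With `X = 2 C(2k-1,k-1)`,
`C(2k-1,k-1) C(m-2,2k-1) = C(m-2,k-1) C(k+T-1,k)` (`Nat.choose_mul`), `(k+T) C(k+T-1,k) = T C(k+T,k)`, `(k+T) C(k+T-1,k-1) = k C(k+T,k)`:
the first term is `2kT X C(m-2,k-1) C(k+T,k) G`, the second `- kT X C(m-2,k-1) C(k+T,k) G`. -/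
def Stmt_RF1 : Prop := ∀ (ι : Type) [DecidableEq ι] (C : Finset ι) (k T : ℕ) (γ : ι → ℝ),
  1 ≤ k → 1 ≤ T → C.card = 2 * k + T → ∑ i ∈ C, γ i = 0 →
  4 * (k : ℝ) * (k + T) *
      ∑ W ∈ C.powersetCard (2 * k), (∑ B ∈ W.powersetCard k, ∑ i ∈ B, γ i) ^ 2 +
    (T : ℝ) * (k + T) * ((2 * k).choose k : ℝ) *
      ∑ A ∈ C.powersetCard k, (∑ i ∈ A, γ i) * ∑ B ∈ (C \ A).powersetCard k, ∑ i ∈ B, γ i =
  (T : ℝ) * k * ((2 * k).choose k : ℝ) * ((k + T).choose k : ℝ) *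
      ∑ A ∈ C.powersetCard k, (∑ i ∈ A, γ i) ^ 2

/-- RF2 (80 lines; uses TL2 KN2), levels `≥ 2`. `k = 1`: `g {i} = 0` for all `i ∈ C`, all terms are `0`. `k ≥ 2`: TL2 (`a = k`, `b = 2k`):
`∑_W (U g)² ≤ C(2k-2,k-2) C(k+T-2,k) ∑ g²`; KN2. With `2(2k-1) C(2k-2,k-2) = (k-1) X`, `(k+T)(k+T-1) C(k+T-2,k) = T(T-1) C(k+T,k)`,
`(k+T)(k+T-1) C(k+T-2,k-2) = k(k-1) C(k+T,k)` the left side is at most
`kT X C(k+T,k) · (k-1)(2k+2T-3)/((k+T-1)(2k-1)) · ∑ g²` and `(k+T-1)(2k-1) - (k-1)(2k+2T-3) = 2k+T-2 ≥ 0`. -/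
def Stmt_RF2 : Prop := ∀ (ι : Type) [DecidableEq ι] (C : Finset ι) (k T : ℕ) (g : Finset ι → ℝ),
  1 ≤ k → 1 ≤ T → C.card = 2 * k + T → ZD C k g →
  4 * (k : ℝ) * (k + T) * ∑ W ∈ C.powersetCard (2 * k), (∑ B ∈ W.powersetCard k, g B) ^ 2 +
    (T : ℝ) * (k + T) * ((2 * k).choose k : ℝ) *
      ∑ A ∈ C.powersetCard k, g A * ∑ B ∈ (C \ A).powersetCard k, g B ≤
  (T : ℝ) * k * ((2 * k).choose k : ℝ) * ((k + T).choose k : ℝ) *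
      ∑ A ∈ C.powersetCard k, g A ^ 2

/-- RFS (100 lines; uses LSM ZDU DEC ORT KSY RF1 RF2), the inequality for functions. DEC: `f = s + g`. `U f = U s + U g`, `U s W = C(2k-1,k-1) s W` (LSM for `W`),
so `∑ U s · U g = 0` by ORT on level `2k` (ZDU for `g`). `K s A = - C(k+T-1,k-1) s A` (LSM for `C \ A`), so `∑ g · K s = 0` (ORT) and
`∑ s · K g = ∑ g · K s = 0` (KSY). `∑ s g = 0` (ORT). Add RF1 and RF2. -/
def Stmt_RFS : Prop := ∀ (ι : Type) [DecidableEq ι] (C : Finset ι) (k T : ℕ) (f : Finset ι → ℝ),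
  1 ≤ k → 1 ≤ T → C.card = 2 * k + T → ∑ B ∈ C.powersetCard k, f B = 0 →
  4 * (k : ℝ) * (k + T) * ∑ W ∈ C.powersetCard (2 * k), (∑ B ∈ W.powersetCard k, f B) ^ 2 +
    (T : ℝ) * (k + T) * ((2 * k).choose k : ℝ) *
      ∑ A ∈ C.powersetCard k, f A * ∑ B ∈ (C \ A).powersetCard k, f B ≤
  (T : ℝ) * k * ((2 * k).choose k : ℝ) * ((k + T).choose k : ℝ) *
      ∑ A ∈ C.powersetCard k, f A ^ 2

/- REF4 (100 lines; uses PAC SUB RFS): `Stmt_REF4` of `Interface4.lean`, theorem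
`p_REF4 : MP_9999b5_mr.Stmt_PAC → Stmt_SUB → Stmt_RFS → Stmt_REF4`. `T = 0`: the only `W` is `C`, `g(C) = |P|/X = p`, both sides are `0`.
`T ≥ 1`: `f B = 1 - p` for `B ∈ P`, `- p` else; `N₁ = C(m,k)`, `N₂ = C(m,2k)`, `|prs| = X N₂ = N₁ C(k+T,k)` (PAC, `Nat.choose_mul`). With
`P_W = #{B ∈ P : B ⊆ W}`: `∑ B ∈ W.powersetCard k, f B = P_W - p X`, `∑_W P_W = C(k+T,k) |P| = p X N₂` (SUB), so
`∑_W (U f)² = ∑ P_W² - p² X² N₂`; `∑ f · K f = R - p² |prs|`, `R` = number of the pairs of `prs C k` in `P × P`; `∑ f² = N₁ p (1-p)`.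
Divide RFS by `4k(k+T) X |prs| = 4k(k+T) X² N₂`. -/

end Pool.Agent.Work.MP_9999b5_sp
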