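import Pool.Agent.Work.MP_9999b5_sp.Interface2

/-!
MP_9999b5_co (Manickam-Miklos-Singhi): helper83's THEOREM `MMS(k,T)` implies `MMS(4k+T,k)` (with helper19, helper11, helper49, helper67),
everything after the two-level spectral inequality `REF4`. Same rules as in `Interface.lean` (import this file). `m = 2k + T`,
`t = T/m`, `2m + T = 4k + 3T`, `m + T = 2k + 2T`.
-/

set_option autoImplicit false

namespace Pool.Agent.Work.MP_9999b5_sp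

open Finset

/-- REF4 (from `Interface3`, helper19): two-level spectral inequality. `P` a family of `k`-subsets of `C`, `|C| = m = 2k+T`, `p = |P|/C(m,k)`,
`g(W)` = fraction of the `k`-subsets of `W` in `P`, `r` = probability that both sets of a random pair of `prs C k` are in `P`:
`Var g + (T/4k) (r - p²) ≤ (T/(4(k+T))) p (1-p)`. -/
def Stmt_REF4 : Prop := ∀ (ι : Type) [DecidableEq ι] (C : Finset ι) (k T : ℕ)
    (P : Finset (Finset ι)) (p : ℝ), 1 ≤ k → C.card = 2 * k + T → P ⊆ C.powersetCard k →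
  (P.card : ℝ) = p * ((2 * k + T).choose k : ℝ) →
  (∑ W ∈ C.powersetCard (2 * k), (((P.filter (fun B => B ⊆ W)).card : ℝ) /
      ((2 * k).choose k : ℝ)) ^ 2) / ((2 * k + T).choose (2 * k) : ℝ) - p ^ 2 +
    (T : ℝ) / (4 * k) * ((((MP_9999b5_mr.prs C k).filter (fun z => z.1 ∈ P ∧ z.2 ∈ P)).card : ℝ) /
      ((MP_9999b5_mr.prs C k).card : ℝ) - p ^ 2) ≤ (T : ℝ) / (4 * (k + T)) * (p * (1 - p))

/-- number of pairs with both sums positive -/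
noncomputable def pp {ι : Type} [DecidableEq ι] (C : Finset ι) (x : ι → ℝ) (k : ℕ) : ℕ :=
  ((MP_9999b5_mr.prs C k).filter (fun p => 0 < ∑ i ∈ p.1, x i ∧ 0 < ∑ i ∈ p.2, x i)).card

/-- NR2 (120 lines; uses PAC ALP REF4), normalized numbers. `N = |prs| = X N₂`, `N₂ = C(m,2k)`, `P` = the positive `k`-subsets, `g(W) = pos W / X`,
`H` = the `2k`-subsets with sum `≤ 0`. `w = hvy/N = |H|/N₂`, `q = bad/N`, `r = pp/N`. For `W ∈ H`: `al = X - 2 pos`, so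
`∑_H g / N₂ = (w-q)/2`; for `W ∉ H`: no half-pair has both sums `≤ 0`, so `2 pos - X` = number of the halvings with two positive
halves and `∑_(W ∉ H) g / N₂ = (1-w+r)/2`; so `p = (1-q+r)/2`. With `G = ∑ g²/N₂`: by Cauchy-Schwarz in the two groups
`w (1-w) G ≥ (1-w) ((w-q)/2)² + w ((1-w+r)/2)²`. Insert REF4 (times 4) and expand:
`(1-w)(w-q)² + w(1-w+r)² = (1-w) q² + w r² + w(1-w)(1 - 2q + 2r)`. -/
def Stmt_NR2 : Prop := ∀ (ι : Type) [DecidableEq ι] (C : Finset ι) (x : ι → ℝ) (k T : ℕ),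
  1 ≤ k → C.card = 2 * k + T → ∃ w q r : ℝ, 0 ≤ q ∧ q ≤ w ∧ w ≤ 1 ∧ 0 ≤ r ∧ r ≤ 1 - w ∧
    (MP_9999b5_mr.bad C x k : ℝ) = q * ((MP_9999b5_mr.prs C k).card : ℝ) ∧
    (MP_9999b5_mr.hvy C x k : ℝ) = w * ((MP_9999b5_mr.prs C k).card : ℝ) ∧
    (pp C x k : ℝ) = r * ((MP_9999b5_mr.prs C k).card : ℝ) ∧
    (1 - w) * q ^ 2 + w * r ^ 2 ≤ w * (1 - w) * ((q - r) ^ 2 +
      (T : ℝ) / (4 * (k + T)) * (1 - (q - r) ^ 2) + (T : ℝ) / (4 * k) * ((1 - q + r) ^ 2 - 4 * r))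

/-- RBZ (80 lines), real numbers. `F(r)` = the bracket. `F(r) - r²` is decreasing in `r ∈ [0,1]` and
`(1-t²) F(0) = D := q² - t(1+t) q + t`. `w = 1`: `t (1-q)(1-tq) ≥ 0`. `w < 1`: `q² ≤ w (F(r) - r²/(1-w)) ≤ w (F(r) - r²) ≤ w F(0)`. -/
def Stmt_RBZ : Prop := ∀ t w q r : ℝ, 0 < t → t < 1 → 0 ≤ q → q ≤ w → w ≤ 1 → 0 ≤ r →
  r ≤ 1 - w →
  (1 - w) * q ^ 2 + w * r ^ 2 ≤ w * (1 - w) * ((q - r) ^ 2 + t / (2 * (1 + t)) * (1 - (q - r) ^ 2) +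
    t / (2 * (1 - t)) * ((1 - q + r) ^ 2 - 4 * r)) →
  q ^ 2 * (1 - t ^ 2) ≤ w * (q ^ 2 - t * (1 + t) * q + t)

/-- QET (50 lines), real numbers. `D = q² - t(1+t)q + t > 0` (discriminant). If `q ≤ t`: `w ≥ q`. If `q > t`: with `η = 1/(2+t)`:
`D ((1+t) w - ((2+t) q - t)) ≥ (1+t) q² (1-t²) - D ((2+t) q - t) = (2+t) (q-t)² (η - q) = (q-t)² (1 - (2+t) q) ≥ 0`. -/
def Stmt_QET : Prop := ∀ t w q : ℝ, 0 < t → t < 1 → 0 ≤ q → q ≤ w → w ≤ 1 →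
  (2 + t) * q ≤ 1 → q ^ 2 * (1 - t ^ 2) ≤ w * (q ^ 2 - t * (1 + t) * q + t) →
  (2 + t) * q ≤ (1 + t) * w + t

/-- LIG (50 lines), real numbers. `D (1-w) ≤ D - q²(1-t²) = t (1-q)(1-tq)` and
`2 D - (1+t)(1-q)(1-tq) = (1-t) ((2+t) q - 1) (q+1) ≥ 0`. -/
def Stmt_LIG : Prop := ∀ t w q : ℝ, 0 < t → t < 1 → 0 ≤ q → q ≤ w → w ≤ 1 →
  1 ≤ (2 + t) * q → q ^ 2 * (1 - t ^ 2) ≤ w * (q ^ 2 - t * (1 + t) * q + t) →
  (1 + t) * (1 - w) ≤ 2 * t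

/-- EXG (150 lines), the exchange. For a bad pair `(B₁, B₂)` (`K = C \ B₁ \ B₂`) and a `T`-subset `K'` of `B₁` with `x(K') < 0`:
`B₁' = (B₁ \ K') ∪ K`, `x(B₁') = c - x(B₂) - x(K') > 0`, `x(B₂) ≤ 0`, `x(B₁') + x(B₂) = c - x(K') > 0`. `(B₁, B₂, K') ↦ (B₁', B₂, K)` is injective,
`K` a `T`-subset of `B₁'`. By `W T k φ` for `-x` on `B₁` (`x(B₁) ≤ 0`) there are at least `φ C(k,T)` such `K'`. So `φ bad ≤ N'`, `N'` = number
of the pairs with `x(B₁) > 0`, `x(B₂) ≤ 0`, `x(B₁) + x(B₂) > 0`, and `2 N' + pp = |prs| - hvy` (a pair with positive total and not both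
positive has exactly one positive sum; swap). (If `T > k` there are no `K'` and `C(k,T) = 0`: excluded by `T ≤ k`.) -/
def Stmt_EXG : Prop := ∀ (k T : ℕ) (φ : ℝ), 1 ≤ k → T ≤ k → Pool.Agent.Work.MaxSums.W T k φ →
  ∀ (ι : Type) [DecidableEq ι] (C : Finset ι) (x : ι → ℝ), C.card = 2 * k + T →
  Set.InjOn x C → 0 ≤ ∑ i ∈ C, x i →
  2 * φ * (MP_9999b5_mr.bad C x k : ℝ) + (pp C x k : ℝ) + (MP_9999b5_mr.hvy C x k : ℝ) ≤
    ((MP_9999b5_mr.prs C k).card : ℝ)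

/-- (H°) for `k`, `T`: `P(both sums ≤ 0) ≤ m/(2m+T)` -/
def HO (k T : ℕ) : Prop := ∀ (ι : Type) [DecidableEq ι] (C : Finset ι) (x : ι → ℝ),
  C.card = 2 * k + T → Set.InjOn x C → 0 ≤ ∑ i ∈ C, x i →
  (4 * k + 3 * T) * MP_9999b5_mr.bad C x k ≤ (2 * k + T) * (MP_9999b5_mr.prs C k).card

/-- (Q°) for `k`, `T` -/
def QO (k T : ℕ) : Prop := ∀ (ι : Type) [DecidableEq ι] (C : Finset ι) (x : ι → ℝ),
  C.card = 2 * k + T → Set.InjOn x C → 0 ≤ ∑ i ∈ C, x i →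
  (4 * k + 3 * T) * MP_9999b5_mr.bad C x k ≤
    (2 * k + 2 * T) * MP_9999b5_mr.hvy C x k + T * (MP_9999b5_mr.prs C k).card

/-- HOE (80 lines; uses NR2 RBZ LIG EXG): (H°) from `W T k φ`, `φ ≥ t(2+t)/(1+t) = T(4k+3T)/((2k+T)(2k+2T))`. Suppose `(2+t) q > 1`. NR2, RBZ, LIG:
`(1+t)(1-w) ≤ 2t`; EXG: `2 φ q ≤ 1 - w - r ≤ 1 - w`; so `q φ (1+t) ≤ t`, `q t (2+t) ≤ t`. -/
def Stmt_HOE : Prop := ∀ (k T : ℕ) (φ : ℝ), 1 ≤ k → 1 ≤ T → T ≤ k →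
  Pool.Agent.Work.MaxSums.W T k φ →
  (T : ℝ) * (4 * k + 3 * T) ≤ φ * ((2 * k + T) * (2 * k + 2 * T)) → HO k T

/-- QOE (50 lines; uses NR2 RBZ QET): (H°) for all `C` gives (Q°) for all `C`. Multiply `(2+t) q ≤ (1+t) w + t` by `m |prs|`. -/
def Stmt_QOE : Prop := ∀ (k T : ℕ), 1 ≤ k → 1 ≤ T → HO k T → QO k T

/-- the weights: `m X` for positive `W`, `(2m+T)(X - al W)` else -/
noncomputable def wo {ι : Type} [DecidableEq ι] (x : ι → ℝ) (k T : ℕ) (W : Finset ι) : ℕ :=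
  if 0 < ∑ i ∈ W, x i then (2 * k + T) * (2 * k).choose k
  else (4 * k + 3 * T) * ((2 * k).choose k - MP_9999b5_mr.al x k W)

/-- WSO (80 lines; uses PAC ALP), as WSU of `MP_9999b5_mr`. `∑ wo = m (|prs| - hvy) + (2m+T)(hvy - bad) ≥ m |prs| - m hvy + (2m+T) hvy - (m+T) hvy - T |prs| =
(m-T) |prs| = 2k X C(m,2k) = m X C(m-1,2k-1)`. -/
def Stmt_WSO : Prop := ∀ (k T : ℕ), 1 ≤ k → QO k T → ∀ (ι : Type) [DecidableEq ι] (C : Finset ι)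
    (x : ι → ℝ), C.card = 2 * k + T → Set.InjOn x C → 0 ≤ ∑ i ∈ C, x i →
  (2 * k + T) * ((2 * k).choose k * (2 * k + T - 1).choose (2 * k - 1)) ≤
    ∑ W ∈ C.powersetCard (2 * k), wo x k T W

/-- WAO (60 lines; uses PAC), as WAB, no maximum. `D = V \ W`, `|D| = m`. If `0 < x(W)`: `al W = 0`, `∑_U al U ≤ X C(m,2k)`. If `x(W) ≤ 0`: `x(D) ≥ 0`, HO for `D`:
`(2m+T) ∑_U al U ≤ m X C(m,2k)`. -/
def Stmt_WAO : Prop := ∀ (k T : ℕ), 1 ≤ k → HO k T → ∀ (ι : Type) [DecidableEq ι] (V W : Finset ι)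
    (x : ι → ℝ), V.card = 4 * k + T → Set.InjOn x V → 0 ≤ ∑ i ∈ V, x i →
  W ⊆ V → W.card = 2 * k →
  wo x k T W * ∑ U ∈ (V \ W).powersetCard (2 * k), MP_9999b5_mr.al x k U ≤
    ((2 * k).choose k - MP_9999b5_mr.al x k W) *
      ((2 * k + T) * ((2 * k).choose k * (2 * k + T).choose (2 * k)))

/-- FLO4 (120 lines; uses WSO WAO). `S = ∑_U al U` over all `2k`-subsets of `V`. For `al U > 0`: `x(U) ≤ 0`, so WSO for `C = V \ U`: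
`al U · m X C(m-1,2k-1) ≤ al U ∑_(W ⊆ V \ U) wo W`. Sum, exchange (`Finset.sum_comm'`), WAO: `m X C(m-1,2k-1) S ≤ m X C(m,2k) ∑_W (X - al W) =
m X C(m,2k) (X C(n,2k) - S)`, `n = 4k + T`. With `2k C(m,2k) = m C(m-1,2k-1)`: `2k S ≤ m (X C(n,2k) - S)`, `n S ≤ m X C(n,2k)`, and
`n C(n-1,2k) = m C(n,2k)`. -/
def Stmt_FLO4 : Prop := ∀ (k T : ℕ), 1 ≤ k → QO k T → HO k T → ∀ (ι : Type) [DecidableEq ι]
    (V : Finset ι) (x : ι → ℝ), V.card = 4 * k + T → Set.InjOn x V → 0 ≤ ∑ i ∈ V, x i →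
  ∑ U ∈ V.powersetCard (2 * k), MP_9999b5_mr.al x k U ≤
    (2 * k).choose k * (4 * k + T - 1).choose (2 * k)

/-- RD4 (40 lines; uses PAC FLO4), word for word as RED of `MP_9999b5_mr`. -/
def Stmt_RD4 : Prop := ∀ (k T : ℕ), 1 ≤ k → QO k T → HO k T →
  Pool.Agent.Work.MaxSums.W k (4 * k + T) ((k : ℝ) / (4 * k + T))

/-- HOM (10 lines; uses QOE RD4): (H°) implies MMS for `n = 4k + T`. -/
def Stmt_HOM : Prop := ∀ (k T : ℕ), 1 ≤ k → 1 ≤ T → HO k T →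
  Pool.Agent.Work.MaxSums.W k (4 * k + T) ((k : ℝ) / (4 * k + T))

/-- MST (30 lines; uses HOE HOM): helper83's theorem. `φ = T/k`: `k (4k+3T) ≤ (2k+T)(2k+2T)`. -/
def Stmt_MST : Prop := ∀ (k T : ℕ), 1 ≤ T → T ≤ k →
  Pool.Agent.Work.MaxSums.W T k ((T : ℝ) / k) →
  Pool.Agent.Work.MaxSums.W k (4 * k + T) ((k : ℝ) / (4 * k + T))

end Pool.Agent.Work.MP_9999b5_sp
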