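import Pool.Agent.Work.MP_9999b5_sp.Interface4

/-!
MP_9999b5_co (Manickam-Miklos-Singhi): helper15's THEOREM `MMS(k+T,T)` implies `MMS(4k+T,k)` (general fraction `φ`: helper31, helper15;
strict version for `T ≥ 3`: helper92). Same rules as in `Interface.lean` (import this file). Only the exchange is new, the rest is
`Interface4.lean`. `m = 2k + T`, `τ = T/m`, `u = T/(k+T) = 2τ/(1+τ)`.
-/

set_option autoImplicit false

namespace Pool.Agent.Work.MP_9999b5_sp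

open Finset

/-- non-strict bound for arbitrary reals: a fraction `φ` of all `k`-subsets has a sum `≥ 0` -/
def WP (k n : ℕ) (φ : ℝ) : Prop := ∀ (ι : Type) [DecidableEq ι] (A : Finset ι) (x : ι → ℝ),
  A.card = n → 0 ≤ ∑ i ∈ A, x i →
  φ * (n.choose k : ℝ) ≤ ((A.powersetCard k).filter (fun B => 0 ≤ ∑ i ∈ B, x i)).card

/-- PRT (60 lines), perturbation. `y` injective on `A` and `≥ 0` (number of the element). For all small `ε > 0` (filter `nhdsWithin 0 (Ioi 0)`, finitely many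
conditions): `x + ε y` is injective on `A` (for `i ≠ j` at most one bad `ε`), its total is `≥ 0`, and `x(B) < 0 → x(B) + ε y(B) < 0`. Apply `W`. -/
def Stmt_PRT : Prop := ∀ (k n : ℕ) (φ : ℝ), Pool.Agent.Work.MaxSums.W k n φ → WP k n φ

/-- SHF (100 lines), shift of one element. `u = x(A) ≥ 0`, `n = k + T`. For `z ∈ A` and small `η > 0` put `y i = - x i - η` for `i ≠ z`,
`y z = - x z - η + u + n η`; `y(A) = 0`. `WP` for `y`: a `T`-subset `K` with `y(K) ≥ 0` has `x(K) ≤ - T η < 0` if `z ∉ K`, and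
`x(K) ≤ u + (n - T) η`, so (small `η`, finitely many `K`) `x(K) ≤ u`, if `z ∈ K`. So
`φ C(n,T) ≤ #{K : z ∉ K, x(K) < 0} + #{K : z ∈ K, x(K) ≤ u}`. Sum over `z ∈ A` (each `K` is counted `k`, resp. `T` times). -/
def Stmt_SHF : Prop := ∀ (k T : ℕ) (φ : ℝ), 1 ≤ T → WP T (k + T) φ →
  ∀ (ι : Type) [DecidableEq ι] (A : Finset ι) (x : ι → ℝ), A.card = k + T → 0 ≤ ∑ i ∈ A, x i →
  φ * (k + T) * ((k + T).choose T : ℝ) ≤
    k * (((A.powersetCard T).filter (fun K => ∑ i ∈ K, x i < 0)).card : ℝ) +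
    T * (((A.powersetCard T).filter (fun K => ∑ i ∈ K, x i ≤ ∑ i ∈ A, x i)).card : ℝ)

/-- number of pairs with `x(B₁) < 0` and `x(B₂) ≤ 0` -/
noncomputable def bn {ι : Type} [DecidableEq ι] (C : Finset ι) (x : ι → ℝ) (k : ℕ) : ℕ :=
  ((MP_9999b5_mr.prs C k).filter (fun p => ∑ i ∈ p.1, x i < 0 ∧ ∑ i ∈ p.2, x i ≤ 0)).card

/-- EX2 (150 lines; uses SHF), the exchange. `N = |prs|`, `K = C \ B₁ \ B₂`, `L` = number of pairs with `x(B₂) ≤ 0`, `N'` = number of pairs with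
`x(B₂) ≤ 0` and `x(K) < 0`. For `x(B₂) ≤ 0` apply SHF to `A = C \ B₂`, `x(A) = c - x(B₂) ≥ 0`, `K = A \ B₁`: `x(K) ≤ x(A)` iff `x(B₁) ≥ 0`.
Sum over `B₂`: `φ (k+T) L ≤ k N' + T (L - bn)`. In `N'`: `x(B₁) = x(A) - x(K) > 0`, `x(B₁) + x(B₂) = c - x(K) > 0`. So `2 N' + pp + hvy ≤ N` (swap), and
`2 L = N + bad - pp` (swap). Together `2 T bn ≤ k (N - pp - hvy) + (T - φ(k+T)) (N + bad - pp)`. -/
def Stmt_EX2 : Prop := ∀ (k T : ℕ) (φ : ℝ), 1 ≤ k → 1 ≤ T → WP T (k + T) φ →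
  ∀ (ι : Type) [DecidableEq ι] (C : Finset ι) (x : ι → ℝ), C.card = 2 * k + T →
  0 ≤ ∑ i ∈ C, x i →
  2 * T * (bn C x k : ℝ) + k * (pp C x k : ℝ) + k * (MP_9999b5_mr.hvy C x k : ℝ) ≤
    k * ((MP_9999b5_mr.prs C k).card : ℝ) + (T - φ * (k + T)) *
      (((MP_9999b5_mr.prs C k).card : ℝ) + (MP_9999b5_mr.bad C x k : ℝ) - (pp C x k : ℝ))

/-- ZE2 (60 lines). `bad ≤ bn + z`, `z` = number of pairs with `x(B₁) = 0` = `z₀ C(k+T,k)`, `z₀` = number of the `k`-subsets of `C` with sum `0`;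
a `(k-1)`-set has at most one extension with sum `0` (distinct reals): `k z₀ ≤ C(m,k-1)`, `(m-k+1) C(m,k-1) = k C(m,k)`, so `(k+T+1) z₀ ≤ C(m,k)`. -/
def Stmt_ZE2 : Prop := ∀ (k T : ℕ), 1 ≤ k → ∀ (ι : Type) [DecidableEq ι] (C : Finset ι)
    (x : ι → ℝ), C.card = 2 * k + T → Set.InjOn x C →
  (k + T + 1) * MP_9999b5_mr.bad C x k ≤ (k + T + 1) * bn C x k + (MP_9999b5_mr.prs C k).card

/-- HO2 (100 lines; uses NR2 RBZ LIG EX2 ZE2). Suppose `(2+τ) q > 1`. NR2, RBZ, LIG: `(1+τ)(1-w) ≤ 2τ`. EX2, ZE2 divided by `m N`, `ε = 1/(k+T+1)`, `d = τ - φ(1+τ)/2 ≥ 0`: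
`2τ(q - ε) ≤ ((1-τ)/2)(1-w-r) + d(1+q-r) ≤ (1-τ)τ/(1+τ) + d(1+q)`. So `(2τ-d)/(2+τ) < (1-τ)τ/(1+τ) + d + 2τε`, that is
`d(3+τ)/(2+τ) > τ²(3+τ)/((1+τ)(2+τ)) - 2τε`. The last hypothesis is `d ≤ τ²/(1+τ) - 2τε(2+τ)/(3+τ)`. -/
def Stmt_HO2 : Prop := ∀ (k T : ℕ) (φ : ℝ), 1 ≤ k → 1 ≤ T → WP T (k + T) φ → φ * (k + T) ≤ T →
  (T : ℝ) * (2 * k + T) / (2 * (k + T) ^ 2) +
    T * (4 * k + 3 * T) / ((k + T) * (3 * k + 2 * T) * (k + T + 1)) ≤ φ → HO k T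

/-- MS3 (10 lines; uses HO2 HOM). -/
def Stmt_MS3 : Prop := ∀ (k T : ℕ) (φ : ℝ), 1 ≤ k → 1 ≤ T → WP T (k + T) φ → φ * (k + T) ≤ T →
  (T : ℝ) * (2 * k + T) / (2 * (k + T) ^ 2) +
    T * (4 * k + 3 * T) / ((k + T) * (3 * k + 2 * T) * (k + T + 1)) ≤ φ →
  Pool.Agent.Work.MaxSums.W k (4 * k + T) ((k : ℝ) / (4 * k + T))

/-- MS2 (40 lines; uses PRT MS3): helper15's theorem. `φ = T/(k+T)`; `2(k+T)(4k+3T) ≤ T(3k+2T)(k+T+1)` for `T ≥ 3`. -/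
def Stmt_MS2 : Prop := ∀ (k T : ℕ), 1 ≤ k → 3 ≤ T →
  Pool.Agent.Work.MaxSums.W T (k + T) ((T : ℝ) / (k + T)) →
  Pool.Agent.Work.MaxSums.W k (4 * k + T) ((k : ℝ) / (4 * k + T))

end Pool.Agent.Work.MP_9999b5_sp
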