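import Pool.Agent.Work.MP_9999b5_sp.Interface5
import Pool.Agent.Work.MP_9999b5_sp.B_PRT
import Pool.Agent.Work.MP_9999b5_sp.B_SHF
import Pool.Agent.Work.MP_9999b5_sp.B_EXG
import Pool.Agent.Work.MP_9999b5_sp.B_EX2
import Pool.Agent.Work.MP_9999b5_sp.B_ZE2
import Pool.Agent.Work.MP_9999b5_mr.B_PAI
import Pool.Agent.Work.MP_9999b5_mr.B_PAC

/-!
RS (MP_9999b5_co): the strict R-flow (helper49's R-flow, strict version of helper54 and helper9), for `0 ≤ c`.
-/

set_option autoImplicit false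

namespace Pool.Agent.Work.MP_9999b5_sp

open Finset

/-- RS: strict R-flow. `W T (k+T) φ` for the function `c/T - x`, changed at two elements. -/
def Stmt_RS : Prop := ∀ (k T : ℕ) (φ : ℝ), 1 ≤ k → 1 ≤ T → Pool.Agent.Work.MaxSums.W T (k + T) φ →
  ∀ (ι : Type) [DecidableEq ι] (C : Finset ι) (x : ι → ℝ), C.card = 2 * k + T →
  Set.InjOn x C → 0 ≤ ∑ i ∈ C, x i →
  ((k : ℝ) + T - 1) * (2 * k + 1) * (φ * (k + T) * (((MP_9999b5_mr.prs C k).card : ℝ) +
      (MP_9999b5_mr.bad C x k : ℝ) - (pp C x k : ℝ))) ≤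
    ((k : ℝ) + T - 1) * (2 * k + 1) * ((k + T) * (((MP_9999b5_mr.prs C k).card : ℝ) -
      (MP_9999b5_mr.hvy C x k : ℝ) - (pp C x k : ℝ)) +
      T * ((MP_9999b5_mr.hvy C x k : ℝ) - (MP_9999b5_mr.bad C x k : ℝ))) +
    k * T * ((MP_9999b5_mr.prs C k).card : ℝ)

/-! ### one pair of elements -/

open Topology in
theorem RS_le {ι : Type} (K : Finset ι) (x : ι → ℝ) (c : ℝ) :
    ∀ᶠ ε in 𝓝[>] (0 : ℝ), ∑ i ∈ K, x i < c + ε → ∑ i ∈ K, x i ≤ c := by
  by_cases h : ∑ i ∈ K, x i ≤ c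
  · exact Filter.Eventually.of_forall (fun _ _ => h)
  · rw [not_le] at h
    have h1 : ∀ᶠ ε in 𝓝 (0 : ℝ), ε < ∑ i ∈ K, x i - c :=
      (Iio_mem_nhds (by linarith : (0 : ℝ) < ∑ i ∈ K, x i - c))
    have h2 := h1.filter_mono (nhdsWithin_le_nhds (s := Set.Ioi (0 : ℝ)))
    filter_upwards [h2] with ε hε
    intro h3
    linarith

open Topology in
/-- the changed function is injective for small `ε` -/
theorem RS_inj {ι : Type} (A : Finset ι) (a u : ι → ℝ)
    (h : ∀ i ∈ A, ∀ j ∈ A, i ≠ j → a i ≠ a j ∨ u i ≠ u j) :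
    ∀ᶠ ε in 𝓝[>] (0 : ℝ), Set.InjOn (fun i => a i + ε * u i) A := by
  have h1 : ∀ᶠ ε in 𝓝[>] (0 : ℝ), ∀ i ∈ A, ∀ j ∈ A, i ≠ j → a i + ε * u i ≠ a j + ε * u j := by
    rw [Filter.eventually_all_finset]
    intro i hi
    rw [Filter.eventually_all_finset]
    intro j hj
    by_cases hij : i = j
    · exact Filter.Eventually.of_forall (fun ε h => absurd hij h)
    · rcases h i hi j hj hij with h2 | h2
      · by_cases h3 : u i = u j
        · refine Filter.Eventually.of_forall (fun ε _ h4 => h2 ?_)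
          rw [h3] at h4
          linarith
        · filter_upwards [PRT_ne (a i) (a j) (u i) (u j) h3] with ε hε
          intro _
          exact hε
      · filter_upwards [PRT_ne (a i) (a j) (u i) (u j) h2] with ε hε
        intro _
        exact hε
  filter_upwards [h1] with ε hε
  intro i hi j hj hij
  by_contra hne
  exact hε i hi j hj hne hij

/-- SHS, light case: the total of `c/T - x` is not negative. -/
theorem RS_case1 {ι : Type} [DecidableEq ι] (k T : ℕ) (φ c : ℝ) (hT : 1 ≤ T)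
    (hW : Pool.Agent.Work.MaxSums.W T (k + T) φ) (A : Finset ι) (x : ι → ℝ) (hA : A.card = k + T)
    (hinj : Set.InjOn x A) (hs : T * ∑ i ∈ A, x i ≤ c * (k + T)) :
    φ * ((k + T).choose T : ℝ) ≤
      (((A.powersetCard T).filter (fun K => ∑ i ∈ K, x i < c)).card : ℝ) := by
  have hT0 : (0 : ℝ) < T := by exact_mod_cast hT
  have h1 := hW ι A (fun i => c / T - x i) hA
    (fun a ha b hb hab => hinj ha hb (by
      have h2 : c / T - x a = c / T - x b := hab
      linarith))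
    (by
      rw [sum_sub_distrib, sum_const, nsmul_eq_mul, hA]
      push_cast
      have h3 : ∑ i ∈ A, x i ≤ c * (k + T) / T := by
        rw [le_div_iff₀ hT0]
        linarith
      have h4 : ((k : ℝ) + T) * (c / T) = c * (k + T) / T := by ring
      rw [h4]
      linarith)
  refine h1.trans (Nat.cast_le.2 ?_)
  unfold Pool.Agent.Work.MaxSums.pos
  apply card_le_card
  intro K hK
  obtain ⟨hK1, hK2⟩ := mem_filter.1 hK
  obtain ⟨-, hK3⟩ := mem_powersetCard.1 hK1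
  refine mem_filter.2 ⟨hK1, ?_⟩
  rw [sum_sub_distrib, sum_const, nsmul_eq_mul, hK3, mul_div_cancel₀ _ hT0.ne'] at hK2
  linarith

/-- SHS, one ordered pair `(z, v)` -/
theorem RS_case2 {ι : Type} [DecidableEq ι] (k T : ℕ) (φ c : ℝ) (hT : 1 ≤ T) (hc : 0 ≤ c)
    (hW : Pool.Agent.Work.MaxSums.W T (k + T) φ) (A : Finset ι) (x : ι → ℝ) (hA : A.card = k + T)
    (hinj : Set.InjOn x A) (z v : ι) (hz : z ∈ A) (hv : v ∈ A) (hzv : z ≠ v) :
    φ * ((k + T).choose T : ℝ) ≤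
      (((A.powersetCard T).filter (fun K => ∑ i ∈ K, x i < c)).card : ℝ) +
      ((((A.powersetCard T).filter (fun K => c ≤ ∑ i ∈ K, x i ∧
        ∑ i ∈ K, x i < ∑ i ∈ A, x i)).filter (fun K => z ∈ K)).card : ℝ) +
      ((((A.powersetCard T).filter (fun K => ∑ i ∈ K, x i = c)).filter
        (fun K => z ∉ K ∧ v ∈ K)).card : ℝ) := by
  have hT0 : (0 : ℝ) < T := by exact_mod_cast hT
  have hk0 : (0 : ℝ) ≤ k := Nat.cast_nonneg k
  set s : ℝ := ∑ i ∈ A, x i - c * (k + T) / T with hs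
  have h0 : ∀ i ∈ A, ∀ j ∈ A, i ≠ j →
      (c / T - x i + (if i = z then s else 0)) ≠ (c / T - x j + (if j = z then s else 0)) ∨
      ((if i = z then (-1 : ℝ) else 0) + (if i = v then (1 : ℝ) else 0)) ≠
        ((if j = z then (-1 : ℝ) else 0) + (if j = v then (1 : ℝ) else 0)) := by
    intro i hi j hj hij
    by_cases h1 : i = z
    · right
      subst h1
      rw [if_pos rfl, if_neg hzv, if_neg (fun h => hij h.symm)]
      by_cases h2 : j = v
      · rw [if_pos h2]; norm_num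
      · rw [if_neg h2]; norm_num
    · by_cases h3 : j = z
      · right
        subst h3
        rw [if_pos rfl, if_neg hzv, if_neg h1]
        by_cases h2 : i = v
        · rw [if_pos h2]; norm_num
        · rw [if_neg h2]; norm_num
      · left
        rw [if_neg h1, if_neg h3]
        intro h4
        exact hij (hinj hi hj (by linarith))
  have h1 := RS_inj A (fun i => c / T - x i + (if i = z then s else 0))
    (fun i => (if i = z then (-1 : ℝ) else 0) + (if i = v then (1 : ℝ) else 0)) h0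
  have h2 : ∀ᶠ ε in nhdsWithin (0 : ℝ) (Set.Ioi 0), ∀ K ∈ A.powersetCard T,
      ∑ i ∈ K, x i < c + ε → ∑ i ∈ K, x i ≤ c := by
    rw [Filter.eventually_all_finset]
    intro K _
    exact RS_le K x c
  have h3 : ∀ᶠ ε in nhdsWithin (0 : ℝ) (Set.Ioi 0), 0 < ε := self_mem_nhdsWithin
  obtain ⟨ε, ⟨he1, he2⟩, he3⟩ := ((h1.and h2).and h3).exists
  have hyK : ∀ K : Finset ι, ∑ i ∈ K, ((c / T - x i + (if i = z then s else 0)) +
      ε * ((if i = z then (-1 : ℝ) else 0) + (if i = v then (1 : ℝ) else 0))) =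
      K.card * (c / T) - ∑ i ∈ K, x i + (if z ∈ K then s - ε else 0) +
        (if v ∈ K then ε else 0) := by
    intro K
    rw [sum_add_distrib, sum_add_distrib, sum_sub_distrib, sum_const, nsmul_eq_mul, ← mul_sum,
      sum_add_distrib, sum_ite_eq', sum_ite_eq', sum_ite_eq']
    by_cases a1 : z ∈ K
    · by_cases a2 : v ∈ K
      · rw [if_pos a1, if_pos a1, if_pos a2, if_pos a1, if_pos a2]; ring
      · rw [if_pos a1, if_pos a1, if_neg a2, if_pos a1, if_neg a2]; ring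
    · by_cases a2 : v ∈ K
      · rw [if_neg a1, if_neg a1, if_pos a2, if_neg a1, if_pos a2]; ring
      · rw [if_neg a1, if_neg a1, if_neg a2, if_neg a1, if_neg a2]; ring
  have h4 := hW ι A (fun i => (c / T - x i + (if i = z then s else 0)) +
      ε * ((if i = z then (-1 : ℝ) else 0) + (if i = v then (1 : ℝ) else 0))) hA he1 (by
    rw [hyK A, if_pos hz, if_pos hv, hA, hs]
    push_cast
    have : ((k : ℝ) + T) * (c / T) = c * (k + T) / T := by ring
    rw [this]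
    linarith)
  refine h4.trans ?_
  have h5 : Pool.Agent.Work.MaxSums.pos (fun i => (c / T - x i + (if i = z then s else 0)) +
      ε * ((if i = z then (-1 : ℝ) else 0) + (if i = v then (1 : ℝ) else 0))) A T ≤
      ((A.powersetCard T).filter (fun K => ∑ i ∈ K, x i < c)).card +
      (((A.powersetCard T).filter (fun K => c ≤ ∑ i ∈ K, x i ∧
        ∑ i ∈ K, x i < ∑ i ∈ A, x i)).filter (fun K => z ∈ K)).card +
      (((A.powersetCard T).filter (fun K => ∑ i ∈ K, x i = c)).filter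
        (fun K => z ∉ K ∧ v ∈ K)).card := by
    unfold Pool.Agent.Work.MaxSums.pos
    refine (card_le_card ?_).trans ((card_union_le _ _).trans
      (Nat.add_le_add_right (card_union_le _ _) _))
    intro K hK
    obtain ⟨hK1, hK2⟩ := mem_filter.1 hK
    obtain ⟨-, hK3⟩ := mem_powersetCard.1 hK1
    rw [hyK K, hK3, mul_div_cancel₀ _ hT0.ne'] at hK2
    rw [mem_union, mem_union]
    by_cases hlt : ∑ i ∈ K, x i < c
    · exact Or.inl (Or.inl (mem_filter.2 ⟨hK1, hlt⟩))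
    · rw [not_lt] at hlt
      by_cases hzK : z ∈ K
      · left; right
        refine mem_filter.2 ⟨mem_filter.2 ⟨hK1, hlt, ?_⟩, hzK⟩
        rw [if_pos hzK] at hK2
        have h6 : (if v ∈ K then ε else 0) ≤ ε := by
          by_cases h7 : v ∈ K
          · rw [if_pos h7]
          · rw [if_neg h7]; exact he3.le
        have h8 : c ≤ c * (k + T) / T := by
          rw [le_div_iff₀ hT0]
          nlinarith [mul_nonneg hc hk0]
        linarith
      · right
        rw [if_neg hzK] at hK2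
        by_cases hvK : v ∈ K
        · rw [if_pos hvK] at hK2
          have h9 := he2 K hK1 (by linarith)
          exact mem_filter.2 ⟨mem_filter.2 ⟨hK1, le_antisymm h9 hlt⟩, hzK, hvK⟩
        · rw [if_neg hvK] at hK2
          linarith
  exact_mod_cast h5

/-! ### all ordered pairs of elements -/

theorem RS_count {α β : Type} (P : Finset α) (F : Finset β)
    (R : α → β → Prop) [∀ i K, Decidable (R i K)] (m : ℕ)
    (h : ∀ K ∈ F, (P.filter (fun z => R z K)).card = m) :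
    ∑ z ∈ P, (F.filter (fun K => R z K)).card = m * F.card := by
  have h1 : ∑ z ∈ P, (F.filter (fun K => R z K)).card =
      ∑ z ∈ P, ∑ K ∈ F, if R z K then 1 else 0 := by
    apply Finset.sum_congr rfl
    intro z _
    rw [Finset.card_filter]
  have h2 : ∀ K ∈ F, ∑ z ∈ P, (if R z K then 1 else 0) = m := by
    intro K hK
    rw [← Finset.card_filter]
    exact h K hK
  rw [h1, Finset.sum_comm, Finset.sum_congr rfl h2, Finset.sum_const, smul_eq_mul, mul_comm]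

theorem RS_off1 {ι : Type} [DecidableEq ι] (A K : Finset ι) (hK : K ⊆ A) :
    (A.offDiag.filter (fun p => p.1 ∈ K)).card + K.card = K.card * A.card := by
  have h1 := card_filter_add_card_filter_not (s := K ×ˢ A) (fun p => p.1 = p.2)
  have h2 : ((K ×ˢ A).filter (fun p => p.1 = p.2)).card = K.card := by
    refine card_nbij' Prod.fst (fun z => (z, z)) ?_ ?_ ?_ ?_
    · intro p hp
      exact mem_coe.2 (mem_product.1 (mem_filter.1 (mem_coe.1 hp)).1).1
    · intro z hz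
      exact mem_coe.2 (mem_filter.2 ⟨mem_product.2 ⟨mem_coe.1 hz, hK (mem_coe.1 hz)⟩, rfl⟩)
    · intro p hp
      exact Prod.ext rfl (mem_filter.1 (mem_coe.1 hp)).2
    · intro z _
      rfl
  have h3 : (K ×ˢ A).filter (fun p => ¬ p.1 = p.2) = A.offDiag.filter (fun p => p.1 ∈ K) := by
    ext p
    rw [mem_filter, mem_product, mem_filter, mem_offDiag]
    constructor
    · rintro ⟨⟨a, b⟩, c⟩
      exact ⟨⟨hK a, b, c⟩, a⟩
    · rintro ⟨⟨_, b, c⟩, a⟩
      exact ⟨⟨a, b⟩, c⟩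
  rw [h2, h3, card_product] at h1
  omega

theorem RS_off2 {ι : Type} [DecidableEq ι] (A K : Finset ι) (hK : K ⊆ A) :
    (A.offDiag.filter (fun p => p.1 ∉ K ∧ p.2 ∈ K)).card = (A \ K).card * K.card := by
  rw [← card_product]
  congr 1
  ext p
  rw [mem_filter, mem_offDiag, mem_product, mem_sdiff]
  constructor
  · rintro ⟨⟨a, _, _⟩, b, c⟩
    exact ⟨⟨a, b⟩, c⟩
  · rintro ⟨⟨a, b⟩, c⟩
    exact ⟨⟨a, hK c, fun h => b (h ▸ c)⟩, b, c⟩

/-- SHS: the strict shift lemma. -/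
theorem RS_shift {ι : Type} [DecidableEq ι] (k T : ℕ) (φ c : ℝ) (hT : 1 ≤ T) (hk : 1 ≤ k)
    (hc : 0 ≤ c)
    (hW : Pool.Agent.Work.MaxSums.W T (k + T) φ) (A : Finset ι) (x : ι → ℝ) (hA : A.card = k + T)
    (hinj : Set.InjOn x A) :
    ((k : ℝ) + T) * (k + T - 1) * (φ * ((k + T).choose T : ℝ)) ≤
      ((k : ℝ) + T) * (k + T - 1) *
        (((A.powersetCard T).filter (fun K => ∑ i ∈ K, x i < c)).card : ℝ) +
      ((k : ℝ) + T - 1) * T * ((((A.powersetCard T).filter (fun K => c ≤ ∑ i ∈ K, x i ∧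
        ∑ i ∈ K, x i < ∑ i ∈ A, x i)).card : ℕ) : ℝ) +
      k * T * ((((A.powersetCard T).filter (fun K => ∑ i ∈ K, x i = c ∧
        c < ∑ i ∈ A, x i)).card : ℕ) : ℝ) := by
  have hT0 : (1 : ℝ) ≤ T := by exact_mod_cast hT
  have hk0 : (1 : ℝ) ≤ k := by exact_mod_cast hk
  have hn : (0 : ℝ) ≤ ((k : ℝ) + T) * (k + T - 1) := by
    apply mul_nonneg <;> linarith
  by_cases hs : T * ∑ i ∈ A, x i ≤ c * (k + T)
  · have h1 := RS_case1 k T φ c hT hW A x hA hinj hs
    have h2 := mul_le_mul_of_nonneg_left h1 hn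
    have h3 : (0 : ℝ) ≤ ((k : ℝ) + T - 1) * T *
        ((((A.powersetCard T).filter (fun K => c ≤ ∑ i ∈ K, x i ∧
        ∑ i ∈ K, x i < ∑ i ∈ A, x i)).card : ℕ) : ℝ) := by
      apply mul_nonneg
      · apply mul_nonneg <;> linarith
      · exact Nat.cast_nonneg _
    have h4 : (0 : ℝ) ≤ k * T * ((((A.powersetCard T).filter (fun K => ∑ i ∈ K, x i = c ∧
        c < ∑ i ∈ A, x i)).card : ℕ) : ℝ) := by
      apply mul_nonneg
      · apply mul_nonneg <;> linarith
      · exact Nat.cast_nonneg _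
    linarith
  · rw [not_le] at hs
    have hcs : c < ∑ i ∈ A, x i := by
      by_contra hcon
      rw [not_lt] at hcon
      have h1 : (T : ℝ) * ∑ i ∈ A, x i ≤ T * c := mul_le_mul_of_nonneg_left hcon (by linarith)
      nlinarith [mul_nonneg hc (by linarith : (0 : ℝ) ≤ k)]
    have e1 : (A.powersetCard T).filter (fun K => ∑ i ∈ K, x i = c ∧ c < ∑ i ∈ A, x i) =
        (A.powersetCard T).filter (fun K => ∑ i ∈ K, x i = c) := by
      apply filter_congr
      intro K _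
      exact ⟨fun h => h.1, fun h => ⟨h, hcs⟩⟩
    rw [e1]
    set F1 := (A.powersetCard T).filter (fun K => ∑ i ∈ K, x i < c) with hF1
    set F2 := (A.powersetCard T).filter (fun K => c ≤ ∑ i ∈ K, x i ∧
        ∑ i ∈ K, x i < ∑ i ∈ A, x i) with hF2
    set F3 := (A.powersetCard T).filter (fun K => ∑ i ∈ K, x i = c) with hF3
    have key : ∀ p ∈ A.offDiag, φ * ((k + T).choose T : ℝ) ≤ (((F1.card +
        (F2.filter (fun K => p.1 ∈ K)).card) +
        (F3.filter (fun K => p.1 ∉ K ∧ p.2 ∈ K)).card : ℕ) : ℝ) := by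
      intro p hp
      obtain ⟨h1, h2, h3⟩ := mem_offDiag.1 hp
      have h4 := RS_case2 k T φ c hT hc hW A x hA hinj p.1 p.2 h1 h2 h3
      push_cast
      exact h4
    have hsum := Finset.sum_le_sum key
    have hoff : (A.offDiag.card : ℝ) = ((k : ℝ) + T) * (k + T - 1) := by
      rw [offDiag_card, hA, Nat.cast_sub (Nat.le_mul_self _)]
      push_cast
      ring
    rw [sum_const, nsmul_eq_mul, ← Nat.cast_sum, sum_add_distrib, sum_add_distrib, sum_const,
      smul_eq_mul] at hsum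
    have c2 : ∑ p ∈ A.offDiag, (F2.filter (fun K => p.1 ∈ K)).card =
        (T * (k + T) - T) * F2.card := by
      apply RS_count A.offDiag F2 (fun p K => p.1 ∈ K)
      intro K hK
      obtain ⟨hK1, hK2⟩ := mem_powersetCard.1 (mem_filter.1 hK).1
      have h5 := RS_off1 A K hK1
      rw [hK2, hA] at h5
      omega
    have c3 : ∑ p ∈ A.offDiag, (F3.filter (fun K => p.1 ∉ K ∧ p.2 ∈ K)).card =
        (k * T) * F3.card := by
      apply RS_count A.offDiag F3 (fun p K => p.1 ∉ K ∧ p.2 ∈ K)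
      intro K hK
      obtain ⟨hK1, hK2⟩ := mem_powersetCard.1 (mem_filter.1 hK).1
      rw [RS_off2 A K hK1, card_sdiff_of_subset hK1, hK2, hA, Nat.add_sub_cancel]
    rw [c2, c3] at hsum
    have c4 : ((T * (k + T) - T : ℕ) : ℝ) = ((k : ℝ) + T - 1) * T := by
      rw [Nat.cast_sub (Nat.le_mul_of_pos_right _ (by omega))]
      push_cast
      ring
    push_cast at hsum
    rw [hoff] at hsum
    have c5 : ((T * (k + T) - T : ℕ) : ℝ) = (T : ℝ) * (k + T) - T := by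
      rw [c4]; ring
    rw [c5] at hsum
    linarith

/-! ### zero sums -/

theorem RS_zinj {ι : Type} [DecidableEq ι] (C : Finset ι) (x : ι → ℝ) (k : ℕ) (c : ℝ)
    (hx : Set.InjOn x C) :
    k * ((C.powersetCard k).filter (fun B => ∑ i ∈ B, x i = c)).card ≤
      C.card.choose (k - 1) := by
  have h1 : (((C.powersetCard k).filter (fun B => ∑ i ∈ B, x i = c)).sigma
      (fun B => B)).card = k * ((C.powersetCard k).filter (fun B => ∑ i ∈ B, x i = c)).card := by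
    rw [card_sigma, mul_comm, ← smul_eq_mul, ← sum_const]
    apply sum_congr rfl
    intro B hB
    exact (mem_powersetCard.1 (mem_filter.1 hB).1).2
  rw [← h1, ← card_powersetCard]
  refine card_le_card_of_injOn (fun p => p.1.erase p.2) ?_ ?_
  · rintro ⟨B, i⟩ hp
    obtain ⟨h2, h3⟩ := mem_sigma.1 (mem_coe.1 hp)
    obtain ⟨h4, -⟩ := mem_filter.1 h2
    obtain ⟨h5, h6⟩ := mem_powersetCard.1 h4
    apply mem_coe.2
    apply mem_powersetCard.2
    refine ⟨(erase_subset _ _).trans h5, ?_⟩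
    change (B.erase i).card = k - 1
    rw [card_erase_of_mem h3, h6]
  · rintro ⟨B, i⟩ hp ⟨B', i'⟩ hp' h
    obtain ⟨h2, h3⟩ := mem_sigma.1 (mem_coe.1 hp)
    obtain ⟨h4, h5⟩ := mem_filter.1 h2
    obtain ⟨h2', h3'⟩ := mem_sigma.1 (mem_coe.1 hp')
    obtain ⟨h4', h5'⟩ := mem_filter.1 h2'
    have hs := (mem_powersetCard.1 h4).1
    have hs' := (mem_powersetCard.1 h4').1
    change B.erase i = B'.erase i' at h
    have e1 : ∑ j ∈ B.erase i, x j + x i = c := by
      rw [sum_erase_add B x h3]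
      exact h5
    have e2 : ∑ j ∈ B'.erase i', x j + x i' = c := by
      rw [sum_erase_add B' x h3']
      exact h5'
    rw [h] at e1
    have e3 : x i = x i' := by linarith
    have e4 : i = i' := hx (hs h3) (hs' h3') e3
    subst e4
    have e5 : B = B' := by
      have a1 : insert i (B.erase i) = B := insert_erase h3
      have a2 : insert i (B'.erase i) = B' := insert_erase h3'
      rw [← a1, ← a2, h]
    subst e5
    rfl

/-- the pairs with total zero -/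
noncomputable def RS_Z0 {ι : Type} [DecidableEq ι] (C : Finset ι) (x : ι → ℝ) (k : ℕ) : ℕ :=
  ((MP_9999b5_mr.prs C k).filter (fun p => ∑ i ∈ p.1, x i + ∑ i ∈ p.2, x i = 0)).card

theorem RS_zero {ι : Type} [DecidableEq ι] (C : Finset ι) (x : ι → ℝ) (k T : ℕ) (hT : 1 ≤ T)
    (hC : C.card = 2 * k + T) (hinj : Set.InjOn x C) :
    (2 * k + 1) * RS_Z0 C x k ≤ (MP_9999b5_mr.prs C k).card := by
  have h1 := MP_9999b5_mr.p_PAI ι C k
    (fun A B => if ∑ i ∈ A, x i + ∑ i ∈ B, x i = 0 then 1 else 0)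
  have h2 : RS_Z0 C x k = (2 * k).choose k *
      ((C.powersetCard (2 * k)).filter (fun U => ∑ i ∈ U, x i = 0)).card := by
    unfold RS_Z0
    rw [card_filter, h1, card_filter, mul_sum]
    apply sum_congr rfl
    intro U hU
    have hU2 := (mem_powersetCard.1 hU).2
    have h3 : ∀ B ∈ U.powersetCard k,
        (if ∑ i ∈ B, x i + ∑ i ∈ U \ B, x i = 0 then 1 else 0) =
        (if ∑ i ∈ U, x i = 0 then 1 else 0) := by
      intro B hB
      have h4 : ∑ i ∈ U \ B, x i + ∑ i ∈ B, x i = ∑ i ∈ U, x i :=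
        sum_sdiff (mem_powersetCard.1 hB).1
      rw [add_comm, h4]
    rw [sum_congr rfl h3, sum_const, card_powersetCard, hU2, smul_eq_mul]
  have h3 := (MP_9999b5_mr.p_PAC MP_9999b5_mr.p_PAI ι C x k).1
  rw [h2, h3, hC]
  have h4 := EX2_comp C (2 * k) T hC (fun K => ∑ i ∈ K, x i = ∑ i ∈ C, x i)
  have h5 : (C.powersetCard (2 * k)).filter (fun B => ∑ i ∈ C \ B, x i = ∑ i ∈ C, x i) =
      (C.powersetCard (2 * k)).filter (fun U => ∑ i ∈ U, x i = 0) := by
    apply filter_congr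
    intro B hB
    have h6 : ∑ i ∈ C \ B, x i + ∑ i ∈ B, x i = ∑ i ∈ C, x i :=
      sum_sdiff (mem_powersetCard.1 hB).1
    constructor
    · intro h; linarith
    · intro h; linarith
  rw [h5] at h4
  have h6 := RS_zinj C x T (∑ i ∈ C, x i) hinj
  rw [h4] at h6
  obtain ⟨y, hy⟩ : ∃ y, y = ((C.powersetCard (2 * k)).filter (fun U => ∑ i ∈ U, x i = 0)).card :=
    ⟨_, rfl⟩
  rw [← hy] at h6 ⊢
  have h7 : (2 * k + 1) * C.card.choose (T - 1) = T * C.card.choose T := by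
    obtain ⟨j, hj⟩ : ∃ j, T = j + 1 := ⟨T - 1, by omega⟩
    have h := Nat.choose_succ_right_eq C.card j
    have e1 : C.card - j = 2 * k + 1 := by omega
    rw [e1, ← hj] at h
    have e2 : T - 1 = j := by omega
    rw [e2]
    rw [mul_comm (2 * k + 1), ← h, mul_comm]
  have h8 : (2 * k + 1) * y ≤ C.card.choose T := by
    apply Nat.le_of_mul_le_mul_left _ (show 0 < T by omega)
    calc T * ((2 * k + 1) * y) = (2 * k + 1) * (T * y) := by ring
      _ ≤ (2 * k + 1) * C.card.choose (T - 1) := Nat.mul_le_mul_left _ h6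
      _ = T * C.card.choose T := h7
  have h9 : C.card.choose T = (2 * k + T).choose (2 * k) := by
    rw [hC]
    exact (Nat.choose_symm_add (a := 2 * k) (b := T)).symm
  rw [h9] at h8
  calc (2 * k + 1) * ((2 * k).choose k * y) = (2 * k).choose k * ((2 * k + 1) * y) := by ring
    _ ≤ (2 * k).choose k * (2 * k + T).choose (2 * k) := Nat.mul_le_mul_left _ h8

/-! ### the flow -/

/-- the pairs: first sum positive, second `≤ 0`, total `≤ 0` -/
noncomputable def RS_M {ι : Type} [DecidableEq ι] (C : Finset ι) (x : ι → ℝ) (k : ℕ) : ℕ :=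
  ((MP_9999b5_mr.prs C k).filter (fun p => 0 < ∑ i ∈ p.1, x i ∧ ∑ i ∈ p.2, x i ≤ 0 ∧
    ∑ i ∈ p.1, x i + ∑ i ∈ p.2, x i ≤ 0)).card

/-- the pairs with second sum negative, total zero -/
noncomputable def RS_Z {ι : Type} [DecidableEq ι] (C : Finset ι) (x : ι → ℝ) (k : ℕ) : ℕ :=
  ((MP_9999b5_mr.prs C k).filter (fun p => ∑ i ∈ p.2, x i < 0 ∧
    ∑ i ∈ p.1, x i + ∑ i ∈ p.2, x i = 0)).card

theorem RS_M2 {ι : Type} [DecidableEq ι] (C : Finset ι) (x : ι → ℝ) (k : ℕ) :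
    2 * RS_M C x k + MP_9999b5_mr.bad C x k = MP_9999b5_mr.hvy C x k := by
  have hsw : ((MP_9999b5_mr.prs C k).filter (fun p => ∑ i ∈ p.1, x i ≤ 0 ∧ 0 < ∑ i ∈ p.2, x i ∧
      ∑ i ∈ p.1, x i + ∑ i ∈ p.2, x i ≤ 0)).card = RS_M C x k := by
    unfold RS_M
    refine card_nbij' Prod.swap Prod.swap ?_ ?_ ?_ ?_
    · intro p hp
      obtain ⟨h1, h2, h3, h4⟩ := mem_filter.1 (mem_coe.1 hp)
      obtain ⟨a1, a2, a3, a4, a5⟩ := EXG_prs.1 h1
      refine mem_coe.2 (mem_filter.2 ⟨EXG_prs.2 ⟨a3, a4, a1, a2, a5.symm⟩, h3, h2, ?_⟩)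
      rw [add_comm]
      exact h4
    · intro p hp
      obtain ⟨h1, h2, h3, h4⟩ := mem_filter.1 (mem_coe.1 hp)
      obtain ⟨a1, a2, a3, a4, a5⟩ := EXG_prs.1 h1
      refine mem_coe.2 (mem_filter.2 ⟨EXG_prs.2 ⟨a3, a4, a1, a2, a5.symm⟩, h3, h2, ?_⟩)
      rw [add_comm]
      exact h4
    · intro p _
      exact Prod.swap_swap p
    · intro p _
      exact Prod.swap_swap p
  have h1 : MP_9999b5_mr.hvy C x k =
      MP_9999b5_mr.bad C x k + (RS_M C x k + RS_M C x k) := by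
    nth_rewrite 2 [← hsw]
    unfold MP_9999b5_mr.hvy MP_9999b5_mr.bad RS_M
    rw [← card_union_of_disjoint, ← card_union_of_disjoint]
    · congr 1
      ext p
      simp only [mem_union, mem_filter]
      constructor
      · rintro ⟨hp, h⟩
        rcases lt_or_ge 0 (∑ i ∈ p.1, x i) with ha | ha
        · exact Or.inr (Or.inl ⟨hp, ha, by linarith, h⟩)
        · rcases lt_or_ge 0 (∑ i ∈ p.2, x i) with hb | hb
          · exact Or.inr (Or.inr ⟨hp, ha, hb, h⟩)
          · exact Or.inl ⟨hp, ha, hb⟩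
      · rintro (⟨hp, h, h'⟩ | ⟨hp, _, _, h⟩ | ⟨hp, _, _, h⟩)
        · exact ⟨hp, by linarith⟩
        · exact ⟨hp, h⟩
        · exact ⟨hp, h⟩
    · rw [disjoint_union_right]
      constructor
      · rw [disjoint_filter]
        rintro p _ ⟨h, _⟩ ⟨h', _⟩
        linarith
      · rw [disjoint_filter]
        rintro p _ ⟨_, h⟩ ⟨_, h', _⟩
        linarith
    · rw [disjoint_filter]
      rintro p _ ⟨h, _⟩ ⟨h', _⟩
      linarith
  omega

theorem RS_Z2 {ι : Type} [DecidableEq ι] (C : Finset ι) (x : ι → ℝ) (k : ℕ) :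
    2 * RS_Z C x k ≤ RS_Z0 C x k := by
  have hsw : ((MP_9999b5_mr.prs C k).filter (fun p => ∑ i ∈ p.1, x i < 0 ∧
      ∑ i ∈ p.1, x i + ∑ i ∈ p.2, x i = 0)).card = RS_Z C x k := by
    unfold RS_Z
    refine card_nbij' Prod.swap Prod.swap ?_ ?_ ?_ ?_
    · intro p hp
      obtain ⟨h1, h2, h4⟩ := mem_filter.1 (mem_coe.1 hp)
      obtain ⟨a1, a2, a3, a4, a5⟩ := EXG_prs.1 h1
      refine mem_coe.2 (mem_filter.2 ⟨EXG_prs.2 ⟨a3, a4, a1, a2, a5.symm⟩, h2, ?_⟩)
      rw [add_comm]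
      exact h4
    · intro p hp
      obtain ⟨h1, h2, h4⟩ := mem_filter.1 (mem_coe.1 hp)
      obtain ⟨a1, a2, a3, a4, a5⟩ := EXG_prs.1 h1
      refine mem_coe.2 (mem_filter.2 ⟨EXG_prs.2 ⟨a3, a4, a1, a2, a5.symm⟩, h2, ?_⟩)
      rw [add_comm]
      exact h4
    · intro p _
      exact Prod.swap_swap p
    · intro p _
      exact Prod.swap_swap p
  have h1 : RS_Z C x k + RS_Z C x k ≤ RS_Z0 C x k := by
    nth_rewrite 1 [← hsw]
    unfold RS_Z RS_Z0
    rw [← card_union_of_disjoint]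
    · apply card_le_card
      intro p hp
      rcases mem_union.1 hp with h | h
      · obtain ⟨a, _, b⟩ := mem_filter.1 h
        exact mem_filter.2 ⟨a, b⟩
      · obtain ⟨a, _, b⟩ := mem_filter.1 h
        exact mem_filter.2 ⟨a, b⟩
    · rw [disjoint_filter]
      rintro p _ ⟨h, h'⟩ ⟨h'', _⟩
      linarith
  omega

theorem RS_main {ι : Type} [DecidableEq ι] (k T : ℕ) (φ : ℝ) (hk : 1 ≤ k) (hT : 1 ≤ T)
    (hW : Pool.Agent.Work.MaxSums.W T (k + T) φ) (C : Finset ι) (x : ι → ℝ)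
    (hC : C.card = 2 * k + T) (hinj : Set.InjOn x C) (hc : 0 ≤ ∑ i ∈ C, x i) :
    ((k : ℝ) + T) * (k + T - 1) * (φ * (EX2_L C x k : ℝ)) ≤
      ((k : ℝ) + T) * (k + T - 1) * ((EXG_N C x k).card : ℝ) +
      ((k : ℝ) + T - 1) * T * (RS_M C x k : ℝ) + k * T * (RS_Z C x k : ℝ) := by
  have hL : (EX2_L C x k : ℝ) = ∑ B ∈ C.powersetCard k,
      ((((C \ B).powersetCard k).filter (fun _ => ∑ i ∈ B, x i ≤ 0)).card : ℝ) := by
    unfold EX2_L
    rw [EX2_fib C k (fun _ B => ∑ i ∈ B, x i ≤ 0), Nat.cast_sum]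
  have hN : ((EXG_N C x k).card : ℝ) = ∑ B ∈ C.powersetCard k,
      ((((C \ B).powersetCard k).filter (fun A => 0 < ∑ i ∈ A, x i ∧ ∑ i ∈ B, x i ≤ 0 ∧
        0 < ∑ i ∈ A, x i + ∑ i ∈ B, x i)).card : ℝ) := by
    unfold EXG_N
    rw [EX2_fib C k (fun A B => 0 < ∑ i ∈ A, x i ∧ ∑ i ∈ B, x i ≤ 0 ∧
        0 < ∑ i ∈ A, x i + ∑ i ∈ B, x i), Nat.cast_sum]
  have hM : (RS_M C x k : ℝ) = ∑ B ∈ C.powersetCard k,
      ((((C \ B).powersetCard k).filter (fun A => 0 < ∑ i ∈ A, x i ∧ ∑ i ∈ B, x i ≤ 0 ∧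
        ∑ i ∈ A, x i + ∑ i ∈ B, x i ≤ 0)).card : ℝ) := by
    unfold RS_M
    rw [EX2_fib C k (fun A B => 0 < ∑ i ∈ A, x i ∧ ∑ i ∈ B, x i ≤ 0 ∧
        ∑ i ∈ A, x i + ∑ i ∈ B, x i ≤ 0), Nat.cast_sum]
  have hZ : (RS_Z C x k : ℝ) = ∑ B ∈ C.powersetCard k,
      ((((C \ B).powersetCard k).filter (fun A => ∑ i ∈ B, x i < 0 ∧
        ∑ i ∈ A, x i + ∑ i ∈ B, x i = 0)).card : ℝ) := by
    unfold RS_Z
    rw [EX2_fib C k (fun A B => ∑ i ∈ B, x i < 0 ∧
        ∑ i ∈ A, x i + ∑ i ∈ B, x i = 0), Nat.cast_sum]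
  rw [hL, hN, hM, hZ, Finset.mul_sum, Finset.mul_sum, Finset.mul_sum, Finset.mul_sum,
    Finset.mul_sum, ← Finset.sum_add_distrib, ← Finset.sum_add_distrib]
  refine Finset.sum_le_sum ?_
  intro B hB
  obtain ⟨hB1, hB2⟩ := mem_powersetCard.1 hB
  by_cases hb : ∑ i ∈ B, x i ≤ 0
  · have hA : (C \ B).card = k + T := by
      rw [card_sdiff_of_subset hB1]
      omega
    have sC : ∑ i ∈ C \ B, x i + ∑ i ∈ B, x i = ∑ i ∈ C, x i := sum_sdiff hB1
    have h1 := RS_shift k T φ (∑ i ∈ C, x i) hT hk hc hW (C \ B) x hA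
      (hinj.mono (by exact_mod_cast sdiff_subset))
    rw [EX2_comp (C \ B) k T hA (fun K => ∑ i ∈ K, x i < ∑ i ∈ C, x i),
      EX2_comp (C \ B) k T hA (fun K => ∑ i ∈ C, x i ≤ ∑ i ∈ K, x i ∧
        ∑ i ∈ K, x i < ∑ i ∈ C \ B, x i),
      EX2_comp (C \ B) k T hA (fun K => ∑ i ∈ K, x i = ∑ i ∈ C, x i ∧
        ∑ i ∈ C, x i < ∑ i ∈ C \ B, x i)] at h1
    have e1 : (((C \ B).powersetCard k).filter (fun _ => ∑ i ∈ B, x i ≤ 0)).card =
        (k + T).choose T := by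
      rw [filter_true_of_mem (fun _ _ => hb), card_powersetCard, hA]
      rw [Nat.choose_symm_add]
    have e2 : ((C \ B).powersetCard k).filter (fun A => 0 < ∑ i ∈ A, x i ∧ ∑ i ∈ B, x i ≤ 0 ∧
        0 < ∑ i ∈ A, x i + ∑ i ∈ B, x i) =
        ((C \ B).powersetCard k).filter (fun A => ∑ i ∈ (C \ B) \ A, x i < ∑ i ∈ C, x i) := by
      apply filter_congr
      intro A hA'
      have sD : ∑ i ∈ (C \ B) \ A, x i + ∑ i ∈ A, x i = ∑ i ∈ C \ B, x i :=
        sum_sdiff (mem_powersetCard.1 hA').1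
      constructor
      · intro h
        linarith [h.2.2]
      · intro h
        exact ⟨by linarith, hb, by linarith⟩
    have e3 : ((C \ B).powersetCard k).filter (fun A => 0 < ∑ i ∈ A, x i ∧ ∑ i ∈ B, x i ≤ 0 ∧
        ∑ i ∈ A, x i + ∑ i ∈ B, x i ≤ 0) =
        ((C \ B).powersetCard k).filter
          (fun A => ∑ i ∈ C, x i ≤ ∑ i ∈ (C \ B) \ A, x i ∧
            ∑ i ∈ (C \ B) \ A, x i < ∑ i ∈ C \ B, x i) := by
      apply filter_congr
      intro A hA'
      have sD : ∑ i ∈ (C \ B) \ A, x i + ∑ i ∈ A, x i = ∑ i ∈ C \ B, x i :=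
        sum_sdiff (mem_powersetCard.1 hA').1
      constructor
      · rintro ⟨h, _, h'⟩
        exact ⟨by linarith, by linarith⟩
      · rintro ⟨h, h'⟩
        exact ⟨by linarith, hb, by linarith⟩
    have e4 : ((C \ B).powersetCard k).filter (fun A => ∑ i ∈ B, x i < 0 ∧
        ∑ i ∈ A, x i + ∑ i ∈ B, x i = 0) =
        ((C \ B).powersetCard k).filter
          (fun A => ∑ i ∈ (C \ B) \ A, x i = ∑ i ∈ C, x i ∧
            ∑ i ∈ C, x i < ∑ i ∈ C \ B, x i) := by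
      apply filter_congr
      intro A hA'
      have sD : ∑ i ∈ (C \ B) \ A, x i + ∑ i ∈ A, x i = ∑ i ∈ C \ B, x i :=
        sum_sdiff (mem_powersetCard.1 hA').1
      constructor
      · rintro ⟨h, h'⟩
        exact ⟨by linarith, by linarith⟩
      · rintro ⟨h, h'⟩
        exact ⟨by linarith, by linarith⟩
    rw [e1, e2, e3, e4]
    exact h1
  · have e1 : ((C \ B).powersetCard k).filter (fun _ => ∑ i ∈ B, x i ≤ 0) = ∅ :=
      filter_false_of_mem (fun _ _ => hb)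
    have hT0 : (1 : ℝ) ≤ T := by exact_mod_cast hT
    have hk0 : (1 : ℝ) ≤ k := by exact_mod_cast hk
    rw [e1, card_empty]
    have a1 : (0 : ℝ) ≤ ((k : ℝ) + T) * (k + T - 1) := by
      apply mul_nonneg <;> linarith
    have a2 : (0 : ℝ) ≤ ((k : ℝ) + T - 1) * T := by
      apply mul_nonneg <;> linarith
    have a3 : (0 : ℝ) ≤ (k : ℝ) * T := by positivity
    have b1 := mul_nonneg a1 (Nat.cast_nonneg (α := ℝ) ((((C \ B).powersetCard k).filter (fun A =>
      0 < ∑ i ∈ A, x i ∧ ∑ i ∈ B, x i ≤ 0 ∧ 0 < ∑ i ∈ A, x i + ∑ i ∈ B, x i)).card))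
    have b2 := mul_nonneg a2 (Nat.cast_nonneg (α := ℝ) ((((C \ B).powersetCard k).filter (fun A =>
      0 < ∑ i ∈ A, x i ∧ ∑ i ∈ B, x i ≤ 0 ∧ ∑ i ∈ A, x i + ∑ i ∈ B, x i ≤ 0)).card))
    have b3 := mul_nonneg a3 (Nat.cast_nonneg (α := ℝ) ((((C \ B).powersetCard k).filter (fun A =>
      ∑ i ∈ B, x i < 0 ∧ ∑ i ∈ A, x i + ∑ i ∈ B, x i = 0)).card))
    simp only [Nat.cast_zero, mul_zero]
    linarith

theorem p_RS : Stmt_RS := by
  intro k T φ hk hT hW ι _ C x hC hinj hc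
  have h1 := RS_main k T φ hk hT hW C x hC hinj hc
  have h2 : 2 * (EX2_L C x k : ℝ) + (pp C x k : ℝ) =
      ((MP_9999b5_mr.prs C k).card : ℝ) + (MP_9999b5_mr.bad C x k : ℝ) := by
    exact_mod_cast EX2_two C x k
  have h3 : 2 * ((EXG_N C x k).card : ℝ) + (pp C x k : ℝ) + (MP_9999b5_mr.hvy C x k : ℝ) =
      ((MP_9999b5_mr.prs C k).card : ℝ) := by
    exact_mod_cast EXG_count C x k
  have h4 : 2 * (RS_M C x k : ℝ) + (MP_9999b5_mr.bad C x k : ℝ) =
      (MP_9999b5_mr.hvy C x k : ℝ) := by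
    exact_mod_cast RS_M2 C x k
  have h5 : (2 * (k : ℝ) + 1) * (2 * (RS_Z C x k : ℝ)) ≤ ((MP_9999b5_mr.prs C k).card : ℝ) := by
    have h6 : (2 * k + 1) * (2 * RS_Z C x k) ≤ (MP_9999b5_mr.prs C k).card :=
      (Nat.mul_le_mul_left _ (RS_Z2 C x k)).trans (RS_zero C x k T hT hC hinj)
    exact_mod_cast h6
  have e1 : ((MP_9999b5_mr.prs C k).card : ℝ) + (MP_9999b5_mr.bad C x k : ℝ) - (pp C x k : ℝ) =
      2 * (EX2_L C x k : ℝ) := by linarith
  have e2 : ((MP_9999b5_mr.prs C k).card : ℝ) - (MP_9999b5_mr.hvy C x k : ℝ) -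
      (pp C x k : ℝ) = 2 * ((EXG_N C x k).card : ℝ) := by linarith
  have e3 : (MP_9999b5_mr.hvy C x k : ℝ) - (MP_9999b5_mr.bad C x k : ℝ) =
      2 * (RS_M C x k : ℝ) := by linarith
  rw [e1, e2, e3]
  have hkT : (0 : ℝ) ≤ (k : ℝ) * T := by positivity
  have h6 := mul_le_mul_of_nonneg_left h5 hkT
  have h7 : (0 : ℝ) ≤ 2 * (2 * (k : ℝ) + 1) := by positivity
  have h8 := mul_le_mul_of_nonneg_left h1 h7
  calc ((k : ℝ) + T - 1) * (2 * k + 1) * (φ * (k + T) * (2 * (EX2_L C x k : ℝ)))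
      = 2 * (2 * (k : ℝ) + 1) * (((k : ℝ) + T) * (k + T - 1) * (φ * (EX2_L C x k : ℝ))) := by ring
    _ ≤ _ := h8
    _ = ((k : ℝ) + T - 1) * (2 * k + 1) * ((k + T) * (2 * ((EXG_N C x k).card : ℝ)) +
      T * (2 * (RS_M C x k : ℝ))) + k * T * ((2 * (k : ℝ) + 1) * (2 * (RS_Z C x k : ℝ))) := by ring
    _ ≤ _ := by linarith

end Pool.Agent.Work.MP_9999b5_sp
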