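import Mathlib

/-! Scalar part of the proof of the Manickam, Miklos and Singhi conjecture
(`MP_9999b5_co`): Steps 1, 2, 3 in the variables `t = T / k`, `q = P(NN)`,
`h = P(K heavy)`, `g` (lower bound for the fraction of light `T`-subsets). -/

namespace Pool.Agent.Work.MP_9999b5_sp.Scal9

/-- Comparison at the corner `(q1, h1)`. -/
theorem corner {t q h q1 h1 : ℝ} (ht0 : 0 < t) (hq1 : q ≤ 1) (hqh : q ≤ h)
    (hh1 : h ≤ 1) (hq10 : 0 ≤ q1) (hlt : q1 < q) (hle : h ≤ h1)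
    (sp : 4 * (1 + t) * q ^ 2 * (1 - h) ≤ t * h * (1 - q) * (2 + t - t * q))
    (hc : t * h1 * (1 - q1) * (2 + t - t * q1) < 4 * (1 + t) * q1 ^ 2 * (1 - h1)) : False := by
  have hq0 : 0 < q := lt_of_le_of_lt hq10 hlt
  have hh0 : 0 < h := lt_of_lt_of_le hq0 hqh
  have hh1' : 0 < h1 := lt_of_lt_of_le hh0 hle
  have e1 : q1 ^ 2 ≤ q ^ 2 := by nlinarith
  have hr : 0 ≤ 1 - h := by linarith
  have htq : 0 ≤ t * q := by positivity
  have htq1 : 0 ≤ t * q1 := by positivity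
  have htqt : t * q ≤ t := by nlinarith
  -- left sides
  have l1 : 4 * (1 + t) * q1 ^ 2 * (1 - h1) ≤ 4 * (1 + t) * q ^ 2 * (1 - h) := by
    have a1 : 4 * (1 + t) * q1 ^ 2 * (1 - h1) ≤ 4 * (1 + t) * q1 ^ 2 * (1 - h) := by
      apply mul_le_mul_of_nonneg_left (by linarith) (by positivity)
    have a2 : 4 * (1 + t) * q1 ^ 2 * (1 - h) ≤ 4 * (1 + t) * q ^ 2 * (1 - h) := by
      apply mul_le_mul_of_nonneg_right _ hr
      apply mul_le_mul_of_nonneg_left e1 (by positivity)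
    linarith
  -- right sides
  have r1 : t * h * (1 - q) * (2 + t - t * q) ≤ t * h1 * (1 - q1) * (2 + t - t * q1) := by
    have b1 : t * h * (1 - q) ≤ t * h1 * (1 - q1) := by
      apply mul_le_mul _ (by linarith) (by linarith) (by positivity)
      exact mul_le_mul_of_nonneg_left hle ht0.le
    apply mul_le_mul b1 _ (by nlinarith) _
    · nlinarith
    · apply mul_nonneg (by positivity) (by linarith)
  linarith

/-- Step 1, `t ≤ 1/3`. -/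
theorem step1a {t q h g : ℝ} (ht0 : 0 < t) (hq1 : q ≤ 1) (hqh : q ≤ h)
    (hh1 : h ≤ 1) (hg : t ≤ (1 + t) * g)
    (sp : 4 * (1 + t) * q ^ 2 * (1 - h) ≤ t * h * (1 - q) * (2 + t - t * q))
    (rf : h + (t + (1 + t) * g) * q ≤ (1 + t) * (1 - g)) : q ≤ 1 / 2 := by
  by_contra hcon
  have hlt : (1 : ℝ) / 2 < q := lt_of_not_ge hcon
  have hle : h ≤ 1 - t := by nlinarith
  refine corner (q1 := 1 / 2) (h1 := 1 - t) ht0 hq1 hqh hh1 (by norm_num) hlt hle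
    sp ?_
  nlinarith [mul_pos ht0 ht0, mul_pos (mul_pos ht0 ht0) ht0]

/-- Step 1, `t > 1/3`. -/
theorem step1b {t q h g : ℝ} (ht0 : 1 / 3 ≤ t) (ht1 : t ≤ 1) (hq1 : q ≤ 1) (hqh : q ≤ h)
    (hh1 : h ≤ 1)
    (hg : (t ≤ 3 / 7 ∧ 9 / 50 ≤ g) ∨ (t ≤ 1 / 2 ∧ 1 / 5 ≤ g) ∨ (t ≤ 3 / 4 ∧ 11 / 50 ≤ g) ∨
      1 / 4 ≤ g)
    (sp : 4 * (1 + t) * q ^ 2 * (1 - h) ≤ t * h * (1 - q) * (2 + t - t * q))
    (rf : h + (t + (1 + t) * g) * q ≤ (1 + t) * (1 - g)) : q ≤ 14 / 25 := by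
  by_contra hcon
  have hlt : (14 : ℝ) / 25 < q := lt_of_not_ge hcon
  have key : ∀ g0 : ℝ, 0 ≤ g0 → g0 ≤ g →
      h ≤ (1 + t) * (1 - g0) - (t + (1 + t) * g0) * (14 / 25) := by
    intro g0 hg0 hgg
    have h1 : (1 + t) * g0 ≤ (1 + t) * g := mul_le_mul_of_nonneg_left hgg (by linarith)
    have h2 : 0 ≤ (1 + t) * g0 := mul_nonneg (by linarith) hg0
    have h3 : (t + (1 + t) * g0) * (14 / 25) ≤ (t + (1 + t) * g) * q := by
      apply mul_le_mul (by linarith) hlt.le (by norm_num)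
      nlinarith
    nlinarith
  rcases hg with ⟨ht, hg⟩ | ⟨ht, hg⟩ | ⟨ht, hg⟩ | hg
  · refine corner (q1 := 14 / 25) (by linarith) hq1 hqh hh1 (by norm_num) hlt
      (key (9 / 50) (by norm_num) hg) sp ?_
    nlinarith [mul_nonneg (sub_nonneg.2 ht0) (sub_nonneg.2 ht),
      mul_nonneg (sub_nonneg.2 ht0) (mul_nonneg (sub_nonneg.2 ht0) (sub_nonneg.2 ht))]
  · refine corner (q1 := 14 / 25) (by linarith) hq1 hqh hh1 (by norm_num) hlt
      (key (1 / 5) (by norm_num) hg) sp ?_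
    nlinarith [mul_nonneg (sub_nonneg.2 ht0) (sub_nonneg.2 ht),
      mul_nonneg (sub_nonneg.2 ht0) (mul_nonneg (sub_nonneg.2 ht0) (sub_nonneg.2 ht))]
  · refine corner (q1 := 14 / 25) (by linarith) hq1 hqh hh1 (by norm_num) hlt
      (key (11 / 50) (by norm_num) hg) sp ?_
    nlinarith [mul_nonneg (sub_nonneg.2 ht0) (sub_nonneg.2 ht),
      mul_nonneg (sub_nonneg.2 ht0) (mul_nonneg (sub_nonneg.2 ht0) (sub_nonneg.2 ht))]
  · refine corner (q1 := 14 / 25) (by linarith) hq1 hqh hh1 (by norm_num) hlt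
      (key (1 / 4) (by norm_num) hg) sp ?_
    nlinarith [mul_nonneg (sub_nonneg.2 ht0) (sub_nonneg.2 ht1),
      mul_nonneg (sub_nonneg.2 ht0) (mul_nonneg (sub_nonneg.2 ht0) (sub_nonneg.2 ht1))]

/-- Step 2 (QL), general form: it is enough that the concave quadratic is nonnegative. -/
theorem ql_of {t q h L : ℝ} (ht0 : 0 < t) (hq0 : 0 ≤ q) (hq1 : q ≤ 1)
    (hqh : q ≤ h) (hL : 0 ≤ L)
    (sp : 4 * (1 + t) * q ^ 2 * (1 - h) ≤ t * h * (1 - q) * (2 + t - t * q))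
    (hQ : t < (2 + t) * q →
      4 * (1 + t) * q ^ 2 + (1 - q) * t * (2 + t - t * q) ≤ L * (2 + t) ^ 2 * (q * (1 - q))) :
    (2 + t) * q - t ≤ L * ((2 + t) * (h - q)) := by
  rcases le_or_gt ((2 + t) * q) t with hc | hc
  · have h1 : 0 ≤ L * ((2 + t) * (h - q)) :=
      mul_nonneg hL (mul_nonneg (by linarith) (by linarith))
    linarith
  · have hq := hQ hc
    have hqpos : 0 < q := by
      rcases hq0.eq_or_lt with h0 | h0
      · rw [← h0] at hc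
        simp only [mul_zero] at hc
        linarith
      · exact h0
    -- D = 4(1+t) q^2 + (1-q) t (2+t-tq) > 0, and h D ≥ 4 (1+t) q^2
    obtain ⟨D, hD⟩ : ∃ D : ℝ, D = 4 * (1 + t) * q ^ 2 + (1 - q) * t * (2 + t - t * q) := ⟨_, rfl⟩
    rw [← hD] at hq
    have hS : 0 ≤ (1 - q) * t * (2 + t - t * q) := by
      apply mul_nonneg (mul_nonneg (by linarith) ht0.le)
      nlinarith
    have hDpos : 0 < D := by
      have : 0 < 4 * (1 + t) * q ^ 2 := by positivity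
      linarith
    have hhD : 4 * (1 + t) * q ^ 2 ≤ h * D := by
      rw [hD]; nlinarith
    -- (h - q) D ≥ q (1-q) (2+t) ((2+t) q - t)
    have hid : q * (1 - q) * (2 + t) * ((2 + t) * q - t) ≤ (h - q) * D := by
      have : q * (1 - q) * (2 + t) * ((2 + t) * q - t) = 4 * (1 + t) * q ^ 2 - q * D := by
        rw [hD]; ring
      rw [this]; nlinarith
    have hx : 0 < (2 + t) * q - t := by linarith
    -- multiply
    have hfin : ((2 + t) * q - t) * D ≤ (L * ((2 + t) * (h - q))) * D := by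
      have s1 : ((2 + t) * q - t) * D ≤ ((2 + t) * q - t) * (L * (2 + t) ^ 2 * (q * (1 - q))) :=
        mul_le_mul_of_nonneg_left hq hx.le
      have s2 : L * (2 + t) * (q * (1 - q) * (2 + t) * ((2 + t) * q - t)) ≤
          L * (2 + t) * ((h - q) * D) :=
        mul_le_mul_of_nonneg_left hid (mul_nonneg hL (by linarith))
      nlinarith
    exact le_of_mul_le_mul_right hfin hDpos

/-- Step 2 (QL), `t ≤ 1/3`, `Lam = 13/10`. -/
theorem step2a {t q h : ℝ} (ht0 : 0 < t) (ht : t ≤ 1 / 3) (hq0 : 0 ≤ q) (hq : q ≤ 1 / 2)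
    (hqh : q ≤ h)
    (sp : 4 * (1 + t) * q ^ 2 * (1 - h) ≤ t * h * (1 - q) * (2 + t - t * q)) :
    (2 + t) * q - t ≤ 13 / 10 * ((2 + t) * (h - q)) := by
  refine ql_of ht0 hq0 (by linarith) hqh (by norm_num) sp ?_
  intro hc
  have h1 : 0 ≤ ((2 + t) * q - t) * (1 / 2 - q) := mul_nonneg (by linarith) (by linarith)
  nlinarith [mul_nonneg ht0.le h1, mul_nonneg (mul_nonneg ht0.le ht0.le) hq0,
    mul_nonneg (sub_nonneg.2 ht) ht0.le, mul_nonneg (sub_nonneg.2 ht) hq0]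

/-- Step 2 (QL), `t ≥ 1/3`, `Lam = 33/20`. -/
theorem step2b {t q h : ℝ} (ht0 : 1 / 3 ≤ t) (ht : t ≤ 1) (hq0 : 0 ≤ q) (hq : q ≤ 14 / 25)
    (hqh : q ≤ h)
    (sp : 4 * (1 + t) * q ^ 2 * (1 - h) ≤ t * h * (1 - q) * (2 + t - t * q)) :
    (2 + t) * q - t ≤ 33 / 20 * ((2 + t) * (h - q)) := by
  refine ql_of (by linarith) hq0 (by linarith) hqh (by norm_num) sp ?_
  intro hc
  have h1 : 0 ≤ ((2 + t) * q - t) * (14 / 25 - q) := mul_nonneg (by linarith) (by linarith)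
  have ht' : (0 : ℝ) ≤ t := by linarith
  nlinarith [mul_nonneg ht' h1, mul_nonneg (sub_nonneg.2 ht) ht', mul_nonneg (sub_nonneg.2 ht) hq0,
    mul_nonneg (sub_nonneg.2 ht0) (sub_nonneg.2 ht)]

/-- Step 3 (HL), `t ≤ 1/3`, `Lam = 13/10`. -/
theorem step3a {t q h : ℝ} (ht0 : 0 < t) (ht : t ≤ 1 / 3) (hq0 : 0 ≤ q) (hq : q ≤ 1 / 2)
    (hh1 : h ≤ 1) :
    4 * (2 + t) * (13 / 10 * q) ≤ (12 + 5 * t) * (2 - h - q) := by
  nlinarith [mul_nonneg ht0.le hq0, mul_nonneg ht0.le (sub_nonneg.2 hq)]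

/-- Step 3 (HL), `t ≥ 1/3`, `Lam = 33/20`. -/
theorem step3b {t q h g : ℝ} (ht0 : 1 / 3 ≤ t) (ht1 : t ≤ 1) (hq0 : 0 ≤ q) (hq : q ≤ 14 / 25)
    (hg : (t ≤ 3 / 7 ∧ 9 / 50 ≤ g) ∨ (t ≤ 1 / 2 ∧ 1 / 5 ≤ g) ∨ (t ≤ 3 / 4 ∧ 11 / 50 ≤ g) ∨
      1 / 4 ≤ g)
    (rf : h + (t + (1 + t) * g) * q ≤ (1 + t) * (1 - g)) :
    4 * (2 + t) * (33 / 20 * q) ≤ (12 + 5 * t) * (2 - h - q) := by
  have key : ∀ g0 : ℝ, g0 ≤ g →
      h ≤ (1 + t) * (1 - g0) - (t + (1 + t) * g0) * q := by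
    intro g0 hgg
    have h1 : (1 + t) * g0 ≤ (1 + t) * g := mul_le_mul_of_nonneg_left hgg (by linarith)
    nlinarith [mul_le_mul_of_nonneg_right h1 hq0]
  have hx : ∀ h' : ℝ, h ≤ h' → (12 + 5 * t) * (2 - h' - q) ≤ (12 + 5 * t) * (2 - h - q) := by
    intro h' hh'
    apply mul_le_mul_of_nonneg_left (by linarith) (by linarith)
  rcases hg with ⟨ht, hg⟩ | ⟨ht, hg⟩ | ⟨ht, hg⟩ | hg
  · refine le_trans ?_ (hx _ (key _ hg))
    nlinarith [mul_nonneg (sub_nonneg.2 ht0) (sub_nonneg.2 ht), mul_nonneg hq0 (sub_nonneg.2 ht0),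
      mul_nonneg (sub_nonneg.2 hq) (sub_nonneg.2 ht0), mul_nonneg (sub_nonneg.2 hq)
      (sub_nonneg.2 ht)]
  · refine le_trans ?_ (hx _ (key _ hg))
    nlinarith [mul_nonneg (sub_nonneg.2 ht0) (sub_nonneg.2 ht), mul_nonneg hq0 (sub_nonneg.2 ht0),
      mul_nonneg (sub_nonneg.2 hq) (sub_nonneg.2 ht0), mul_nonneg (sub_nonneg.2 hq)
      (sub_nonneg.2 ht)]
  · refine le_trans ?_ (hx _ (key _ hg))
    nlinarith [mul_nonneg (sub_nonneg.2 ht0) (sub_nonneg.2 ht), mul_nonneg hq0 (sub_nonneg.2 ht0),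
      mul_nonneg (sub_nonneg.2 hq) (sub_nonneg.2 ht0), mul_nonneg (sub_nonneg.2 hq)
      (sub_nonneg.2 ht)]
  · refine le_trans ?_ (hx _ (key _ hg))
    nlinarith [mul_nonneg (sub_nonneg.2 ht0) (sub_nonneg.2 ht1), mul_nonneg hq0 (sub_nonneg.2 ht0),
      mul_nonneg (sub_nonneg.2 hq) (sub_nonneg.2 ht0), mul_nonneg (sub_nonneg.2 hq)
      (sub_nonneg.2 ht1)]

/-- `r = 0` is the worst case of the two-level inequality (SP), with
`b = t / 4`, `A = t / (4 (1 + t))`. -/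
theorem sp0_of_sp {t q r h : ℝ} (ht0 : 0 < t) (hq0 : 0 ≤ q) (hqh : q ≤ h) (hr0 : 0 ≤ r)
    (hrh : r ≤ 1 - h)
    (sp : q ^ 2 / h + r ^ 2 / (1 - h) ≤
      (q - r) ^ 2 + t / 4 * (1 - q + r) ^ 2 + t / (4 * (1 + t)) * (1 - (q - r) ^ 2) -
        4 * (t / 4) * r) :
    4 * (1 + t) * q ^ 2 * (1 - h) ≤ t * h * (1 - q) * (2 + t - t * q) := by
  have hh0 : 0 ≤ h := le_trans hq0 hqh
  rcases hh0.eq_or_lt with h0 | h0
  · have hq : q = 0 := le_antisymm (by rw [h0]; exact hqh) hq0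
    rw [← h0, hq]; norm_num
  have h1 : r ^ 2 ≤ r ^ 2 / (1 - h) := by
    rcases (sub_nonneg.2 (by linarith : h ≤ 1)).eq_or_lt with e | e
    · have hr : r = 0 := le_antisymm (by rw [← e] at hrh; exact hrh) hr0
      rw [hr]; norm_num
    · rw [le_div_iff₀ e]
      have : 0 ≤ r ^ 2 := sq_nonneg r
      nlinarith
  obtain ⟨A, hA⟩ : ∃ A : ℝ, A = t / (4 * (1 + t)) := ⟨_, rfl⟩
  have hA0 : 0 ≤ A := by rw [hA]; positivity
  have hA1 : A ≤ 1 := by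
    rw [hA, div_le_one (by positivity)]; linarith
  have hAt : A * (4 * (1 + t)) = t := by
    rw [hA]; field_simp
  rw [← hA] at sp
  have h2 : q ^ 2 / h ≤ q ^ 2 + t / 4 * (1 - q) ^ 2 + A * (1 - q ^ 2) := by
    have h3 : 0 ≤ r * (2 * q * (1 - A) + A * r + t / 4 * (2 + 2 * q - r)) := by
      apply mul_nonneg hr0
      have a1 : 0 ≤ q * (1 - A) := mul_nonneg hq0 (by linarith)
      have a2 : 0 ≤ A * r := mul_nonneg hA0 hr0
      have a3 : 0 ≤ t / 4 * (2 + 2 * q - r) := mul_nonneg (by linarith) (by linarith)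
      linarith
    nlinarith
  rw [div_le_iff₀ h0] at h2
  have h4 : q ^ 2 * (4 * (1 + t)) ≤
      (q ^ 2 + t / 4 * (1 - q) ^ 2 + A * (1 - q ^ 2)) * h * (4 * (1 + t)) :=
    mul_le_mul_of_nonneg_right h2 (by linarith)
  have h5 : (q ^ 2 + t / 4 * (1 - q) ^ 2 + A * (1 - q ^ 2)) * h * (4 * (1 + t)) =
      (4 * (1 + t) * q ^ 2 + (1 - q) * t * (2 + t - t * q)) * h := by
    calc (q ^ 2 + t / 4 * (1 - q) ^ 2 + A * (1 - q ^ 2)) * h * (4 * (1 + t))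
        = (q ^ 2 * (4 * (1 + t)) + t * (1 + t) * (1 - q) ^ 2 +
          (A * (4 * (1 + t))) * (1 - q ^ 2)) * h := by ring
      _ = (q ^ 2 * (4 * (1 + t)) + t * (1 + t) * (1 - q) ^ 2 + t * (1 - q ^ 2)) * h := by
          rw [hAt]
      _ = _ := by ring
  rw [h5] at h4
  nlinarith

/-- `r = 0` is the worst case of the R-flow (RF), with `u = t / (1 + t)`. -/
theorem rf0_of_rf {t q r h g : ℝ} (ht0 : 0 < t) (hr0 : 0 ≤ r) (hg : g ≤ 1)
    (rf : g * (1 + q - r) ≤ (1 - h - r) + t / (1 + t) * (h - q)) :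
    h + (t + (1 + t) * g) * q ≤ (1 + t) * (1 - g) := by
  have ht : 0 < 1 + t := by linarith
  have h1 : g * (1 + q - r) * (1 + t) ≤ ((1 - h - r) + t / (1 + t) * (h - q)) * (1 + t) :=
    mul_le_mul_of_nonneg_right rf ht.le
  have h2 : ((1 - h - r) + t / (1 + t) * (h - q)) * (1 + t) =
      (1 - h - r) * (1 + t) + t * (h - q) := by
    field_simp
  rw [h2] at h1
  have h3 : 0 ≤ (1 + t) * (r * (1 - g)) :=
    mul_nonneg ht.le (mul_nonneg hr0 (by linarith))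
  nlinarith

/-- All scalar conclusions, `t ≤ 1/3` (`tau = t / (2 + t)`, `Lam = 13/10`). -/
theorem scal_small {t q r h g : ℝ} (ht0 : 0 < t) (ht : t ≤ 1 / 3) (hq0 : 0 ≤ q) (hqh : q ≤ h)
    (hr0 : 0 ≤ r) (hrh : r ≤ 1 - h) (hg1 : g ≤ 1) (hg : t / (1 + t) ≤ g)
    (sp : q ^ 2 / h + r ^ 2 / (1 - h) ≤
      (q - r) ^ 2 + t / 4 * (1 - q + r) ^ 2 + t / (4 * (1 + t)) * (1 - (q - r) ^ 2) -
        4 * (t / 4) * r)
    (rf : g * (1 + q - r) ≤ (1 - h - r) + t / (1 + t) * (h - q)) :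
    q ≤ 1 / 2 ∧ q - t / (2 + t) ≤ 13 / 10 * (h - q) ∧
      13 / 10 * q ≤ 3 / 2 * (1 - t / (2 + t) / 6) * (2 - h - q) := by
  have sp0 := sp0_of_sp ht0 hq0 hqh hr0 hrh sp
  have rf0 := rf0_of_rf ht0 hr0 hg1 rf
  have hh1 : h ≤ 1 := by linarith
  have hg' : t ≤ (1 + t) * g := by
    rw [div_le_iff₀ (by linarith)] at hg; linarith
  have s1 := step1a ht0 (by linarith) hqh hh1 hg' sp0 rf0
  have h2t : 0 < 2 + t := by linarith
  refine ⟨s1, ?_, ?_⟩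
  · have s2 := step2a ht0 ht hq0 s1 hqh sp0
    have e : q - t / (2 + t) = ((2 + t) * q - t) / (2 + t) := by field_simp
    rw [e, div_le_iff₀ h2t]; linarith
  · have s3 := step3a ht0 ht hq0 s1 hh1
    have e : 3 / 2 * (1 - t / (2 + t) / 6) * (2 - h - q) =
        ((12 + 5 * t) * (2 - h - q)) / (4 * (2 + t)) := by field_simp; ring
    rw [e, le_div_iff₀ (by linarith)]; linarith

/-- All scalar conclusions, `1/3 ≤ t ≤ 1` (`tau = t / (2 + t)`, `Lam = 33/20`). -/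
theorem scal_big {t q r h g : ℝ} (ht0 : 1 / 3 ≤ t) (ht1 : t ≤ 1) (hq0 : 0 ≤ q) (hqh : q ≤ h)
    (hr0 : 0 ≤ r) (hrh : r ≤ 1 - h) (hg1 : g ≤ 1)
    (hg : (t ≤ 3 / 7 ∧ 9 / 50 ≤ g) ∨ (t ≤ 1 / 2 ∧ 1 / 5 ≤ g) ∨ (t ≤ 3 / 4 ∧ 11 / 50 ≤ g) ∨
      1 / 4 ≤ g)
    (sp : q ^ 2 / h + r ^ 2 / (1 - h) ≤
      (q - r) ^ 2 + t / 4 * (1 - q + r) ^ 2 + t / (4 * (1 + t)) * (1 - (q - r) ^ 2) -
        4 * (t / 4) * r)
    (rf : g * (1 + q - r) ≤ (1 - h - r) + t / (1 + t) * (h - q)) :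
    q ≤ 14 / 25 ∧ q - t / (2 + t) ≤ 33 / 20 * (h - q) ∧
      33 / 20 * q ≤ 3 / 2 * (1 - t / (2 + t) / 6) * (2 - h - q) := by
  have ht0' : 0 < t := by linarith
  have sp0 := sp0_of_sp ht0' hq0 hqh hr0 hrh sp
  have rf0 := rf0_of_rf ht0' hr0 hg1 rf
  have hh1 : h ≤ 1 := by linarith
  have s1 := step1b ht0 ht1 (by linarith) hqh hh1 hg sp0 rf0
  have h2t : 0 < 2 + t := by linarith
  refine ⟨s1, ?_, ?_⟩
  · have s2 := step2b ht0 ht1 hq0 s1 hqh sp0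
    have e : q - t / (2 + t) = ((2 + t) * q - t) / (2 + t) := by field_simp
    rw [e, div_le_iff₀ h2t]; linarith
  · have s3 := step3b ht0 ht1 hq0 s1 hg rf0
    have e : 3 / 2 * (1 - t / (2 + t) / 6) * (2 - h - q) =
        ((12 + 5 * t) * (2 - h - q)) / (4 * (2 + t)) := by field_simp; ring
    rw [e, le_div_iff₀ (by linarith)]; linarith

end Pool.Agent.Work.MP_9999b5_sp.Scal9
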