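import Mathlib

/-!
MP_9999b5_co (Manickam-Miklos-Singhi): the scalar inequalities. `s = T/(2k+T)`, `q` = probability that both sums are `≤ 0`, `h` = probability
that the union has sum `≤ 0`, `r` = probability that both sums are positive, `f` = lower bound for the fraction of light `T`-subsets of a
set of `k + T` elements.
-/

set_option autoImplicit false

namespace Pool.Agent.Work.MP_9999b5_sp

/-- `(B1)` and the R-flow for `f = T/(k+T)`: `q ≤ 1/2` -/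
theorem SC_small_q (s q h r : ℝ) (hs : 0 < s) (hs7 : 7 * s ≤ 1) (hq : 0 ≤ q) (hqh : q ≤ h)
    (hh : h ≤ 1) (hr : 0 ≤ r)
    (hB : q ^ 2 * (1 - s ^ 2) ≤ h * (q ^ 2 - s * (1 + s) * q + s))
    (hR : 2 * s * (1 + q - r) ≤ (1 + s) * (1 - h - r) + 2 * s * (h - q)) :
    2 * q ≤ 1 := by
  by_contra hcon
  push Not at hcon
  have hq1 : q ≤ 1 := hqh.trans hh
  -- `4 s q ≤ (1-s) l`
  have h1 : 4 * s * q ≤ (1 - s) * (1 - h) := by nlinarith
  -- from (B1): `l (q² (1-s²) + s (1-q)(1-sq)) ≤ s (1-q)(1-sq)`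
  have h2 : (1 - h) * (q ^ 2 - s * (1 + s) * q + s) ≤ s * (1 - q) * (1 - s * q) := by nlinarith
  have hD : 0 < q ^ 2 - s * (1 + s) * q + s := by nlinarith [sq_nonneg (q - s), mul_pos hs hs]
  have h3 : 4 * s * q * (q ^ 2 - s * (1 + s) * q + s) ≤ (1 - s) * (s * (1 - q) * (1 - s * q)) := by
    calc 4 * s * q * (q ^ 2 - s * (1 + s) * q + s)
        ≤ (1 - s) * (1 - h) * (q ^ 2 - s * (1 + s) * q + s) :=
          mul_le_mul_of_nonneg_right h1 hD.le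
      _ = (1 - s) * ((1 - h) * (q ^ 2 - s * (1 + s) * q + s)) := by ring
      _ ≤ (1 - s) * (s * (1 - q) * (1 - s * q)) :=
          mul_le_mul_of_nonneg_left h2 (by linarith)
  have h4 : 4 * q * (q ^ 2 - s * (1 + s) * q + s) ≤ (1 - s) * ((1 - q) * (1 - s * q)) := by
    have : s * (4 * q * (q ^ 2 - s * (1 + s) * q + s)) ≤ s * ((1 - s) * ((1 - q) * (1 - s * q))) := by
      nlinarith
    exact le_of_mul_le_mul_left this hs
  -- the left side is more than `1/2`, the right side less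
  have h5 : (1 - s) * ((1 - q) * (1 - s * q)) < 1 / 2 := by
    have a1 : (1 - q) * (1 - s * q) ≤ (1 - q) := by
      nlinarith [mul_nonneg hs.le hq]
    have a2 : (1 - s) * ((1 - q) * (1 - s * q)) ≤ 1 * (1 - q) := by
      have : 0 ≤ (1 - q) * (1 - s * q) := mul_nonneg (by linarith) (by nlinarith)
      nlinarith
    linarith
  have h6 : 1 / 2 ≤ 4 * q * (q ^ 2 - s * (1 + s) * q + s) := by
    have a1 : 1 / 4 ≤ q ^ 2 - s * (1 + s) * q + s := by nlinarith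
    nlinarith
  linarith

/-- `t ≤ 1/3`: the two local inequalities with `Λ = 4/3` -/
theorem SC_small (s q h r : ℝ) (hs : 0 < s) (hs7 : 7 * s ≤ 1) (hq : 0 ≤ q) (hqh : q ≤ h)
    (hh : h ≤ 1) (hr : 0 ≤ r)
    (hB : q ^ 2 * (1 - s ^ 2) ≤ h * (q ^ 2 - s * (1 + s) * q + s))
    (hR : 2 * s * (1 + q - r) ≤ (1 + s) * (1 - h - r) + 2 * s * (h - q)) :
    2 * q ≤ 1 ∧ 3 * (q - s) ≤ 4 * (h - q) ∧ 4 / 3 * q ≤ (3 / 2 - s / 4) * (2 - h - q) := by
  have hq2 := SC_small_q s q h r hs hs7 hq hqh hh hr hB hR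
  refine ⟨hq2, ?_, ?_⟩
  · rcases le_total q s with hqs | hqs
    · linarith
    · have hD : 0 < q ^ 2 - s * (1 + s) * q + s := by nlinarith [sq_nonneg (q - s), mul_pos hs hs]
      have hid : 4 * (q ^ 2 * (1 - s ^ 2)) - (7 * q - 3 * s) * (q ^ 2 - s * (1 + s) * q + s) =
          (q - s) * (-(7 * q ^ 2 - (4 + 3 * s + 3 * s ^ 2) * q + 3 * s)) := by ring
      have hneg : 7 * q ^ 2 - (4 + 3 * s + 3 * s ^ 2) * q + 3 * s ≤ 0 := by
        nlinarith [mul_nonneg (sub_nonneg.2 hqs) (sub_nonneg.2 hq2)]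
      have h1 : (7 * q - 3 * s) * (q ^ 2 - s * (1 + s) * q + s) ≤
          4 * h * (q ^ 2 - s * (1 + s) * q + s) := by
        have := mul_nonneg (sub_nonneg.2 hqs) (neg_nonneg.2 hneg)
        nlinarith
      have h2 := le_of_mul_le_mul_right h1 hD
      linarith
  · have : 0 ≤ (1 - h) * (3 / 2 - s / 4) := mul_nonneg (by linarith) (by linarith)
    nlinarith

/-- `(B1)` and the R-flow with a number `f`: `q ≤ 5/9` -/
theorem SC_gen_q (s q h r f : ℝ) (hs : 0 < s) (hs3 : 3 * s ≤ 1) (hq : 0 ≤ q) (hqh : q ≤ h)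
    (hh : h ≤ 1) (hr : 0 ≤ r) (hf : 0 ≤ f) (hf1 : f ≤ 1)
    (hB : q ^ 2 * (1 - s ^ 2) ≤ h * (q ^ 2 - s * (1 + s) * q + s))
    (hR : f * (1 + s) * (1 + q - r) ≤ (1 + s) * (1 - h - r) + 2 * s * (h - q))
    (hC : 36 * s * (9 - 5 * s) * (1 - s) < (14 * (f * (1 + s)) - 8 * s) * (25 + 36 * s - 45 * s ^ 2)) :
    9 * q ≤ 5 := by
  by_contra hcon
  push Not at hcon
  have hq1 : q ≤ 1 := hqh.trans hh
  have hs1 : 0 < 1 - s := by linarith
  have hfs : 0 ≤ f * (1 + s) := mul_nonneg hf (by linarith)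
  -- the R-flow
  have hrf : f * (1 + s) * r ≤ (1 + s) * r := by
    have : f * ((1 + s) * r) ≤ 1 * ((1 + s) * r) :=
      mul_le_mul_of_nonneg_right hf1 (mul_nonneg (by linarith) hr)
    linarith
  have h1 : f * (1 + s) * (1 + q) ≤ (1 - s) * (1 - h) + 2 * s * (1 - q) := by nlinarith
  have h2 : 14 * (f * (1 + s)) - 8 * s ≤ 9 * (1 - s) * (1 - h) := by
    have a1 : f * (1 + s) * (14 / 9) ≤ f * (1 + s) * (1 + q) :=
      mul_le_mul_of_nonneg_left (by linarith) hfs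
    have a2 : 2 * s * (1 - q) ≤ 2 * s * (4 / 9) :=
      mul_le_mul_of_nonneg_left (by linarith) (by linarith)
    linarith
  -- (B1)
  have h3 : (1 - h) * (q ^ 2 * (1 - s ^ 2)) ≤ h * (s * ((1 - q) * (1 - s * q))) := by nlinarith
  have h4 : (1 - h) * (25 / 81 * (1 - s ^ 2)) ≤ h * (s * (4 / 9 * (1 - s * (5 / 9)))) := by
    have b1 : 25 / 81 * (1 - s ^ 2) ≤ q ^ 2 * (1 - s ^ 2) :=
      mul_le_mul_of_nonneg_right (by nlinarith) (by nlinarith)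
    have b2 : (1 - q) * (1 - s * q) ≤ 4 / 9 * (1 - s * (5 / 9)) := by
      have c1 : (1 - q) * (1 - s * q) ≤ (1 - q) * (1 - s * (5 / 9)) :=
        mul_le_mul_of_nonneg_left (by nlinarith) (by linarith)
      have c2 : (1 - q) * (1 - s * (5 / 9)) ≤ 4 / 9 * (1 - s * (5 / 9)) :=
        mul_le_mul_of_nonneg_right (by linarith) (by linarith)
      linarith
    calc (1 - h) * (25 / 81 * (1 - s ^ 2)) ≤ (1 - h) * (q ^ 2 * (1 - s ^ 2)) :=
          mul_le_mul_of_nonneg_left b1 (by linarith)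
      _ ≤ h * (s * ((1 - q) * (1 - s * q))) := h3
      _ ≤ h * (s * (4 / 9 * (1 - s * (5 / 9)))) :=
          mul_le_mul_of_nonneg_left (mul_le_mul_of_nonneg_left b2 hs.le) (hq.trans hqh)
  have h5 : (1 - h) * (25 + 36 * s - 45 * s ^ 2) ≤ 4 * s * (9 - 5 * s) := by nlinarith
  have hpos : 0 < 25 + 36 * s - 45 * s ^ 2 := by nlinarith
  have h6 : (14 * (f * (1 + s)) - 8 * s) * (25 + 36 * s - 45 * s ^ 2) ≤
      36 * s * (9 - 5 * s) * (1 - s) := by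
    calc (14 * (f * (1 + s)) - 8 * s) * (25 + 36 * s - 45 * s ^ 2)
        ≤ 9 * (1 - s) * (1 - h) * (25 + 36 * s - 45 * s ^ 2) :=
          mul_le_mul_of_nonneg_right h2 hpos.le
      _ = 9 * (1 - s) * ((1 - h) * (25 + 36 * s - 45 * s ^ 2)) := by ring
      _ ≤ 9 * (1 - s) * (4 * s * (9 - 5 * s)) :=
          mul_le_mul_of_nonneg_left h5 (by linarith)
      _ = 36 * s * (9 - 5 * s) * (1 - s) := by ring
  linarith

/-- the two local inequalities with `Λ = 5/3`, for a number `f` -/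
theorem SC_gen (s q h r f : ℝ) (hs : 0 < s) (hs3 : 3 * s ≤ 1) (hq : 0 ≤ q) (hqh : q ≤ h)
    (hh : h ≤ 1) (hr : 0 ≤ r) (hf : 0 ≤ f) (hf1 : f ≤ 1)
    (hB : q ^ 2 * (1 - s ^ 2) ≤ h * (q ^ 2 - s * (1 + s) * q + s))
    (hR : f * (1 + s) * (1 + q - r) ≤ (1 + s) * (1 - h - r) + 2 * s * (h - q))
    (hC : 36 * s * (9 - 5 * s) * (1 - s) < (14 * (f * (1 + s)) - 8 * s) * (25 + 36 * s - 45 * s ^ 2))
    (hC2 : 100 * (1 - s) ≤ 3 * (6 - s) * (4 - 12 * s + 14 * (f * (1 + s)))) :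
    9 * q ≤ 5 ∧ 3 * (q - s) ≤ 5 * (h - q) ∧ 5 / 3 * q ≤ (3 / 2 - s / 4) * (2 - h - q) := by
  have hq5 := SC_gen_q s q h r f hs hs3 hq hqh hh hr hf hf1 hB hR hC
  have hs1 : 0 < 1 - s := by linarith
  have hfs : 0 ≤ f * (1 + s) := mul_nonneg hf (by linarith)
  refine ⟨hq5, ?_, ?_⟩
  · rcases le_total q s with hqs | hqs
    · linarith
    · have hD : 0 < q ^ 2 - s * (1 + s) * q + s := by nlinarith [sq_nonneg (q - s), mul_pos hs hs]
      have hneg : 8 * q ^ 2 - (5 + 3 * s + 3 * s ^ 2) * q + 3 * s ≤ 0 := by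
        -- convex in `q`, at `q = s` and `q = 5/9`
        have e1 : 8 * s ^ 2 - (5 + 3 * s + 3 * s ^ 2) * s + 3 * s ≤ 0 := by
          have : 8 * s ^ 2 - (5 + 3 * s + 3 * s ^ 2) * s + 3 * s =
              -(s * ((1 - s) * (2 - 3 * s))) := by ring
          rw [this]
          have := mul_nonneg hs.le (mul_nonneg hs1.le (by linarith : (0 : ℝ) ≤ 2 - 3 * s))
          linarith
        have e2 : 8 * (5 / 9 : ℝ) ^ 2 - (5 + 3 * s + 3 * s ^ 2) * (5 / 9) + 3 * s ≤ 0 := by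
          nlinarith
        -- interpolation
        have hd : 0 < 5 / 9 - s := by linarith
        have hmul : (5 / 9 - s) * (8 * q ^ 2 - (5 + 3 * s + 3 * s ^ 2) * q + 3 * s) =
            (5 / 9 - q) * (8 * s ^ 2 - (5 + 3 * s + 3 * s ^ 2) * s + 3 * s) +
            (q - s) * (8 * (5 / 9 : ℝ) ^ 2 - (5 + 3 * s + 3 * s ^ 2) * (5 / 9) + 3 * s) -
            8 * ((5 / 9 - s) * ((5 / 9 - q) * (q - s))) := by ring
        have g1 : (5 / 9 - q) * (8 * s ^ 2 - (5 + 3 * s + 3 * s ^ 2) * s + 3 * s) ≤ 0 :=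
          mul_nonpos_of_nonneg_of_nonpos (by linarith) e1
        have g2 : (q - s) * (8 * (5 / 9 : ℝ) ^ 2 - (5 + 3 * s + 3 * s ^ 2) * (5 / 9) + 3 * s) ≤ 0 :=
          mul_nonpos_of_nonneg_of_nonpos (by linarith) e2
        have g3 : 0 ≤ (5 / 9 - s) * ((5 / 9 - q) * (q - s)) :=
          mul_nonneg hd.le (mul_nonneg (by linarith) (by linarith))
        by_contra hcon
        push Not at hcon
        have := mul_pos hd hcon
        linarith
      have h1 : (8 * q - 3 * s) * (q ^ 2 - s * (1 + s) * q + s) ≤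
          5 * h * (q ^ 2 - s * (1 + s) * q + s) := by
        have hp := mul_nonneg (sub_nonneg.2 hqs) (neg_nonneg.2 hneg)
        have hid : 5 * (q ^ 2 * (1 - s ^ 2)) - (8 * q - 3 * s) * (q ^ 2 - s * (1 + s) * q + s) =
            (q - s) * (-(8 * q ^ 2 - (5 + 3 * s + 3 * s ^ 2) * q + 3 * s)) := by ring
        linarith
      have h2 := le_of_mul_le_mul_right h1 hD
      linarith
  · -- linear in `q`
    have hrf : f * (1 + s) * r ≤ (1 + s) * r := by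
      have : f * ((1 + s) * r) ≤ 1 * ((1 + s) * r) :=
        mul_le_mul_of_nonneg_right hf1 (mul_nonneg (by linarith) hr)
      linarith
    have h1 : f * (1 + s) * (1 + q) ≤ (1 - s) * (1 - h) + 2 * s * (1 - q) := by nlinarith
    have hth : 0 < 3 / 2 - s / 4 := by linarith
    -- `(1-s) θ (2-h-q) ≥ θ ((1-3s)(1-q) + f(1+s)(1+q))`
    have h2 : (1 - 3 * s) * (1 - q) + f * (1 + s) * (1 + q) ≤ (1 - s) * (2 - h - q) := by linarith
    have h3 : (3 / 2 - s / 4) * ((1 - 3 * s) * (1 - q) + f * (1 + s) * (1 + q)) ≤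
        (3 / 2 - s / 4) * ((1 - s) * (2 - h - q)) := mul_le_mul_of_nonneg_left h2 hth.le
    have h4 : 5 / 3 * q * (1 - s) ≤
        (3 / 2 - s / 4) * ((1 - 3 * s) * (1 - q) + f * (1 + s) * (1 + q)) := by
      have v0 : 0 ≤ (3 / 2 - s / 4) * ((1 - 3 * s) + f * (1 + s)) :=
        mul_nonneg hth.le (add_nonneg (by linarith) hfs)
      have v1 : 0 ≤ (3 / 2 - s / 4) * ((1 - 3 * s) * (4 / 9) + f * (1 + s) * (14 / 9)) -
          25 / 27 * (1 - s) := by linarith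
      have i1 : 0 ≤ (1 - 9 * q / 5) *
          ((3 / 2 - s / 4) * ((1 - 3 * s) + f * (1 + s))) := mul_nonneg (by linarith) v0
      have i2 : 0 ≤ (9 * q / 5) *
          ((3 / 2 - s / 4) * ((1 - 3 * s) * (4 / 9) + f * (1 + s) * (14 / 9)) -
          25 / 27 * (1 - s)) := mul_nonneg (by linarith) v1
      linarith
    have h5 : (1 - s) * (5 / 3 * q) ≤ (1 - s) * ((3 / 2 - s / 4) * (2 - h - q)) := by linarith
    exact le_of_mul_le_mul_left h5 hs1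

/-- the four ranges -/
theorem SC_big (s q h r f : ℝ) (hs7 : 1 ≤ 7 * s) (hs3 : 3 * s ≤ 1)
    (hf : (f = 2 / 11 ∧ 17 * s ≤ 3) ∨ (f = 1 / 5 ∧ 3 ≤ 17 * s ∧ 5 * s ≤ 1) ∨
      (f = 2 / 9 ∧ 1 ≤ 5 * s ∧ 11 * s ≤ 3) ∨ (f = 1 / 4 ∧ 3 ≤ 11 * s))
    (hq : 0 ≤ q) (hqh : q ≤ h) (hh : h ≤ 1) (hr : 0 ≤ r)
    (hB : q ^ 2 * (1 - s ^ 2) ≤ h * (q ^ 2 - s * (1 + s) * q + s))
    (hR : f * (1 + s) * (1 + q - r) ≤ (1 + s) * (1 - h - r) + 2 * s * (h - q)) :
    9 * q ≤ 5 ∧ 3 * (q - s) ≤ 5 * (h - q) ∧ 5 / 3 * q ≤ (3 / 2 - s / 4) * (2 - h - q) := by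
  have hs : 0 < s := by linarith
  have hC : 36 * s * (9 - 5 * s) * (1 - s) <
      (14 * (f * (1 + s)) - 8 * s) * (25 + 36 * s - 45 * s ^ 2) := by
    rcases hf with ⟨rfl, h1⟩ | ⟨rfl, h1, h2⟩ | ⟨rfl, h1, h2⟩ | ⟨rfl, h1⟩
    · nlinarith [mul_nonneg (sub_nonneg.2 hs7) (sub_nonneg.2 h1),
        mul_nonneg (mul_nonneg (sub_nonneg.2 hs7) (sub_nonneg.2 h1)) hs.le]
    · nlinarith [mul_nonneg (sub_nonneg.2 h1) (sub_nonneg.2 h2),
        mul_nonneg (mul_nonneg (sub_nonneg.2 h1) (sub_nonneg.2 h2)) hs.le]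
    · nlinarith [mul_nonneg (sub_nonneg.2 h1) (sub_nonneg.2 h2),
        mul_nonneg (mul_nonneg (sub_nonneg.2 h1) (sub_nonneg.2 h2)) hs.le]
    · nlinarith [mul_nonneg (sub_nonneg.2 h1) (sub_nonneg.2 hs3),
        mul_nonneg (mul_nonneg (sub_nonneg.2 h1) (sub_nonneg.2 hs3)) hs.le]
  have hC2 : 100 * (1 - s) ≤ 3 * (6 - s) * (4 - 12 * s + 14 * (f * (1 + s))) := by
    rcases hf with ⟨rfl, h1⟩ | ⟨rfl, h1, h2⟩ | ⟨rfl, h1, h2⟩ | ⟨rfl, h1⟩
    · nlinarith [mul_nonneg (sub_nonneg.2 hs7) (sub_nonneg.2 h1)]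
    · nlinarith [mul_nonneg (sub_nonneg.2 h1) (sub_nonneg.2 h2)]
    · nlinarith [mul_nonneg (sub_nonneg.2 h1) (sub_nonneg.2 h2)]
    · nlinarith [mul_nonneg (sub_nonneg.2 h1) (sub_nonneg.2 hs3)]
  have hf0 : 0 ≤ f ∧ f ≤ 1 := by
    rcases hf with ⟨rfl, _⟩ | ⟨rfl, _, _⟩ | ⟨rfl, _, _⟩ | ⟨rfl, _⟩ <;> norm_num
  exact SC_gen s q h r f hs hs3 hq hqh hh hr hf0.1 hf0.2 hB hR hC hC2

end Pool.Agent.Work.MP_9999b5_sp
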